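import Pool.Agent.Helper82.DK2.Defs

/-!
# The long trefoil in normal form and the twisted spin of it along a hypersurface

`h : ℝ × ℂ → ℂ` is a continuous function with `h (s, w) = w` for `1 ≤ s ^ 2 + |w| ^ 2` whose zero set
is a long trefoil. `h` comes from the function
`G2 z1 + G3 z2` on `ℂ²`, where `G2 (r e^{i a}) = r e^{i A2 a}`, `G3 (r e^{i b}) = r e^{i A3 b}` and
`A2`, `A3` are piecewise linear homeomorphisms of `ℝ` with `A2 (a + 2π) = A2 a + 4π`,
`A3 (b + 2π) = A3 b + 6π`, `A2 a = a` for `|a| ≤ π / 2`, `A3 b = b` for `|b - π| ≤ π / 2`;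
`(s, w) ↦ (z1, z2)` is (a positive multiple of) the inverse of the stereographic projection of the
three-sphere from the point `(1, -1)` of the knot.

Let `e : M × ℝ → Sph 5` be an open embedding and `τ : M → Circle`. The spun knot consists of the
points `(e (m, s), w)`, `(s, τ(m)⁻¹ w)` on the long trefoil, and `(y, 0)`, `y` not in the range
of `e`; here `Sph 5 × ℂ` is the open subset of `Sph 7` which is the complement of a circle.
-/

namespace Pool.Agent.Helper31.DS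

open Complex Set Pool.Agent.Helper82.DK2

noncomputable def G2 (z : ℂ) : ℂ := if 0 ≤ z.re then z else -(z ^ 3 / (‖z‖ : ℂ) ^ 2)

noncomputable def G3 (z : ℂ) : ℂ := if z.re ≤ 0 then z else z ^ 5 / (‖z‖ : ℂ) ^ 4

noncomputable def z1 (p : ℝ × ℂ) : ℂ :=
  ((p.1 ^ 2 + ‖p.2‖ ^ 2 - 1 : ℝ) : ℂ) + 2 * p.2 + 2 * I * (p.1 : ℂ)

noncomputable def z2 (p : ℝ × ℂ) : ℂ :=
  ((1 - p.1 ^ 2 - ‖p.2‖ ^ 2 : ℝ) : ℂ) + 2 * p.2 - 2 * I * (p.1 : ℂ)

/-- The long trefoil function. -/
noncomputable def h (p : ℝ × ℂ) : ℂ :=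
  (G2 (z1 (3 * p.1, 3 * p.2)) + G3 (z2 (3 * p.1, 3 * p.2))) / 12

/-- The model of the complement of the trefoil: `x ^ 2 - y ^ 3` has absolute value one. -/
def Zt : Set (ℂ × ℂ) := {p | ‖p.1 ^ 2 - p.2 ^ 3‖ = 1}

/-- The first six coordinates. -/
def prY (z : EuclideanSpace ℝ (Fin 8)) : EuclideanSpace ℝ (Fin 6) :=
  WithLp.toLp 2 fun i => z (Fin.castLE (by norm_num) i)

/-- The last two coordinates. -/
def prC (z : EuclideanSpace ℝ (Fin 8)) : ℂ := ⟨z 6, z 7⟩

/-- The point with the given coordinates. -/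
def jn (y : EuclideanSpace ℝ (Fin 6)) (w : ℂ) : EuclideanSpace ℝ (Fin 8) :=
  WithLp.toLp 2 ![y 0, y 1, y 2, y 3, y 4, y 5, w.re, w.im]

theorem norm_jn_sq (y : EuclideanSpace ℝ (Fin 6)) (w : ℂ) :
    ‖jn y w‖ ^ 2 = ‖y‖ ^ 2 + ‖w‖ ^ 2 := by
  rw [EuclideanSpace.norm_sq_eq, EuclideanSpace.norm_sq_eq, Complex.sq_norm, Complex.normSq_apply]
  simp [jn, Fin.sum_univ_succ]
  ring

/-- The open embedding of `Sph 5 × ℂ` in `Sph 7`. -/
noncomputable def J (p : Sph 5 × ℂ) : Sph 7 :=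
  ⟨(Real.sqrt (1 + ‖p.2‖ ^ 2))⁻¹ • jn p.1 p.2, by
    have h1 : ‖(p.1 : EuclideanSpace ℝ (Fin 6))‖ = 1 := mem_sphere_zero_iff_norm.1 p.1.2
    have h2 : ‖jn p.1 p.2‖ ^ 2 = 1 + ‖p.2‖ ^ 2 := by rw [norm_jn_sq, h1]; ring
    have h3 : (0 : ℝ) < 1 + ‖p.2‖ ^ 2 := by positivity
    rw [mem_sphere_zero_iff_norm, norm_smul, norm_inv, Real.norm_of_nonneg (Real.sqrt_nonneg _),
      ← h2, Real.sqrt_sq (norm_nonneg _), inv_mul_cancel₀]
    intro h0
    rw [h0] at h2
    nlinarith⟩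

section Spin

variable {M : Type*} (e : M × ℝ → Sph 5) (τ : M → Circle)

open Classical in
/-- The function on `Sph 5 × ℂ` which vanishes on the spun knot. -/
noncomputable def F0 (y : Sph 5) (w : ℂ) : ℂ :=
  if hy : y ∈ range e then
    (τ hy.choose.1 : ℂ) * h (hy.choose.2, (τ hy.choose.1 : ℂ)⁻¹ * w)
  else w

open Classical in
/-- The function on `Sph 7` which vanishes on the spun knot. -/
noncomputable def F (z : Sph 7) : ℂ :=
  if hz : z ∈ range J then
    ((Real.sqrt (1 + ‖hz.choose.2‖ ^ 2))⁻¹ : ℝ) * F0 e τ hz.choose.1 hz.choose.2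
  else prC z

open Classical in
/-- The spun knot as a map, `κ` is a parametrisation of the long trefoil. -/
noncomputable def spin (κ : ℝ → ℝ × ℂ) (y : Sph 5) : Sph 7 :=
  if hy : y ∈ range e then
    J (e (hy.choose.1, (κ hy.choose.2).1), (τ hy.choose.1 : ℂ) * (κ hy.choose.2).2)
  else J (y, 0)

open Classical in
/-- The map to the circle on the complement of the spun knot. -/
noncomputable def g (z : Sph 7) : Circle :=
  if hz : F e τ z = 0 then 1 else ⟨F e τ z / ‖F e τ z‖, by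
    refine mem_sphere_zero_iff_norm.2 ?_
    rw [norm_div, Complex.norm_real, norm_norm, div_self (norm_ne_zero_iff.2 hz)]⟩

end Spin

end Pool.Agent.Helper31.DS
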