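import Pool.Agent.Helper31.DS.O5
import Pool.Agent.Helper36.AS.Ball

/-!
# The standard classes of `ℝ^7` and `ℝ × ℝ^7`
-/

namespace Pool.Agent.Helper31.DS

open Set Filter Topology Pool.Agent.Helper36.AS

variable {k : Type*} [Field k]

theorem stm_supp (m : ℕ) (x : Fin m → ℝ) (hx : x ≠ 0) : LZat univ (m + 1) (stm k m) x := by
  induction m with
  | zero => exact absurd (Subsingleton.elim _ _) hx
  | succ m ih =>
    rw [stm_succ]
    refine LZat.pull (B := univ ×ˢ univ) (φ := fun x : Fin (m + 1) → ℝ => (x 0, Fin.tail x))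
      (lineC_LZat (mem_univ _) ?_) (split_left m).continuousWithinAt
      fun _ _ => ⟨mem_univ _, mem_univ _⟩
    by_cases h0 : x 0 = 0
    · refine Or.inr (ih _ fun h => hx ?_)
      have h1 := Fin.cons_self_tail x
      have h2 : Fin.tail x = 0 := h
      rw [← h1, h0, h2]
      funext i
      refine Fin.cases ?_ (fun j => ?_) i <;> simp
    · exact Or.inl h0

theorem isStd_stm (n : ℕ) : IsStd n (stm k (n + 1)) where
  coc := stm_mem _
  ncob := stm_notMem _
  gen := fun c hc => by
    obtain ⟨a, ha⟩ := ball_surj (cls c hc)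
    rw [cls_smul, cls_eq_iff] at ha
    exact ⟨a, ha⟩
  supp := fun x hx => stm_supp (n + 1) x hx

theorem smap_split (m : ℕ) : SMap IsCompact IsCompact (univ : Set (Fin (m + 1) → ℝ))
    (univ : Set (ℝ × (Fin m → ℝ))) fun x => (x 0, Fin.tail x) := by
  have := split_smap m
  rwa [univ_prod_univ] at this

theorem smap_cons (m : ℕ) : SMap IsCompact IsCompact (univ : Set (ℝ × (Fin m → ℝ)))
    (univ : Set (Fin (m + 1) → ℝ)) fun p => (Fin.cons p.1 p.2 : Fin (m + 1) → ℝ) :=
  SMap.of_homeo (ψ := fun x => (x 0, Fin.tail x)) (split_right m).continuousOn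
    (fun _ _ => mem_univ _) (split_left m).continuousOn (fun _ _ => mem_univ _)
    fun p _ => by simp

theorem isStd_line (n : ℕ) : IsStd (n + 1) (lineC (stm k (n + 1))) where
  coc := by
    have := lineC_mem (stm_mem (R := k) (n + 1))
    rwa [univ_prod_univ] at this
  ncob := fun h => by
    have h1 := (smap_split (n + 1)).pull_mem_coboundaries h
    rw [← stm_succ] at h1
    exact stm_notMem _ h1
  gen := fun c hc => by
    have h1 := (smap_split (n + 1)).pull_mem_cocycles hc
    obtain ⟨a, ha⟩ := (isStd_stm (k := k) (n + 1)).gen _ h1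
    refine ⟨a, ?_⟩
    have h2 := (smap_cons (n + 1)).pull_mem_coboundaries ha
    have h3 : ∀ f : List (ℝ × (Fin (n + 1) → ℝ)) → k,
        pull (fun p => (Fin.cons p.1 p.2 : Fin (n + 2) → ℝ))
          (pull (fun x : Fin (n + 2) → ℝ => (x 0, Fin.tail x)) f) = f := by
      intro f
      funext l
      simp only [pull, List.map_map]
      congr 1
      conv_rhs => rw [← List.map_id l]
      exact List.map_congr_left fun v _ => by simp
    rw [pull_sub, h3, stm_succ] at h2
    have h4 : pull (fun p => (Fin.cons p.1 p.2 : Fin (n + 2) → ℝ))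
          (a • pull (fun x : Fin (n + 2) → ℝ => (x 0, Fin.tail x)) (lineC (stm k (n + 1)))) =
        a • lineC (stm k (n + 1)) := by
      have h5 := h3 (lineC (stm k (n + 1)))
      funext l
      simp only [pull, Pi.smul_apply]
      have h6 := congrFun h5 l
      simp only [pull] at h6
      rw [h6]
    rwa [h4] at h2
  supp := fun x hx => by
    have h1 : x.1 ≠ 0 ∨ LZat univ (n + 1 + 1) (stm k (n + 1)) x.2 := by
      by_cases h0 : x.1 = 0
      · refine Or.inr (stm_supp _ _ fun h => hx (Prod.ext h0 h))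
      · exact Or.inl h0
    have := lineC_LZat (B := univ) (mem_univ x.2) h1
    rwa [univ_prod_univ] at this

theorem hline_std (n : ℕ) :
    cup 1 (d (step0 (V := Fin (n + 1) → ℝ))) (pull Prod.snd (stm k (n + 1))) ∉
      coboundaries k IsCompact (univ : Set (ℝ × (Fin (n + 1) → ℝ))) (n + 2) := by
  intro h
  apply (isStd_line (k := k) n).ncob
  have h1 : lineC (stm k (n + 1)) - cup 1 (d (step0 (V := Fin (n + 1) → ℝ)))
      (pull Prod.snd (stm k (n + 1))) ∈
      coboundaries k IsCompact (univ : Set (ℝ × (Fin (n + 1) → ℝ))) (n + 2) := by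
    refine LZ.mem_coboundaries fun x _ => LZat.of_eq_zero x fun l hl _ => ?_
    match l, hl with
    | a :: b :: l, _ =>
      have h2 : ∀ c : ℝ × (Fin (n + 1) → ℝ),
          (ind fun p : ℝ × (Fin (n + 1) → ℝ) => 0 < p.1 : List _ → k) [c] = step0 [c] := by
        intro c
        simp only [step0]
        by_cases hc : 0 < c.1
        · rw [ind_pos (P := fun p : ℝ × (Fin (n + 1) → ℝ) => 0 < p.1) hc, if_pos hc]
        · rw [ind_neg (P := fun p : ℝ × (Fin (n + 1) → ℝ) => 0 < p.1) hc, if_neg hc]
      rw [Pi.sub_apply]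
      simp only [lineC, cup, List.take_succ_cons, List.take_zero, d_cons, d_nil, h2]
      ring
  have := add_mem h1 h
  rwa [sub_add_cancel] at this

end Pool.Agent.Helper31.DS
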