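import Pool.Agent.Helper31.DS.O5
import Pool.Agent.Helper77.DS.FDefs
import Pool.Agent.Helper77.DS.FrA

/-!
# The cocycle of a map to the circle and of its inverse; transport of ball classes
-/

namespace Pool.Agent.Helper31.DS

open Set Filter Topology Complex Pool.Agent.Helper36.AS Pool.Agent.Helper77.DS

open Classical in
/-- the indicator function of the negative numbers, mod 2 -/
private noncomputable def ng (x : ℝ) : ZMod 2 := if x < 0 then 1 else 0

private theorem ng_mul {x y : ℝ} (hx : x ≠ 0) (hy : y ≠ 0) : ng (x * y) = ng x + ng y := by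
  unfold ng
  have h11 : (1 : ZMod 2) + 1 = 0 := by decide
  rcases lt_or_gt_of_ne hx with h1 | h1 <;> rcases lt_or_gt_of_ne hy with h2 | h2
  · rw [if_neg (not_lt.2 (mul_pos_of_neg_of_neg h1 h2).le), if_pos h1, if_pos h2, h11]
  · rw [if_pos (mul_neg_of_neg_of_pos h1 h2), if_pos h1, if_neg (not_lt.2 h2.le), add_zero]
  · rw [if_pos (mul_neg_of_pos_of_neg h1 h2), if_pos h2, if_neg (not_lt.2 h1.le), zero_add]
  · rw [if_neg (not_lt.2 (mul_pos h1 h2).le), if_neg (not_lt.2 h1.le), if_neg (not_lt.2 h2.le),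
      add_zero]

private theorem ng_congr {x y : ℝ} (h : 0 < x * y) : ng x = ng y := by
  have hx : x ≠ 0 := left_ne_zero_of_mul h.ne'
  have hy : y ≠ 0 := right_ne_zero_of_mul h.ne'
  have h1 := ng_mul hx hy
  have h2 : ng (x * y) = 0 := by
    unfold ng
    rw [if_neg (not_lt.2 h.le)]
  rw [h2] at h1
  have h3 : ∀ a b : ZMod 2, 0 = a + b → a = b := by decide
  exact h3 _ _ h1

private theorem d_two {V : Type*} (f : List V → ZMod 2) (p q : V) :
    d f [p, q] = f [q] - f [p] := by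
  rw [d_cons, d_cons, d_nil, sub_zero]

/-- The value of `k1` on a pair. -/
private theorem k1_pair (z w : Circle) : k1 [z, w] = ng ((rt z * (starRingEnd ℂ) (rt w)).re) := by
  have h : ∑ i, Ls z i * Ls w i = (rt z * (starRingEnd ℂ) (rt w)).re := by
    rw [Fin.sum_univ_two, Complex.mul_re]
    simp only [Ls, Complex.conj_re, Complex.conj_im, Matrix.cons_val_zero, Matrix.cons_val_one]
    ring
  unfold k1 ng
  rw [← h]
  rfl

/-- The square root of the power, `m = ± 1`. -/
private noncomputable def sq (m : ℤ) (z : Circle) : ℂ := if m = 1 then rt z else (starRingEnd ℂ) (rt z)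

private theorem sq_re {m : ℤ} (z w : Circle) :
    (sq m z * (starRingEnd ℂ) (sq m w)).re = (rt z * (starRingEnd ℂ) (rt w)).re ∧
    (sq m z * (starRingEnd ℂ) (sq m w)).im ^ 2 = (rt z * (starRingEnd ℂ) (rt w)).im ^ 2 := by
  unfold sq
  split_ifs
  · exact ⟨rfl, rfl⟩
  · simp only [Complex.conj_conj, Complex.mul_re, Complex.mul_im, Complex.conj_re, Complex.conj_im]
    constructor <;> ring

private theorem sq_sq {m : ℤ} (hm : m = 1 ∨ m = -1) (z : Circle) : sq m z ^ 2 = ((z ^ m : Circle) : ℂ) := by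
  unfold sq
  rcases hm with rfl | rfl
  · rw [if_pos rfl, rt_sq, zpow_one]
  · rw [if_neg (by norm_num), ← map_pow, rt_sq, zpow_neg_one, ← Circle.coe_inv_eq_conj]

private theorem sq_norm {m : ℤ} (z : Circle) : ‖sq m z‖ = 1 := by
  unfold sq
  split_ifs
  · exact rt_norm z
  · rw [Complex.norm_conj, rt_norm]

/-- **The classes of two maps to the circle which are homotopic up to inversion.** -/
theorem k1_cohom {V : Type*} [TopologicalSpace V] {S : Set V} {a b : V → Circle} {l : V → ℝ}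
    {m : ℤ} (hm : m = 1 ∨ m = -1) (ha : ContinuousOn a S) (hl : ContinuousOn l S)
    (h : ∀ p ∈ S, b p = a p ^ m * Circle.exp (l p)) :
    pull b k1 - pull a k1 ∈ coboundaries (ZMod 2) AllSupp S 1 := by
  -- the two square roots of `b`
  set s : V → ℂ := fun p => sq m (a p) * Complex.exp ((l p / 2 : ℝ) * I) with hs
  have hs2 : ∀ p ∈ S, s p ^ 2 = (b p : ℂ) := by
    intro p hp
    rw [h p hp, hs]
    simp only
    rw [mul_pow, sq_sq hm, Circle.coe_mul, Circle.coe_exp, ← Complex.exp_nat_mul]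
    congr 2
    push_cast
    ring
  have hsn : ∀ p, ‖s p‖ = 1 := by
    intro p
    rw [hs]
    simp only
    rw [norm_mul, sq_norm, Complex.norm_exp_ofReal_mul_I, one_mul]
  set ε : V → ℝ := fun p => (rt (b p) * (starRingEnd ℂ) (s p)).re with hε
  have hε1 : ∀ p ∈ S, (ε p = 1 ∨ ε p = -1) ∧ rt (b p) = ε p * s p := by
    intro p hp
    have h1 : (rt (b p) - s p) * (rt (b p) + s p) = 0 := by
      have := rt_sq (b p)
      have h2 := hs2 p hp
      linear_combination this - h2
    have h3 : s p * (starRingEnd ℂ) (s p) = 1 := by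
      rw [Complex.mul_conj, Complex.normSq_eq_norm_sq, hsn]; simp
    rcases mul_eq_zero.1 h1 with h2 | h2
    · have h4 : rt (b p) = s p := sub_eq_zero.1 h2
      have h5 : ε p = 1 := by
        rw [hε]; simp only; rw [h4, h3, Complex.one_re]
      exact ⟨Or.inl h5, by rw [h5, h4]; simp⟩
    · have h4 : rt (b p) = - s p := eq_neg_of_add_eq_zero_left h2
      have h5 : ε p = -1 := by
        rw [hε]; simp only; rw [h4, neg_mul, h3, Complex.neg_re, Complex.one_re]
      exact ⟨Or.inr h5, by rw [h5, h4]; simp⟩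
  classical
  set g : List V → ZMod 2 := fun k => match k with
    | p :: _ => ng (ε p)
    | [] => 0 with hg
  refine ⟨g, fun h => by omega, hasSupp_all _ _ _, fun p₀ hp₀ => ?_⟩
  -- near `p₀`
  have c1 : ContinuousWithinAt (fun p => (a p : ℂ)) S p₀ :=
    continuous_subtype_val.continuousAt.comp_continuousWithinAt (ha p₀ hp₀)
  have c2 := hl p₀ hp₀
  have n1 : ∀ᶠ p in 𝓝[S] p₀, ‖(a p : ℂ) - a p₀‖ < 1 / 8 := by
    have c3 : ContinuousWithinAt (fun p => ‖(a p : ℂ) - a p₀‖) S p₀ :=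
      (c1.sub continuousWithinAt_const).norm
    refine c3.eventually_lt_const ?_
    simp
  have n2 : ∀ᶠ p in 𝓝[S] p₀, |l p - l p₀| < 1 / 4 := by
    have c3 : ContinuousWithinAt (fun p => |l p - l p₀|) S p₀ :=
      (c2.sub continuousWithinAt_const).abs
    refine c3.eventually_lt_const ?_
    simp
  obtain ⟨U, hU, hUS⟩ := mem_nhdsWithin_iff_exists_mem_nhds_inter.1 (n1.and n2)
  refine ⟨U, hU, fun k hk hk' => ?_⟩
  match k, hk with
  | [p, q], _ =>
    have hp := hk' p (by simp)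
    have hq := hk' q (by simp)
    obtain ⟨p1, p2⟩ := hUS hp
    obtain ⟨q1, q2⟩ := hUS hq
    rw [Pi.sub_apply, Pi.sub_apply, d_two]
    simp only [pull, List.map_cons, List.map_nil, hg, k1_pair]
    obtain ⟨e1, e2⟩ := hε1 p hp.2
    obtain ⟨f1, f2⟩ := hε1 q hq.2
    have hεp : ε p ≠ 0 := by rcases e1 with h | h <;> rw [h] <;> norm_num
    have hεq : ε q ≠ 0 := by rcases f1 with h | h <;> rw [h] <;> norm_num
    set W : ℂ := rt (a p) * (starRingEnd ℂ) (rt (a q)) with hW
    -- `W ^ 2` is close to one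
    have w1 : ‖(a p : ℂ) - a q‖ < 1 / 4 := by
      have : (a p : ℂ) - a q = ((a p : ℂ) - a p₀) - ((a q : ℂ) - a p₀) := by ring
      rw [this]
      refine (norm_sub_le _ _).trans_lt ?_
      linarith
    have w2 : W ^ 2 = (a p : ℂ) * (starRingEnd ℂ) (a q : ℂ) := by
      rw [hW, mul_pow, ← map_pow, rt_sq, rt_sq]
    have w3 : (a q : ℂ) * (starRingEnd ℂ) (a q : ℂ) = 1 := by
      rw [Complex.mul_conj, Complex.normSq_eq_norm_sq, Circle.norm_coe]; simp
    have w4 : ‖W ^ 2 - 1‖ < 1 / 4 := by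
      have : W ^ 2 - 1 = ((a p : ℂ) - a q) * (starRingEnd ℂ) (a q : ℂ) := by
        rw [w2, sub_mul, w3]
      rw [this, norm_mul, Complex.norm_conj, Circle.norm_coe, mul_one]
      exact w1
    have w5 : W.re ^ 2 + W.im ^ 2 = 1 := by
      have h1 : ‖W‖ = 1 := by
        rw [hW, norm_mul, Complex.norm_conj, rt_norm, rt_norm, one_mul]
      have h2 := Complex.sq_norm W
      rw [h1, Complex.normSq_apply] at h2
      nlinarith
    have w6 : W.im ^ 2 < 1 / 8 := by
      have h1 := (Complex.abs_re_le_norm (W ^ 2 - 1)).trans_lt w4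
      rw [Complex.sub_re, pow_two, Complex.mul_re, Complex.one_re, abs_lt] at h1
      nlinarith [h1.1]
    -- the other product
    set E : ℝ := (l p - l q) / 2 with hE
    have hE1 : |E| < 1 / 4 := by
      rw [hE, abs_lt]
      rw [abs_lt] at p2 q2
      constructor <;> linarith [p2.1, p2.2, q2.1, q2.2]
    have hX : s p * (starRingEnd ℂ) (s q) =
        (sq m (a p) * (starRingEnd ℂ) (sq m (a q))) * Complex.exp (E * I) := by
      rw [hs]
      simp only
      rw [map_mul, ← Complex.exp_conj, map_mul, Complex.conj_I, Complex.conj_ofReal]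
      have : Complex.exp (E * I) = Complex.exp ((l p / 2 : ℝ) * I) *
          Complex.exp ((l q / 2 : ℝ) * -I) := by
        rw [← Complex.exp_add]
        congr 1
        rw [hE]
        push_cast
        ring
      rw [this]
      ring
    obtain ⟨g1, g2⟩ := sq_re (m := m) (a p) (a q)
    have hXre : (s p * (starRingEnd ℂ) (s q)).re = W.re * Real.cos E -
        (sq m (a p) * (starRingEnd ℂ) (sq m (a q))).im * Real.sin E := by
      rw [hX, Complex.mul_re, Complex.exp_ofReal_mul_I_re, Complex.exp_ofReal_mul_I_im, g1]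
    set Y : ℝ := (sq m (a p) * (starRingEnd ℂ) (sq m (a q))).im with hY
    have hY2 : Y ^ 2 < 1 / 8 := by rw [g2]; exact w6
    have hcos : 3 / 4 < Real.cos E := by
      have h1 := Real.one_sub_sq_div_two_le_cos (x := E)
      have h2 : E ^ 2 < 1 / 16 := by
        have := sq_lt_sq.2 (show |E| < |(1 / 4 : ℝ)| by rwa [abs_of_pos (by norm_num : (0 : ℝ) < 1 / 4)])
        linarith [this]
      linarith
    have hsin : (Real.sin E) ^ 2 < 7 / 16 := by
      have := Real.sin_sq_add_cos_sq E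
      nlinarith
    have hpos : 0 < (s p * (starRingEnd ℂ) (s q)).re * W.re := by
      rw [hXre]
      have h1 : W.re ^ 2 > 7 / 8 := by linarith
      have h2 : (Y * Real.sin E * W.re) ^ 2 < (W.re ^ 2 * Real.cos E) ^ 2 := by
        have h3 : (Y * Real.sin E * W.re) ^ 2 = Y ^ 2 * Real.sin E ^ 2 * W.re ^ 2 := by ring
        have h4 : (W.re ^ 2 * Real.cos E) ^ 2 = W.re ^ 2 * (W.re ^ 2 * Real.cos E ^ 2) := by ring
        rw [h3, h4]
        have h5 : Y ^ 2 * Real.sin E ^ 2 ≤ 1 / 8 * (7 / 16) :=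
          mul_le_mul hY2.le hsin.le (sq_nonneg _) (by norm_num)
        have h6 : 7 / 8 * (9 / 16) ≤ W.re ^ 2 * Real.cos E ^ 2 :=
          mul_le_mul h1.le (by nlinarith) (by norm_num) (sq_nonneg _)
        nlinarith
      have h7 : 0 < W.re ^ 2 * Real.cos E := by
        apply mul_pos
        · linarith
        · linarith
      have h8 := abs_lt_of_sq_lt_sq h2 h7.le
      have h9 := (abs_lt.1 h8).2
      nlinarith
    have hne : (s p * (starRingEnd ℂ) (s q)).re ≠ 0 := left_ne_zero_of_mul hpos.ne'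
    have hb : (rt (b p) * (starRingEnd ℂ) (rt (b q))).re =
        ε p * ε q * (s p * (starRingEnd ℂ) (s q)).re := by
      rw [e2, f2, map_mul, Complex.conj_ofReal]
      have : (ε p : ℂ) * s p * (ε q * (starRingEnd ℂ) (s q)) =
          ((ε p * ε q : ℝ) : ℂ) * (s p * (starRingEnd ℂ) (s q)) := by
        push_cast; ring
      rw [this, Complex.re_ofReal_mul]
    rw [hb, ng_mul (mul_ne_zero hεp hεq) hne, ng_mul hεp hεq, ng_congr hpos]
    generalize ng (ε p) = x
    generalize ng (ε q) = y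
    generalize ng W.re = z
    revert x y z
    decide

/-! ### Transport along homeomorphisms of subsets -/

theorem shomeo_smap {X Y : Type*} [TopologicalSpace X] [TopologicalSpace Y] {A : Set X} {B : Set Y}
    {φ : X → Y} {ψ : Y → X} (h : SHomeo A B φ ψ) : SMap IsCompact IsCompact A B φ := by
  refine ⟨h.c₁, h.m₁, fun K hK hKc => ?_⟩
  have : A ∩ φ ⁻¹' K = ψ '' K := by
    ext x
    constructor
    · rintro ⟨hx, hx'⟩; exact ⟨φ x, hx', h.l x hx⟩
    · rintro ⟨y, hy, rfl⟩
      exact ⟨h.m₂ (hK hy), by rw [mem_preimage, h.r y (hK hy)]; exact hy⟩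
  rw [this]; exact hKc.image_of_continuousOn (h.c₂.mono hK)

theorem shomeo_symm {X Y : Type*} [TopologicalSpace X] [TopologicalSpace Y] {A : Set X} {B : Set Y}
    {φ : X → Y} {ψ : Y → X} (h : SHomeo A B φ ψ) : SHomeo B A ψ φ :=
  ⟨h.c₂, h.c₁, h.m₂, h.m₁, h.r, h.l⟩

/-- Cochains which agree on lists of points of `S` are cohomologous. -/
theorem cob_congr {X : Type*} [TopologicalSpace X] {S : Set X} {n : ℕ} {f g : List X → ZMod 2}
    (hf : f ∈ coboundaries (ZMod 2) IsCompact S n) (h : ∀ l : List X, (∀ y ∈ l, y ∈ S) → f l = g l) :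
    g ∈ coboundaries (ZMod 2) IsCompact S n := by
  have h1 : g - f ∈ coboundaries (ZMod 2) IsCompact S n :=
    LZ.mem_coboundaries fun x _ => LZat.of_eq_zero x fun l _ hl => by
      rw [Pi.sub_apply, h l hl, sub_self]
  have := add_mem h1 hf
  rwa [sub_add_cancel] at this

theorem coc_congr {X : Type*} [TopologicalSpace X] {S : Set X} {n : ℕ} {f g : List X → ZMod 2}
    (hf : f ∈ cocycles (ZMod 2) IsCompact S n) (h : ∀ l : List X, (∀ y ∈ l, y ∈ S) → f l = g l) :
    g ∈ cocycles (ZMod 2) IsCompact S n := by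
  have h1 : g - f ∈ coboundaries (ZMod 2) IsCompact S n :=
    LZ.mem_coboundaries fun x _ => LZat.of_eq_zero x fun l _ hl => by
      rw [Pi.sub_apply, h l hl, sub_self]
  have := add_mem (coboundaries_le_cocycles _ _ _ h1) hf
  rwa [sub_add_cancel] at this

theorem map_eq_of_mem {X Y : Type*} {S : Set X} {φ ψ : X → Y} (h : ∀ x ∈ S, φ x = ψ x) (l : List X)
    (hl : ∀ y ∈ l, y ∈ S) : l.map φ = l.map ψ := List.map_congr_left fun y hy => h y (hl y hy)

/-- Ball classes are transported by homeomorphisms. -/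
theorem isBall_transport {X Y : Type*} [TopologicalSpace X] [TopologicalSpace Y] {A : Set X}
    {B : Set Y} {φ : X → Y} {ψ : Y → X} (h : SHomeo A B φ ψ) {m : ℕ} {f : List X → ZMod 2}
    (hf : IsBall A m f) : IsBall B m (pull ψ f) := by
  obtain ⟨W, j, χ, hW, hjχ, ⟨K, hKW, hK, hfK⟩, hne⟩ := hf.ex
  refine ⟨(shomeo_smap (shomeo_symm h)).pull_mem_cocycles hf.mem, ?_⟩
  obtain ⟨W', hW', hWW⟩ := (continuousOn_iff'.1 h.c₂) W hW
  have hmem : ∀ y, y ∈ B ∩ W' ↔ y ∈ B ∧ ψ y ∈ A ∩ W := by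
    intro y
    constructor
    · rintro ⟨h1, h2⟩
      have : y ∈ ψ ⁻¹' W ∩ B := hWW ▸ ⟨h2, h1⟩
      exact ⟨h1, h.m₂ h1, this.1⟩
    · rintro ⟨h1, h2⟩
      have : y ∈ W' ∩ B := hWW ▸ ⟨h2.2, h1⟩
      exact ⟨h1, this.1⟩
  have hφW : ∀ x ∈ A ∩ W, φ x ∈ B ∩ W' := fun x hx =>
    (hmem _).2 ⟨h.m₁ hx.1, by rw [h.l x hx.1]; exact hx⟩
  refine ⟨W', φ ∘ j, χ ∘ ψ, hW', ⟨?_, ?_, ?_, ?_, ?_, ?_⟩, ⟨φ '' K, ?_, ?_, ?_⟩, ?_⟩
  · exact h.c₁.comp hjχ.c₁ fun v hv => (hjχ.m₁ hv).1
  · exact hjχ.c₂.comp (h.c₂.mono inter_subset_left) fun y hy => ((hmem y).1 hy).2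
  · exact fun v hv => hφW _ (hjχ.m₁ hv)
  · exact fun y hy => hjχ.m₂ ((hmem y).1 hy).2
  · intro v hv
    simp only [Function.comp]
    rw [h.l _ (hjχ.m₁ hv).1, hjχ.l v hv]
  · intro y hy
    simp only [Function.comp]
    rw [hjχ.r _ ((hmem y).1 hy).2, h.r y hy.1]
  · rintro _ ⟨x, hx, rfl⟩
    exact hφW x (hKW hx)
  · exact hK.image_of_continuousOn (h.c₁.mono fun x hx => (hKW hx).1)
  · intro y hy hyK
    refine LZat.pull (B := A) (hfK (ψ y) (h.m₂ hy) fun hψ => hyK ⟨ψ y, hψ, h.r y hy⟩) (h.c₂ y hy) h.m₂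
  · intro hc
    apply hne
    have e : pull (φ ∘ j) (pull ψ f) = pull j f := by
      funext l
      simp only [pull, List.map_map]
      congr 1
      exact List.map_congr_left fun v _ => by
        simp only [Function.comp]
        rw [h.l _ (hjχ.m₁ trivial).1]
    rwa [e] at hc

end Pool.Agent.Helper31.DS
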