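import Pool.Agent.Helper31.DS.A1
import Pool.Agent.Helper31.DS.A2
import Pool.Agent.Helper82.DK2.Split
import Pool.Agent.Helper77.DS.KapA

/-!
# The class `κ ∪ x ∪ x ∪ T x` of the 3-fold cyclic cover obstructs the splitting
-/

namespace Pool.Agent.Helper31.DS

open Set Filter Topology Pool.Agent.Helper36.AS Pool.Agent.Helper77.DS Pool.Agent.Helper82.DK2

theorem om_pow : om ^ 3 = 1 := by
  unfold om
  rw [← Circle.exp_natCast_mul]
  have : ((3 : ℕ) : ℝ) * (2 * Real.pi / 3) = 2 * Real.pi := by push_cast; ring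
  rw [this, Circle.exp_two_pi]

/-- The deck transformation of the 3-fold cyclic cover. -/
noncomputable def TC (x : Sph 7 × Circle) : Sph 7 × Circle := (x.1, om * x.2)

theorem continuous_TC : Continuous TC :=
  continuous_fst.prodMk (continuous_const.mul continuous_snd)

theorem TC_mem {f : Sph 5 → Sph 7} {g : Sph 7 → Circle} {x : Sph 7 × Circle}
    (hx : x ∈ cov f g 3) : TC x ∈ cov f g 3 := by
  refine ⟨hx.1, ?_⟩
  change g x.1 = (om * x.2) ^ 3
  rw [mul_pow, om_pow, one_mul, hx.2]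

theorem TC3 (x : Sph 7 × Circle) : TC (TC (TC x)) = x := by
  refine Prod.ext rfl ?_
  change om * (om * (om * x.2)) = x.2
  have h : om * (om * (om * x.2)) = om ^ 3 * x.2 := by
    rw [pow_succ, pow_two, mul_assoc, mul_assoc]
  rw [h, om_pow, one_mul]

theorem smap_of_order3 {X : Type*} [MetricSpace X] {S : Set X} {T : X → X} (hT : ContinuousOn T S)
    (hm : MapsTo T S S) (h3 : ∀ x ∈ S, T (T (T x)) = x) :
    SMap (IsCompact (X := X)) (IsCompact (X := X)) S S T := by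
  refine ⟨hT, hm, fun K hK hKc => ?_⟩
  have : S ∩ T ⁻¹' K = (T ∘ T) '' K := by
    ext x
    constructor
    · rintro ⟨hx, hx'⟩; exact ⟨T x, hx', h3 x hx⟩
    · rintro ⟨y, hy, rfl⟩
      refine ⟨hm (hm (hK hy)), ?_⟩
      change T (T (T y)) ∈ K
      rw [h3 y (hK hy)]; exact hy
  rw [this]
  exact hKc.image_of_continuousOn ((hT.comp hT hm).mono hK)

/-- **The obstruction for the 3-fold cyclic cover.** -/
theorem no_split {f : Sph 5 → Sph 7} {g : Sph 7 → Circle} {P Q : Set (EE 5)}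
    {φ : Sph 7 × Circle → EE 5} {ψ : EE 5 → Sph 7 × Circle} {m : ℤ}
    (hs : IsSplit f g 3 P Q φ ψ m) (hb : IsBicollared f g 3 P Q φ)
    (hB : BlockC (cov f g 3) TC Prod.snd)
    (h0 : ∀ α : Hc (ZMod 2) (univ : Set (EE 5)) 3, α = 0)
    {ι : EE 5 → ℝ × (Fin 7 → ℝ)} (hι : IsOpenEmbedding ι) : False := by
  set X : Set (Sph 7 × Circle) := cov f g 3 with hX
  set w : Circle := om ^ m with hw
  have hw3 : w ^ 3 = 1 := by
    rw [hw, ← zpow_natCast, ← zpow_mul, mul_comm, zpow_mul]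
    have : om ^ ((3 : ℕ) : ℤ) = 1 := by rw [zpow_natCast, om_pow]
    rw [this, one_zpow]
  set T : EE 5 → EE 5 := fun e => (e.1, w * e.2) with hT
  have hTc : Continuous T := continuous_fst.prodMk (continuous_const.mul continuous_snd)
  have hT3 : ∀ x, T (T (T x)) = x := by
    intro x
    refine Prod.ext rfl ?_
    change w * (w * (w * x.2)) = x.2
    have h : w * (w * (w * x.2)) = w ^ 3 * x.2 := by
      rw [pow_succ, pow_two, mul_assoc, mul_assoc]
    rw [h, hw3, one_mul]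
  have hTP : ∀ x ∈ P, T x ∈ P := fun x hx => hs.rotP w hw3 x hx
  have hTQ : ∀ x ∈ Q, T x ∈ Q := fun x hx => hs.rotQ w hw3 x hx
  have hTX : ∀ x ∈ P ∩ Q, T x ∈ P ∩ Q := fun x hx => ⟨hTP x hx.1, hTQ x hx.2⟩
  have hh : SHomeo X (P ∩ Q) φ ψ :=
    ⟨hs.contφ, hs.contψ, hs.mapsφ, hs.mapsψ, hs.left, hs.right⟩
  have hh' := shomeo_symm hh
  have sφ := shomeo_smap hh
  have sψ := shomeo_smap hh'
  -- the deck transformations correspond
  have hφT : ∀ x ∈ X, φ (TC x) = T (φ x) := fun x hx => hs.rotφ om om_pow x hx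
  have hψT : ∀ e ∈ P ∩ Q, ψ (T e) = TC (ψ e) := fun e he => by
    have h1 := hφT (ψ e) (hs.mapsψ he)
    rw [hs.right e he] at h1
    rw [← h1, hs.left _ (TC_mem (hs.mapsψ he))]
  have mapψ : ∀ l : List (EE 5), (∀ y ∈ l, y ∈ P ∩ Q) → ∀ y ∈ l.map ψ, y ∈ X := by
    intro l hl y hy
    obtain ⟨e, he, rfl⟩ := List.mem_map.1 hy
    exact hs.mapsψ (hl e he)
  have mapφ : ∀ l : List (Sph 7 × Circle), (∀ y ∈ l, y ∈ X) → ∀ y ∈ l.map φ, y ∈ P ∩ Q := by
    intro l hl y hy
    obtain ⟨e, he, rfl⟩ := List.mem_map.1 hy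
    exact hs.mapsφ (hl e he)
  have mapT : ∀ l : List (EE 5), (∀ y ∈ l, y ∈ P ∩ Q) → ∀ y ∈ l.map T, y ∈ P ∩ Q := by
    intro l hl y hy
    obtain ⟨e, he, rfl⟩ := List.mem_map.1 hy
    exact hTX _ (hl e he)
  have mapTC : ∀ l : List (Sph 7 × Circle), (∀ y ∈ l, y ∈ X) → ∀ y ∈ l.map TC, y ∈ X := by
    intro l hl y hy
    obtain ⟨e, he, rfl⟩ := List.mem_map.1 hy
    exact TC_mem (hl e he)
  have pT : ∀ c : List (Sph 7 × Circle) → ZMod 2, ∀ l : List (EE 5), (∀ y ∈ l, y ∈ P ∩ Q) →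
      pull T (pull ψ c) l = pull ψ (pull TC c) l := by
    intro c l hl
    simp only [pull, List.map_map]
    congr 1
    exact List.map_congr_left fun e he => hψT e (hl e he)
  have pφ : ∀ c : List (EE 5) → ZMod 2, ∀ l : List (Sph 7 × Circle), (∀ y ∈ l, y ∈ X) →
      pull TC (pull φ c) l = pull φ (pull T c) l := by
    intro c l hl
    simp only [pull, List.map_map]
    congr 1
    exact List.map_congr_left fun e he => hφT e (hl e he)
  have pTT : ∀ c : List (Sph 7 × Circle) → ZMod 2, ∀ l : List (EE 5), (∀ y ∈ l, y ∈ P ∩ Q) →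
      pull T (pull T (pull ψ c)) l = pull ψ (pull TC (pull TC c)) l := by
    intro c l hl
    have h1 : pull T (pull T (pull ψ c)) l = pull T (pull ψ c) (l.map T) := rfl
    rw [h1, pT c _ (mapT l hl)]
    exact pT (pull TC c) l hl
  have pφφ : ∀ c : List (EE 5) → ZMod 2, ∀ l : List (Sph 7 × Circle), (∀ y ∈ l, y ∈ X) →
      pull TC (pull TC (pull φ c)) l = pull φ (pull T (pull T c)) l := by
    intro c l hl
    have h1 : pull TC (pull TC (pull φ c)) l = pull TC (pull φ c) (l.map TC) := rfl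
    rw [h1, pφ c _ (mapTC l hl)]
    exact pφ (pull T c) l hl
  have e3ψ : ∀ c : List (Sph 7 × Circle) → ZMod 2, ∀ l : List (EE 5), (∀ y ∈ l, y ∈ P ∩ Q) →
      e3 T (pull ψ c) l = pull ψ (e3 TC c) l := by
    intro c l hl
    simp only [e3, Pi.add_apply]
    rw [pT c l hl, pTT c l hl]
    rfl
  have e3φ : ∀ c : List (EE 5) → ZMod 2, ∀ l : List (Sph 7 × Circle), (∀ y ∈ l, y ∈ X) →
      e3 TC (pull φ c) l = pull φ (e3 T c) l := by
    intro c l hl
    simp only [e3, Pi.add_apply]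
    rw [pφ c l hl, pφφ c l hl]
    rfl
  have φψ : ∀ c : List (EE 5) → ZMod 2, ∀ l : List (EE 5), (∀ y ∈ l, y ∈ P ∩ Q) →
      pull ψ (pull φ c) l = c l := by
    intro c l hl
    simp only [pull, List.map_map]
    congr 1
    conv_rhs => rw [← List.map_id l]
    exact List.map_congr_left fun e he => hs.right e (hl e he)
  obtain ⟨x, hx, he, hcl, b, hbb, hxb⟩ := hB
  -- local charts
  have hloc : ∀ j : (Fin 7 → ℝ) → EE 5, OE j univ (P ∩ Q) → ∃ J : ℝ × (Fin 7 → ℝ) → EE 5,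
      IsOpenEmbedding J ∧ (∀ q, J q ∈ P ↔ 0 ≤ q.1) ∧ (∀ q, J q ∈ Q ↔ q.1 ≤ 0) ∧
      ∀ y, J (0, y) ∈ range j := by
    intro j hj
    set j' : (Fin 7 → ℝ) → ↥(cov f g 3) := fun a => ⟨ψ (j a), hs.mapsψ (hj.maps trivial)⟩ with hj'
    have hj'o : IsOpenEmbedding j' := by
      refine IsOpenEmbedding.of_continuous_injective_isOpenMap ?_ ?_ ?_
      · refine Continuous.subtype_mk ?_ _
        have h1 := hs.contψ.comp hj.cont hj.maps
        exact continuousOn_univ.1 h1
      · intro a a' h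
        have h1 : ψ (j a) = ψ (j a') := congrArg Subtype.val h
        apply hj.inj trivial trivial
        rw [← hs.right _ (hj.maps (mem_univ a)), h1, hs.right _ (hj.maps (mem_univ a'))]
      · rw [isOpenMap_iff_nhds_le]
        intro a U hU
        rw [mem_map] at hU
        obtain ⟨W, hW, hWU⟩ := hj.opn a trivial _ hU
        have h1 : ContinuousAt (fun y : ↥(cov f g 3) => φ y.1) (j' a) := by
          have := hs.contφ (j' a).1 (j' a).2
          rw [continuousWithinAt_iff_continuousAt_domRestrict _ (j' a).2] at this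
          exact this
        have h2 : φ (j' a).1 = j a := hs.right _ (hj.maps trivial)
        have h3 : (fun y : ↥(cov f g 3) => φ y.1) ⁻¹' W ∈ 𝓝 (j' a) := by
          refine h1 ?_
          change W ∈ 𝓝 (φ (j' a).1)
          rw [h2]; exact hW
        refine mem_of_superset h3 fun y hy => ?_
        obtain ⟨a', ⟨ha', -⟩, ha''⟩ := hWU ⟨hy, hs.mapsφ y.2⟩
        have h4 : j' a' = y := by
          apply Subtype.ext
          change ψ (j a') = y.1
          rw [ha'']
          exact hs.left y.1 y.2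
        exact (h4 ▸ ha' : y ∈ U)
    obtain ⟨i, Ψ, hi, -, hΨ, h1, h2, h3⟩ := hb j' hj'o
    have hsw : IsOpenEmbedding fun q : ℝ × (Fin 7 → ℝ) => ((q.2, q.1) : (Fin 7 → ℝ) × ℝ) :=
      (Homeomorph.prodComm ℝ (Fin 7 → ℝ)).isOpenEmbedding
    refine ⟨fun q => Ψ (q.2, q.1), hΨ.comp hsw, fun q => h2 _ _, fun q => h3 _ _, fun y => ?_⟩
    refine ⟨i y, ?_⟩
    simp only
    rw [h1]
    exact (hs.right _ (hj.maps trivial)).symm
  -- the cocycles
  set x₁ : List (EE 5) → ZMod 2 := pull ψ x with hx₁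
  have hx1 : x₁ ∈ cocycles (ZMod 2) IsCompact (P ∩ Q) 2 := sψ.pull_mem_cocycles hx
  have he1 : e3 T x₁ ∈ coboundaries (ZMod 2) IsCompact (P ∩ Q) 2 :=
    cob_congr (sψ.pull_mem_coboundaries he) fun l hl => (e3ψ x l hl).symm
  have hcl1 : x₁ ∈ coboundaries (ZMod 2) IsCompact (P ∩ Q) 2 ∨
      ∀ c ∈ cocycles (ZMod 2) IsCompact (P ∩ Q) 2,
      e3 T c ∈ coboundaries (ZMod 2) IsCompact (P ∩ Q) 2 →
      c ∈ coboundaries (ZMod 2) IsCompact (P ∩ Q) 2 ∨
      c - x₁ ∈ coboundaries (ZMod 2) IsCompact (P ∩ Q) 2 ∨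
      c - pull T x₁ ∈ coboundaries (ZMod 2) IsCompact (P ∩ Q) 2 ∨
      c - (x₁ + pull T x₁) ∈ coboundaries (ZMod 2) IsCompact (P ∩ Q) 2 := by
    rcases hcl with hcl | hcl
    · exact Or.inl (sψ.pull_mem_coboundaries hcl)
    refine Or.inr fun c hc hec => ?_
    have h1 : pull φ c ∈ cocycles (ZMod 2) IsCompact X 2 := sφ.pull_mem_cocycles hc
    have h2 : e3 TC (pull φ c) ∈ coboundaries (ZMod 2) IsCompact X 2 :=
      cob_congr (sφ.pull_mem_coboundaries hec) fun l hl => (e3φ c l hl).symm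
    rcases hcl _ h1 h2 with h | h | h | h
    · exact Or.inl (cob_congr (sψ.pull_mem_coboundaries h) fun l hl => φψ c l hl)
    · refine Or.inr (Or.inl (cob_congr (sψ.pull_mem_coboundaries h) fun l hl => ?_))
      rw [pull_sub, Pi.sub_apply, Pi.sub_apply, φψ c l hl]
    · refine Or.inr (Or.inr (Or.inl (cob_congr (sψ.pull_mem_coboundaries h) fun l hl => ?_)))
      rw [pull_sub, Pi.sub_apply, Pi.sub_apply, φψ c l hl, pT x l hl]
    · refine Or.inr (Or.inr (Or.inr (cob_congr (sψ.pull_mem_coboundaries h) fun l hl => ?_)))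
      rw [pull_sub, Pi.sub_apply, Pi.sub_apply, φψ c l hl, Pi.add_apply, pT x l hl]
      rfl
  set κ : List (EE 5) → ZMod 2 := pull Prod.snd k1 with hκ
  have hk1 : LZ (univ : Set Circle) 3 (d k1) :=
    kap_cocycle (S := univ) Ls (fun z _ => Ls_unit z) fun i j => (Ls_mul_cont i j).continuousOn
  have hκc : κ ∈ cocycles (ZMod 2) AllSupp (univ : Set (EE 5)) 1 := by
    refine ⟨hasSupp_all _ _ _, ?_⟩
    rw [hκ, d_pull']
    exact hk1.pull continuous_snd.continuousOn (mapsTo_univ _ _)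
  -- the two cocycles of degree one
  obtain ⟨L, hL, hLφ⟩ := hs.snd
  have hkk : κ - pull (fun e : EE 5 => (ψ e).2) k1 ∈
      coboundaries (ZMod 2) AllSupp (P ∩ Q) 1 := by
    refine k1_cohom (V := EE 5) (S := P ∩ Q) (a := fun e => (ψ e).2) (b := Prod.snd)
      (l := fun e => L (ψ e)) hs.sign ?_ ?_ fun e he => ?_
    · exact continuous_snd.comp_continuousOn hs.contψ
    · exact hL.comp hs.contψ hs.mapsψ
    · have h1 := hLφ (ψ e) (hs.mapsψ he)
      rwa [hs.right e he] at h1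
  -- the product
  set Z : List (Sph 7 × Circle) → ZMod 2 := cup 2 x (cup 2 x (pull TC x)) with hZ
  have sTC : SMap (IsCompact (X := Sph 7 × Circle)) (IsCompact (X := Sph 7 × Circle)) X X TC :=
    smap_of_order3 continuous_TC.continuousOn (fun x hx => TC_mem hx) fun x _ => TC3 x
  have hZc : Z ∈ cocycles (ZMod 2) IsCompact X 6 := by
    have h1 := sTC.pull_mem_cocycles hx
    have h2 := cup_mem_cocycles (cupFam_left IsCompact IsCompact X) hx h1
    exact cup_mem_cocycles (cupFam_left IsCompact IsCompact X) hx h2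
  have hZψ : pull ψ Z ∈ cocycles (ZMod 2) IsCompact (P ∩ Q) 6 := sψ.pull_mem_cocycles hZc
  have hfx : prod4 κ T x₁ - pull ψ b ∈ coboundaries (ZMod 2) IsCompact (P ∩ Q) 7 := by
    have h1 : pull ψ (cup 1 (pull Prod.snd k1) Z) - pull ψ b ∈
        coboundaries (ZMod 2) IsCompact (P ∩ Q) 7 := sψ.pull_mem_coboundaries hxb
    have h2 : cup 1 (κ - pull (fun e : EE 5 => (ψ e).2) k1) (pull ψ Z) ∈
        coboundaries (ZMod 2) IsCompact (P ∩ Q) 7 :=
      cup_coboundary_left (cupFam_right AllSupp IsCompact (P ∩ Q)) hkk hZψ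
    have h3 := add_mem h2 h1
    refine cob_congr h3 fun l hl => ?_
    have h4 : pull ψ (cup 1 (pull Prod.snd k1) Z) l =
        cup 1 (pull (fun e : EE 5 => (ψ e).2) k1) (pull ψ Z) l := by
      rw [pull_cup]
      have : pull ψ (pull Prod.snd k1) = pull (fun e : EE 5 => (ψ e).2) k1 := by
        funext k
        simp only [pull, List.map_map]
        rfl
      rw [this]
    have h5 : prod4 κ T x₁ l = cup 1 κ (pull ψ Z) l := by
      have h6 : ∀ k : List (EE 5), (∀ y ∈ k, y ∈ P ∩ Q) →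
          cup 2 x₁ (cup 2 x₁ (pull T x₁)) k = pull ψ Z k := by
        intro k hk
        rw [hZ, pull_cup]
        change x₁ (k.take 3) * cup 2 x₁ (pull T x₁) (k.drop 2) =
          pull ψ x (k.take 3) * pull ψ (cup 2 x (pull TC x)) (k.drop 2)
        have h7 : ∀ (p : ℕ) (k : List (EE 5)), (∀ y ∈ k, y ∈ P ∩ Q) → ∀ y ∈ k.drop p, y ∈ P ∩ Q :=
          fun p k hk y hy => hk y (List.mem_of_mem_drop hy)
        have h8 : pull ψ (cup 2 x (pull TC x)) (k.drop 2) =
            cup 2 x₁ (pull T x₁) (k.drop 2) := by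
          rw [pull_cup]
          simp only [cup]
          rw [pT x _ (h7 2 _ (h7 2 k hk))]
        rw [h8]
      simp only [prod4]
      have h9 : ∀ F G : List (EE 5) → ZMod 2, (∀ k : List (EE 5), (∀ y ∈ k, y ∈ P ∩ Q) →
          F k = G k) → cup 1 κ F l = cup 1 κ G l := by
        intro F G h
        simp only [cup]
        rw [h _ fun y hy => hl y (List.mem_of_mem_drop hy)]
      exact h9 _ _ h6
    rw [Pi.add_apply, Pi.sub_apply, Pi.sub_apply, cup_sub_left, Pi.sub_apply, h4, h5]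
    ring
  have hg : ∀ S : Set (EE 5), IsClosed S → Good IsCompact S := fun S hS =>
    (LCpt.of_closed hS).good
  exact obstruction hs.closedP hs.closedQ hs.union (hg P hs.closedP) (hg Q hs.closedQ) hTc hT3 hTP
    hTQ h0 (isStd_stm 6) (isStd_line 6) (hline_std 6) hι hloc hx1 he1 hcl1 hκc
    (isBall_transport hh hbb) hfx

end Pool.Agent.Helper31.DS
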