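import Pool.Agent.Helper77.DS.Base
import Pool.Agent.Helper82.DK2.Defs

/-!
# DS-E5: `RP3 × ℝ × S¹` is open in the five-sphere (about 200-300 lines)

For `A = q qᵀ` put `u = u(A)`, `v = v(A)` (the images of `i`, `j` under the rotation `x ↦ q x q*`):
`u = (A00 + A11 - A22 - A33, 2 (A12 + A03), 2 (A13 - A02))`,
`v = (2 (A12 - A03), A00 - A11 + A22 - A33, 2 (A23 + A01))`, an orthonormal pair, and
`w = u × v = (2 (A13 + A02), 2 (A23 - A01), A00 - A11 - A22 + A33)` (polynomial identities in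
`q` with `|q|² = 1`).  Conversely `A` is determined by `u, v, w` by linear formulas:
`A00 = (1 + u0 + v1 + w2) / 4`, `A11 = (1 + u0 - v1 - w2) / 4`, `A22 = (1 - u0 + v1 - w2) / 4`,
`A33 = (1 - u0 - v1 + w2) / 4`, `A12 = (u1 + v0) / 4`, `A03 = (u1 - v0) / 4`,
`A13 = (u2 + w0) / 4`, `A02 = (w0 - u2) / 4`, `A23 = (v2 + w1) / 4`, `A01 = (v2 - w1) / 4`.
If `(u, v, w)` is a positively oriented orthonormal basis this symmetric matrix `A` has trace one
and all its `2 × 2` minors vanish (from `w = u × v`, orthonormality), and its diagonal entries are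
nonnegative; so it is `q qᵀ` with `q = (A_{0k}, …) / √A_{kk}` for a `k` with `A_{kk} > 0`.
(Alternatively: existence of `q` for an orthonormal pair by case distinction.)
The map: `((A, t), θ) ↦ (λ u, λ (a u + b v))` in `ℝ³ × ℝ³ = ℝ⁶`, with
`a = e^t cos θ`, `b = exp (e^t sin θ)`, `λ = (1 + a² + b²)^(-1/2)`.
Inverse on the open set of the independent pairs `(x, y)` of `Sph 5` with
`(a, b) ≠ (0, 1)`: `u = x / |x|`, `a = ⟨x, y⟩ / |x|²`, `b = |y - a x| / |x|`,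
`v = (y - a x) / |y - a x|`, `A` by the formulas above, `(a, log b) = e^t (cos θ, sin θ)`, i.e.
`t = log √(a² + (log b)²)`, `θ` the point `(a + i log b) / |a + i log b|` of the circle.
Everything is continuous.
-/

namespace Pool.Agent.Helper31.DS

open Pool.Agent.Helper77.DS Pool.Agent.Helper82.DK2 Topology

/-- orthonormal pairs -/
private def V2 : Set ((Fin 3 → ℝ) × (Fin 3 → ℝ)) :=
  {q | q.1 0 ^ 2 + q.1 1 ^ 2 + q.1 2 ^ 2 = 1 ∧ q.2 0 ^ 2 + q.2 1 ^ 2 + q.2 2 ^ 2 = 1 ∧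
    q.1 0 * q.2 0 + q.1 1 * q.2 1 + q.1 2 * q.2 2 = 0}

/-- the matrix of an orthonormal pair -/
private noncomputable def AA (q : (Fin 3 → ℝ) × (Fin 3 → ℝ)) : M4 :=
  ![![(1 + q.1 0 + q.2 1 + (q.1 0 * q.2 1 - q.1 1 * q.2 0)) / 4,
      (q.2 2 - (q.1 2 * q.2 0 - q.1 0 * q.2 2)) / 4,
      ((q.1 1 * q.2 2 - q.1 2 * q.2 1) - q.1 2) / 4,
      (q.1 1 - q.2 0) / 4],
    ![(q.2 2 - (q.1 2 * q.2 0 - q.1 0 * q.2 2)) / 4,
      (1 + q.1 0 - q.2 1 - (q.1 0 * q.2 1 - q.1 1 * q.2 0)) / 4,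
      (q.1 1 + q.2 0) / 4,
      (q.1 2 + (q.1 1 * q.2 2 - q.1 2 * q.2 1)) / 4],
    ![((q.1 1 * q.2 2 - q.1 2 * q.2 1) - q.1 2) / 4,
      (q.1 1 + q.2 0) / 4,
      (1 - q.1 0 + q.2 1 - (q.1 0 * q.2 1 - q.1 1 * q.2 0)) / 4,
      (q.2 2 + (q.1 2 * q.2 0 - q.1 0 * q.2 2)) / 4],
    ![(q.1 1 - q.2 0) / 4,
      (q.1 2 + (q.1 1 * q.2 2 - q.1 2 * q.2 1)) / 4,
      (q.2 2 + (q.1 2 * q.2 0 - q.1 0 * q.2 2)) / 4,
      (1 - q.1 0 - q.2 1 + (q.1 0 * q.2 1 - q.1 1 * q.2 0)) / 4]]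

/-- the orthonormal pair of a matrix -/
private def UV (A : M4) : (Fin 3 → ℝ) × (Fin 3 → ℝ) :=
  (![A 0 0 + A 1 1 - A 2 2 - A 3 3, 2 * (A 1 2 + A 0 3), 2 * (A 1 3 - A 0 2)],
    ![2 * (A 1 2 - A 0 3), A 0 0 - A 1 1 + A 2 2 - A 3 3, 2 * (A 2 3 + A 0 1)])

private theorem UV_mem {A : M4} (hA : A ∈ RP3) : UV A ∈ V2 := by
  obtain ⟨q, hq, rfl⟩ := hA
  rw [Fin.sum_univ_four] at hq
  refine ⟨?_, ?_, ?_⟩
  · show (q 0 * q 0 + q 1 * q 1 - q 2 * q 2 - q 3 * q 3) ^ 2 + (2 * (q 1 * q 2 + q 0 * q 3)) ^ 2 +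
      (2 * (q 1 * q 3 - q 0 * q 2)) ^ 2 = 1
    linear_combination (q 0 ^ 2 + q 1 ^ 2 + q 2 ^ 2 + q 3 ^ 2 + 1) * hq
  · show (2 * (q 1 * q 2 - q 0 * q 3)) ^ 2 + (q 0 * q 0 - q 1 * q 1 + q 2 * q 2 - q 3 * q 3) ^ 2 +
      (2 * (q 2 * q 3 + q 0 * q 1)) ^ 2 = 1
    linear_combination (q 0 ^ 2 + q 1 ^ 2 + q 2 ^ 2 + q 3 ^ 2 + 1) * hq
  · show (q 0 * q 0 + q 1 * q 1 - q 2 * q 2 - q 3 * q 3) * (2 * (q 1 * q 2 - q 0 * q 3)) +
      (2 * (q 1 * q 2 + q 0 * q 3)) * (q 0 * q 0 - q 1 * q 1 + q 2 * q 2 - q 3 * q 3) +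
      (2 * (q 1 * q 3 - q 0 * q 2)) * (2 * (q 2 * q 3 + q 0 * q 1)) = 0
    ring

private theorem AA_UV {A : M4} (hA : A ∈ RP3) : AA (UV A) = A := by
  obtain ⟨q, hq, rfl⟩ := hA
  rw [Fin.sum_univ_four] at hq
  have w0 : (2 * (q 1 * q 2 + q 0 * q 3)) * (2 * (q 2 * q 3 + q 0 * q 1)) -
      (2 * (q 1 * q 3 - q 0 * q 2)) * (q 0 * q 0 - q 1 * q 1 + q 2 * q 2 - q 3 * q 3) =
      2 * (q 1 * q 3 + q 0 * q 2) := by
    linear_combination (2 * (q 1 * q 3 + q 0 * q 2)) * hq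
  have w1 : (2 * (q 1 * q 3 - q 0 * q 2)) * (2 * (q 1 * q 2 - q 0 * q 3)) -
      (q 0 * q 0 + q 1 * q 1 - q 2 * q 2 - q 3 * q 3) * (2 * (q 2 * q 3 + q 0 * q 1)) =
      2 * (q 2 * q 3 - q 0 * q 1) := by
    linear_combination (2 * (q 2 * q 3 - q 0 * q 1)) * hq
  have w2 : (q 0 * q 0 + q 1 * q 1 - q 2 * q 2 - q 3 * q 3) *
      (q 0 * q 0 - q 1 * q 1 + q 2 * q 2 - q 3 * q 3) -
      (2 * (q 1 * q 2 + q 0 * q 3)) * (2 * (q 1 * q 2 - q 0 * q 3)) =
      q 0 * q 0 - q 1 * q 1 - q 2 * q 2 + q 3 * q 3 := by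
    linear_combination (q 0 * q 0 - q 1 * q 1 - q 2 * q 2 + q 3 * q 3) * hq
  funext i j
  fin_cases i <;> fin_cases j <;>
    simp only [AA, UV, outer, Matrix.cons_val, Fin.zero_eta, Fin.mk_one, Fin.reduceFinMk] <;>
    linarith

private theorem UV_AA (q : (Fin 3 → ℝ) × (Fin 3 → ℝ)) : UV (AA q) = q := by
  refine Prod.ext ?_ ?_
  · funext i
    fin_cases i <;>
    simp only [AA, UV, Matrix.cons_val, Fin.zero_eta, Fin.mk_one, Fin.reduceFinMk] <;>
    ring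
  · funext i
    fin_cases i <;>
    simp only [AA, UV, Matrix.cons_val, Fin.zero_eta, Fin.mk_one, Fin.reduceFinMk] <;>
    ring

private theorem AA_minor {q : (Fin 3 → ℝ) × (Fin 3 → ℝ)} (hq : q ∈ V2) (k i j : Fin 4) :
    AA q k k * AA q i j = AA q k i * AA q k j := by
  obtain ⟨⟨u, v⟩, rfl⟩ : ∃ p, q = p := ⟨q, rfl⟩
  obtain ⟨h1, h2, h3⟩ := hq
  simp only at h1 h2 h3
  generalize hu0 : u 0 = u0 at *
  generalize hu1 : u 1 = u1 at *
  generalize hu2 : u 2 = u2 at *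
  generalize hv0 : v 0 = v0 at *
  generalize hv1 : v 1 = v1 at *
  generalize hv2 : v 2 = v2 at *
  obtain ⟨w0, hw0⟩ : ∃ w0, w0 = u1 * v2 - u2 * v1 := ⟨_, rfl⟩
  obtain ⟨w1, hw1⟩ : ∃ w1, w1 = u2 * v0 - u0 * v2 := ⟨_, rfl⟩
  obtain ⟨w2, hw2⟩ : ∃ w2, w2 = u0 * v1 - u1 * v0 := ⟨_, rfl⟩
  have a0 : v1 * w2 - v2 * w1 = u0 := by
    rw [hw2, hw1]
    linear_combination u0 * h2 - v0 * h3
  have a1 : v2 * w0 - v0 * w2 = u1 := by
    rw [hw0, hw2]
    linear_combination u1 * h2 - v1 * h3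
  have a2 : v0 * w1 - v1 * w0 = u2 := by
    rw [hw1, hw0]
    linear_combination u2 * h2 - v2 * h3
  have b0 : w1 * u2 - w2 * u1 = v0 := by
    rw [hw1, hw2]
    linear_combination v0 * h1 - u0 * h3
  have b1 : w2 * u0 - w0 * u2 = v1 := by
    rw [hw2, hw0]
    linear_combination v1 * h1 - u1 * h3
  have b2 : w0 * u1 - w1 * u0 = v2 := by
    rw [hw0, hw1]
    linear_combination v2 * h1 - u2 * h3
  have c1 : w0 ^ 2 + w1 ^ 2 + w2 ^ 2 = 1 := by
    rw [hw0, hw1, hw2]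
    linear_combination (v0 ^ 2 + v1 ^ 2 + v2 ^ 2) * h1 + h2 -
      (u0 * v0 + u1 * v1 + u2 * v2) * h3
  have c2 : u0 * w0 + u1 * w1 + u2 * w2 = 0 := by
    rw [hw0, hw1, hw2]
    ring
  have c3 : v0 * w0 + v1 * w1 + v2 * w2 = 0 := by
    rw [hw0, hw1, hw2]
    ring
  have hR : (Matrix.of ![![u0, u1, u2], ![v0, v1, v2], ![w0, w1, w2]] : Matrix (Fin 3) (Fin 3) ℝ) *
      (Matrix.of ![![u0, v0, w0], ![u1, v1, w1], ![u2, v2, w2]]) = 1 := by
    ext i j
    fin_cases i <;> fin_cases j <;>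
      simp only [Matrix.mul_apply, Fin.sum_univ_three, Matrix.of_apply, Matrix.cons_val,
        Matrix.one_apply, Fin.zero_eta, Fin.mk_one, Fin.reduceFinMk, Fin.reduceEq, if_true,
        if_false] <;> linarith
  have hR' := mul_eq_one_comm.1 hR
  have e : ∀ i j : Fin 3, ((Matrix.of ![![u0, v0, w0], ![u1, v1, w1], ![u2, v2, w2]] :
      Matrix (Fin 3) (Fin 3) ℝ) *
      (Matrix.of ![![u0, u1, u2], ![v0, v1, v2], ![w0, w1, w2]])) i j =
      (1 : Matrix (Fin 3) (Fin 3) ℝ) i j := fun i j => congrFun (congrFun hR' i) j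
  have d00 := e 0 0
  have d01 := e 0 1
  have d02 := e 0 2
  have d11 := e 1 1
  have d12 := e 1 2
  have d22 := e 2 2
  simp only [Matrix.mul_apply, Fin.sum_univ_three, Matrix.of_apply, Matrix.cons_val,
        Matrix.one_apply, Fin.reduceEq, if_true, if_false] at d00 d01 d02 d11 d12 d22
  clear e hR' hR
  fin_cases k <;> fin_cases i <;> fin_cases j <;>
    simp only [AA, hu0, hu1, hu2, hv0, hv1, hv2, ← hw0, ← hw1, ← hw2, Matrix.cons_val,
      Fin.zero_eta, Fin.mk_one, Fin.reduceFinMk] <;>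
    linarith

private theorem AA_mem {q : (Fin 3 → ℝ) × (Fin 3 → ℝ)} (hq : q ∈ V2) : AA q ∈ RP3 := by
  have hm := AA_minor hq
  have htr : AA q 0 0 + AA q 1 1 + AA q 2 2 + AA q 3 3 = 1 := by
    simp only [AA, Matrix.cons_val]
    ring
  have hk : ∃ k, 0 < AA q k k := by
    by_contra hcon
    push Not at hcon
    have := hcon 0
    have := hcon 1
    have := hcon 2
    have := hcon 3
    linarith
  obtain ⟨k, hk⟩ := hk
  have hs : Real.sqrt (AA q k k) ^ 2 = AA q k k := Real.sq_sqrt hk.le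
  have hs0 : Real.sqrt (AA q k k) ≠ 0 := (Real.sqrt_pos.2 hk).ne'
  refine ⟨fun j => AA q k j / Real.sqrt (AA q k k), ?_, ?_⟩
  · have h1 : ∀ j, (AA q k j / Real.sqrt (AA q k k)) ^ 2 = AA q j j := by
      intro j
      rw [div_pow, hs, div_eq_iff hk.ne', sq, ← hm k j j]
      ring
    simp only [h1]
    rw [Fin.sum_univ_four]
    exact htr
  · funext i j
    show AA q i j = AA q k i / Real.sqrt (AA q k k) * (AA q k j / Real.sqrt (AA q k k))
    rw [div_mul_div_comm, ← sq, hs, eq_div_iff hk.ne', ← hm k i j]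
    ring

private noncomputable def homRP3 : ↥RP3 ≃ₜ ↥V2 where
  toFun A := ⟨UV A.1, UV_mem A.2⟩
  invFun q := ⟨AA q.1, AA_mem q.2⟩
  left_inv A := Subtype.ext (AA_UV A.2)
  right_inv q := Subtype.ext (UV_AA q.1)
  continuous_toFun := by
    refine Continuous.subtype_mk ?_ _
    have h : ∀ i j, Continuous fun A : ↥RP3 => A.1 i j := fun i j =>
      (continuous_apply_apply i j).comp continuous_subtype_val
    refine Continuous.prodMk ?_ ?_
    · refine continuous_pi fun i => ?_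
      fin_cases i
      · exact (((h 0 0).add (h 1 1)).sub (h 2 2)).sub (h 3 3)
      · exact continuous_const.mul ((h 1 2).add (h 0 3))
      · exact continuous_const.mul ((h 1 3).sub (h 0 2))
    · refine continuous_pi fun i => ?_
      fin_cases i
      · exact continuous_const.mul ((h 1 2).sub (h 0 3))
      · exact (((h 0 0).sub (h 1 1)).add (h 2 2)).sub (h 3 3)
      · exact continuous_const.mul ((h 2 3).add (h 0 1))
  continuous_invFun := by
    refine Continuous.subtype_mk ?_ _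
    have h : ∀ i, Continuous fun q : ↥V2 => q.1.1 i := fun i =>
      (continuous_apply i).comp (continuous_fst.comp continuous_subtype_val)
    have h' : ∀ i, Continuous fun q : ↥V2 => q.1.2 i := fun i =>
      (continuous_apply i).comp (continuous_snd.comp continuous_subtype_val)
    have a0 := h 0
    have a1 := h 1
    have a2 := h 2
    have b0 := h' 0
    have b1 := h' 1
    have b2 := h' 2
    refine continuous_pi fun i => continuous_pi fun j => ?_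
    fin_cases i <;> fin_cases j <;>
      simp only [AA, Matrix.cons_val, Fin.zero_eta, Fin.mk_one, Fin.reduceFinMk] <;>
      fun_prop

/-- the polar coordinates of the punctured plane -/
private noncomputable def homPol : ℝ × Circle ≃ₜ ↥({0}ᶜ : Set ℂ) where
  toFun p := ⟨(Real.exp p.1 : ℂ) * (p.2 : ℂ),
    mul_ne_zero (Complex.ofReal_ne_zero.2 (Real.exp_pos _).ne') p.2.coe_ne_zero⟩
  invFun z := (Real.log ‖(z : ℂ)‖, ⟨(z : ℂ) / (‖(z : ℂ)‖ : ℂ), by
    refine mem_sphere_zero_iff_norm.2 ?_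
    rw [norm_div, Complex.norm_real, norm_norm, div_self (norm_ne_zero_iff.2 z.2)]⟩)
  left_inv p := by
    have h1 : ‖(Real.exp p.1 : ℂ) * (p.2 : ℂ)‖ = Real.exp p.1 := by
      rw [norm_mul, Circle.norm_coe, mul_one, Complex.norm_real,
        Real.norm_of_nonneg (Real.exp_pos _).le]
    refine Prod.ext ?_ ?_
    · show Real.log ‖(Real.exp p.1 : ℂ) * (p.2 : ℂ)‖ = p.1
      rw [h1, Real.log_exp]
    · refine Circle.ext ?_
      show (Real.exp p.1 : ℂ) * (p.2 : ℂ) / (‖(Real.exp p.1 : ℂ) * (p.2 : ℂ)‖ : ℂ) = p.2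
      rw [h1, mul_div_cancel_left₀ _ (Complex.ofReal_ne_zero.2 (Real.exp_pos _).ne')]
  right_inv z := by
    refine Subtype.ext ?_
    show (Real.exp (Real.log ‖(z : ℂ)‖) : ℂ) * ((z : ℂ) / (‖(z : ℂ)‖ : ℂ)) = z
    have h0 : ‖(z : ℂ)‖ ≠ 0 := norm_ne_zero_iff.2 z.2
    rw [Real.exp_log (norm_pos_iff.2 z.2), mul_div_cancel₀ _ (Complex.ofReal_ne_zero.2 h0)]
  continuous_toFun := by
    refine Continuous.subtype_mk ?_ _
    exact (Complex.continuous_ofReal.comp (Real.continuous_exp.comp continuous_fst)).mul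
      (continuous_subtype_val.comp continuous_snd)
  continuous_invFun := by
    have h1 : Continuous fun z : ↥({0}ᶜ : Set ℂ) => ‖(z : ℂ)‖ :=
      continuous_norm.comp continuous_subtype_val
    refine Continuous.prodMk ?_ ?_
    · exact h1.log fun z => norm_ne_zero_iff.2 z.2
    · refine Continuous.subtype_mk ?_ _
      exact continuous_subtype_val.div (Complex.continuous_ofReal.comp h1) fun z =>
        Complex.ofReal_ne_zero.2 (norm_ne_zero_iff.2 z.2)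

private noncomputable def N2 (p : EuclideanSpace ℝ (Fin 6)) : ℝ := p 0 ^ 2 + p 1 ^ 2 + p 2 ^ 2
private noncomputable def Y2 (p : EuclideanSpace ℝ (Fin 6)) : ℝ := p 3 ^ 2 + p 4 ^ 2 + p 5 ^ 2
private noncomputable def MM (p : EuclideanSpace ℝ (Fin 6)) : ℝ :=
  p 0 * p 3 + p 1 * p 4 + p 2 * p 5
private noncomputable def K2 (p : EuclideanSpace ℝ (Fin 6)) : ℝ := N2 p * Y2 p - MM p ^ 2

private theorem N2_pos {p : EuclideanSpace ℝ (Fin 6)} (h : 0 < K2 p) : 0 < N2 p := by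
  have h1 : 0 ≤ N2 p := by
    unfold N2
    positivity
  rcases h1.lt_or_eq with h2 | h2
  · exact h2
  · unfold K2 at h
    rw [← h2, zero_mul, zero_sub] at h
    nlinarith [sq_nonneg (MM p)]

private noncomputable def bs (z : ℂ) : ℝ := (Real.sqrt (1 + z.re ^ 2 + Real.exp z.im ^ 2))⁻¹

private theorem bs_pos (z : ℂ) : 0 < bs z := by
  unfold bs
  have : 0 < 1 + z.re ^ 2 + Real.exp z.im ^ 2 := by positivity
  exact inv_pos.2 (Real.sqrt_pos.2 this)

private theorem bs_sq (z : ℂ) : bs z ^ 2 * (1 + z.re ^ 2 + Real.exp z.im ^ 2) = 1 := by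
  unfold bs
  have : 0 < 1 + z.re ^ 2 + Real.exp z.im ^ 2 := by positivity
  rw [inv_pow, Real.sq_sqrt this.le, inv_mul_cancel₀ this.ne']

private noncomputable def fw (q : (Fin 3 → ℝ) × (Fin 3 → ℝ)) (z : ℂ) : EuclideanSpace ℝ (Fin 6) :=
  WithLp.toLp 2 ![bs z * q.1 0, bs z * q.1 1, bs z * q.1 2,
    bs z * (z.re * q.1 0 + Real.exp z.im * q.2 0), bs z * (z.re * q.1 1 + Real.exp z.im * q.2 1),
    bs z * (z.re * q.1 2 + Real.exp z.im * q.2 2)]

private theorem normsq6 (p : EuclideanSpace ℝ (Fin 6)) : ‖p‖ ^ 2 = N2 p + Y2 p := by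
  rw [EuclideanSpace.norm_sq_eq, Fin.sum_univ_six]
  simp only [Real.norm_eq_abs, sq_abs]
  unfold N2 Y2
  ring

private theorem fw_N2 {q : (Fin 3 → ℝ) × (Fin 3 → ℝ)} (hq : q ∈ V2) (z : ℂ) :
    N2 (fw q z) = bs z ^ 2 := by
  obtain ⟨h1, h2, h3⟩ := hq
  show (bs z * q.1 0) ^ 2 + (bs z * q.1 1) ^ 2 + (bs z * q.1 2) ^ 2 = bs z ^ 2
  linear_combination (bs z ^ 2) * h1

private theorem fw_MM {q : (Fin 3 → ℝ) × (Fin 3 → ℝ)} (hq : q ∈ V2) (z : ℂ) :
    MM (fw q z) = bs z ^ 2 * z.re := by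
  obtain ⟨h1, h2, h3⟩ := hq
  show (bs z * q.1 0) * (bs z * (z.re * q.1 0 + Real.exp z.im * q.2 0)) +
    (bs z * q.1 1) * (bs z * (z.re * q.1 1 + Real.exp z.im * q.2 1)) +
    (bs z * q.1 2) * (bs z * (z.re * q.1 2 + Real.exp z.im * q.2 2)) = bs z ^ 2 * z.re
  linear_combination (bs z ^ 2 * z.re) * h1 + (bs z ^ 2 * Real.exp z.im) * h3

private theorem fw_Y2 {q : (Fin 3 → ℝ) × (Fin 3 → ℝ)} (hq : q ∈ V2) (z : ℂ) :
    Y2 (fw q z) = bs z ^ 2 * (z.re ^ 2 + Real.exp z.im ^ 2) := by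
  obtain ⟨h1, h2, h3⟩ := hq
  show (bs z * (z.re * q.1 0 + Real.exp z.im * q.2 0)) ^ 2 +
    (bs z * (z.re * q.1 1 + Real.exp z.im * q.2 1)) ^ 2 +
    (bs z * (z.re * q.1 2 + Real.exp z.im * q.2 2)) ^ 2 = _
  linear_combination (bs z ^ 2 * z.re ^ 2) * h1 + (bs z ^ 2 * Real.exp z.im ^ 2) * h2 +
    (2 * bs z ^ 2 * z.re * Real.exp z.im) * h3

private theorem fw_K2 {q : (Fin 3 → ℝ) × (Fin 3 → ℝ)} (hq : q ∈ V2) (z : ℂ) :
    K2 (fw q z) = (bs z ^ 2 * Real.exp z.im) ^ 2 := by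
  unfold K2
  rw [fw_N2 hq, fw_MM hq, fw_Y2 hq]
  ring

private theorem fw_norm {q : (Fin 3 → ℝ) × (Fin 3 → ℝ)} (hq : q ∈ V2) (z : ℂ) :
    ‖fw q z‖ = 1 := by
  have h1 : ‖fw q z‖ ^ 2 = 1 := by
    rw [normsq6, fw_N2 hq, fw_Y2 hq]
    linear_combination bs_sq z
  have h2 := norm_nonneg (fw q z)
  nlinarith

private noncomputable def bu (p : EuclideanSpace ℝ (Fin 6)) : Fin 3 → ℝ :=
  ![p 0 / Real.sqrt (N2 p), p 1 / Real.sqrt (N2 p), p 2 / Real.sqrt (N2 p)]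

private noncomputable def bv (p : EuclideanSpace ℝ (Fin 6)) : Fin 3 → ℝ :=
  ![(N2 p * p 3 - MM p * p 0) / (Real.sqrt (N2 p) * Real.sqrt (K2 p)),
    (N2 p * p 4 - MM p * p 1) / (Real.sqrt (N2 p) * Real.sqrt (K2 p)),
    (N2 p * p 5 - MM p * p 2) / (Real.sqrt (N2 p) * Real.sqrt (K2 p))]

private noncomputable def bz (p : EuclideanSpace ℝ (Fin 6)) : ℂ :=
  ⟨MM p / N2 p, Real.log (Real.sqrt (K2 p) / N2 p)⟩

private theorem b_mem {p : EuclideanSpace ℝ (Fin 6)} (h : 0 < K2 p) : (bu p, bv p) ∈ V2 := by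
  have hN := N2_pos h
  have r1 : Real.sqrt (N2 p) ^ 2 = N2 p := Real.sq_sqrt hN.le
  have r2 : Real.sqrt (K2 p) ^ 2 = K2 p := Real.sq_sqrt h.le
  have p1 : Real.sqrt (N2 p) ≠ 0 := (Real.sqrt_pos.2 hN).ne'
  have p2 : Real.sqrt (K2 p) ≠ 0 := (Real.sqrt_pos.2 h).ne'
  have hN' : N2 p = p 0 ^ 2 + p 1 ^ 2 + p 2 ^ 2 := rfl
  have hY' : Y2 p = p 3 ^ 2 + p 4 ^ 2 + p 5 ^ 2 := rfl
  have hM' : MM p = p 0 * p 3 + p 1 * p 4 + p 2 * p 5 := rfl
  have hK' : K2 p = N2 p * Y2 p - MM p ^ 2 := rfl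
  refine ⟨?_, ?_, ?_⟩
  · show (p 0 / Real.sqrt (N2 p)) ^ 2 + (p 1 / Real.sqrt (N2 p)) ^ 2 +
      (p 2 / Real.sqrt (N2 p)) ^ 2 = 1
    rw [div_pow, div_pow, div_pow, r1, ← add_div, ← add_div, ← hN', div_self hN.ne']
  · show ((N2 p * p 3 - MM p * p 0) / (Real.sqrt (N2 p) * Real.sqrt (K2 p))) ^ 2 +
      ((N2 p * p 4 - MM p * p 1) / (Real.sqrt (N2 p) * Real.sqrt (K2 p))) ^ 2 +
      ((N2 p * p 5 - MM p * p 2) / (Real.sqrt (N2 p) * Real.sqrt (K2 p))) ^ 2 = 1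
    rw [div_pow, div_pow, div_pow, mul_pow, r1, r2, ← add_div, ← add_div,
      div_eq_one_iff_eq (mul_ne_zero hN.ne' h.ne')]
    linear_combination (- N2 p) * hK' - N2 p ^ 2 * hY' - MM p ^ 2 * hN' + 2 * N2 p * MM p * hM'
  · show p 0 / Real.sqrt (N2 p) *
      ((N2 p * p 3 - MM p * p 0) / (Real.sqrt (N2 p) * Real.sqrt (K2 p))) +
      p 1 / Real.sqrt (N2 p) *
      ((N2 p * p 4 - MM p * p 1) / (Real.sqrt (N2 p) * Real.sqrt (K2 p))) +
      p 2 / Real.sqrt (N2 p) *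
      ((N2 p * p 5 - MM p * p 2) / (Real.sqrt (N2 p) * Real.sqrt (K2 p))) = 0
    rw [div_mul_div_comm, div_mul_div_comm, div_mul_div_comm, ← add_div, ← add_div,
      div_eq_zero_iff]
    left
    linear_combination MM p * hN' - N2 p * hM'

private theorem b_fw {q : (Fin 3 → ℝ) × (Fin 3 → ℝ)} (hq : q ∈ V2) (z : ℂ) :
    bu (fw q z) = q.1 ∧ bv (fw q z) = q.2 ∧ bz (fw q z) = z := by
  have hs := bs_pos z
  have hb := Real.exp_pos z.im
  have e1 : Real.sqrt (N2 (fw q z)) = bs z := by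
    rw [fw_N2 hq, Real.sqrt_sq hs.le]
  have e2 : Real.sqrt (K2 (fw q z)) = bs z ^ 2 * Real.exp z.im := by
    rw [fw_K2 hq, Real.sqrt_sq (by positivity)]
  have e3 := fw_N2 hq z
  have e4 := fw_MM hq z
  have c0 : (fw q z) 0 = bs z * q.1 0 := rfl
  have c1 : (fw q z) 1 = bs z * q.1 1 := rfl
  have c2 : (fw q z) 2 = bs z * q.1 2 := rfl
  have c3 : (fw q z) 3 = bs z * (z.re * q.1 0 + Real.exp z.im * q.2 0) := rfl
  have c4 : (fw q z) 4 = bs z * (z.re * q.1 1 + Real.exp z.im * q.2 1) := rfl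
  have c5 : (fw q z) 5 = bs z * (z.re * q.1 2 + Real.exp z.im * q.2 2) := rfl
  refine ⟨?_, ?_, ?_⟩
  · have key : ∀ a : ℝ, bs z * a / bs z = a := fun a => mul_div_cancel_left₀ a hs.ne'
    funext i
    fin_cases i
    · show (fw q z) 0 / Real.sqrt (N2 (fw q z)) = q.1 0
      rw [e1, c0, key]
    · show (fw q z) 1 / Real.sqrt (N2 (fw q z)) = q.1 1
      rw [e1, c1, key]
    · show (fw q z) 2 / Real.sqrt (N2 (fw q z)) = q.1 2
      rw [e1, c2, key]
  · have key : ∀ a b : ℝ, (bs z ^ 2 * (bs z * (z.re * a + Real.exp z.im * b)) -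
        bs z ^ 2 * z.re * (bs z * a)) / (bs z * (bs z ^ 2 * Real.exp z.im)) = b := by
      intro a b
      rw [div_eq_iff (by positivity)]
      ring
    funext i
    fin_cases i
    · show (N2 (fw q z) * (fw q z) 3 - MM (fw q z) * (fw q z) 0) /
        (Real.sqrt (N2 (fw q z)) * Real.sqrt (K2 (fw q z))) = q.2 0
      rw [e1, e2, e3, e4, c0, c3, key]
    · show (N2 (fw q z) * (fw q z) 4 - MM (fw q z) * (fw q z) 1) /
        (Real.sqrt (N2 (fw q z)) * Real.sqrt (K2 (fw q z))) = q.2 1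
      rw [e1, e2, e3, e4, c1, c4, key]
    · show (N2 (fw q z) * (fw q z) 5 - MM (fw q z) * (fw q z) 2) /
        (Real.sqrt (N2 (fw q z)) * Real.sqrt (K2 (fw q z))) = q.2 2
      rw [e1, e2, e3, e4, c2, c5, key]
  · refine Complex.ext ?_ ?_
    · show MM (fw q z) / N2 (fw q z) = z.re
      rw [e3, e4, mul_div_cancel_left₀ _ (pow_ne_zero 2 hs.ne')]
    · show Real.log (Real.sqrt (K2 (fw q z)) / N2 (fw q z)) = z.im
      rw [e2, e3, mul_div_cancel_left₀ _ (pow_ne_zero 2 hs.ne'), Real.log_exp]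

private theorem fw_b {p : EuclideanSpace ℝ (Fin 6)} (h : 0 < K2 p) (hp : ‖p‖ = 1) :
    fw (bu p, bv p) (bz p) = p := by
  have hN := N2_pos h
  have r1 : Real.sqrt (N2 p) ^ 2 = N2 p := Real.sq_sqrt hN.le
  have r2 : Real.sqrt (K2 p) ^ 2 = K2 p := Real.sq_sqrt h.le
  have p1 : 0 < Real.sqrt (N2 p) := Real.sqrt_pos.2 hN
  have p2 : 0 < Real.sqrt (K2 p) := Real.sqrt_pos.2 h
  have hre : (bz p).re = MM p / N2 p := rfl
  have him : Real.exp (bz p).im = Real.sqrt (K2 p) / N2 p := by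
    show Real.exp (Real.log (Real.sqrt (K2 p) / N2 p)) = _
    rw [Real.exp_log (div_pos p2 hN)]
  have hNY : N2 p + Y2 p = 1 := by rw [← normsq6, hp, one_pow]
  have hK' : K2 p = N2 p * Y2 p - MM p ^ 2 := rfl
  have hs : bs (bz p) = Real.sqrt (N2 p) := by
    unfold bs
    rw [him, hre, div_pow, div_pow, r2]
    have h1 : 1 + MM p ^ 2 / N2 p ^ 2 + K2 p / N2 p ^ 2 = (N2 p)⁻¹ := by
      have h2 : N2 p ≠ 0 := hN.ne'
      field_simp
      linear_combination hK' + N2 p * hNY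
    rw [h1, Real.sqrt_inv, inv_inv]
  have key1 : ∀ a : ℝ, Real.sqrt (N2 p) * (a / Real.sqrt (N2 p)) = a := fun a =>
    mul_div_cancel₀ a p1.ne'
  have key2 : ∀ a b : ℝ, Real.sqrt (N2 p) * (MM p / N2 p * (a / Real.sqrt (N2 p)) +
      Real.sqrt (K2 p) / N2 p * ((N2 p * b - MM p * a) / (Real.sqrt (N2 p) * Real.sqrt (K2 p)))) =
      b := by
    intro a b
    have h2 : N2 p ≠ 0 := hN.ne'
    have h3 : Real.sqrt (N2 p) ≠ 0 := p1.ne'
    have h4 : Real.sqrt (K2 p) ≠ 0 := p2.ne'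
    field_simp
    ring
  unfold fw
  rw [hs, him, hre]
  ext i
  fin_cases i
  · exact key1 _
  · exact key1 _
  · exact key1 _
  · exact key2 _ _
  · exact key2 _ _
  · exact key2 _ _

private theorem cont_N2 : Continuous N2 := by
  unfold N2
  fun_prop

private theorem cont_Y2 : Continuous Y2 := by
  unfold Y2
  fun_prop

private theorem cont_MM : Continuous MM := by
  unfold MM
  fun_prop

private theorem cont_K2 : Continuous K2 :=
  (cont_N2.mul cont_Y2).sub (cont_MM.pow 2)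

private noncomputable def homSph : ↥V2 × ℂ ≃ₜ ↥{p : Sph 5 | 0 < K2 p.1} where
  toFun x := ⟨⟨fw x.1.1 x.2, mem_sphere_zero_iff_norm.2 (fw_norm x.1.2 x.2)⟩, by
    show 0 < K2 (fw x.1.1 x.2)
    rw [fw_K2 x.1.2]
    have := bs_pos x.2
    positivity⟩
  invFun p := (⟨(bu p.1.1, bv p.1.1), b_mem p.2⟩, bz p.1.1)
  left_inv x := by
    obtain ⟨h1, h2, h3⟩ := b_fw x.1.2 x.2
    refine Prod.ext (Subtype.ext (Prod.ext h1 h2)) h3
  right_inv p := Subtype.ext (Subtype.ext (fw_b p.2 (mem_sphere_zero_iff_norm.1 p.1.2)))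
  continuous_toFun := by
    refine Continuous.subtype_mk (Continuous.subtype_mk ?_ _) _
    have hre : Continuous fun x : ↥V2 × ℂ => x.2.re := Complex.continuous_re.comp continuous_snd
    have him : Continuous fun x : ↥V2 × ℂ => Real.exp x.2.im :=
      Real.continuous_exp.comp (Complex.continuous_im.comp continuous_snd)
    have hbs : Continuous fun x : ↥V2 × ℂ => bs x.2 := by
      unfold bs
      refine Continuous.inv₀ ?_ ?_
      · exact Real.continuous_sqrt.comp ((continuous_const.add (hre.pow 2)).add (him.pow 2))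
      · intro x
        exact (Real.sqrt_pos.2 (by positivity)).ne'
    have h : ∀ i, Continuous fun x : ↥V2 × ℂ => x.1.1.1 i := fun i =>
      (continuous_apply i).comp (continuous_fst.comp (continuous_subtype_val.comp continuous_fst))
    have h' : ∀ i, Continuous fun x : ↥V2 × ℂ => x.1.1.2 i := fun i =>
      (continuous_apply i).comp (continuous_snd.comp (continuous_subtype_val.comp continuous_fst))
    unfold fw
    refine (PiLp.continuous_toLp 2 _).comp (continuous_pi fun i => ?_)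
    fin_cases i
    · exact hbs.mul (h 0)
    · exact hbs.mul (h 1)
    · exact hbs.mul (h 2)
    · exact hbs.mul ((hre.mul (h 0)).add (him.mul (h' 0)))
    · exact hbs.mul ((hre.mul (h 1)).add (him.mul (h' 1)))
    · exact hbs.mul ((hre.mul (h 2)).add (him.mul (h' 2)))
  continuous_invFun := by
    have hv : Continuous fun p : ↥{p : Sph 5 | 0 < K2 p.1} => (p.1.1 : EuclideanSpace ℝ (Fin 6)) :=
      continuous_subtype_val.comp continuous_subtype_val
    have hc : ∀ i, Continuous fun p : ↥{p : Sph 5 | 0 < K2 p.1} => p.1.1 i := fun i =>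
      (PiLp.continuous_apply 2 _ i).comp hv
    have hN : Continuous fun p : ↥{p : Sph 5 | 0 < K2 p.1} => N2 p.1.1 := cont_N2.comp hv
    have hM : Continuous fun p : ↥{p : Sph 5 | 0 < K2 p.1} => MM p.1.1 := cont_MM.comp hv
    have hK : Continuous fun p : ↥{p : Sph 5 | 0 < K2 p.1} => K2 p.1.1 := cont_K2.comp hv
    have hsN := Real.continuous_sqrt.comp hN
    have hsK := Real.continuous_sqrt.comp hK
    have hN0 : ∀ p : ↥{p : Sph 5 | 0 < K2 p.1}, N2 p.1.1 ≠ 0 := fun p => (N2_pos p.2).ne'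
    have hsN0 : ∀ p : ↥{p : Sph 5 | 0 < K2 p.1}, Real.sqrt (N2 p.1.1) ≠ 0 := fun p =>
      (Real.sqrt_pos.2 (N2_pos p.2)).ne'
    have hsK0 : ∀ p : ↥{p : Sph 5 | 0 < K2 p.1}, Real.sqrt (K2 p.1.1) ≠ 0 := fun p =>
      (Real.sqrt_pos.2 p.2).ne'
    refine Continuous.prodMk (Continuous.subtype_mk (Continuous.prodMk ?_ ?_) _) ?_
    · refine continuous_pi fun i => ?_
      fin_cases i
      · exact (hc 0).div hsN hsN0
      · exact (hc 1).div hsN hsN0
      · exact (hc 2).div hsN hsN0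
    · refine continuous_pi fun i => ?_
      fin_cases i
      · exact ((hN.mul (hc 3)).sub (hM.mul (hc 0))).div (hsN.mul hsK) fun p =>
          mul_ne_zero (hsN0 p) (hsK0 p)
      · exact ((hN.mul (hc 4)).sub (hM.mul (hc 1))).div (hsN.mul hsK) fun p =>
          mul_ne_zero (hsN0 p) (hsK0 p)
      · exact ((hN.mul (hc 5)).sub (hM.mul (hc 2))).div (hsN.mul hsK) fun p =>
          mul_ne_zero (hsN0 p) (hsK0 p)
    · have h1 : Continuous fun p : ↥{p : Sph 5 | 0 < K2 p.1} =>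
          Complex.equivRealProdCLM.symm (MM p.1.1 / N2 p.1.1,
            Real.log (Real.sqrt (K2 p.1.1) / N2 p.1.1)) := by
        refine Complex.equivRealProdCLM.symm.continuous.comp (Continuous.prodMk ?_ ?_)
        · exact hM.div hN hN0
        · exact (hsK.div hN hN0).log fun p => div_ne_zero (hsK0 p) (hN0 p)
      refine h1.congr fun p => ?_
      exact Complex.ext (by simp [bz]) (by simp [bz])

theorem exists_embS5 : ∃ E : (↥RP3 × ℝ) × Circle → Sph 5, IsOpenEmbedding E := by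
  have hO : IsOpen {p : Sph 5 | 0 < K2 p.1} :=
    isOpen_lt continuous_const (cont_K2.comp continuous_subtype_val)
  have h1 : IsOpenEmbedding (fun p : ℝ × Circle => (homPol p : ℂ)) :=
    (isOpen_compl_singleton.isOpenEmbedding_subtypeVal).comp homPol.isOpenEmbedding
  have h2 := homRP3.isOpenEmbedding.prodMap h1
  have h3 := hO.isOpenEmbedding_subtypeVal.comp (homSph.isOpenEmbedding.comp
    (h2.comp (Homeomorph.prodAssoc ↥RP3 ℝ Circle).isOpenEmbedding))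
  exact ⟨_, h3⟩

end Pool.Agent.Helper31.DS
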