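import Pool.Agent.Helper31.DS.E4
import Pool.Agent.Helper31.DS.E5

/-!
# DS-E6: the open embedding of `M × ℝ` in the five-sphere, `τ` is continuous (about 80-120 lines)

`M = {m | m.1 ∈ N} = N × Circle` as a subset of `(M4 × ℝ) × Circle`.  Compose the homeomorphism
`M × ℝ ≃ (N × ℝ) × Circle`, `exists_bicollar × id` and `exists_embS5`.
`isCompact_M`: `M = N ×ˢ univ`.
`continuousOn_tau`: `tauN` is continuous on `N`: the set `D` in the definition of `tauN` is
relatively closed in `N`; on `D ∩ N` `tauN` is given by the exponential formula (continuous,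
`x.1 0 0 > 0`), off `D` it is `1`; it remains to see that at points of the relative boundary of `D`
in `N` the exponential formula gives `1`.  Such a point lies in the chart, `x = chart p`, with
`|p 0| ≤ 1`, `|p 1| ≤ 1`, `1 ≤ t ≤ 3`, `F p t = 0`.  If `|p 2| < 1` then all the points `(p', t')` of
`N` near it lie in `D`: `F p' t' = 0`, `t' > 0`, and `|p' 0| - 2, |p' 1| - 2, |p' 2| - 1, t' - 4` are
negative, so the inner minimum is `0`, hence `|p' 0| ≤ 1`, `|p' 1| ≤ 1`, `|t' - 2| ≤ 1`.  And
`|p 2| > 1` is impossible (`F p t = 0`, `t ≥ 1` implies `|p 2| - 1 ≤ 0`).  So `|p 2| = 1` and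
`exp (i π (1 ± 1)) = 1`.
-/

namespace Pool.Agent.Helper31.DS

open Pool.Agent.Helper77.DS Pool.Agent.Helper82.DK2 Topology

private def homM : ↥M × ℝ ≃ₜ (↥N × ℝ) × Circle where
  toFun x := ((⟨x.1.1.1, x.1.2⟩, x.2), x.1.1.2)
  invFun y := (⟨(y.1.1.1, y.2), y.1.1.2⟩, y.1.2)
  left_inv _ := rfl
  right_inv _ := rfl
  continuous_toFun := by
    refine Continuous.prodMk (Continuous.prodMk (Continuous.subtype_mk ?_ _) continuous_snd) ?_
    · exact continuous_fst.comp (continuous_subtype_val.comp continuous_fst)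
    · exact continuous_snd.comp (continuous_subtype_val.comp continuous_fst)
  continuous_invFun := by
    refine Continuous.prodMk (Continuous.subtype_mk (Continuous.prodMk ?_ continuous_snd) _) ?_
    · exact continuous_subtype_val.comp (continuous_fst.comp continuous_fst)
    · exact continuous_snd.comp continuous_fst

theorem exists_e : ∃ e : ↥M × ℝ → Sph 5, IsOpenEmbedding e := by
  obtain ⟨E, hE⟩ := exists_bicollar
  obtain ⟨E', hE'⟩ := exists_embS5
  exact ⟨_, hE'.comp ((hE.prodMap (Homeomorph.refl Circle).isOpenEmbedding).comp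
    homM.isOpenEmbedding)⟩

theorem isCompact_M : IsCompact M := by
  have h : M = N ×ˢ (Set.univ : Set Circle) := by
    ext m
    exact ⟨fun h => ⟨h, Set.mem_univ _⟩, fun h => h.1⟩
  rw [h]
  exact isCompact_N.prod isCompact_univ

/-- the set where `tauN` is not constant -/
private def DD : Set (M4 × ℝ) :=
  {x | 0 < x.1 0 0 ∧ |x.1 0 1| ≤ x.1 0 0 ∧ |x.1 0 2| ≤ x.1 0 0 ∧ 1 ≤ x.2 ∧ x.2 ≤ 3}

private noncomputable def ff (x : M4 × ℝ) : Circle :=
  Circle.exp (Real.pi * (1 + x.1 0 3 / x.1 0 0))

private theorem tauN_mem {x : M4 × ℝ} (h : x ∈ DD) : tauN x = ff x := if_pos h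

private theorem tauN_notMem {x : M4 × ℝ} (h : x ∉ DD) : tauN x = 1 := if_neg h

private theorem cont_ent (i j : Fin 4) : Continuous fun x : M4 × ℝ => x.1 i j :=
  (continuous_apply_apply i j).comp continuous_fst

private theorem N_zero {x : M4 × ℝ} (hx : x ∈ N) (h0 : ¬ 0 < x.1 0 0) : x.2 = 0 := by
  rcases hx with ⟨p, hp, -⟩ | ⟨-, -, h⟩
  · rw [hp] at h0
    exact absurd (chart_00 p) h0
  · exact h

private theorem N_pos {x : M4 × ℝ} (hx : x ∈ N) (h0 : 0 < x.1 0 0) : F (pc x.1) x.2 = 0 := by
  rcases hx with ⟨p, hp, h⟩ | ⟨-, h, -⟩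
  · rw [hp, pc_chart]
    exact h
  · exact absurd h h0.ne'

private theorem F_zero {p : Fin 3 → ℝ} {t : ℝ} (ht : 0 < t) (h : F p t = 0) :
    max (|p 0| - 2) (max (|p 1| - 2) (max (|p 2| - 1) (max (t - 4)
    (min (1 - |p 0|) (min (1 - |p 1|) (1 - |t - 2|)))))) = 0 := by
  unfold F at h
  rcases min_choice t (max (|p 0| - 2) (max (|p 1| - 2) (max (|p 2| - 1) (max (t - 4)
    (min (1 - |p 0|) (min (1 - |p 1|) (1 - |t - 2|))))))) with h1 | h1
  · rw [h1] at h
    exact absurd h ht.ne'
  · rwa [h1] at h

private theorem notMem_open {x : M4 × ℝ} (hx : x ∈ N) (h : x ∉ DD) :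
    x.1 0 0 < |x.1 0 1| ∨ x.1 0 0 < |x.1 0 2| ∨ x.2 < 1 ∨ 3 < x.2 := by
  by_contra hcon
  push Not at hcon
  obtain ⟨h1, h2, h3, h4⟩ := hcon
  by_cases h0 : 0 < x.1 0 0
  · exact h ⟨h0, h1, h2, h3, h4⟩
  · have := N_zero hx h0
    linarith

private theorem continuousOn_tauN : ContinuousOn tauN N := by
  intro x hx
  by_cases hD : x ∈ DD
  · have h00 : 0 < x.1 0 0 := hD.1
    have hff : ContinuousAt ff x := by
      unfold ff
      refine Circle.exp.continuous.continuousAt.comp ?_
      exact continuousAt_const.mul (continuousAt_const.add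
        ((cont_ent 0 3).continuousAt.div (cont_ent 0 0).continuousAt h00.ne'))
    have hF := F_zero (by linarith [hD.2.2.2.1] : 0 < x.2) (N_pos hx h00)
    have hp2 : |pc x.1 2| ≤ 1 := by
      have h1 : |pc x.1 2| - 1 ≤ 0 := by
        rw [← hF]
        exact (le_max_left _ _).trans ((le_max_right _ _).trans (le_max_right _ _))
      linarith
    rcases hp2.lt_or_eq with hlt | heq
    · -- all points of `N` near `x` are in `DD`
      have hev : ∀ᶠ y in 𝓝[N] x, y ∈ DD := by
        have hpc : ContinuousAt (fun y : M4 × ℝ => pc y.1) x :=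
          (continuousAt_pc x.1 h00.ne').comp (x := x) continuousAt_fst
        have hi : ∀ i, ContinuousAt (fun y : M4 × ℝ => |pc y.1 i|) x := fun i =>
          (continuousAt_pi.1 hpc i).abs
        have b0 : |pc x.1 0| ≤ 1 := by
          show |x.1 0 1 / x.1 0 0| ≤ 1
          rw [abs_div, abs_of_pos h00, div_le_one h00]
          exact hD.2.1
        have b1 : |pc x.1 1| ≤ 1 := by
          show |x.1 0 2 / x.1 0 0| ≤ 1
          rw [abs_div, abs_of_pos h00, div_le_one h00]
          exact hD.2.2.1
        have c0 : ∀ᶠ y in 𝓝 x, 0 < y.1 0 0 :=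
          (isOpen_lt continuous_const (cont_ent 0 0)).mem_nhds h00
        have c1 : ∀ᶠ y in 𝓝 x, 0 < y.2 :=
          (isOpen_lt continuous_const continuous_snd).mem_nhds
            (show 0 < x.2 by linarith [hD.2.2.2.1])
        have c2 : ∀ᶠ y in 𝓝 x, y.2 < 4 :=
          (isOpen_lt continuous_snd continuous_const).mem_nhds
            (show x.2 < 4 by linarith [hD.2.2.2.2])
        have c3 : ∀ᶠ y in 𝓝 x, |pc y.1 0| < 2 :=
          (hi 0).eventually_lt continuousAt_const (by linarith)
        have c4 : ∀ᶠ y in 𝓝 x, |pc y.1 1| < 2 :=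
          (hi 1).eventually_lt continuousAt_const (by linarith)
        have c5 : ∀ᶠ y in 𝓝 x, |pc y.1 2| < 1 :=
          (hi 2).eventually_lt continuousAt_const hlt
        filter_upwards [self_mem_nhdsWithin, nhdsWithin_le_nhds c0, nhdsWithin_le_nhds c1,
          nhdsWithin_le_nhds c2, nhdsWithin_le_nhds c3, nhdsWithin_le_nhds c4,
          nhdsWithin_le_nhds c5] with y hy d0 d1 d2 d3 d4 d5
        have hFy := F_zero d1 (N_pos hy d0)
        have hm : 0 ≤ min (1 - |pc y.1 0|) (min (1 - |pc y.1 1|) (1 - |y.2 - 2|)) := by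
          by_contra hneg
          push Not at hneg
          have : max (|pc y.1 0| - 2) (max (|pc y.1 1| - 2) (max (|pc y.1 2| - 1) (max (y.2 - 4)
              (min (1 - |pc y.1 0|) (min (1 - |pc y.1 1|) (1 - |y.2 - 2|)))))) < 0 :=
            max_lt (by linarith) (max_lt (by linarith) (max_lt (by linarith)
              (max_lt (by linarith) hneg)))
          linarith
        rw [le_min_iff, le_min_iff] at hm
        obtain ⟨m0, m1, m2⟩ := hm
        have m2' := abs_le.1 (show |y.2 - 2| ≤ 1 by linarith)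
        refine ⟨d0, ?_, ?_, by linarith [m2'.1], by linarith [m2'.2]⟩
        · have h2 : |y.1 0 1 / y.1 0 0| ≤ 1 := by
            have : |pc y.1 0| ≤ 1 := by linarith
            exact this
          rwa [abs_div, abs_of_pos d0, div_le_one d0] at h2
        · have h2 : |y.1 0 2 / y.1 0 0| ≤ 1 := by
            have : |pc y.1 1| ≤ 1 := by linarith
            exact this
          rwa [abs_div, abs_of_pos d0, div_le_one d0] at h2
      refine (hff.continuousWithinAt).congr_of_eventuallyEq ?_ (tauN_mem hD)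
      filter_upwards [hev] with y hy
      exact tauN_mem hy
    · have h1 : ff x = 1 := by
        have h2 : |x.1 0 3 / x.1 0 0| = 1 := heq
        unfold ff
        rcases eq_or_eq_neg_of_abs_eq h2 with h3 | h3
        · rw [h3, show Real.pi * (1 + 1) = 2 * Real.pi by ring]
          exact Circle.exp_two_pi
        · rw [h3, add_neg_cancel, mul_zero]
          exact Circle.exp_zero
      intro V hV
      rw [tauN_mem hD, h1] at hV
      have hV' : ff ⁻¹' V ∈ 𝓝 x := hff (by rw [h1]; exact hV)
      change ∀ᶠ y in 𝓝[N] x, tauN y ∈ V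
      filter_upwards [nhdsWithin_le_nhds hV'] with y hy
      by_cases hyD : y ∈ DD
      · show tauN y ∈ V
        rw [tauN_mem hyD]
        exact hy
      · show tauN y ∈ V
        rw [tauN_notMem hyD]
        exact mem_of_mem_nhds hV
  · -- `x` is not in `DD`
    have hev : ∀ᶠ y in 𝓝[N] x, y ∉ DD := by
      refine nhdsWithin_le_nhds ?_
      rcases notMem_open hx hD with h | h | h | h
      · filter_upwards [(isOpen_lt (cont_ent 0 0) (cont_ent 0 1).abs).mem_nhds h] with y hy hyD
        exact absurd hyD.2.1 (not_le.2 hy)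
      · filter_upwards [(isOpen_lt (cont_ent 0 0) (cont_ent 0 2).abs).mem_nhds h] with y hy hyD
        exact absurd hyD.2.2.1 (not_le.2 hy)
      · filter_upwards [(isOpen_lt continuous_snd continuous_const).mem_nhds h] with y hy hyD
        exact absurd hyD.2.2.2.1 (not_le.2 hy)
      · filter_upwards [(isOpen_lt continuous_const continuous_snd).mem_nhds h] with y hy hyD
        exact absurd hyD.2.2.2.2 (not_le.2 hy)
    refine (continuousWithinAt_const (b := (1 : Circle))).congr_of_eventuallyEq ?_ (tauN_notMem hD)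
    filter_upwards [hev] with y hy
    exact tauN_notMem hy

theorem continuousOn_tau : ContinuousOn tau M := by
  unfold tau
  refine ContinuousOn.mul ?_ ?_
  · exact continuousOn_tauN.comp continuous_fst.continuousOn fun m hm => hm
  · exact (continuous_snd.pow 3).continuousOn

end Pool.Agent.Helper31.DS
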