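import Pool.Agent.Helper31.DS.Defs

/-!
# DS-G4: the stereographic coordinates (about 80-120 lines)

`(z1, z2) : ℝ × ℂ → ℂ × ℂ` is inverted, up to positive multiples, by `sg`.

Facts: with `ρ² = s² + |w|²`: `z1 + z2 = 4 w`, `z1 - z2 = 2 (ρ² - 1) + 4 i s`,
`2 (|z1|² + |z2|²) = |z1 + z2|² + |z1 - z2|² = 16 |w|² + 4 (ρ² - 1)² + 16 s² = 4 (ρ² + 1)²`, so
`nn (z1, z2) = 2 (ρ² + 1)` and `nn - Re (z1 - z2) = 4`; this gives `sg_z`.
`z_sg`: let `D = nn (a, b) - Re (a - b) > 0` and `(s, w) = sg (a, b)`. Then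
`ρ² = (Im (a-b)² + |a+b|²) / D²` and `nn² = 2 (|a|² + |b|²) = |a + b|² + |a - b|²`, so
`Im (a - b)² + |a + b|² = nn² - Re (a - b)² = D (nn + Re (a - b))`, so
`ρ² = (nn + Re (a-b)) / D`, `ρ² - 1 = 2 Re (a - b) / D`, hence `z1 - z2 = 4 (a - b) / D`,
`z1 + z2 = 4 (a + b) / D`, and the constant is `c = 4 / D`.
`nn_pos`: `nn² - Re (a - b)² = Im (a-b)² + |a+b|²`, which is zero iff `b = -a` and `a` is real; and
then `nn = 2 |a|`, `Re (a - b) = 2 a`.
-/

namespace Pool.Agent.Helper31.DS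

open Complex

noncomputable def nn (q : ℂ × ℂ) : ℝ := Real.sqrt (2 * (‖q.1‖ ^ 2 + ‖q.2‖ ^ 2))

noncomputable def sg (q : ℂ × ℂ) : ℝ × ℂ :=
  ((q.1 - q.2).im / (nn q - (q.1 - q.2).re), (q.1 + q.2) / ((nn q - (q.1 - q.2).re : ℝ) : ℂ))

theorem continuous_z1 : Continuous z1 := by
  unfold z1
  fun_prop

theorem continuous_z2 : Continuous z2 := by
  unfold z2
  fun_prop

theorem z_add (p : ℝ × ℂ) : z1 p + z2 p = 4 * p.2 := by
  unfold z1 z2
  push_cast
  ring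

theorem z_sub (p : ℝ × ℂ) :
    z1 p - z2 p = ⟨2 * (p.1 ^ 2 + ‖p.2‖ ^ 2 - 1), 4 * p.1⟩ := by
  apply Complex.ext
  · unfold z1 z2
    simp only [Complex.sub_re, Complex.add_re, Complex.ofReal_re, Complex.mul_re, Complex.re_ofNat,
      Complex.im_ofNat, Complex.I_re, Complex.I_im, Complex.mul_im, Complex.ofReal_im]
    ring
  · unfold z1 z2
    simp only [Complex.sub_im, Complex.add_im, Complex.ofReal_re, Complex.mul_re, Complex.re_ofNat,
      Complex.im_ofNat, Complex.I_re, Complex.I_im, Complex.mul_im, Complex.ofReal_im]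
    ring

theorem nn_nonneg (q : ℂ × ℂ) : 0 ≤ nn q := Real.sqrt_nonneg _

theorem nn_sq (q : ℂ × ℂ) :
    nn q ^ 2 = (q.1 - q.2).re ^ 2 + (q.1 - q.2).im ^ 2 + ‖q.1 + q.2‖ ^ 2 := by
  unfold nn
  rw [Real.sq_sqrt (by positivity), Complex.sq_norm, Complex.sq_norm, Complex.sq_norm,
    Complex.normSq_apply, Complex.normSq_apply, Complex.normSq_apply]
  simp only [Complex.sub_re, Complex.sub_im, Complex.add_re, Complex.add_im]
  ring

theorem z_ne_zero (p : ℝ × ℂ) : z1 p ≠ 0 ∨ z2 p ≠ 0 := by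
  by_contra hcon
  push Not at hcon
  obtain ⟨h1, h2⟩ := hcon
  have h3 := z_add p
  have h4 := z_sub p
  rw [h1, h2] at h3 h4
  have hw : p.2 = 0 := by
    have : (4 : ℂ) * p.2 = 0 := by rw [← h3]; ring
    simpa using this
  have hs : p.1 = 0 := by
    have := congrArg Complex.im h4
    simp at this
    linarith
  have hr := congrArg Complex.re h4
  simp [hw, hs] at hr

/-- Every positive multiple of `(z1 p, z2 p)` lies in the domain of `sg` and is mapped to `p`. -/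
theorem sg_z (c : ℝ) (hc : 0 < c) (p : ℝ × ℂ) :
    (((c : ℂ) * z1 p - c * z2 p).re < nn (c * z1 p, c * z2 p)) ∧
      sg (c * z1 p, c * z2 p) = p := by
  have hsub : (c : ℂ) * z1 p - c * z2 p =
      (c : ℂ) * ⟨2 * (p.1 ^ 2 + ‖p.2‖ ^ 2 - 1), 4 * p.1⟩ := by
    rw [← mul_sub, z_sub]
  have hadd : (c : ℂ) * z1 p + c * z2 p = (c : ℂ) * (4 * p.2) := by
    rw [← mul_add, z_add]
  have hre : ((c : ℂ) * z1 p - c * z2 p).re = c * (2 * (p.1 ^ 2 + ‖p.2‖ ^ 2 - 1)) := by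
    rw [hsub, Complex.re_ofReal_mul]
  have him : ((c : ℂ) * z1 p - c * z2 p).im = c * (4 * p.1) := by
    rw [hsub, Complex.im_ofReal_mul]
  have hnn : nn (c * z1 p, c * z2 p) = 2 * c * (p.1 ^ 2 + ‖p.2‖ ^ 2 + 1) := by
    have h1 := nn_sq (c * z1 p, c * z2 p)
    simp only at h1
    rw [hre, him, hadd, norm_mul, norm_mul, Complex.norm_real, Real.norm_of_nonneg hc.le,
      show ‖(4 : ℂ)‖ = 4 by simp] at h1
    have h2 : nn (c * z1 p, c * z2 p) ^ 2 = (2 * c * (p.1 ^ 2 + ‖p.2‖ ^ 2 + 1)) ^ 2 := by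
      rw [h1]; ring
    exact (pow_left_inj₀ (nn_nonneg _) (by positivity) two_ne_zero).1 h2
  have hD : nn (c * z1 p, c * z2 p) - ((c : ℂ) * z1 p - c * z2 p).re = 4 * c := by
    rw [hnn, hre]; ring
  refine ⟨by linarith, ?_⟩
  unfold sg
  simp only
  rw [hD, him, hadd]
  have hc' : (c : ℂ) ≠ 0 := by exact_mod_cast hc.ne'
  apply Prod.ext
  · simp only
    field_simp
  · simp only
    push_cast
    field_simp

theorem z_sg (q : ℂ × ℂ) (hq : (q.1 - q.2).re < nn q) :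
    ∃ c : ℝ, 0 < c ∧ z1 (sg q) = c * q.1 ∧ z2 (sg q) = c * q.2 := by
  have hnn := nn_sq q
  obtain ⟨D, hD⟩ : ∃ D : ℝ, D = nn q - (q.1 - q.2).re := ⟨_, rfl⟩
  have hD0 : 0 < D := by rw [hD]; linarith
  have hn : nn q = D + (q.1 - q.2).re := by rw [hD]; ring
  have hrho : ((q.1 - q.2).im / D) ^ 2 + ‖(q.1 + q.2) / ((D : ℝ) : ℂ)‖ ^ 2 - 1 =
      2 * (q.1 - q.2).re / D := by
    rw [norm_div, Complex.norm_real, Real.norm_of_nonneg hD0.le]
    rw [hn] at hnn
    field_simp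
    linarith
  have hsg : sg q = ((q.1 - q.2).im / D, (q.1 + q.2) / ((D : ℝ) : ℂ)) := by
    unfold sg
    rw [hD]
  have hD' : (D : ℂ) ≠ 0 := by exact_mod_cast hD0.ne'
  have hab : q.1 - q.2 = ((q.1 - q.2).re : ℂ) + ((q.1 - q.2).im : ℂ) * I :=
    (Complex.re_add_im _).symm
  refine ⟨4 / D, by positivity, ?_, ?_⟩
  · rw [hsg]
    unfold z1
    simp only
    rw [hrho]
    push_cast
    have h3 : (2 : ℂ) * ((q.1 - q.2).re : ℂ) / D + 2 * ((q.1 + q.2) / D) +
        2 * I * (((q.1 - q.2).im : ℂ) / D) =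
        (2 * (((q.1 - q.2).re : ℂ) + ((q.1 - q.2).im : ℂ) * I) + 2 * (q.1 + q.2)) / D := by
      field_simp
      ring
    rw [h3, ← hab]
    field_simp
    ring
  · rw [hsg]
    unfold z2
    simp only
    have h4 : (1 - ((q.1 - q.2).im / D) ^ 2 - ‖(q.1 + q.2) / ((D : ℝ) : ℂ)‖ ^ 2 : ℝ) =
        - (2 * (q.1 - q.2).re / D) := by
      rw [← hrho]; ring
    rw [h4]
    push_cast
    have h3 : -((2 : ℂ) * ((q.1 - q.2).re : ℂ) / D) + 2 * ((q.1 + q.2) / D) -
        2 * I * (((q.1 - q.2).im : ℂ) / D) =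
        (-(2 * (((q.1 - q.2).re : ℂ) + ((q.1 - q.2).im : ℂ) * I)) + 2 * (q.1 + q.2)) / D := by
      field_simp
      ring
    rw [h3, ← hab]
    field_simp
    ring

theorem nn_pos (q : ℂ × ℂ) (hq : ∀ c : ℝ, 0 ≤ c → q ≠ ((c : ℂ), -(c : ℂ))) :
    (q.1 - q.2).re < nn q := by
  by_contra hcon
  push Not at hcon
  have h0 := nn_nonneg q
  have h1 := nn_sq q
  have h2 : nn q ^ 2 ≤ (q.1 - q.2).re ^ 2 := pow_le_pow_left₀ h0 hcon 2
  have h3 : (q.1 - q.2).im ^ 2 = 0 := by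
    nlinarith [sq_nonneg (q.1 - q.2).im, sq_nonneg ‖q.1 + q.2‖]
  have h4 : ‖q.1 + q.2‖ ^ 2 = 0 := by
    nlinarith [sq_nonneg (q.1 - q.2).im, sq_nonneg ‖q.1 + q.2‖]
  have h5 : q.1 + q.2 = 0 := by
    rw [← norm_eq_zero]
    exact pow_eq_zero_iff (two_ne_zero) |>.1 h4
  have h6 : (q.1 - q.2).im = 0 := pow_eq_zero_iff (two_ne_zero) |>.1 h3
  have h7 : q.2 = -q.1 := by linear_combination h5
  rw [h7, sub_neg_eq_add, Complex.add_im] at h6
  rw [h7, sub_neg_eq_add, Complex.add_re] at hcon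
  have h8 : q.1.im = 0 := by linarith
  have h9 : 0 ≤ q.1.re := by linarith
  have h10 : q.1 = (q.1.re : ℂ) := by
    apply Complex.ext
    · simp
    · simp [h8]
  exact hq q.1.re h9 (Prod.ext h10 (by rw [h7]; simp only; rw [← h10]))

theorem continuous_nn : Continuous nn := by
  unfold nn
  fun_prop

theorem continuousOn_sg : ContinuousOn sg {q | (q.1 - q.2).re < nn q} := by
  have hn : ContinuousOn (fun q : ℂ × ℂ => nn q - (q.1 - q.2).re)
      {q | (q.1 - q.2).re < nn q} := by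
    apply Continuous.continuousOn
    have := continuous_nn
    fun_prop
  unfold sg
  apply ContinuousOn.prodMk
  · apply ContinuousOn.div _ hn
    · intro q hq
      have : (q.1 - q.2).re < nn q := hq
      linarith
    · apply Continuous.continuousOn
      fun_prop
  · apply ContinuousOn.div
    · apply Continuous.continuousOn
      fun_prop
    · exact Complex.continuous_ofReal.comp_continuousOn hn
    · intro q hq
      have : (q.1 - q.2).re < nn q := hq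
      have h2 : nn q - (q.1 - q.2).re ≠ 0 := by linarith
      exact_mod_cast h2

end Pool.Agent.Helper31.DS
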