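import Pool.Agent.Helper31.DS.G3
import Pool.Agent.Helper31.DS.G4

/-!
# DS-G5: the complement of the long trefoil is the complement of the trefoil (about 150-250 lines)

Proof.  Let `p' = (3 s, 3 w)`, `a = z1 p'`, `b = z2 p'`, `f = G2 a + G3 b = 12 h p ≠ 0` and
`λ = ‖f‖^(-1/6)` (real power).  Define
`Ψ p = (λ^3 · Q2 a / √‖a‖, - λ^2 · Q3 b / ‖b‖^(2/3))` with the convention `0 / 0 = 0`
(`Q2 0 = 0`, Lean division by zero is fine).  The function `z ↦ Q2 z / √‖z‖` is continuous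
(at `0`: the norm is `√‖z‖`), same for `Q3 z / ‖z‖^(2/3)` (the norm is `‖z‖^(1/3)`).  With
`(x, y) = Ψ p`: `x² = λ^6 G2 a`, `y³ = - λ^6 G3 b` (also if `a = 0` or `b = 0`), so
`x² - y³ = λ^6 f = f / ‖f‖ = h p / ‖h p‖`, which has norm one.
Inverse: for `(x, y) ∈ Zt` put `a' = Q2⁻¹ (‖x‖ x)`, `b' = Q3⁻¹ (- ‖y‖² y)`; then `‖a'‖ = ‖x‖²`,
`‖b'‖ = ‖y‖³`, `G2 a' = x²`, `G3 b' = - y³` (`‖a'‖ G2 a' = Q2 a' ^ 2 = ‖x‖² x²`, the case `x = 0`
separately), so `G2 a' + G3 b' = x² - y³ ≠ 0`; in particular `(a', b')` is not `(c, -c)` with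
`c ≥ 0` because `G2 c + G3 (-c) = c - c = 0`.  So by `nn_pos`, `continuousOn_sg` the point
`sg (a', b')` depends continuously on `(x, y)`; the inverse map is `(x, y) ↦ sg (a', b') / 3`.
By `z_sg` `(z1, z2) (sg (a', b')) = c (a', b')`, `c > 0`, so `h ≠ 0` there, and the homogeneity of
`Q2`, `Q3`, `G2`, `G3` gives that the two maps are inverse to each other: for
`(a, b) = c (a', b')`, `f = c (x² - y³)`, `λ^6 = 1 / c` and
`λ^3 Q2 a / √‖a‖ = λ^3 √c Q2 a' / √‖a'‖ = ‖x‖ x / ‖x‖ = x`, same for `y`; conversely if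
`(x, y) = Ψ p` then `‖x‖ x = λ^6 Q2 a = Q2 (λ^6 a)`, so `a' = λ^6 a`, and
`- ‖y‖² y = λ^6 Q3 b`, so `b' = λ^6 b`, and `sg_z` gives back `p'`.
-/

namespace Pool.Agent.Helper31.DS

open Complex

namespace G5

/-- the radial homeomorphism `x ↦ ‖x‖ ^ k x` of the plane -/
theorem exists_P (k : ℕ) : ∃ P : ℂ ≃ₜ ℂ, ∀ x, P x = ((‖x‖ ^ k : ℝ) : ℂ) * x := by
  set c : ℝ := -(k : ℝ) / (k + 1) with hc
  have hk : (0 : ℝ) < (k : ℝ) + 1 := by positivity
  have hc1 : ((k + 1 : ℕ) : ℝ) * c = -(k : ℝ) := by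
    rw [hc]
    push_cast
    field_simp
  have hc2 : c + 1 = 1 / ((k : ℝ) + 1) := by
    rw [hc]
    field_simp
    ring
  have hc3 : (c + 1) * (k : ℝ) + c = 0 := by
    rw [hc]
    field_simp
    ring
  have hinorm : ∀ z : ℂ, ‖((‖z‖ ^ c : ℝ) : ℂ) * z‖ = ‖z‖ ^ (c + 1) := by
    intro z
    rw [norm_mul, Complex.norm_real, Real.norm_of_nonneg (Real.rpow_nonneg (norm_nonneg _) _)]
    rcases eq_or_ne z 0 with rfl | hz
    · rw [norm_zero, mul_zero, Real.zero_rpow]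
      rw [hc2]
      positivity
    · rw [Real.rpow_add (norm_pos_iff.2 hz), Real.rpow_one]
  refine ⟨{ toFun := fun x => ((‖x‖ ^ k : ℝ) : ℂ) * x
            invFun := fun z => ((‖z‖ ^ c : ℝ) : ℂ) * z
            left_inv := ?_
            right_inv := ?_
            continuous_toFun := ?_
            continuous_invFun := ?_ }, fun x => rfl⟩
  · intro x
    simp only
    rcases eq_or_ne x 0 with rfl | hx
    · simp
    · have hn : 0 < ‖x‖ := norm_pos_iff.2 hx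
      have h1 : ‖((‖x‖ ^ k : ℝ) : ℂ) * x‖ = ‖x‖ ^ (k + 1) := by
        rw [norm_mul, Complex.norm_real, Real.norm_of_nonneg (by positivity), pow_succ]
      rw [h1, ← Real.rpow_natCast ‖x‖ (k + 1), ← Real.rpow_mul hn.le, hc1, ← mul_assoc,
        ← Complex.ofReal_mul, Real.rpow_neg hn.le, Real.rpow_natCast,
        inv_mul_cancel₀ (by positivity)]
      simp
  · intro z
    simp only
    rw [hinorm]
    rcases eq_or_ne z 0 with rfl | hz
    · simp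
    · have hn : 0 < ‖z‖ := norm_pos_iff.2 hz
      rw [← mul_assoc, ← Complex.ofReal_mul, ← Real.rpow_natCast (‖z‖ ^ (c + 1)) k,
        ← Real.rpow_mul hn.le, ← Real.rpow_add hn, hc3, Real.rpow_zero]
      simp
  · show Continuous fun x : ℂ => ((‖x‖ ^ k : ℝ) : ℂ) * x
    fun_prop
  · show Continuous fun z : ℂ => ((‖z‖ ^ c : ℝ) : ℂ) * z
    rw [continuous_iff_continuousAt]
    intro z
    rcases eq_or_ne z 0 with rfl | hz
    · have h0 : ((‖(0 : ℂ)‖ ^ c : ℝ) : ℂ) * 0 = 0 := mul_zero _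
      rw [ContinuousAt, h0, tendsto_zero_iff_norm_tendsto_zero]
      have h1 : (fun z : ℂ => ‖((‖z‖ ^ c : ℝ) : ℂ) * z‖) = fun z : ℂ => ‖z‖ ^ (c + 1) := by
        funext z
        exact hinorm z
      rw [h1]
      have h2 : Continuous fun z : ℂ => ‖z‖ ^ (c + 1) := by
        refine (Real.continuous_rpow_const ?_).comp continuous_norm
        rw [hc2]
        positivity
      have h3 := h2.tendsto (0 : ℂ)
      rw [norm_zero, Real.zero_rpow (by rw [hc2]; positivity)] at h3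
      exact h3
    · have h1 : ContinuousAt (fun z : ℂ => ‖z‖ ^ c) z :=
        (continuous_norm.continuousAt).rpow_const (Or.inl (norm_ne_zero_iff.2 hz))
      exact (Complex.continuous_ofReal.continuousAt.comp h1).mul continuousAt_id

theorem exists_R2 : ∃ R : ℂ ≃ₜ ℂ, ∀ z, R z ^ 2 = G2 z := by
  obtain ⟨Q, hQ1, -, hQ3⟩ := exists_Q2
  obtain ⟨P, hP⟩ := exists_P 1
  refine ⟨Q.trans P.symm, fun z => ?_⟩
  set r := (Q.trans P.symm) z with hr
  have h1 : P r = Q z := P.apply_symm_apply (Q z)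
  rw [hP, pow_one] at h1
  have h2 : ‖r‖ * ‖r‖ = ‖z‖ := by
    rw [← hQ1 z, ← h1, norm_mul, Complex.norm_real, norm_norm]
  have h3 := hQ3 z
  rw [← h1] at h3
  rcases eq_or_ne z 0 with rfl | hz
  · have h4 : ‖r‖ = 0 := by
      rw [norm_zero] at h2
      exact mul_self_eq_zero.1 h2
    rw [norm_eq_zero.1 h4]
    have h5 := norm_G2 0
    rw [norm_zero] at h5
    rw [norm_eq_zero.1 h5]
    simp
  · have h6 : (‖z‖ : ℂ) ≠ 0 := by
      exact_mod_cast norm_ne_zero_iff.2 hz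
    have h7 : (‖z‖ : ℂ) * r ^ 2 = ‖z‖ * G2 z := by
      rw [← h3, ← h2]
      push_cast
      ring
    exact mul_left_cancel₀ h6 h7

theorem exists_R3 : ∃ R : ℂ ≃ₜ ℂ, ∀ z, R z ^ 3 = G3 z := by
  obtain ⟨Q, hQ1, -, hQ3⟩ := exists_Q3
  obtain ⟨P, hP⟩ := exists_P 2
  refine ⟨Q.trans P.symm, fun z => ?_⟩
  set r := (Q.trans P.symm) z with hr
  have h1 : P r = Q z := P.apply_symm_apply (Q z)
  rw [hP] at h1
  have h2 : ‖r‖ ^ 3 = ‖z‖ := by
    rw [← hQ1 z, ← h1, norm_mul, Complex.norm_real, norm_pow, norm_norm]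
    ring
  have h3 := hQ3 z
  rw [← h1] at h3
  rcases eq_or_ne z 0 with rfl | hz
  · have h4 : ‖r‖ = 0 := by
      rw [norm_zero] at h2
      exact pow_eq_zero_iff (by norm_num) |>.1 h2
    rw [norm_eq_zero.1 h4]
    have h5 := norm_G3 0
    rw [norm_zero] at h5
    rw [norm_eq_zero.1 h5]
    simp
  · have h6 : (‖z‖ : ℂ) ^ 2 ≠ 0 := by
      apply pow_ne_zero
      exact_mod_cast norm_ne_zero_iff.2 hz
    have h7 : (‖z‖ : ℂ) ^ 2 * r ^ 3 = (‖z‖ : ℂ) ^ 2 * G3 z := by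
      rw [← h3, ← h2]
      push_cast
      ring
    exact mul_left_cancel₀ h6 h7

/-- the model with the functions `G2`, `G3` -/
def Wt : Set (ℂ × ℂ) := {q | ‖G2 q.1 + G3 q.2‖ = 1}

theorem exists_H2 : ∃ H : ↥Wt ≃ₜ ↥Zt,
    ∀ q, ((H q : ℂ × ℂ).1 ^ 2 - (H q : ℂ × ℂ).2 ^ 3) = G2 (q : ℂ × ℂ).1 + G3 (q : ℂ × ℂ).2 := by
  obtain ⟨R2, hR2⟩ := exists_R2
  obtain ⟨R3, hR3⟩ := exists_R3
  set H : ℂ × ℂ ≃ₜ ℂ × ℂ := R2.prodCongr (R3.trans (Homeomorph.neg ℂ)) with hH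
  have hval : ∀ q : ℂ × ℂ, (H q).1 ^ 2 - (H q).2 ^ 3 = G2 q.1 + G3 q.2 := by
    intro q
    have h1 : (H q).1 = R2 q.1 := rfl
    have h2 : (H q).2 = - R3 q.2 := rfl
    rw [h1, h2, hR2, ← hR3]
    ring
  have hset : ∀ q : ℂ × ℂ, q ∈ Wt ↔ H q ∈ Zt := by
    intro q
    unfold Wt Zt
    rw [Set.mem_ofPred_eq, Set.mem_ofPred_eq, hval]
  refine ⟨H.subtype hset, fun q => ?_⟩
  exact hval q

theorem G_neg (c : ℝ) (hc : 0 ≤ c) : G2 (c : ℂ) + G3 (-(c : ℂ)) = 0 := by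
  unfold G2 G3
  rw [if_pos (by simpa using hc), if_pos (by simpa using hc)]
  ring

theorem Wt_dom {q : ℂ × ℂ} (hq : q ∈ Wt) : (q.1 - q.2).re < nn q := by
  apply nn_pos
  rintro c hc rfl
  have h1 : ‖G2 (c : ℂ) + G3 (-(c : ℂ))‖ = 1 := hq
  rw [G_neg c hc, norm_zero] at h1
  exact zero_ne_one h1

/-- the scaled point -/
noncomputable def sc (p : ℝ × ℂ) : ℝ × ℂ := (3 * p.1, 3 * p.2)

theorem h_sc (p : ℝ × ℂ) : G2 (z1 (sc p)) + G3 (z2 (sc p)) = 12 * h p := by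
  unfold h sc
  ring

theorem exists_H1 : ∃ H : {p : ℝ × ℂ // h p ≠ 0} ≃ₜ ↥Wt,
    ∀ p, G2 (H p : ℂ × ℂ).1 + G3 (H p : ℂ × ℂ).2 = h p.1 / (‖h p.1‖ : ℂ) := by
  -- the constant
  set μ : ℝ × ℂ → ℝ := fun p => ‖12 * h p‖⁻¹ with hμ
  have hμpos : ∀ p, h p ≠ 0 → 0 < μ p := by
    intro p hp
    rw [hμ]
    simp only
    rw [inv_pos, norm_pos_iff]
    exact mul_ne_zero (by norm_num) hp
  have hf : ∀ p, h p ≠ 0 → G2 (μ p * z1 (sc p)) + G3 (μ p * z2 (sc p)) =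
      h p / (‖h p‖ : ℂ) := by
    intro p hp
    have h1 := (hμpos p hp).le
    rw [G2_smul _ h1, G3_smul _ h1, ← mul_add, h_sc, hμ]
    simp only
    have h2 : (‖h p‖ : ℂ) ≠ 0 := by exact_mod_cast norm_ne_zero_iff.2 hp
    rw [norm_mul]
    push_cast
    have h3 : ‖(12 : ℂ)‖ = 12 := by simp
    rw [h3]
    push_cast
    field_simp
  have hfn : ∀ p, h p ≠ 0 → ((μ p * z1 (sc p), μ p * z2 (sc p)) : ℂ × ℂ) ∈ Wt := by
    intro p hp
    show ‖G2 (μ p * z1 (sc p)) + G3 (μ p * z2 (sc p))‖ = 1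
    rw [hf p hp, norm_div, Complex.norm_real, norm_norm]
    exact div_self (norm_ne_zero_iff.2 hp)
  set ig : ℂ × ℂ → ℝ × ℂ := fun q => ((sg q).1 / 3, (sg q).2 / 3) with hig
  have hsc : ∀ q, sc (ig q) = sg q := by
    intro q
    rw [hig]
    unfold sc
    ext1
    · show 3 * ((sg q).1 / 3) = (sg q).1
      ring
    · show 3 * ((sg q).2 / 3) = (sg q).2
      ring
  have hzs : ∀ q ∈ Wt, ∃ c : ℝ, 0 < c ∧ z1 (sc (ig q)) = c * q.1 ∧ z2 (sc (ig q)) = c * q.2 ∧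
      12 * h (ig q) = c * (G2 q.1 + G3 q.2) := by
    intro q hq
    obtain ⟨c, hc, h1, h2⟩ := z_sg q (Wt_dom hq)
    refine ⟨c, hc, by rw [hsc, h1], by rw [hsc, h2], ?_⟩
    rw [← h_sc, hsc, h1, h2, G2_smul _ hc.le, G3_smul _ hc.le]
    ring
  have hne : ∀ q ∈ Wt, h (ig q) ≠ 0 := by
    intro q hq h0
    obtain ⟨c, hc, -, -, h3⟩ := hzs q hq
    rw [h0, mul_zero] at h3
    have h4 : G2 q.1 + G3 q.2 ≠ 0 := by
      intro h5
      have h6 : ‖G2 q.1 + G3 q.2‖ = 1 := hq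
      rw [h5, norm_zero] at h6
      exact zero_ne_one h6
    have h5 : (c : ℂ) ≠ 0 := by exact_mod_cast hc.ne'
    exact mul_ne_zero h5 h4 h3.symm
  have hch : Continuous h := by
    unfold h
    have c1 : Continuous fun p : ℝ × ℂ => z1 (3 * p.1, 3 * p.2) :=
      continuous_z1.comp (by fun_prop)
    have c2 : Continuous fun p : ℝ × ℂ => z2 (3 * p.1, 3 * p.2) :=
      continuous_z2.comp (by fun_prop)
    exact ((continuous_G2.comp c1).add (continuous_G3.comp c2)).div_const 12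
  have hcsc : Continuous sc := by
    unfold sc
    fun_prop
  refine ⟨{ toFun := fun p => ⟨(μ p.1 * z1 (sc p.1), μ p.1 * z2 (sc p.1)), hfn p.1 p.2⟩
            invFun := fun q => ⟨ig q.1, hne q.1 q.2⟩
            left_inv := ?_
            right_inv := ?_
            continuous_toFun := ?_
            continuous_invFun := ?_ }, fun p => hf p.1 p.2⟩
  · intro p
    apply Subtype.ext
    show ig (μ p.1 * z1 (sc p.1), μ p.1 * z2 (sc p.1)) = p.1
    have h1 := (sg_z (μ p.1) (hμpos p.1 p.2) (sc p.1)).2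
    rw [hig]
    simp only
    rw [h1]
    unfold sc
    ext1
    · show 3 * p.1.1 / 3 = p.1.1
      ring
    · show 3 * p.1.2 / 3 = p.1.2
      ring
  · intro q
    apply Subtype.ext
    show (μ (ig q.1) * z1 (sc (ig q.1)), μ (ig q.1) * z2 (sc (ig q.1))) = q.1
    obtain ⟨c, hc, h1, h2, h3⟩ := hzs q.1 q.2
    have h4 : μ (ig q.1) = c⁻¹ := by
      rw [hμ]
      simp only
      have h5 : ‖G2 q.1.1 + G3 q.1.2‖ = 1 := q.2
      rw [h3, norm_mul, h5, mul_one, Complex.norm_real, Real.norm_of_nonneg hc.le]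
    have h5 : (c : ℂ) ≠ 0 := by exact_mod_cast hc.ne'
    rw [h1, h2, h4]
    push_cast
    ext1
    · show (c : ℂ)⁻¹ * (c * q.1.1) = q.1.1
      rw [← mul_assoc, inv_mul_cancel₀ h5, one_mul]
    · show (c : ℂ)⁻¹ * (c * q.1.2) = q.1.2
      rw [← mul_assoc, inv_mul_cancel₀ h5, one_mul]
  · refine Continuous.subtype_mk ?_ _
    have c0 : Continuous fun p : {p : ℝ × ℂ // h p ≠ 0} => μ p.1 := by
      rw [hμ]
      refine Continuous.inv₀ ?_ ?_
      · exact (continuous_const.mul (hch.comp continuous_subtype_val)).norm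
      · intro p
        rw [norm_ne_zero_iff]
        exact mul_ne_zero (by norm_num) p.2
    have c1 : Continuous fun p : {p : ℝ × ℂ // h p ≠ 0} => ((μ p.1 : ℝ) : ℂ) :=
      Complex.continuous_ofReal.comp c0
    exact (c1.mul (continuous_z1.comp (hcsc.comp continuous_subtype_val))).prodMk
      (c1.mul (continuous_z2.comp (hcsc.comp continuous_subtype_val)))
  · refine Continuous.subtype_mk ?_ _
    have c0 : Continuous fun q : ↥Wt => sg q.1 :=
      continuousOn_sg.comp_continuous continuous_subtype_val (fun q => Wt_dom q.2)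
    exact (c0.fst.div_const 3).prodMk (c0.snd.div_const 3)

end G5

open G5

theorem exists_Zhomeo : ∃ Ψ : {p : ℝ × ℂ // h p ≠ 0} ≃ₜ ↥Zt,
    ∀ p, ((Ψ p : ℂ × ℂ).1 ^ 2 - (Ψ p : ℂ × ℂ).2 ^ 3) = h p.1 / (‖h p.1‖ : ℂ) := by
  obtain ⟨H1, hH1⟩ := exists_H1
  obtain ⟨H2, hH2⟩ := exists_H2
  refine ⟨H1.trans H2, fun p => ?_⟩
  rw [← hH1 p, ← hH2 (H1 p)]
  rfl

end Pool.Agent.Helper31.DS
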