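import Pool.Agent.Helper31.DS.S2
import Pool.Agent.Helper31.DS.G5

/-!
# DS-S5: the open part `M × Zt` of the complement (about 100-150 lines)

`U (m, q) = J (e (m, s), τ m w)`, `(s, w) = Ψ⁻¹ q`, where `Ψ` is the homeomorphism of
`exists_Zhomeo`.  It is the composition of the homeomorphism `id × Ψ⁻¹`, the open inclusion of
`{h ≠ 0}` in `ℝ × ℂ`, and the open embedding `(m, s, w) ↦ J (e (m, s), τ m w)`.
`F (U (m, q)) = c τ m h (s, w)`, `c > 0` (`F_J_e`).
The range: `F z ≠ 0` and `z = J (e (m, s), w')` for some `m, s, w'`.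
-/

namespace Pool.Agent.Helper31.DS

open Complex Set Topology Pool.Agent.Helper82.DK2

variable {M : Type*} [TopologicalSpace M] {e : M × ℝ → Sph 5} {τ : M → Circle}

/-- the twist homeomorphism `(m, s, w) ↦ ((m, s), τ m w)` -/
noncomputable def twistH (hτ : Continuous τ) : M × (ℝ × ℂ) ≃ₜ (M × ℝ) × ℂ where
  toFun x := ((x.1, x.2.1), (τ x.1 : ℂ) * x.2.2)
  invFun y := (y.1.1, (y.1.2, (τ y.1.1 : ℂ)⁻¹ * y.2))
  left_inv := by
    rintro ⟨m, s, w⟩
    simp only [Prod.mk.injEq, true_and]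
    exact inv_mul_cancel_left₀ (Circle.coe_ne_zero (τ m)) w
  right_inv := by
    rintro ⟨⟨m, s⟩, w⟩
    simp only [Prod.mk.injEq, true_and]
    exact mul_inv_cancel_left₀ (Circle.coe_ne_zero (τ m)) w
  continuous_toFun := by
    have h1 : Continuous fun x : M × (ℝ × ℂ) => (τ x.1 : ℂ) :=
      continuous_subtype_val.comp (hτ.comp continuous_fst)
    have h2 : Continuous fun x : M × (ℝ × ℂ) => (x.1, x.2.1) :=
      continuous_fst.prodMk (continuous_fst.comp continuous_snd)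
    exact h2.prodMk (h1.mul (continuous_snd.comp continuous_snd))
  continuous_invFun := by
    have h0 : Continuous fun y : (M × ℝ) × ℂ => y.1.1 := continuous_fst.comp continuous_fst
    have h1 : Continuous fun y : (M × ℝ) × ℂ => (τ y.1.1 : ℂ)⁻¹ :=
      (continuous_subtype_val.comp (hτ.comp h0)).inv₀
        fun y => Circle.coe_ne_zero (τ y.1.1)
    exact h0.prodMk ((continuous_snd.comp continuous_fst).prodMk (h1.mul continuous_snd))

/-- the embedding of `M × {h ≠ 0}` -/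
noncomputable def V (e : M × ℝ → Sph 5) (τ : M → Circle) (x : M × (ℝ × ℂ)) : Sph 7 :=
  J (e (x.1, x.2.1), (τ x.1 : ℂ) * x.2.2)

theorem isOpenEmbedding_V (he : IsOpenEmbedding e) (hτ : Continuous τ) :
    IsOpenEmbedding (V e τ) := by
  have h1 : IsOpenEmbedding (Prod.map e (id : ℂ → ℂ)) := he.prodMap IsOpenEmbedding.id
  have h2 : IsOpenEmbedding (J ∘ (Prod.map e (id : ℂ → ℂ) ∘ twistH hτ)) :=
    isOpenEmbedding_J.comp (h1.comp (twistH hτ).isOpenEmbedding)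
  have h3 : V e τ = J ∘ (Prod.map e (id : ℂ → ℂ) ∘ twistH hτ) := by
    funext x
    rfl
  rw [h3]
  exact h2

theorem F_V (he : IsOpenEmbedding e) (m : M) (p : ℝ × ℂ) : F e τ (V e τ (m, p)) =
    ((Real.sqrt (1 + ‖p.2‖ ^ 2))⁻¹ : ℝ) * ((τ m : ℂ) * h p) := by
  unfold V
  simp only
  rw [F_J_e he, inv_mul_cancel_left₀ (Circle.coe_ne_zero (τ m)), norm_mul,
    Circle.norm_coe, one_mul]

theorem isOpen_h_ne : IsOpen {p : ℝ × ℂ | h p ≠ 0} :=
  isOpen_ne_fun continuous_h continuous_const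

omit [TopologicalSpace M] in
theorem J_eq_V (m : M) (s : ℝ) (w : ℂ) :
    J (e (m, s), w) = V e τ (m, (s, (τ m : ℂ)⁻¹ * w)) := by
  unfold V
  simp only
  rw [mul_inv_cancel_left₀ (Circle.coe_ne_zero (τ m))]

theorem exists_U (he : IsOpenEmbedding e) (hτ : Continuous τ) :
    ∃ U : M × ↥Zt → Sph 7, IsOpenEmbedding U ∧
      (range U = {z | F e τ z ≠ 0 ∧ ∃ m s w, z = J (e (m, s), w)}) ∧
      ∀ m q, ∃ c : ℝ, 0 < c ∧
        F e τ (U (m, q)) = c * ((τ m : ℂ) * ((q : ℂ × ℂ).1 ^ 2 - (q : ℂ × ℂ).2 ^ 3)) := by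
  obtain ⟨Ψ, hΨ⟩ := exists_Zhomeo
  have hpos : ∀ w : ℂ, 0 < (Real.sqrt (1 + ‖w‖ ^ 2))⁻¹ := fun w =>
    inv_pos.2 (Real.sqrt_pos.2 (by positivity))
  have h1 : IsOpenEmbedding (Subtype.val : {p : ℝ × ℂ // h p ≠ 0} → ℝ × ℂ) :=
    isOpen_h_ne.isOpenEmbedding_subtypeVal
  have h2 : IsOpenEmbedding (Prod.map (id : M → M) (Subtype.val ∘ Ψ.symm)) :=
    IsOpenEmbedding.id.prodMap (h1.comp Ψ.symm.isOpenEmbedding)
  have hU : ∀ m q, (V e τ ∘ Prod.map (id : M → M) (Subtype.val ∘ Ψ.symm)) (m, q) =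
      V e τ (m, (Ψ.symm q).1) := fun m q => rfl
  refine ⟨V e τ ∘ Prod.map (id : M → M) (Subtype.val ∘ Ψ.symm),
    (isOpenEmbedding_V he hτ).comp h2, ?_, ?_⟩
  · ext z
    rw [mem_range, mem_ofPred_eq]
    constructor
    · rintro ⟨⟨m, q⟩, rfl⟩
      rw [hU]
      refine ⟨?_, m, _, _, rfl⟩
      rw [F_V he]
      refine mul_ne_zero ?_ (mul_ne_zero (Circle.coe_ne_zero (τ m)) (Ψ.symm q).2)
      exact_mod_cast (hpos _).ne'
    · rintro ⟨hz, m, s, w, rfl⟩
      rw [J_eq_V (τ := τ)] at hz ⊢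
      have h3 : h (s, (τ m : ℂ)⁻¹ * w) ≠ 0 := by
        intro h0
        rw [F_V he, h0, mul_zero, mul_zero] at hz
        exact hz rfl
      refine ⟨(m, Ψ ⟨(s, (τ m : ℂ)⁻¹ * w), h3⟩), ?_⟩
      rw [hU, Homeomorph.symm_apply_apply]
  · intro m q
    have h3 := hΨ (Ψ.symm q)
    rw [Homeomorph.apply_symm_apply] at h3
    have h4 : 0 < ‖h (Ψ.symm q).1‖ := norm_pos_iff.2 (Ψ.symm q).2
    refine ⟨(Real.sqrt (1 + ‖(Ψ.symm q).1.2‖ ^ 2))⁻¹ * ‖h (Ψ.symm q).1‖,
      mul_pos (hpos _) h4, ?_⟩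
    rw [h3, hU, F_V he]
    have h5 : (‖h (Ψ.symm q).1‖ : ℂ) ≠ 0 := by exact_mod_cast h4.ne'
    rw [Complex.ofReal_mul, mul_assoc, mul_left_comm (‖h (Ψ.symm q).1‖ : ℂ),
      mul_div_cancel₀ _ h5]

/-- The rest of the complement: `F = prC` there. -/
theorem rest_iff (he : IsOpenEmbedding e) (z : Sph 7) :
    (F e τ z ≠ 0 ∧ ¬ ∃ m s w, z = J (e (m, s), w)) ↔
      (prC z.1 ≠ 0 ∧ ¬ ∃ m s w, z = J (e (m, s), w)) := by
  refine and_congr_left fun hz => ?_
  rw [F_eq_prC he z fun m s w h1 => absurd ⟨m, s, w, h1⟩ hz]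

/-- The rotation of the last two coordinates. -/
noncomputable def rot (u : Circle) (z : Sph 7) : Sph 7 :=
  ⟨jn (prY z.1) (u * prC z.1), by
    have h1 := norm_jn_sq (prY z.1) (u * prC z.1)
    have h2 := norm_jn_sq (prY z.1) (prC z.1)
    have h3 : ‖(u : ℂ) * prC z.1‖ = ‖prC z.1‖ := by rw [norm_mul, Circle.norm_coe, one_mul]
    have h4 : jn (prY z.1) (prC z.1) = z.1 := by
      ext i
      fin_cases i <;> simp [jn, prY, prC]
    have h5 : ‖z.1‖ = 1 := mem_sphere_zero_iff_norm.1 z.2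
    rw [mem_sphere_zero_iff_norm]
    rw [h4, h5] at h2
    rw [h3, ← h2] at h1
    nlinarith [norm_nonneg (jn (prY z.1) (u * prC z.1))]⟩

theorem continuous_rot : Continuous fun p : Circle × Sph 7 => rot p.1 p.2 := by
  have h1 : Continuous fun p : Circle × Sph 7 => prY p.2.1 :=
    continuous_prY.comp (continuous_subtype_val.comp continuous_snd)
  have h2 : Continuous fun p : Circle × Sph 7 => (p.1 : ℂ) * prC p.2.1 :=
    (continuous_subtype_val.comp continuous_fst).mul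
      (continuous_prC.comp (continuous_subtype_val.comp continuous_snd))
  exact (continuous_jn.comp (h1.prodMk h2)).subtype_mk _

/-- points of `Sph 7` with equal coordinates are equal -/
theorem sph_ext {z z' : Sph 7} (h1 : prY z.1 = prY z'.1) (h2 : prC z.1 = prC z'.1) : z = z' := by
  apply Subtype.ext
  rw [← jn_pr z.1, ← jn_pr z'.1, h1, h2]

theorem prY_rot (u : Circle) (z : Sph 7) : prY (rot u z).1 = prY z.1 := prY_jn _ _

theorem prC_rot (u : Circle) (z : Sph 7) : prC (rot u z).1 = u * prC z.1 := prC_jn _ _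

theorem rot_J (u : Circle) (y : Sph 5) (w : ℂ) : rot u (J (y, w)) = J (y, u * w) := by
  have h0 : ‖(u : ℂ) * w‖ = ‖w‖ := by rw [norm_mul, Circle.norm_coe, one_mul]
  apply sph_ext
  · rw [prY_rot, prY_J, prY_J]
    simp only
    rw [h0]
  · rw [prC_rot, prC_J, prC_J]
    simp only
    rw [h0]
    ring

theorem rot_one (z : Sph 7) : rot 1 z = z := by
  apply sph_ext
  · rw [prY_rot]
  · rw [prC_rot, Circle.coe_one, one_mul]

theorem rot_mul (u v : Circle) (z : Sph 7) : rot (u * v) z = rot u (rot v z) := by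
  apply sph_ext
  · rw [prY_rot, prY_rot, prY_rot]
  · rw [prC_rot, prC_rot, prC_rot, Circle.coe_mul, mul_assoc]

/-- The rotations preserve the rest of the complement. -/
theorem rot_rest (u : Circle) (z : Sph 7) (hz : ¬ ∃ m s w, z = J (e (m, s), w)) :
    (¬ ∃ m s w, rot u z = J (e (m, s), w)) ∧ F e τ (rot u z) = u * F e τ z := by
  have hinv : rot u⁻¹ (rot u z) = z := by
    rw [← rot_mul, inv_mul_cancel, rot_one]
  have hne : ¬ ∃ m s w, rot u z = J (e (m, s), w) := by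
    rintro ⟨m, s, w, h1⟩
    apply hz
    refine ⟨m, s, ((u⁻¹ : Circle) : ℂ) * w, ?_⟩
    rw [← rot_J, ← h1, hinv]
  refine ⟨hne, ?_⟩
  have key : ∀ z : Sph 7, (¬ ∃ m s w, z = J (e (m, s), w)) → F e τ z = prC z.1 := by
    intro z hz
    by_cases h0 : prY z.1 = 0
    · exact F_of_prY z h0
    · have h1 : z ∈ range J := by
        rw [range_J]
        exact h0
      obtain ⟨⟨y, w⟩, rfl⟩ := h1
      refine F_J_rest y ?_ w
      rintro ⟨⟨m, s⟩, rfl⟩
      exact hz ⟨m, s, w, rfl⟩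
  rw [key _ hne, key _ hz, prC_rot]

end Pool.Agent.Helper31.DS
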