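import Pool.Agent.Helper31.DS.A3
import Pool.Agent.Helper31.DS.S5
import Pool.Agent.Helper31.DS.E6
import Pool.Agent.Helper39.DS.Sphere
import Pool.Agent.Helper82.DK2.NPath

/-!
# The 3-fold cyclic cover of the complement of the spun knot: the data for block C
-/

namespace Pool.Agent.Helper31.DS

open Set Filter Topology Pool.Agent.Helper36.AS Pool.Agent.Helper77.DS Pool.Agent.Helper82.DK2

/-- `τ` on the subtype. -/
noncomputable def tauS (m : ↥M) : Circle := tau m.1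

theorem continuous_tauS : Continuous tauS :=
  continuousOn_iff_continuous_domRestrict.1 continuousOn_tau

instance : CompactSpace ↥M := isCompact_iff_compactSpace.1 isCompact_M

instance : PathConnectedSpace ↥M := isPathConnected_iff_pathConnectedSpace.1 isPathConnected_M

theorem one_zero_mem_Zt : ((1, 0) : ℂ × ℂ) ∈ Zt := by simp [Zt]

instance : Nonempty ↥Zt := ⟨⟨_, one_zero_mem_Zt⟩⟩

theorem coe_g {M : Type*} {e : M × ℝ → Sph 5} {τ : M → Circle} {z : Sph 7} (hz : F e τ z ≠ 0) :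
    (g e τ z : ℂ) = F e τ z / ‖F e τ z‖ := by
  unfold g
  rw [dif_neg hz]

/-- If `F` is a positive multiple of a point of the circle then `g` is this point. -/
theorem g_of_pos {M : Type*} {e : M × ℝ → Sph 5} {τ : M → Circle} {z : Sph 7} {c : ℝ} {w : Circle}
    (hc : 0 < c) (h : F e τ z = c * w) : F e τ z ≠ 0 ∧ g e τ z = w := by
  have h1 : F e τ z ≠ 0 := by
    rw [h]
    exact mul_ne_zero (by exact_mod_cast hc.ne') (Circle.coe_ne_zero w)
  refine ⟨h1, ?_⟩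
  apply Circle.ext
  rw [coe_g h1, h, norm_mul, Circle.norm_coe, mul_one, Complex.norm_real, Real.norm_of_nonneg hc.le]
  exact mul_div_cancel_left₀ _ (by exact_mod_cast hc.ne')

theorem F_eq_norm_mul_g {M : Type*} {e : M × ℝ → Sph 5} {τ : M → Circle} {z : Sph 7}
    (hz : F e τ z ≠ 0) : F e τ z = (‖F e τ z‖ : ℝ) * (g e τ z : ℂ) := by
  rw [coe_g hz]
  have : (‖F e τ z‖ : ℂ) ≠ 0 := by exact_mod_cast (norm_ne_zero_iff.2 hz)
  field_simp

section
variable {e : ↥M × ℝ → Sph 5} (he : IsOpenEmbedding e) {f : Sph 5 → Sph 7}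
  (hf : range f = {z | F e tauS z = 0})

/-- The open part. -/
def WW (e : ↥M × ℝ → Sph 5) : Set (Sph 7 × Circle) := {p | ∃ m s w, p.1 = J (e (m, s), w)}

include he in
theorem isOpen_WW : IsOpen (WW e) := by
  have h1 : IsOpenEmbedding (Prod.map e (id : ℂ → ℂ)) := he.prodMap IsOpenEmbedding.id
  have h2 := (isOpenEmbedding_J.comp h1).isOpen_range
  have h3 : WW e = Prod.fst ⁻¹' range (J ∘ Prod.map e (id : ℂ → ℂ)) := by
    ext p
    constructor
    · rintro ⟨m, s, w, h⟩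
      exact ⟨((m, s), w), h.symm⟩
    · rintro ⟨⟨⟨m, s⟩, w⟩, h⟩
      exact ⟨m, s, w, h.symm⟩
  rw [h3]
  exact h2.preimage continuous_fst

theorem mem_cov3 (hf : range f = {z | F e tauS z = 0}) (p : Sph 7 × Circle) :
    p ∈ cov f (g e tauS) 3 ↔ F e tauS p.1 ≠ 0 ∧ g e tauS p.1 = p.2 ^ 3 := by
  change (p.1 ∉ range f ∧ _) ↔ _
  rw [hf]
  rfl

include he in
theorem good_cov (hf : range f = {z | F e tauS z = 0}) :
    Good IsCompact (cov f (g e tauS) 3) := by
  have hF := continuous_F he continuous_tauS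
  apply LCpt.good
  apply LCpt.of_locallyClosed
  refine ⟨{p | F e tauS p.1 ≠ 0}, {p | F e tauS p.1 = (‖F e tauS p.1‖ : ℝ) * ((p.2 ^ 3 : Circle) : ℂ)},
    ?_, ?_, ?_⟩
  · exact isOpen_ne_fun (hF.comp continuous_fst) continuous_const
  · refine isClosed_eq (hF.comp continuous_fst) ?_
    refine (Complex.continuous_ofReal.comp (hF.comp continuous_fst).norm).mul ?_
    exact continuous_subtype_val.comp (continuous_snd.pow 3)
  · ext p
    rw [mem_cov3 hf]
    constructor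
    · rintro ⟨h1, h2⟩
      refine ⟨h1, ?_⟩
      change F e tauS p.1 = _
      rw [← h2]
      exact F_eq_norm_mul_g h1
    · rintro ⟨h1, h2⟩
      refine ⟨h1, (g_of_pos (norm_pos_iff.2 h1) h2).2⟩

/-- The homotopy on the rest. -/
noncomputable def HR (s : ℝ) (p : Sph 7 × Circle) : Sph 7 × Circle :=
  (rot (Circle.exp (2 * Real.pi * s)) p.1, Circle.exp (2 * Real.pi * s / 3) * p.2)

theorem continuous_HR : Continuous fun q : (Sph 7 × Circle) × ℝ => HR q.2 q.1 := by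
  unfold HR
  refine Continuous.prodMk ?_ ?_
  · exact continuous_rot.comp ((Circle.exp.continuous.comp (by fun_prop)).prodMk
      (continuous_fst.comp continuous_fst))
  · exact (Circle.exp.continuous.comp (by fun_prop)).mul (continuous_snd.comp continuous_fst)

theorem HR_HR (s : ℝ) (p : Sph 7 × Circle) : HR (-s) (HR s p) = p := by
  unfold HR
  simp only
  rw [← rot_mul, ← mul_assoc, ← Circle.exp_add, ← Circle.exp_add]
  have h1 : 2 * Real.pi * -s + 2 * Real.pi * s = 0 := by ring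
  have h2 : 2 * Real.pi * -s / 3 + 2 * Real.pi * s / 3 = 0 := by ring
  rw [h1, h2, Circle.exp_zero, rot_one, one_mul]

theorem HR_zero (p : Sph 7 × Circle) : HR 0 p = p := by
  unfold HR
  simp [rot_one]

theorem HR_one (p : Sph 7 × Circle) : HR 1 p = TC p := by
  unfold HR TC om
  rw [mul_one, Circle.exp_two_pi, rot_one]

theorem HR_mem (hf : range f = {z | F e tauS z = 0}) (s : ℝ) {p : Sph 7 × Circle}
    (hp : p ∈ cov f (g e tauS) 3 \ WW e) : HR s p ∈ cov f (g e tauS) 3 \ WW e := by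
  obtain ⟨h1, h2⟩ := hp
  rw [mem_cov3 hf] at h1
  obtain ⟨h3, h4⟩ := h1
  obtain ⟨h5, h6⟩ := rot_rest (τ := tauS) (Circle.exp (2 * Real.pi * s)) p.1 h2
  refine ⟨?_, h5⟩
  rw [mem_cov3 hf]
  have h7 : F e tauS (HR s p).1 = (‖F e tauS p.1‖ : ℝ) *
      ((Circle.exp (2 * Real.pi * s) * g e tauS p.1 : Circle) : ℂ) := by
    change F e tauS (rot _ p.1) = _
    rw [h6]
    conv_lhs => rw [F_eq_norm_mul_g h3]
    rw [Circle.coe_mul]
    ring
  obtain ⟨h8, h9⟩ := g_of_pos (norm_pos_iff.2 h3) h7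
  refine ⟨h8, ?_⟩
  rw [h9, h4]
  change _ = (Circle.exp (2 * Real.pi * s / 3) * p.2) ^ 3
  rw [mul_pow, ← Circle.exp_natCast_mul]
  congr 2
  push_cast
  ring

include he in
/-- **The data for block C.** -/
theorem exists_bdata (hf : range f = {z | F e tauS z = 0}) : ∃ Φ Ψ,
    BData (cov f (g e tauS) 3) (WW e) TC Φ Ψ ∧ ∀ u ∈ U3, (Φ u).2 = cV u := by
  classical
  obtain ⟨U, hU, hUr, hUF⟩ := exists_U he continuous_tauS
  have hUc : ∀ m q, F e tauS (U (m, q)) ≠ 0 ∧ ∀ v : Circle,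
      g e tauS (U (m, q)) = v ↔ (v : ℂ) = (tauS m : ℂ) * thetaZ (q : ℂ × ℂ) := by
    intro m q
    obtain ⟨c, hc, h⟩ := hUF m q
    have hq : ‖thetaZ (q : ℂ × ℂ)‖ = 1 := q.2
    have hw : ‖(tauS m : ℂ) * thetaZ (q : ℂ × ℂ)‖ = 1 := by
      rw [norm_mul, Circle.norm_coe, hq, one_mul]
    set w : Circle := ⟨(tauS m : ℂ) * thetaZ (q : ℂ × ℂ), mem_sphere_zero_iff_norm.2 hw⟩ with hwd
    obtain ⟨h1, h2⟩ := g_of_pos (w := w) hc h
    refine ⟨h1, fun v => ?_⟩
    rw [h2]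
    constructor
    · rintro rfl; rfl
    · intro hv
      exact Circle.ext hv.symm
  have hmz : ∀ u : UT, u ∈ U3 → u.1.1 ∈ M ∧ u.1.2 ∈ Zt := fun u hu => ⟨hu.1, hu.2.1⟩
  let q₀ : ↥Zt := ⟨_, one_zero_mem_Zt⟩
  let m₀ : ↥M := Classical.arbitrary _
  set Φ : UT → Sph 7 × Circle := fun u =>
    if h : u.1.1 ∈ M ∧ u.1.2 ∈ Zt then (U (⟨u.1.1, h.1⟩, ⟨u.1.2, h.2⟩), u.2) else
      (U (m₀, q₀), 1) with hΦ
  have hΦe : ∀ (u : UT) (h : u.1.1 ∈ M ∧ u.1.2 ∈ Zt),
      Φ u = (U (⟨u.1.1, h.1⟩, ⟨u.1.2, h.2⟩), u.2) := fun u h => dif_pos h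
  haveI : Nonempty (↥M × ↥Zt) := ⟨(m₀, q₀)⟩
  set V : Sph 7 → ↥M × ↥Zt := Function.invFun U with hV
  have hVU : ∀ a, V (U a) = a := Function.leftInverse_invFun hU.injective
  have hUV : ∀ z ∈ range U, U (V z) = z := fun z hz => by
    obtain ⟨a, rfl⟩ := hz
    rw [hVU]
  have hVc : ContinuousOn V (range U) := by
    rintro z ⟨a, rfl⟩
    refine ContinuousAt.continuousWithinAt ?_
    rw [← hU.continuousAt_iff]
    have : V ∘ U = id := funext hVU
    rw [this]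
    exact continuousAt_id
  set Ψ : Sph 7 × Circle → UT := fun p => (((V p.1).1.1, (V p.1).2.1), p.2) with hΨ
  have hrange : ∀ p : Sph 7 × Circle, p ∈ cov f (g e tauS) 3 → p ∈ WW e → p.1 ∈ range U := by
    intro p hp hpW
    rw [hUr]
    exact ⟨((mem_cov3 hf p).1 hp).1, hpW⟩
  have hm1 : MapsTo Φ U3 (cov f (g e tauS) 3 ∩ WW e) := by
    intro u hu
    rw [hΦe u (hmz u hu)]
    obtain ⟨h1, h2⟩ := hUc ⟨u.1.1, hu.1⟩ ⟨u.1.2, hu.2.1⟩
    refine ⟨?_, ?_⟩
    · rw [mem_cov3 hf]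
      refine ⟨h1, (h2 _).2 ?_⟩
      rw [Circle.coe_pow]
      exact hu.2.2
    · have h3 : U (⟨u.1.1, hu.1⟩, ⟨u.1.2, hu.2.1⟩) ∈ range U := mem_range_self _
      rw [hUr] at h3
      exact h3.2
  have hm2 : MapsTo Ψ (cov f (g e tauS) 3 ∩ WW e) U3 := by
    rintro p ⟨hp, hpW⟩
    have h1 := hrange p hp hpW
    refine ⟨(V p.1).1.2, (V p.1).2.2, ?_⟩
    have h2 := ((mem_cov3 hf p).1 hp).2
    have h3 := (hUc (V p.1).1 (V p.1).2).2 (p.2 ^ 3)
    have h4 : U ((V p.1).1, (V p.1).2) = p.1 := hUV p.1 h1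
    rw [h4] at h3
    have h5 := h3.1 h2
    rw [Circle.coe_pow] at h5
    exact h5
  refine ⟨Φ, Ψ, ⟨good_cov he hf, isOpen_WW he, ⟨?_, ?_, hm1, hm2, ?_, ?_⟩,
    continuous_TC.continuousOn, fun x hx => TC_mem hx, fun x _ => TC3 x, ?_, ?_, ?_⟩, ?_⟩
  · rw [continuousOn_iff_continuous_domRestrict]
    have e1 : U3.domRestrict Φ = fun u : ↥U3 =>
        (U (⟨u.1.1.1, u.2.1⟩, ⟨u.1.1.2, u.2.2.1⟩), u.1.2) := by
      funext u
      exact hΦe u.1 (hmz u.1 u.2)
    rw [e1]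
    refine Continuous.prodMk (hU.continuous.comp (Continuous.prodMk ?_ ?_)) ?_
    · exact Continuous.subtype_mk (by fun_prop) _
    · exact Continuous.subtype_mk (by fun_prop) _
    · fun_prop
  · have h1 : ContinuousOn (fun p : Sph 7 × Circle => V p.1) (cov f (g e tauS) 3 ∩ WW e) :=
      hVc.comp continuousOn_fst fun p hp => hrange p hp.1 hp.2
    refine ContinuousOn.prodMk (ContinuousOn.prodMk ?_ ?_) continuousOn_snd
    · exact continuous_subtype_val.comp_continuousOn (continuous_fst.comp_continuousOn h1)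
    · exact continuous_subtype_val.comp_continuousOn (continuous_snd.comp_continuousOn h1)
  · intro u hu
    rw [hΦe u (hmz u hu), hΨ]
    simp only
    rw [hVU]
  · rintro p ⟨hp, hpW⟩
    have h1 := hrange p hp hpW
    rw [hΦe (Ψ p) ⟨(V p.1).1.2, (V p.1).2.2⟩]
    refine Prod.ext ?_ rfl
    exact hUV p.1 h1
  · intro u hu
    rw [hΦe u (hmz u hu), hΦe (TU u) (hmz u hu)]
    rfl
  · rintro p ⟨hp, hpW⟩
    exact ⟨TC_mem hp, hpW⟩
  · refine ⟨fun p s => HR s p, SHomotopy.of_proper continuous_HR.continuousOn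
      (fun p hp s _ => HR_mem hf s hp) fun K hK hKc => ?_, fun p _ => ⟨HR_zero p, HR_one p⟩⟩
    have hc : Continuous fun q : (Sph 7 × Circle) × ℝ => HR (-q.2) q.1 :=
      continuous_HR.comp (continuous_fst.prodMk continuous_snd.neg)
    refine ⟨(fun q : (Sph 7 × Circle) × ℝ => HR (-q.2) q.1) '' (K ×ˢ Icc 0 1), ?_,
      (hKc.prod isCompact_Icc).image hc, ?_⟩
    · rintro _ ⟨q, hq, rfl⟩
      exact HR_mem hf _ (hK hq.1)
    · intro p _ s hs hps
      exact ⟨(HR s p, s), ⟨hps, hs⟩, HR_HR s p⟩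
  · intro u hu
    rw [hΦe u (hmz u hu)]
    rfl

end

end Pool.Agent.Helper31.DS
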