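import Pool.Agent.Helper31.DS.G6

/-!
# DS-G7: parametrisation of the long trefoil (about 200-300 lines)

Let `A2`, `A3` be the functions of `exists_A2`, `exists_A3`, `A2⁻¹` the inverse of `A2`
(order isomorphism of `ℝ`).  For `t ∈ (π, 5π)` put `b = e^{it}`, `a = e^{i α(t)}`,
`α(t) = A2⁻¹ (A3 t - π)`.  Then `G2 a = e^{i (A3 t - π)} = - G3 b`.  Conversely let `(a, b) ≠ 0` with
`G2 a + G3 b = 0`; then `|a| = |b|`, after scaling `|a| = |b| = 1`, `b = e^{it₀}`, `a = e^{iα₀}` with
`A2 α₀ = A3 t₀ - π + 2πn`; replacing `t₀` by `t₀ + 2πj` and `α₀` by `α₀ + 2πl` changes `n` by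
`-3j + 2l`, so we can reach `n = 0`; remaining freedom: `(t₀, α₀) → (t₀ + 4πj, α₀ + 6πj)`, so
`t₀ ∈ [π, 5π)` is unique; `t₀ = π` is the point `(a, b) = (1, -1)`
(`α(π) = A2⁻¹ 0 = 0`), which is excluded for points of the form `(z1, z2)` (`sg_z`: the strict
inequality fails for positive multiples of `(1, -1)`).
So `t ↦ sg (e^{iα(t)}, e^{it})` is a continuous bijection of `(π, 5π)` onto `{p | G2 (z1 p) +
G3 (z2 p) = 0}` (for injectivity use `z_sg`; for continuity `continuousOn_sg`, `nn_pos`).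
Ends: for `s ≥ 3` the point `(s, 0)` has `z1 = s² - 1 + 2is = (s + i)²`,
`z2 = 1 - s² - 2is = (1 - is)²`, arguments `π - 2 arctan s` (mod 2π) and `-2 arctan s`, so it
corresponds to `t = 2π - 2 arctan s` (there `A3 t = t`, `A2⁻¹ (t - π) = t - π = π - 2 arctan s`
because `|t - π| ≤ π / 2`).  For `s ≤ -3` it corresponds to `t = 4π - 2 arctan s`
(`A3 t = t - 4π + 12π = t + 8π` hmm: `A3 t = A3 (t - 4π) + 12π = t + 8π` for `t - 4π` within `π/2` of
`π`, and `α = A2⁻¹ (t + 7π)`, `A2 (t - 5π + 6π) = t - 5π + 12π`, so `α = t + π`, which is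
`-2 arctan s + 5π ≡ π - 2 arctan s`, as required).
Reparametrise: `T s = 3π - 2 arctan s - π · max (-1) (min 1 (s / 3))` is a strictly decreasing
continuous bijection of `ℝ` onto `(π, 5π)` which is `2π - 2 arctan s` for `s ≥ 3` and
`4π - 2 arctan s` for `s ≤ -3`.  Put `κ r = sg (e^{iα(T(3r))}, e^{iT(3r)}) / 3`.
(This was checked numerically.)
-/

namespace Pool.Agent.Helper31.DS

open Complex

private theorem g7_sub_pi (x : ℝ) :
    exp (((x - Real.pi : ℝ) : ℂ) * I) = - exp ((x : ℂ) * I) := by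
  push_cast
  rw [sub_mul, Complex.exp_sub, exp_pi_mul_I, div_neg, div_one]

private theorem g7_exp_eq {x y : ℝ} (h : exp ((x : ℂ) * I) = exp ((y : ℂ) * I)) :
    ∃ n : ℤ, x = y + n * (2 * Real.pi) := by
  obtain ⟨n, hn⟩ := Complex.exp_eq_exp_iff_exists_int.1 h
  refine ⟨n, ?_⟩
  have h1 : (x : ℂ) * I = ((y + n * (2 * Real.pi) : ℝ) : ℂ) * I := by
    rw [hn]
    push_cast
    ring
  have h2 := mul_right_cancel₀ I_ne_zero h1
  exact_mod_cast h2

private theorem g7_exp_add (x : ℝ) (n : ℤ) :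
    exp (((x + n * (2 * Real.pi) : ℝ) : ℂ) * I) = exp ((x : ℂ) * I) := by
  rw [Complex.exp_eq_exp_iff_exists_int]
  refine ⟨n, ?_⟩
  push_cast
  ring

private theorem g7_per {A : ℝ → ℝ} {c d : ℝ} (h : ∀ t, A (t + c) = A t + d) (n : ℤ) (t : ℝ) :
    A (t + n * c) = A t + n * d := by
  induction n using Int.induction_on with
  | zero => simp
  | succ n ih =>
    push_cast at ih ⊢
    rw [show t + ((n : ℝ) + 1) * c = t + n * c + c by ring, h, ih]
    ring
  | pred n ih =>
    have h2 := h (t + (-(n : ℝ) - 1) * c)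
    rw [show t + (-(n : ℝ) - 1) * c + c = t + (-(n : ℝ)) * c by ring] at h2
    push_cast at ih ⊢
    rw [ih] at h2
    linarith

private theorem g7_P : ∃ P : ℝ → ℂ × ℂ, Continuous P ∧ (∀ t, ‖(P t).1‖ = 1) ∧
    (∀ t, ‖(P t).2‖ = 1) ∧ (∀ t, G2 (P t).1 + G3 (P t).2 = 0) ∧
    (∀ t, P (t + 4 * Real.pi) = P t) ∧
    (∀ a b : ℂ, (a ≠ 0 ∨ b ≠ 0) → G2 a + G3 b = 0 →
      ∃ r : ℝ, 0 < r ∧ ∃ t, a = r * (P t).1 ∧ b = r * (P t).2) ∧
    (∀ t t', P t = P t' → ∃ n : ℤ, t' = t + n * (4 * Real.pi)) ∧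
    (∀ u, |u - Real.pi| ≤ Real.pi / 2 →
      P u = (exp (((u - Real.pi : ℝ) : ℂ) * I), exp ((u : ℂ) * I))) := by
  have hpi := Real.pi_pos
  obtain ⟨A2, h2m, h2c, h2p, h2i, h2G⟩ := exists_A2
  obtain ⟨A3, h3m, h3c, h3p, h3i, h3G⟩ := exists_A3
  have h2s : Function.Surjective A2 := by
    intro y
    have h0 : A2 0 = 0 := h2i 0 (by rw [abs_zero]; positivity)
    have hn : ∀ n : ℤ, A2 (n * (2 * Real.pi)) = n * (4 * Real.pi) := fun n => by
      have := g7_per h2p n 0
      rw [h0, zero_add, zero_add] at this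
      exact this
    obtain ⟨n, hn1⟩ := exists_int_gt (y / (4 * Real.pi))
    obtain ⟨m, hm1⟩ := exists_int_lt (y / (4 * Real.pi))
    have h4 : (0 : ℝ) < 4 * Real.pi := by positivity
    refine mem_range_of_exists_le_of_exists_ge h2c ⟨m * (2 * Real.pi), ?_⟩
      ⟨n * (2 * Real.pi), ?_⟩
    · rw [hn]
      exact ((lt_div_iff₀ h4).1 hm1).le
    · rw [hn]
      exact ((div_lt_iff₀ h4).1 hn1).le
  let e : ℝ ≃o ℝ := StrictMono.orderIsoOfSurjective A2 h2m h2s
  have he : ∀ x, A2 (e.symm x) = x := fun x => e.apply_symm_apply x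
  have he' : ∀ x, e.symm (A2 x) = x := fun x => e.symm_apply_apply x
  have hec : Continuous e.symm := e.symm.continuous
  have hG2 : ∀ x : ℝ, G2 (exp ((x : ℂ) * I)) = exp ((A2 x : ℂ) * I) := fun x => by
    have := h2G 1 x zero_le_one
    rwa [ofReal_one, one_mul, one_mul] at this
  have hG3 : ∀ x : ℝ, G3 (exp ((x : ℂ) * I)) = exp ((A3 x : ℂ) * I) := fun x => by
    have := h3G 1 x zero_le_one
    rwa [ofReal_one, one_mul, one_mul] at this
  refine ⟨fun t => (exp ((e.symm (A3 t - Real.pi) : ℝ) * I), exp (t * I)), ?_, ?_, ?_, ?_, ?_, ?_,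
    ?_, ?_⟩
  · have h1 : Continuous fun t => e.symm (A3 t - Real.pi) := hec.comp (h3c.sub continuous_const)
    fun_prop
  · intro t
    exact norm_exp_ofReal_mul_I _
  · intro t
    exact norm_exp_ofReal_mul_I _
  · intro t
    simp only [hG2, hG3, he, g7_sub_pi]
    exact neg_add_cancel _
  · intro t
    have h1 : A3 (t + 4 * Real.pi) = A3 t + 12 * Real.pi := by
      have := g7_per h3p 2 t
      push_cast at this
      rw [show t + 4 * Real.pi = t + 2 * (2 * Real.pi) by ring, this]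
      ring
    have h2 : e.symm (A3 (t + 4 * Real.pi) - Real.pi) =
        e.symm (A3 t - Real.pi) + (3 : ℤ) * (2 * Real.pi) := by
      rw [← he' (e.symm (A3 t - Real.pi) + (3 : ℤ) * (2 * Real.pi)), g7_per h2p, he, h1]
      congr 1
      push_cast
      ring
    simp only [h2, g7_exp_add]
    congr 1
    have := g7_exp_add t 2
    push_cast at this ⊢
    rw [← this]
    congr 1
    ring
  · intro a b hab hs
    have hna : ‖a‖ = ‖b‖ := by
      have h1 : G2 a = - G3 b := eq_neg_of_add_eq_zero_left hs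
      rw [← norm_G2 a, h1, norm_neg, norm_G3]
    have hr : 0 < ‖a‖ := by
      rcases hab with h | h
      · exact norm_pos_iff.2 h
      · rw [hna]
        exact norm_pos_iff.2 h
    have ha : a = (‖a‖ : ℂ) * exp ((a.arg : ℂ) * I) := (norm_mul_exp_arg_mul_I a).symm
    have hb : b = (‖a‖ : ℂ) * exp ((b.arg : ℂ) * I) := by
      rw [hna]
      exact (norm_mul_exp_arg_mul_I b).symm
    have h1 : (‖a‖ : ℂ) * (exp ((A2 a.arg : ℂ) * I) + exp ((A3 b.arg : ℂ) * I)) = 0 := by
      rw [mul_add, ← h2G _ _ hr.le, ← h3G _ _ hr.le, ← ha, ← hb]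
      exact hs
    have h2 : exp ((A2 a.arg : ℂ) * I) = exp (((A3 b.arg - Real.pi : ℝ) : ℂ) * I) := by
      rw [g7_sub_pi]
      have h3 := (mul_eq_zero.1 h1).resolve_left (by exact_mod_cast hr.ne')
      exact eq_neg_of_add_eq_zero_left h3
    obtain ⟨n, hn⟩ := g7_exp_eq h2
    refine ⟨‖a‖, hr, b.arg + n * (2 * Real.pi), ?_, ?_⟩
    · have h4 : e.symm (A3 (b.arg + n * (2 * Real.pi)) - Real.pi) =
          a.arg + n * (2 * Real.pi) := by
        rw [← he' (a.arg + n * (2 * Real.pi)), g7_per h2p, g7_per h3p, hn]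
        congr 1
        ring
      show a = ‖a‖ * exp ((e.symm (A3 (b.arg + n * (2 * Real.pi)) - Real.pi) : ℝ) * I)
      rw [h4, g7_exp_add]
      exact ha
    · show b = ‖a‖ * exp ((b.arg + n * (2 * Real.pi) : ℝ) * I)
      rw [g7_exp_add]
      exact hb
  · intro t t' h
    have ha : exp ((e.symm (A3 t - Real.pi) : ℝ) * I) = exp ((e.symm (A3 t' - Real.pi) : ℝ) * I) :=
      congrArg Prod.fst h
    have hb : exp ((t : ℂ) * I) = exp ((t' : ℂ) * I) := congrArg Prod.snd h
    obtain ⟨j, hj⟩ := g7_exp_eq hb.symm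
    obtain ⟨l, hl⟩ := g7_exp_eq ha.symm
    have h1 := congrArg A2 hl
    rw [g7_per h2p, he, he] at h1
    have h2 : A3 t' = A3 t + j * (6 * Real.pi) := by rw [hj, g7_per h3p]
    have h3 : ((3 * j : ℤ) : ℝ) = ((2 * l : ℤ) : ℝ) := by
      push_cast
      have h4 : (2 * Real.pi) * (3 * j) = (2 * Real.pi) * (2 * (l : ℝ)) := by linarith
      exact mul_left_cancel₀ (by positivity) h4
    have h5 : 3 * j = 2 * l := by exact_mod_cast h3
    obtain ⟨m, hm⟩ : ∃ m : ℤ, j = 2 * m := ⟨l - j, by omega⟩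
    refine ⟨m, ?_⟩
    rw [hj, hm]
    push_cast
    ring
  · intro u hu
    have h1 : e.symm (A3 u - Real.pi) = u - Real.pi := by
      rw [h3i u hu]
      conv_lhs => rw [← h2i (u - Real.pi) hu]
      exact he' _
    simp only [h1]

private theorem g7_arctan (s : ℝ) :
    ((1 - s ^ 2 : ℝ) : ℂ) - 2 * I * (s : ℂ) =
      ((1 + s ^ 2 : ℝ) : ℂ) * exp (((-(2 * Real.arctan s) : ℝ) : ℂ) * I) := by
  have hc : Real.cos (Real.arctan s) ^ 2 * (1 + s ^ 2) = 1 := by
    rw [Real.cos_sq_arctan]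
    field_simp
  have hs : Real.sin (Real.arctan s) = s * Real.cos (Real.arctan s) := by
    have h1 := Real.tan_arctan s
    rw [Real.tan_eq_sin_div_cos, div_eq_iff (Real.cos_arctan_pos s).ne'] at h1
    exact h1
  rw [Complex.exp_mul_I, ← ofReal_cos, ← ofReal_sin, Real.cos_neg, Real.sin_neg, Real.cos_two_mul,
    Real.sin_two_mul, hs]
  generalize Real.cos (Real.arctan s) = c at hc
  have hc' : (c : ℂ) ^ 2 * (1 + (s : ℂ) ^ 2) = 1 := by exact_mod_cast hc
  push_cast
  linear_combination (-2 + 2 * (s : ℂ) * I) * hc'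

private theorem g7_z2 (s : ℝ) :
    z2 (s, 0) = ((1 + s ^ 2 : ℝ) : ℂ) * exp (((-(2 * Real.arctan s) : ℝ) : ℂ) * I) := by
  rw [← g7_arctan]
  unfold z2
  simp

private theorem g7_z1 (s : ℝ) : z1 (s, 0) = - z2 (s, 0) := by
  unfold z1 z2
  simp
  ring

/-- the reparametrisation -/
private noncomputable def g7T (s : ℝ) : ℝ :=
  3 * Real.pi - 2 * Real.arctan s - Real.pi * max (-1) (min 1 (s / 3))

private theorem g7T_cont : Continuous g7T := by
  unfold g7T
  have h1 : Continuous Real.arctan := Real.continuous_arctan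
  fun_prop

private theorem g7T_anti : StrictAnti g7T := by
  intro x y hxy
  have h1 := Real.arctan_strictMono hxy
  have h2 : max (-1) (min 1 (x / 3)) ≤ max (-1) (min 1 (y / 3)) :=
    max_le_max le_rfl (min_le_min le_rfl (by linarith))
  have h3 := mul_le_mul_of_nonneg_left h2 Real.pi_pos.le
  unfold g7T
  linarith

private theorem g7T_mem (s : ℝ) : Real.pi < g7T s ∧ g7T s < 5 * Real.pi := by
  have hpi := Real.pi_pos
  have h1 := Real.arctan_lt_pi_div_two s
  have h2 := Real.neg_pi_div_two_lt_arctan s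
  have h3 : max (-1) (min 1 (s / 3)) ≤ 1 := max_le (by norm_num) (min_le_left _ _)
  have h4 : -1 ≤ max (-1) (min 1 (s / 3)) := le_max_left _ _
  unfold g7T
  constructor <;> nlinarith

private theorem g7T_right {s : ℝ} (hs : 3 ≤ s) : g7T s = 2 * Real.pi - 2 * Real.arctan s := by
  unfold g7T
  rw [min_eq_left (by linarith), max_eq_right (by norm_num)]
  ring

private theorem g7T_left {s : ℝ} (hs : s ≤ -3) : g7T s = 4 * Real.pi - 2 * Real.arctan s := by
  unfold g7T
  rw [min_eq_right (by linarith), max_eq_left (by linarith)]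
  ring

private theorem g7T_surj {y : ℝ} (h1 : Real.pi < y) (h2 : y < 5 * Real.pi) : ∃ s, g7T s = y := by
  refine mem_range_of_exists_le_of_exists_ge g7T_cont ?_ ?_
  · have h3 := (tendsto_order.1 (tendsto_nhds_of_tendsto_nhdsWithin Real.tendsto_arctan_atTop)).1
      (Real.pi - y / 2) (by linarith)
    obtain ⟨s, hs1, hs2⟩ := (h3.and (Filter.eventually_ge_atTop 3)).exists
    exact ⟨s, by rw [g7T_right hs2]; linarith⟩
  · have h3 := (tendsto_order.1 (tendsto_nhds_of_tendsto_nhdsWithin Real.tendsto_arctan_atBot)).2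
      (2 * Real.pi - y / 2) (by linarith)
    obtain ⟨s, hs1, hs2⟩ := (h3.and (Filter.eventually_le_atBot (-3))).exists
    exact ⟨s, by rw [g7T_left hs2]; linarith⟩

theorem exists_kappa : ∃ κ : ℝ → ℝ × ℂ, Continuous κ ∧ Function.Injective κ ∧
    Set.range κ = {p | h p = 0} ∧ ∀ r, 1 ≤ |r| → κ r = (r, 0) := by
  obtain ⟨P, hPc, hP1, hP2, hPG, hPp, hPs, hPi, hPu⟩ := g7_P
  have hpi := Real.pi_pos
  have hPper : ∀ (n : ℤ) t, P (t + n * (4 * Real.pi)) = P t := by
    intro n t
    induction n using Int.induction_on generalizing t with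
    | zero => simp
    | succ n ih =>
      push_cast at ih ⊢
      rw [show t + ((n : ℝ) + 1) * (4 * Real.pi) = (t + n * (4 * Real.pi)) + 4 * Real.pi by ring,
        hPp, ih]
    | pred n ih =>
      push_cast at ih ⊢
      rw [← hPp, show t + (-(n : ℝ) - 1) * (4 * Real.pi) + 4 * Real.pi =
        t + -(n : ℝ) * (4 * Real.pi) by ring, ih]
  have hPpi : P Real.pi = (1, -1) := by
    rw [hPu Real.pi (by rw [sub_self, abs_zero]; positivity), sub_self, exp_pi_mul_I]
    simp
  -- the open interval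
  have hPinj : ∀ t t', Real.pi < t → t < 5 * Real.pi → Real.pi < t' → t' < 5 * Real.pi →
      P t = P t' → t = t' := by
    intro t t' h1 h2 h3 h4 h
    obtain ⟨n, hn⟩ := hPi t t' h
    have h5 : (n : ℝ) * (4 * Real.pi) < 1 * (4 * Real.pi) := by linarith
    have h6 : (-1 : ℝ) * (4 * Real.pi) < (n : ℝ) * (4 * Real.pi) := by linarith
    have h7 : (n : ℝ) < 1 := lt_of_mul_lt_mul_right h5 (by positivity)
    have h8 : (-1 : ℝ) < n := lt_of_mul_lt_mul_right h6 (by positivity)
    have h9 : n = 0 := by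
      have h10 : n < 1 := by exact_mod_cast h7
      have h11 : -1 < n := by exact_mod_cast h8
      omega
    rw [hn, h9]
    simp
  have hdom : ∀ t, Real.pi < t → t < 5 * Real.pi → ((P t).1 - (P t).2).re < nn (P t) := by
    intro t h1 h2
    apply nn_pos
    intro c hc h
    have h3 : c = 1 := by
      have h4 := hP1 t
      rw [h] at h4
      simp only [Complex.norm_real, Real.norm_eq_abs, abs_of_nonneg hc] at h4
      exact h4
    have h5 : P Real.pi = P t := by
      rw [hPpi, h, h3]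
      simp
    obtain ⟨n, hn⟩ := hPi _ _ h5
    have h6 : (0 : ℝ) * (4 * Real.pi) < (n : ℝ) * (4 * Real.pi) := by linarith
    have h7 : (n : ℝ) * (4 * Real.pi) < 1 * (4 * Real.pi) := by linarith
    have h8 : (0 : ℝ) < n := lt_of_mul_lt_mul_right h6 (by positivity)
    have h9 : (n : ℝ) < 1 := lt_of_mul_lt_mul_right h7 (by positivity)
    have h10 : 0 < n := by exact_mod_cast h8
    have h11 : n < 1 := by exact_mod_cast h9
    omega
  have hsurj : ∀ p : ℝ × ℂ, G2 (z1 p) + G3 (z2 p) = 0 →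
      ∃ t, Real.pi < t ∧ t < 5 * Real.pi ∧ sg (P t) = p := by
    intro p hp
    obtain ⟨r, hr, t, ha, hb⟩ := hPs _ _ (z_ne_zero p) hp
    -- reduction to the interval
    obtain ⟨t', ht1, ht2, ht3⟩ : ∃ t', Real.pi ≤ t' ∧ t' < 5 * Real.pi ∧ P t' = P t := by
      have h4 : (0 : ℝ) < 4 * Real.pi := by positivity
      refine ⟨toIcoMod h4 Real.pi t, (toIcoMod_mem_Ico h4 Real.pi t).1, ?_, ?_⟩
      · have := (toIcoMod_mem_Ico h4 Real.pi t).2
        linarith
      · have h5 : toIcoMod h4 Real.pi t = t + ((-toIcoDiv h4 Real.pi t : ℤ) : ℝ) *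
            (4 * Real.pi) := by
          have := toIcoMod_add_toIcoDiv_zsmul h4 Real.pi t
          rw [zsmul_eq_mul] at this
          push_cast
          linarith
        rw [h5, hPper]
    have hr0 : (r : ℂ) ≠ 0 := by exact_mod_cast hr.ne'
    have hz := sg_z r⁻¹ (inv_pos.2 hr) p
    have h6 : (((r⁻¹ : ℝ) : ℂ) * z1 p, ((r⁻¹ : ℝ) : ℂ) * z2 p) = P t' := by
      rw [ht3, ha, hb]
      push_cast
      apply Prod.ext
      · simp only
        rw [inv_mul_cancel_left₀ hr0]
      · simp only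
        rw [inv_mul_cancel_left₀ hr0]
    have h7 : ((P t').1 - (P t').2).re < nn (P t') := by
      rw [← h6]
      exact hz.1
    rw [h6] at hz
    refine ⟨t', lt_of_le_of_ne ht1 ?_, ht2, hz.2⟩
    intro h8
    rw [← h8, hPpi] at h7
    have h9 : nn ((1 : ℂ), (-1 : ℂ)) = 2 := by
      unfold nn
      simp only [norm_one, norm_neg]
      rw [show (2 : ℝ) * (1 ^ 2 + 1 ^ 2) = 2 ^ 2 by norm_num]
      exact Real.sqrt_sq (by norm_num)
    rw [h9] at h7
    norm_num at h7
  -- the parametrisation of the knot before scaling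
  have hzero : ∀ t, Real.pi < t → t < 5 * Real.pi →
      G2 (z1 (sg (P t))) + G3 (z2 (sg (P t))) = 0 := by
    intro t h1 h2
    obtain ⟨c, hc, ha, hb⟩ := z_sg (P t) (hdom t h1 h2)
    rw [ha, hb, G2_smul c hc.le, G3_smul c hc.le, ← mul_add, hPG, mul_zero]
  have hsginj : ∀ t t', Real.pi < t → t < 5 * Real.pi → Real.pi < t' → t' < 5 * Real.pi →
      sg (P t) = sg (P t') → t = t' := by
    intro t t' h1 h2 h3 h4 h
    apply hPinj t t' h1 h2 h3 h4
    obtain ⟨c, hc, ha, hb⟩ := z_sg (P t) (hdom t h1 h2)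
    obtain ⟨c', hc', ha', hb'⟩ := z_sg (P t') (hdom t' h3 h4)
    rw [h] at ha hb
    have h5 : (c : ℂ) * (P t).1 = c' * (P t').1 := ha.symm.trans ha'
    have h6 : (c : ℂ) * (P t).2 = c' * (P t').2 := hb.symm.trans hb'
    have h7 : c = c' := by
      have h8 := congrArg norm h5
      rw [norm_mul, norm_mul, hP1, hP1, mul_one, mul_one, Complex.norm_real, Complex.norm_real,
        Real.norm_of_nonneg hc.le, Real.norm_of_nonneg hc'.le] at h8
      exact h8
    have hc0 : (c : ℂ) ≠ 0 := by exact_mod_cast hc.ne'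
    rw [← h7] at h5 h6
    exact Prod.ext (mul_left_cancel₀ hc0 h5) (mul_left_cancel₀ hc0 h6)
  -- the ends
  have hend : ∀ s t : ℝ, 3 ≤ |s| → P t = (- exp (((-(2 * Real.arctan s) : ℝ) : ℂ) * I),
      exp (((-(2 * Real.arctan s) : ℝ) : ℂ) * I)) → sg (P t) = (s, 0) := by
    intro s t _ h
    have h1 : (0 : ℝ) < 1 + s ^ 2 := by positivity
    have h1' : ((1 + s ^ 2 : ℝ) : ℂ) ≠ 0 := by exact_mod_cast h1.ne'
    have hz := (sg_z (1 + s ^ 2)⁻¹ (inv_pos.2 h1) (s, 0)).2
    rw [g7_z1, g7_z2, mul_neg] at hz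
    have h2 : (((1 + s ^ 2)⁻¹ : ℝ) : ℂ) * (((1 + s ^ 2 : ℝ) : ℂ) *
        exp (((-(2 * Real.arctan s) : ℝ) : ℂ) * I)) =
        exp (((-(2 * Real.arctan s) : ℝ) : ℂ) * I) := by
      rw [ofReal_inv, inv_mul_cancel_left₀ h1']
    rw [h2] at hz
    rw [h]
    exact hz
  have hendT : ∀ s : ℝ, 3 ≤ |s| → sg (P (g7T s)) = (s, 0) := by
    intro s hs
    apply hend s _ hs
    rcases le_abs.1 hs with h3 | h3
    · have h4 : Real.pi / 4 ≤ Real.arctan s := by
        rw [← Real.arctan_one]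
        exact Real.arctan_strictMono.monotone (by linarith)
      have h5 := Real.arctan_lt_pi_div_two s
      rw [g7T_right h3, hPu _ (by rw [abs_le]; constructor <;> linarith), g7_sub_pi]
      have h6 : exp (((2 * Real.pi - 2 * Real.arctan s : ℝ) : ℂ) * I) =
          exp (((-(2 * Real.arctan s) : ℝ) : ℂ) * I) := by
        have := g7_exp_add (-(2 * Real.arctan s)) 1
        rw [← this]
        congr 2
        push_cast
        ring
      rw [h6]
    · have h3' : s ≤ -3 := by linarith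
      have h4 : Real.arctan s ≤ - (Real.pi / 4) := by
        rw [← Real.arctan_one, ← Real.arctan_neg]
        exact Real.arctan_strictMono.monotone (by linarith)
      have h5 := Real.neg_pi_div_two_lt_arctan s
      rw [g7T_left h3']
      have h6 : P (4 * Real.pi - 2 * Real.arctan s) = P (-(2 * Real.arctan s)) := by
        rw [← hPp (-(2 * Real.arctan s))]
        congr 1
        ring
      rw [h6, hPu _ (by rw [abs_le]; constructor <;> linarith), g7_sub_pi]
  refine ⟨fun r => ((1 / 3 : ℝ) * (sg (P (g7T (3 * r)))).1,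
    (1 / 3 : ℂ) * (sg (P (g7T (3 * r)))).2), ?_, ?_, ?_, ?_⟩
  · have h1 : Continuous fun r : ℝ => sg (P (g7T (3 * r))) := by
      apply continuousOn_sg.comp_continuous
      · exact hPc.comp (g7T_cont.comp (continuous_const.mul continuous_id))
      · intro r
        exact hdom _ (g7T_mem _).1 (g7T_mem _).2
    exact (continuous_const.mul h1.fst).prodMk (continuous_const.mul h1.snd)
  · intro r r' h
    have h1 := congrArg Prod.fst h
    have h2 := congrArg Prod.snd h
    simp only at h1 h2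
    have h3 : sg (P (g7T (3 * r))) = sg (P (g7T (3 * r'))) := by
      apply Prod.ext
      · exact mul_left_cancel₀ (by norm_num) h1
      · exact mul_left_cancel₀ (by norm_num) h2
    have h4 := hsginj _ _ (g7T_mem _).1 (g7T_mem _).2 (g7T_mem _).1 (g7T_mem _).2 h3
    have h5 := g7T_anti.injective h4
    linarith
  · ext p
    constructor
    · rintro ⟨r, rfl⟩
      have h1 := hzero _ (g7T_mem (3 * r)).1 (g7T_mem (3 * r)).2
      show h _ = 0
      unfold h
      simp only
      have e1 : (3 : ℝ) * ((1 / 3 : ℝ) * (sg (P (g7T (3 * r)))).1) =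
        (sg (P (g7T (3 * r)))).1 := by ring
      have e2 : (3 : ℂ) * ((1 / 3 : ℂ) * (sg (P (g7T (3 * r)))).2) =
        (sg (P (g7T (3 * r)))).2 := by ring
      rw [e1, e2, h1, zero_div]
    · intro hp
      have hp' : h p = 0 := hp
      unfold h at hp'
      have h1 := (div_eq_zero_iff.1 hp').resolve_right (by norm_num)
      obtain ⟨t, ht1, ht2, ht3⟩ := hsurj _ h1
      obtain ⟨s, hs⟩ := g7T_surj ht1 ht2
      refine ⟨s / 3, ?_⟩
      simp only
      rw [show 3 * (s / 3) = s by ring, hs, ht3]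
      apply Prod.ext
      · simp only
        ring
      · simp only
        ring
  · intro r hr
    have h1 : 3 ≤ |3 * r| := by
      rw [abs_mul, abs_of_pos (by norm_num : (0 : ℝ) < 3)]
      linarith
    simp only [hendT _ h1]
    apply Prod.ext
    · simp only
      ring
    · simp

end Pool.Agent.Helper31.DS
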