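import Pool.Agent.Helper31.DS.S2
import Pool.Agent.Helper31.DS.G7

/-!
# DS-S3: the spun knot as a map of the sphere, and its image (about 150-220 lines)

`κ` is as in `exists_kappa`.  First note: if `|r| < 1` then `(κ r).1 ^ 2 + ‖(κ r).2‖ ^ 2 < 1`
(otherwise `(κ r).2 = h (κ r) = 0` by `h_eq`, so `κ r = (s, 0)`, `1 ≤ |s|`, `κ r = κ s`, `r = s`).
`spin_e`, `spin_rest`: unfold.
`continuous_spin`: on the open set `range e` it is
`J (e (m, (κ r).1), τ m (κ r).2)`, continuous in `(m, r)`; on the open complement of the compact set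
`e (M × [-1, 1])` it is `J (y, 0)`: for `y = e (m, r)`, `1 ≤ |r|`, `κ r = (r, 0)`.
`injective_spin`: for `y = e (m, r)` the value is `J (y', w')` with `y' = e (m, (κ r).1)` in the
range of `e` and from `(y', w')` one gets `m`, `(κ r).1`, `τ m (κ r).2`, hence `κ r`, hence `r`;
for `y ∉ range e` the value is `J (y, 0)`.
`range_spin`: `F (J (e (m, s), w)) = 0` iff `h (s, (τ m)⁻¹ w) = 0` iff `(s, (τ m)⁻¹ w) = κ r` for
some `r`; `F (J (y, w)) = 0` iff `w = 0` for `y ∉ range e`; if `prY z = 0` then `‖prC z‖ = 1`, so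
`F z = prC z ≠ 0`.
-/

namespace Pool.Agent.Helper31.DS

open Complex Set Topology Pool.Agent.Helper82.DK2

variable {M : Type*} [TopologicalSpace M] {e : M × ℝ → Sph 5} {τ : M → Circle}
  {κ : ℝ → ℝ × ℂ}

theorem spin_e (he : IsOpenEmbedding e) (m : M) (r : ℝ) :
    spin e τ κ (e (m, r)) = J (e (m, (κ r).1), (τ m : ℂ) * (κ r).2) := by
  have hy : e (m, r) ∈ range e := ⟨(m, r), rfl⟩
  have h1 : hy.choose = (m, r) := he.injective hy.choose_spec
  unfold spin
  rw [dif_pos hy, h1]

theorem spin_rest (y : Sph 5) (hy : y ∉ range e) : spin e τ κ y = J (y, 0) := by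
  unfold spin
  rw [dif_neg hy]

theorem continuous_spin [CompactSpace M] (he : IsOpenEmbedding e) (hτ : Continuous τ)
    (hκ : Continuous κ) (h1 : ∀ r, 1 ≤ |r| → κ r = (r, 0)) : Continuous (spin e τ κ) := by
  have hJ : Continuous J := isOpenEmbedding_J.continuous
  have hC : IsClosed (e '' ((univ : Set M) ×ˢ Icc (-1 : ℝ) 1)) :=
    ((isCompact_univ.prod isCompact_Icc).image he.continuous).isClosed
  have hS : ∀ y, y ∉ e '' ((univ : Set M) ×ˢ Icc (-1 : ℝ) 1) → spin e τ κ y = J (y, 0) := by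
    intro y hy
    by_cases hr : y ∈ range e
    · obtain ⟨⟨m, r⟩, rfl⟩ := hr
      have h2 : 1 ≤ |r| := by
        by_contra h3
        apply hy
        rw [not_le, abs_lt] at h3
        exact ⟨(m, r), ⟨mem_univ _, h3.1.le, h3.2.le⟩, rfl⟩
      rw [spin_e he, h1 r h2]
      simp
    · exact spin_rest y hr
  rw [continuous_iff_continuousAt]
  intro y
  by_cases hr : y ∈ range e
  · obtain ⟨p, rfl⟩ := hr
    rw [← he.continuousAt_iff]
    have h2 : spin e τ κ ∘ e =
        fun p : M × ℝ => J (e (p.1, (κ p.2).1), (τ p.1 : ℂ) * (κ p.2).2) := by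
      funext p
      exact spin_e he p.1 p.2
    rw [h2]
    apply Continuous.continuousAt
    refine hJ.comp ?_
    refine (he.continuous.comp ?_).prodMk ?_
    · exact continuous_fst.prodMk (continuous_fst.comp (hκ.comp continuous_snd))
    · exact (continuous_subtype_val.comp (hτ.comp continuous_fst)).mul
        (continuous_snd.comp (hκ.comp continuous_snd))
  · have h2 : y ∈ (e '' ((univ : Set M) ×ˢ Icc (-1 : ℝ) 1))ᶜ := by
      rintro ⟨p, -, rfl⟩
      exact hr ⟨p, rfl⟩
    have h3 : (fun y : Sph 5 => J (y, 0)) =ᶠ[nhds y] spin e τ κ := by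
      filter_upwards [hC.isOpen_compl.mem_nhds h2] with y' hy'
      exact (hS y' hy').symm
    refine ContinuousAt.congr ?_ h3
    exact (hJ.comp (continuous_id.prodMk continuous_const)).continuousAt

theorem injective_spin (he : IsOpenEmbedding e) (hi : Function.Injective κ) :
    Function.Injective (spin e τ κ) := by
  have hJ : Function.Injective J := isOpenEmbedding_J.injective
  intro y1 y2 h12
  by_cases hr1 : y1 ∈ range e
  · obtain ⟨⟨m1, r1⟩, rfl⟩ := hr1
    by_cases hr2 : y2 ∈ range e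
    · obtain ⟨⟨m2, r2⟩, rfl⟩ := hr2
      rw [spin_e he, spin_e he] at h12
      have h3 := hJ h12
      have h4 := he.injective (Prod.ext_iff.1 h3).1
      have h5 := (Prod.ext_iff.1 h3).2
      have h6 : m1 = m2 := (Prod.ext_iff.1 h4).1
      have h7 : (κ r1).1 = (κ r2).1 := (Prod.ext_iff.1 h4).2
      subst h6
      have h8 : (κ r1).2 = (κ r2).2 := mul_left_cancel₀ (Circle.coe_ne_zero (τ m1)) h5
      have h9 : r1 = r2 := hi (Prod.ext h7 h8)
      rw [h9]
    · exfalso
      rw [spin_e he, spin_rest y2 hr2] at h12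
      exact hr2 ⟨_, (Prod.ext_iff.1 (hJ h12)).1⟩
  · by_cases hr2 : y2 ∈ range e
    · exfalso
      obtain ⟨⟨m2, r2⟩, rfl⟩ := hr2
      rw [spin_e he, spin_rest y1 hr1] at h12
      exact hr1 ⟨_, (Prod.ext_iff.1 (hJ h12)).1.symm⟩
    · rw [spin_rest y1 hr1, spin_rest y2 hr2] at h12
      exact (Prod.ext_iff.1 (hJ h12)).1

theorem range_spin (he : IsOpenEmbedding e) (hr : Set.range κ = {p | h p = 0}) :
    Set.range (spin e τ κ) = {z | F e τ z = 0} := by
  have hc : ∀ w : ℂ, ((Real.sqrt (1 + ‖w‖ ^ 2))⁻¹ : ℝ) ≠ 0 := by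
    intro w
    have : 0 < 1 + ‖w‖ ^ 2 := by positivity
    exact (inv_pos.2 (Real.sqrt_pos.2 this)).ne'
  have hcc : ∀ w : ℂ, (((Real.sqrt (1 + ‖w‖ ^ 2))⁻¹ : ℝ) : ℂ) ≠ 0 := fun w =>
    Complex.ofReal_ne_zero.2 (hc w)
  ext z
  constructor
  · rintro ⟨y, rfl⟩
    by_cases hy : y ∈ range e
    · obtain ⟨⟨m, r⟩, rfl⟩ := hy
      have h1 : κ r ∈ {p | h p = 0} := hr ▸ mem_range_self r
      have h2 : h (κ r) = 0 := h1
      show F e τ (spin e τ κ (e (m, r))) = 0
      rw [spin_e he, F_J_e he, ← mul_assoc (τ m : ℂ)⁻¹, inv_mul_cancel₀ (Circle.coe_ne_zero (τ m)),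
        one_mul]
      rw [show ((κ r).1, (κ r).2) = κ r from rfl, h2]
      simp
    · show F e τ (spin e τ κ y) = 0
      rw [spin_rest y hy, F_J_rest y hy, prC_J]
      simp
  · intro hz
    have hz' : F e τ z = 0 := hz
    have h1 : prY z.1 ≠ 0 := by
      intro h0
      rw [F_of_prY z h0] at hz'
      have h2 := norm_prY_sq z
      rw [h0, hz'] at h2
      norm_num at h2
    have h2 : z ∈ range J := by
      rw [range_J]
      exact h1
    obtain ⟨⟨y, w⟩, rfl⟩ := h2
    by_cases hy : y ∈ range e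
    · obtain ⟨⟨m, s⟩, rfl⟩ := hy
      rw [F_J_e he] at hz'
      have h3 : h (s, (τ m : ℂ)⁻¹ * w) = 0 := by
        rcases mul_eq_zero.1 hz' with h4 | h4
        · exact absurd h4 (hcc w)
        · rcases mul_eq_zero.1 h4 with h5 | h5
          · exact absurd h5 (Circle.coe_ne_zero (τ m))
          · exact h5
      have h4 : (s, (τ m : ℂ)⁻¹ * w) ∈ Set.range κ := by
        rw [hr]
        exact h3
      obtain ⟨r, h5⟩ := h4
      refine ⟨e (m, r), ?_⟩
      rw [spin_e he, h5]
      simp only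
      rw [← mul_assoc, mul_inv_cancel₀ (Circle.coe_ne_zero (τ m)), one_mul]
    · rw [F_J_rest y hy, prC_J] at hz'
      have h3 : w = 0 := by
        rcases mul_eq_zero.1 hz' with h4 | h4
        · exact absurd h4 (hcc w)
        · exact h4
      refine ⟨y, ?_⟩
      rw [spin_rest y hy, h3]

end Pool.Agent.Helper31.DS
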