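import Pool.Agent.Helper31.DS.G6

/-!
# DS-G8: the long trefoil is locally flat (about 200-300 lines)

Let `p` be a point with `h p = 0`, `a = z1 (3p)`, `b = z2 (3p)`; `G2 a = - G3 b` and `(a, b) ≠ 0`, so
`‖a‖ = ‖b‖ ≠ 0`.
Step 1: the map `E : ℝ × ℂ → ℂ × Circle`-like, `E q = (z1 (3q) / ‖z2 (3q)‖, z2 (3q) / ‖z2 (3q)‖)`, is an
open embedding of `{q | z2 (3q) ≠ 0}` in `ℂ × {unit circle}`: its inverse is
`(ζ, v) ↦ sg (ζ, v) / 3`, defined and continuous on the open set of `(ζ, v)` with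
`(ζ - v).re < nn (ζ, v)` (`sg_z`, `z_sg`).
Step 2: near a unit complex number `v₀` the unit circle has the coordinate `t = arg (v / v₀)`,
`v = v₀ e^{it}`, `|t| < 1`.  So `q ↦ (t, ζ)` is a chart of `ℝ × ℂ` near `p`.
Step 3: `G2` is a local homeomorphism at every `ζ₀ ≠ 0`: write `ζ₀ = r₀ e^{iα₀}`; on
`{r e^{iα} : |α - α₀| < π / 4}` it is `r e^{iα} ↦ r e^{i A2 α}`, with inverse
`R e^{iβ} ↦ R e^{i A2⁻¹ β}` (`exists_A2`); alternatively `G2 z = Q2 z ^ 2 / ‖z‖`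
(`exists_Q2`), `Q2` a homeomorphism, and `u ↦ u² / ‖u‖` is a local homeomorphism of `ℂ \ {0}`.
Step 4: `(t, ζ) ↦ (t, G2 ζ + G3 (v₀ e^{it}))` is a chart; its second coordinate is
`(G2 a' + G3 b') / ‖b'‖` at the point `q`, `a' = z1 (3q)`, `b' = z2 (3q)`, which is zero iff
`h q = 0`.
Use `OpenPartialHomeomorph` composition/restriction, or define `toFun`, `invFun`, `source`,
`target` directly.
-/

namespace Pool.Agent.Helper31.DS

open Complex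

/-- `G2` is a local homeomorphism away from `0`. -/
theorem exists_G2chart (ζ₀ : ℂ) (h0 : ζ₀ ≠ 0) :
    ∃ Ψ : OpenPartialHomeomorph ℂ ℂ, ζ₀ ∈ Ψ.source ∧ ∀ ζ ∈ Ψ.source, Ψ ζ = G2 ζ := by
  obtain ⟨Q, hQn, -, hQ2⟩ := exists_Q2
  have hu0 : Q ζ₀ ≠ 0 := by
    rw [← norm_ne_zero_iff, hQn]
    exact norm_ne_zero_iff.2 h0
  have hu1 : (Q ζ₀)⁻¹ ≠ 0 := inv_ne_zero hu0
  have hc0 : (Q ζ₀) ^ 2 / (‖Q ζ₀‖ : ℂ) ≠ 0 := by
    refine div_ne_zero (pow_ne_zero _ hu0) ?_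
    exact ofReal_ne_zero.2 (norm_ne_zero_iff.2 hu0)
  let D : ℝ × ℝ ≃ₜ ℝ × ℝ := (Homeomorph.refl ℝ).prodCongr (Homeomorph.mulLeft₀ (2 : ℝ) two_ne_zero)
  let Ψ : OpenPartialHomeomorph ℂ ℂ := Q.toOpenPartialHomeomorph.trans
    ((Homeomorph.mulLeft₀ _ hu1).toOpenPartialHomeomorph.trans
      (Complex.polarCoord.trans (D.toOpenPartialHomeomorph.trans
        (Complex.polarCoord.symm.trans
          (Homeomorph.mulLeft₀ _ hc0).toOpenPartialHomeomorph))))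
  refine ⟨Ψ, ?_, ?_⟩
  · simp [Ψ, D, Complex.polarCoord_source,
      Complex.polarCoord_target, Complex.polarCoord_apply, hu0, Real.pi_pos]
  · intro ζ hζ
    have hζ1 : (Q ζ₀)⁻¹ * Q ζ ∈ slitPlane := by
      have := hζ
      simp only [Ψ, OpenPartialHomeomorph.trans_source, Set.mem_inter_iff, Set.mem_preimage,
        Complex.polarCoord_source, Homeomorph.toOpenPartialHomeomorph_apply,
        Homeomorph.coe_mulLeft₀] at this
      exact this.2.2.1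
    have hx0 : (Q ζ₀)⁻¹ * Q ζ ≠ 0 := slitPlane_ne_zero hζ1
    have hQ0 : Q ζ ≠ 0 := right_ne_zero_of_mul hx0
    have hζ0 : ζ ≠ 0 := by
      rw [← norm_ne_zero_iff, ← hQn]
      exact norm_ne_zero_iff.2 hQ0
    have e1 : Ψ ζ = (Q ζ₀) ^ 2 / (‖Q ζ₀‖ : ℂ) * Complex.polarCoord.symm
        (‖(Q ζ₀)⁻¹ * Q ζ‖, 2 * arg ((Q ζ₀)⁻¹ * Q ζ)) := by
      simp only [Ψ, D, OpenPartialHomeomorph.coe_trans, Function.comp_apply,
        Homeomorph.toOpenPartialHomeomorph_apply, Homeomorph.coe_mulLeft₀,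
        Complex.polarCoord_apply]
      rfl
    have e2 : Complex.polarCoord.symm
        (‖(Q ζ₀)⁻¹ * Q ζ‖, 2 * arg ((Q ζ₀)⁻¹ * Q ζ)) =
        ((Q ζ₀)⁻¹ * Q ζ) ^ 2 / (‖(Q ζ₀)⁻¹ * Q ζ‖ : ℂ) := by
      rw [Complex.polarCoord_symm_apply]
      set x := (Q ζ₀)⁻¹ * Q ζ with hx
      have hxn : (‖x‖ : ℂ) ≠ 0 := ofReal_ne_zero.2 (norm_ne_zero_iff.2 hx0)
      have e3 : x = ‖x‖ * exp (arg x * I) := (norm_mul_exp_arg_mul_I x).symm
      rw [eq_div_iff hxn]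
      have e4 : ((Real.cos (2 * arg x) : ℝ) : ℂ) + (Real.sin (2 * arg x) : ℝ) * I
          = exp (arg x * I) ^ 2 := by
        rw [← exp_nat_mul, ofReal_cos, ofReal_sin, ← exp_mul_I]
        congr 1
        push_cast
        ring
      dsimp only
      rw [e4]
      conv_rhs => rw [e3]
      ring
    rw [e1, e2, norm_mul, norm_inv]
    have hζn : (‖ζ‖ : ℂ) ≠ 0 := ofReal_ne_zero.2 (norm_ne_zero_iff.2 hζ0)
    have hn0 : (‖ζ₀‖ : ℂ) ≠ 0 := ofReal_ne_zero.2 (norm_ne_zero_iff.2 h0)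
    rw [hQn, hQn]
    have e5 := hQ2 ζ
    push_cast
    field_simp
    rw [e5]

theorem unit_eq (v₀ w : ℂ) (hv : ‖v₀‖ = 1) (hw : w ≠ 0) :
    v₀ * exp ((arg (w / v₀) : ℝ) * I) = ((‖w‖⁻¹ : ℝ) : ℂ) * w := by
  have hv0 : v₀ ≠ 0 := by
    rintro rfl
    simp at hv
  have h1 := norm_mul_exp_arg_mul_I (w / v₀)
  rw [norm_div, hv, div_one] at h1
  have hn : (‖w‖ : ℂ) ≠ 0 := ofReal_ne_zero.2 (norm_ne_zero_iff.2 hw)
  rw [ofReal_inv, eq_inv_mul_iff_mul_eq₀ hn]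
  calc (‖w‖ : ℂ) * (v₀ * exp ((arg (w / v₀) : ℝ) * I))
      = v₀ * (‖w‖ * exp ((arg (w / v₀) : ℝ) * I)) := by ring
    _ = w := by rw [h1, mul_div_cancel₀ _ hv0]

theorem mem_slit_of (v₀ w : ℂ) (h : w / v₀ ∈ slitPlane) : w ≠ 0 := by
  rintro rfl
  rw [zero_div] at h
  exact slitPlane_ne_zero h rfl

theorem arg_exp_of (t : ℝ) (ht : |t| < Real.pi) : arg (exp ((t : ℝ) * I)) = t := by
  rw [abs_lt] at ht
  rw [exp_mul_I]
  exact arg_cos_add_sin_mul_I ⟨ht.1, ht.2.le⟩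

theorem cont_three : Continuous fun q : ℝ × ℂ => ((3 * q.1, 3 * q.2) : ℝ × ℂ) := by
  fun_prop

theorem three_sg (q : ℝ × ℂ) : ((3 * (q.1 / 3), 3 * (q.2 / 3)) : ℝ × ℂ) = q := by
  refine Prod.ext ?_ ?_
  · change 3 * (q.1 / 3) = q.1
    ring
  · change 3 * (q.2 / 3) = q.2
    ring

theorem cont_arg2 (v₀ : ℂ) : Continuous fun x : ℝ × ℂ => ((x.2, v₀ * exp ((x.1 : ℝ) * I)) : ℂ × ℂ) := by
  fun_prop

theorem cont_nn : Continuous nn := by
  unfold nn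
  fun_prop

/-- the coordinates `arg (z2 / v₀)` and `z1 / |z2|` -/
noncomputable def chart1 (v₀ : ℂ) (hv : ‖v₀‖ = 1) : OpenPartialHomeomorph (ℝ × ℂ) (ℝ × ℂ) where
  toFun q := (arg (z2 (3 * q.1, 3 * q.2) / v₀),
    ((‖z2 (3 * q.1, 3 * q.2)‖⁻¹ : ℝ) : ℂ) * z1 (3 * q.1, 3 * q.2))
  invFun x := ((sg (x.2, v₀ * exp ((x.1 : ℝ) * I))).1 / 3, (sg (x.2, v₀ * exp ((x.1 : ℝ) * I))).2 / 3)
  source := {q | z2 (3 * q.1, 3 * q.2) / v₀ ∈ slitPlane}
  target := {x | |x.1| < Real.pi ∧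
    (x.2 - v₀ * exp ((x.1 : ℝ) * I)).re < nn (x.2, v₀ * exp ((x.1 : ℝ) * I))}
  map_source' := by
    intro q hq
    have hq0 := mem_slit_of v₀ _ hq
    have hc : 0 < ‖z2 (3 * q.1, 3 * q.2)‖⁻¹ := inv_pos.2 (norm_pos_iff.2 hq0)
    refine ⟨?_, ?_⟩
    · rw [abs_lt]
      refine ⟨neg_pi_lt_arg _, lt_of_le_of_ne (arg_le_pi _) ?_⟩
      exact (mem_slitPlane_iff_arg.1 hq).1
    · dsimp only
      rw [unit_eq v₀ _ hv hq0]
      exact (sg_z _ hc _).1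
  map_target' := by
    rintro x ⟨hx1, hx2⟩
    obtain ⟨c, hc, -, h2⟩ := z_sg (x.2, v₀ * exp ((x.1 : ℝ) * I)) hx2
    have hv0 : v₀ ≠ 0 := by
      rintro rfl
      simp at hv
    change z2 (3 * ((sg (x.2, v₀ * exp ((x.1 : ℝ) * I))).1 / 3),
        3 * ((sg (x.2, v₀ * exp ((x.1 : ℝ) * I))).2 / 3)) / v₀ ∈ slitPlane
    rw [three_sg, h2]
    have e2 : (c : ℂ) * (v₀ * exp ((x.1 : ℝ) * I)) / v₀ = c * exp ((x.1 : ℝ) * I) := by
      field_simp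
    dsimp only
    rw [e2, mem_slitPlane_iff_arg, arg_real_mul _ hc, arg_exp_of _ hx1]
    refine ⟨((le_abs_self _).trans_lt hx1).ne, ?_⟩
    exact mul_ne_zero (ofReal_ne_zero.2 hc.ne') (exp_ne_zero _)
  left_inv' := by
    intro q hq
    have hq0 := mem_slit_of v₀ _ hq
    have hc : 0 < ‖z2 (3 * q.1, 3 * q.2)‖⁻¹ := inv_pos.2 (norm_pos_iff.2 hq0)
    have e1 := (sg_z _ hc (3 * q.1, 3 * q.2)).2
    dsimp only
    rw [unit_eq v₀ _ hv hq0, e1]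
    ext <;> simp
  right_inv' := by
    rintro x ⟨hx1, hx2⟩
    obtain ⟨c, hc, h1, h2⟩ := z_sg (x.2, v₀ * exp ((x.1 : ℝ) * I)) hx2
    have hv0 : v₀ ≠ 0 := by
      rintro rfl
      simp at hv
    have hc0 : (c : ℂ) ≠ 0 := ofReal_ne_zero.2 hc.ne'
    have e2 : (c : ℂ) * (v₀ * exp ((x.1 : ℝ) * I)) / v₀ = c * exp ((x.1 : ℝ) * I) := by
      field_simp
    have e3 : ‖(c : ℂ) * (v₀ * exp ((x.1 : ℝ) * I))‖ = c := by
      rw [norm_mul, norm_mul, hv, norm_exp_ofReal_mul_I, norm_real, Real.norm_of_nonneg hc.le]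
      ring
    dsimp only at h1 h2 ⊢
    rw [three_sg, h1, h2, e2, e3, arg_real_mul _ hc, arg_exp_of _ hx1]
    refine Prod.ext rfl ?_
    change ((c⁻¹ : ℝ) : ℂ) * (c * x.2) = x.2
    rw [ofReal_inv, inv_mul_cancel_left₀ hc0]
  continuousOn_toFun := by
    intro q hq
    have hq0 := mem_slit_of v₀ _ hq
    have c1 : Continuous fun q : ℝ × ℂ => z1 (3 * q.1, 3 * q.2) := continuous_z1.comp cont_three
    have c2 : Continuous fun q : ℝ × ℂ => z2 (3 * q.1, 3 * q.2) := continuous_z2.comp cont_three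
    refine ContinuousAt.continuousWithinAt (ContinuousAt.prodMk ?_ ?_)
    · exact ContinuousAt.comp (g := arg) (f := fun q : ℝ × ℂ => z2 (3 * q.1, 3 * q.2) / v₀)
        (continuousAt_arg hq) (c2.div_const v₀).continuousAt
    · refine ContinuousAt.mul ?_ c1.continuousAt
      refine continuous_ofReal.continuousAt.comp ?_
      exact c2.norm.continuousAt.inv₀ (norm_ne_zero_iff.2 hq0)
  continuousOn_invFun := by
    have c1 : ContinuousOn (fun x : ℝ × ℂ => sg (x.2, v₀ * exp ((x.1 : ℝ) * I)))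
        {x | |x.1| < Real.pi ∧
          (x.2 - v₀ * exp ((x.1 : ℝ) * I)).re < nn (x.2, v₀ * exp ((x.1 : ℝ) * I))} := by
      refine continuousOn_sg.comp (cont_arg2 v₀).continuousOn ?_
      rintro x ⟨-, hx2⟩
      exact hx2
    exact (c1.fst.div_const 3).prodMk (c1.snd.div_const 3)
  open_source := by
    have c2 : Continuous fun q : ℝ × ℂ => z2 (3 * q.1, 3 * q.2) := continuous_z2.comp cont_three
    exact isOpen_slitPlane.preimage (c2.div_const v₀)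
  open_target := by
    have c1 : Continuous fun x : ℝ × ℂ => nn (x.2, v₀ * exp ((x.1 : ℝ) * I)) :=
      cont_nn.comp (cont_arg2 v₀)
    refine IsOpen.inter ?_ ?_
    · exact isOpen_lt (continuous_abs.comp continuous_fst) continuous_const
    · have c3 : Continuous fun x : ℝ × ℂ => (x.2 - v₀ * exp ((x.1 : ℝ) * I)).re := by fun_prop
      exact isOpen_lt c3 c1

theorem flat_h (p : ℝ × ℂ) (hp : h p = 0) :
    ∃ φ : OpenPartialHomeomorph (ℝ × ℂ) (ℝ × ℂ), p ∈ φ.source ∧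
      ∀ q ∈ φ.source, h q = 0 ↔ (φ q).2 = 0 := by
  have hG : G2 (z1 (3 * p.1, 3 * p.2)) + G3 (z2 (3 * p.1, 3 * p.2)) = 0 := by
    have := hp
    unfold h at this
    rcases div_eq_zero_iff.1 this with h1 | h1
    · exact h1
    · norm_num at h1
  have hn : ‖z1 (3 * p.1, 3 * p.2)‖ = ‖z2 (3 * p.1, 3 * p.2)‖ := by
    rw [← norm_G2 (z1 _), ← norm_G3 (z2 _), eq_neg_of_add_eq_zero_left hG, norm_neg]
  have hb : z2 (3 * p.1, 3 * p.2) ≠ 0 := by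
    intro hb
    rw [hb, norm_zero, norm_eq_zero] at hn
    rcases z_ne_zero (3 * p.1, 3 * p.2) with h1 | h1
    · exact h1 hn
    · exact h1 hb
  have ha : z1 (3 * p.1, 3 * p.2) ≠ 0 := by
    rw [← norm_ne_zero_iff, hn]
    exact norm_ne_zero_iff.2 hb
  have hbn : (‖z2 (3 * p.1, 3 * p.2)‖ : ℂ) ≠ 0 := ofReal_ne_zero.2 (norm_ne_zero_iff.2 hb)
  obtain ⟨Ψ, hΨ0, hΨ⟩ := exists_G2chart
    (((‖z2 (3 * p.1, 3 * p.2)‖⁻¹ : ℝ) : ℂ) * z1 (3 * p.1, 3 * p.2)) (by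
      refine mul_ne_zero ?_ ha
      rw [ofReal_inv]
      exact inv_ne_zero hbn)
  set v₀ : ℂ := ((‖z2 (3 * p.1, 3 * p.2)‖⁻¹ : ℝ) : ℂ) * z2 (3 * p.1, 3 * p.2) with hv₀
  have hv : ‖v₀‖ = 1 := by
    rw [hv₀, norm_mul, norm_real, norm_inv, norm_norm, inv_mul_cancel₀ (norm_ne_zero_iff.2 hb)]
  have cG : Continuous fun t : ℝ => G3 (v₀ * exp ((t : ℝ) * I)) :=
    continuous_G3.comp (by fun_prop)
  let sh : ℝ × ℂ ≃ₜ ℝ × ℂ :=
    { toFun := fun x => (x.1, x.2 + G3 (v₀ * exp ((x.1 : ℝ) * I)))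
      invFun := fun x => (x.1, x.2 - G3 (v₀ * exp ((x.1 : ℝ) * I)))
      left_inv := fun x => by simp
      right_inv := fun x => by simp
      continuous_toFun := by
        exact continuous_fst.prodMk (continuous_snd.add (cG.comp continuous_fst))
      continuous_invFun := by
        exact continuous_fst.prodMk (continuous_snd.sub (cG.comp continuous_fst)) }
  refine ⟨(chart1 v₀ hv).trans (((OpenPartialHomeomorph.refl ℝ).prod Ψ).trans
    sh.toOpenPartialHomeomorph), ?_, ?_⟩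
  · simp only [OpenPartialHomeomorph.trans_source, Set.mem_inter_iff, Set.mem_preimage,
      OpenPartialHomeomorph.prod_source, Homeomorph.toOpenPartialHomeomorph_source,
      Set.mem_univ, and_true, Set.mem_prod, OpenPartialHomeomorph.refl_source, true_and]
    refine ⟨?_, hΨ0⟩
    change z2 (3 * p.1, 3 * p.2) / v₀ ∈ slitPlane
    have e1 : z2 (3 * p.1, 3 * p.2) / v₀ = (‖z2 (3 * p.1, 3 * p.2)‖ : ℂ) := by
      rw [hv₀, ofReal_inv]
      field_simp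
    rw [e1]
    exact ofReal_mem_slitPlane.2 (norm_pos_iff.2 hb)
  · intro q hq
    simp only [OpenPartialHomeomorph.trans_source, Set.mem_inter_iff, Set.mem_preimage,
      OpenPartialHomeomorph.prod_source, Homeomorph.toOpenPartialHomeomorph_source,
      Set.mem_univ, and_true, Set.mem_prod, OpenPartialHomeomorph.refl_source, true_and] at hq
    obtain ⟨hq1, hq2⟩ := hq
    have hq0 : z2 (3 * q.1, 3 * q.2) ≠ 0 := mem_slit_of v₀ _ hq1
    have hc : 0 < ‖z2 (3 * q.1, 3 * q.2)‖⁻¹ := inv_pos.2 (norm_pos_iff.2 hq0)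
    have e1 : (((chart1 v₀ hv).trans (((OpenPartialHomeomorph.refl ℝ).prod Ψ).trans
        sh.toOpenPartialHomeomorph)) q).2 = ((‖z2 (3 * q.1, 3 * q.2)‖⁻¹ : ℝ) : ℂ) * (12 * h q) := by
      have e2 : (((chart1 v₀ hv).trans (((OpenPartialHomeomorph.refl ℝ).prod Ψ).trans
        sh.toOpenPartialHomeomorph)) q).2 =
          Ψ (((‖z2 (3 * q.1, 3 * q.2)‖⁻¹ : ℝ) : ℂ) * z1 (3 * q.1, 3 * q.2)) +
            G3 (v₀ * exp ((arg (z2 (3 * q.1, 3 * q.2) / v₀) : ℝ) * I)) := rfl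
      have e4 : Ψ (((‖z2 (3 * q.1, 3 * q.2)‖⁻¹ : ℝ) : ℂ) * z1 (3 * q.1, 3 * q.2)) =
          G2 (((‖z2 (3 * q.1, 3 * q.2)‖⁻¹ : ℝ) : ℂ) * z1 (3 * q.1, 3 * q.2)) := hΨ _ hq2
      rw [e2, e4, unit_eq v₀ _ hv hq0, G2_smul _ hc.le, G3_smul _ hc.le]
      unfold h
      ring
    rw [e1]
    constructor
    · intro h0
      rw [h0]
      ring
    · intro h0
      rcases mul_eq_zero.1 h0 with h1 | h1
      · exact absurd (ofReal_eq_zero.1 h1) hc.ne'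
      · rcases mul_eq_zero.1 h1 with h2 | h2
        · norm_num at h2
        · exact h2

end Pool.Agent.Helper31.DS
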