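import Pool.Agent.Helper31.DS.S2
import Pool.Agent.Helper31.DS.G8

/-!
# DS-S4: the spun knot is locally flat (about 150-250 lines)

Let `F z = 0`.  Then `z = J (y, w)` (`prY z ≠ 0`, otherwise `F z = prC z` has norm one).
Let `σ` be a chart of `Sph 5` with values in `EuclideanSpace ℝ (Fin 5)` (`stereographic'`, or
`chartAt`), defined near the point `y'` specified below.
Case 1: `y ∉ e (M × [-1, 1])` (a compact, hence closed set), so `w = 0`; take `y' = y` and the chart
`J (y₁, w₁) ↦ (σ y₁, w₁)` on the open set of `J (y₁, w₁)`, `y₁ ∈ σ.source`, `y₁ ∉ e (M × [-1, 1])`;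
there `F z₁ = 0 ↔ w₁ = 0` by `F_eq_prC`, `prC_J`.
Case 2: `y = e (m, s)`, `p = (s, (τ m)⁻¹ w)`, `h p = 0`; let `φ` be the chart of `flat_h` at `p`,
`y' = e (m, (φ p).1)`.  Take `J (e (m₁, s₁), τ m₁ u₁) ↦ (σ (e (m₁, (φ (s₁, u₁)).1)), (φ (s₁, u₁)).2)`
on the open set of the points with `(s₁, u₁) ∈ φ.source`,
`e (m₁, (φ (s₁, u₁)).1) ∈ σ.source`; `F = 0 ↔ h (s₁, u₁) = 0 ↔ (φ (s₁, u₁)).2 = 0`.
It is the composition of the inverse of the open embedding `(m, s, u) ↦ J (e (m, s), τ m u)`, of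
`id × φ`, of the open embedding `e × id` and of `σ × id`
(`IsOpenEmbedding.toOpenPartialHomeomorph`, `OpenPartialHomeomorph.prod`, `.trans`, `.symm`).
-/

namespace Pool.Agent.Helper31.DS

open Complex Set Topology Pool.Agent.Helper82.DK2

variable {M : Type*} [TopologicalSpace M] {e : M × ℝ → Sph 5} {τ : M → Circle}

private theorem s4_reduce (z : Sph 7) (hz : F e τ z = 0)
    (hmain : ∀ p : Sph 5 × ℂ, F e τ (J p) = 0 →
      ∃ ψ : OpenPartialHomeomorph (Sph 5 × ℂ) (EuclideanSpace ℝ (Fin 5) × ℂ), p ∈ ψ.source ∧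
        ∀ q ∈ ψ.source, F e τ (J q) = 0 ↔ (ψ q).2 = 0) :
    ∃ φ : OpenPartialHomeomorph (Sph 7) (EuclideanSpace ℝ (Fin 5) × ℂ), z ∈ φ.source ∧
      ∀ z' ∈ φ.source, F e τ z' = 0 ↔ (φ z').2 = 0 := by
  have hzJ : z ∈ range J := by
    rw [range_J]
    intro h0
    have h1 := norm_prY_sq z
    have h2 := F_of_prY (e := e) (τ := τ) z h0
    rw [hz] at h2
    rw [h0, ← h2] at h1
    norm_num at h1
  obtain ⟨p, rfl⟩ := hzJ
  obtain ⟨ψ, hp, hψ⟩ := hmain p hz
  haveI : Nonempty (Sph 5 × ℂ) := ⟨p⟩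
  have hinv : ∀ q, (isOpenEmbedding_J.toOpenPartialHomeomorph J).symm (J q) = q :=
    fun q => isOpenEmbedding_J.toOpenPartialHomeomorph_left_inv J
  refine ⟨(isOpenEmbedding_J.toOpenPartialHomeomorph J).symm.trans ψ, ?_, ?_⟩
  · rw [OpenPartialHomeomorph.trans_source]
    refine ⟨?_, ?_⟩
    · rw [OpenPartialHomeomorph.symm_source, IsOpenEmbedding.toOpenPartialHomeomorph_target]
      exact mem_range_self p
    · rw [mem_preimage, hinv]
      exact hp
  · intro z' hz'
    rw [OpenPartialHomeomorph.trans_source] at hz'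
    obtain ⟨h1, h2⟩ := hz'
    rw [OpenPartialHomeomorph.symm_source, IsOpenEmbedding.toOpenPartialHomeomorph_target] at h1
    obtain ⟨q, rfl⟩ := h1
    rw [mem_preimage, hinv] at h2
    rw [OpenPartialHomeomorph.trans_apply, hinv]
    exact hψ q h2

/-- the embedding of `M × (ℝ × ℂ)` in `Sph 5 × ℂ` -/
private def s4E (e : M × ℝ → Sph 5) (a : M × (ℝ × ℂ)) : Sph 5 × ℂ := (e (a.1, a.2.1), a.2.2)

private theorem s4E_emb (he : IsOpenEmbedding e) : IsOpenEmbedding (s4E e) := by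
  have h1 : IsOpenEmbedding (Prod.map e (id : ℂ → ℂ)) := he.prodMap IsOpenEmbedding.id
  exact h1.comp (Homeomorph.prodAssoc M ℝ ℂ).symm.isOpenEmbedding

/-- multiplication of the last coordinate by `τ` -/
private noncomputable def s4T (hτ : Continuous τ) : (M × (ℝ × ℂ)) ≃ₜ (M × (ℝ × ℂ)) where
  toFun a := (a.1, (a.2.1, (τ a.1 : ℂ) * a.2.2))
  invFun a := (a.1, (a.2.1, (τ a.1 : ℂ)⁻¹ * a.2.2))
  left_inv a := by
    have h : (τ a.1 : ℂ) ≠ 0 := Circle.coe_ne_zero _
    simp [inv_mul_cancel_left₀ h]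
  right_inv a := by
    have h : (τ a.1 : ℂ) ≠ 0 := Circle.coe_ne_zero _
    simp [mul_inv_cancel_left₀ h]
  continuous_toFun := by
    have h : Continuous fun a : M × (ℝ × ℂ) => (τ a.1 : ℂ) :=
      continuous_subtype_val.comp (hτ.comp continuous_fst)
    exact continuous_fst.prodMk ((continuous_fst.comp continuous_snd).prodMk
      (h.mul (continuous_snd.comp continuous_snd)))
  continuous_invFun := by
    have h : Continuous fun a : M × (ℝ × ℂ) => (τ a.1 : ℂ) :=
      continuous_subtype_val.comp (hτ.comp continuous_fst)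
    exact continuous_fst.prodMk ((continuous_fst.comp continuous_snd).prodMk
      ((h.inv₀ fun a => Circle.coe_ne_zero _).mul (continuous_snd.comp continuous_snd)))

private theorem s4_sqrt_ne (w : ℂ) : (((Real.sqrt (1 + ‖w‖ ^ 2))⁻¹ : ℝ) : ℂ) ≠ 0 := by
  have h : 0 < Real.sqrt (1 + ‖w‖ ^ 2) := Real.sqrt_pos.2 (by positivity)
  exact_mod_cast (inv_pos.2 h).ne'

private theorem s4_zero (he : IsOpenEmbedding e) (hτ : Continuous τ) (a : M × (ℝ × ℂ)) :
    F e τ (J (s4E e a)) = 0 ↔ h ((s4T hτ).symm a).2 = 0 := by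
  have h1 := F_J_e (τ := τ) he a.1 a.2.1 a.2.2
  have h2 : F e τ (J (s4E e a)) = ((Real.sqrt (1 + ‖a.2.2‖ ^ 2))⁻¹ : ℝ) *
      ((τ a.1 : ℂ) * h ((s4T hτ).symm a).2) := h1
  rw [h2, mul_eq_zero, mul_eq_zero]
  constructor
  · rintro (h3 | h3 | h3)
    · exact absurd h3 (s4_sqrt_ne _)
    · exact absurd h3 (Circle.coe_ne_zero _)
    · exact h3
  · intro h3
    exact Or.inr (Or.inr h3)

theorem flat_F [CompactSpace M] (he : IsOpenEmbedding e) (hτ : Continuous τ) (z : Sph 7)
    (hz : F e τ z = 0) :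
    ∃ φ : OpenPartialHomeomorph (Sph 7) (EuclideanSpace ℝ (Fin 5) × ℂ), z ∈ φ.source ∧
      ∀ z' ∈ φ.source, F e τ z' = 0 ↔ (φ z').2 = 0 := by
  haveI : Fact (Module.finrank ℝ (EuclideanSpace ℝ (Fin (5 + 1))) = 5 + 1) := ⟨by simp⟩
  apply s4_reduce z hz
  intro p hp
  by_cases hpe : p.1 ∈ e '' (univ ×ˢ Icc (-1 : ℝ) 1)
  · obtain ⟨⟨m, s⟩, -, hms⟩ := hpe
    obtain ⟨a, ha⟩ : ∃ a : M × (ℝ × ℂ), s4E e a = p := ⟨(m, (s, p.2)), Prod.ext hms rfl⟩
    subst ha
    haveI : Nonempty (M × (ℝ × ℂ)) := ⟨a⟩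
    have hE := s4E_emb he
    have hinv : ∀ b, (hE.toOpenPartialHomeomorph (s4E e)).symm (s4E e b) = b :=
      fun b => hE.toOpenPartialHomeomorph_left_inv (s4E e)
    obtain ⟨φ, hφ1, hφ2⟩ := flat_h ((s4T hτ).symm a).2 ((s4_zero he hτ a).1 hp)
    let y' : Sph 5 := e (((s4T hτ).symm a).1, (φ ((s4T hτ).symm a).2).1)
    let σ : OpenPartialHomeomorph (Sph 5) (EuclideanSpace ℝ (Fin 5)) :=
      chartAt (EuclideanSpace ℝ (Fin 5)) y'
    refine ⟨(hE.toOpenPartialHomeomorph (s4E e)).symm.trans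
      ((s4T hτ).symm.toOpenPartialHomeomorph.trans
        (((OpenPartialHomeomorph.refl M).prod φ).trans
          ((hE.toOpenPartialHomeomorph (s4E e)).trans
            (σ.prod (OpenPartialHomeomorph.refl ℂ))))), ?_, ?_⟩
    · simp only [OpenPartialHomeomorph.trans_source, OpenPartialHomeomorph.symm_source,
        IsOpenEmbedding.toOpenPartialHomeomorph_target, mem_inter_iff, mem_preimage, hinv,
        Homeomorph.toOpenPartialHomeomorph_source, Homeomorph.toOpenPartialHomeomorph_apply,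
        OpenPartialHomeomorph.prod_source, OpenPartialHomeomorph.refl_source, mem_univ, true_and,
        IsOpenEmbedding.toOpenPartialHomeomorph_source, OpenPartialHomeomorph.prod_apply,
        OpenPartialHomeomorph.refl_apply, IsOpenEmbedding.toOpenPartialHomeomorph_apply, mem_prod,
        and_true]
      exact ⟨mem_range_self a, hφ1, mem_chart_source _ y'⟩
    · intro q hq
      simp only [OpenPartialHomeomorph.trans_source, OpenPartialHomeomorph.symm_source,
        IsOpenEmbedding.toOpenPartialHomeomorph_target, mem_inter_iff, mem_preimage] at hq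
      obtain ⟨⟨b, rfl⟩, hq⟩ := hq
      rw [hinv] at hq
      have hq1 : ((s4T hτ).symm b).2 ∈ φ.source := by
        have := hq.2.1
        simpa using this
      rw [s4_zero he hτ b, hφ2 _ hq1]
      simp only [OpenPartialHomeomorph.trans_apply, hinv]
      rfl
  · have hC : IsClosed (e '' (univ ×ˢ Icc (-1 : ℝ) 1)) :=
      ((isCompact_univ.prod isCompact_Icc).image he.continuous).isClosed
    have hU : IsOpen ((e '' (univ ×ˢ Icc (-1 : ℝ) 1))ᶜ ×ˢ (univ : Set ℂ)) :=
      hC.isOpen_compl.prod isOpen_univ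
    let σ : OpenPartialHomeomorph (Sph 5) (EuclideanSpace ℝ (Fin 5)) :=
      chartAt (EuclideanSpace ℝ (Fin 5)) p.1
    refine ⟨(σ.prod (OpenPartialHomeomorph.refl ℂ)).restrOpen _ hU, ?_, ?_⟩
    · rw [OpenPartialHomeomorph.restrOpen_source]
      exact ⟨⟨mem_chart_source _ p.1, mem_univ _⟩, hpe, mem_univ _⟩
    · intro q hq
      rw [OpenPartialHomeomorph.restrOpen_source] at hq
      obtain ⟨-, hq, -⟩ := hq
      have h1 : F e τ (J q) = prC (J q).1 := by
        apply F_eq_prC he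
        intro m s w hw
        have h2 : q = (e (m, s), w) := isOpenEmbedding_J.injective hw
        by_contra h3
        apply hq
        refine ⟨(m, s), ⟨mem_univ _, ?_⟩, by rw [h2]⟩
        have h4 : s ^ 2 < 1 := by nlinarith [sq_nonneg ‖w‖]
        rw [sq_lt_one_iff_abs_lt_one] at h4
        exact ⟨(abs_lt.1 h4).1.le, (abs_lt.1 h4).2.le⟩
      rw [h1, prC_J, mul_eq_zero]
      constructor
      · rintro (h2 | h2)
        · exact absurd h2 (s4_sqrt_ne _)
        · exact h2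
      · intro h2
        exact Or.inr h2

end Pool.Agent.Helper31.DS
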