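import Pool.Agent.Helper31.DS.O2
import Pool.Agent.Helper36.AS.Cup

/-!
# A local class of the intersection does not extend to one of the two sides
-/

namespace Pool.Agent.Helper31.DS

open Set Filter Topology Pool.Agent.Helper36.AS

section
variable {V E : Type*} [TopologicalSpace V] [TopologicalSpace E]

/-- Comparison of two open embeddings in the same set. -/
theorem isOpenEmbedding_of_comp {j J₀ : V → E} {X : Set E} (hj : OE j univ X)
    (hJ : OE J₀ univ X) {i : V → V} (hi : ∀ y, j (i y) = J₀ y) : IsOpenEmbedding i := by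
  refine IsOpenEmbedding.of_continuous_injective_isOpenMap ?_ ?_ ?_
  · rw [continuous_iff_continuousAt]
    intro y U hU
    obtain ⟨W, hW, hWU⟩ := hj.opn (i y) trivial U hU
    rw [hi y] at hW
    have h1 : J₀ ⁻¹' W ∈ 𝓝 y := by
      have := hJ.cont y trivial
      rw [continuousWithinAt_univ] at this
      exact this hW
    rw [mem_map]
    refine mem_of_superset h1 fun y' hy' => ?_
    obtain ⟨u, ⟨hu, -⟩, hu'⟩ := hWU ⟨hy', hJ.maps trivial⟩
    have : u = i y' := hj.inj trivial trivial (by rw [hu', hi y'])
    exact (this ▸ hu : i y' ∈ U)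
  · intro y y' h
    exact hJ.inj trivial trivial (by rw [← hi, ← hi, h])
  · rw [isOpenMap_iff_nhds_le]
    intro y U hU
    rw [mem_map] at hU
    obtain ⟨W, hW, hWU⟩ := hJ.opn y trivial _ hU
    rw [← hi y] at hW
    have h1 : j ⁻¹' W ∈ 𝓝 (i y) := by
      have := hj.cont (i y) trivial
      rw [continuousWithinAt_univ] at this
      exact this hW
    refine mem_of_superset h1 fun z hz => ?_
    obtain ⟨u, ⟨hu, -⟩, hu'⟩ := hWU ⟨hz, hj.maps trivial⟩
    have : i u = z := hj.inj trivial trivial (by rw [hi u, hu'])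
    exact (this ▸ hu : z ∈ U)

theorem OE.comp_isOpenEmbedding {V' : Type*} [TopologicalSpace V'] {J : V → E} {TE : Set E}
    (hJ : OE J univ TE) {s : V' → V} (hs : IsOpenEmbedding s) : OE (J ∘ s) univ TE where
  cont := hJ.cont.comp hs.continuous.continuousOn (mapsTo_univ _ _)
  maps := fun _ _ => hJ.maps trivial
  inj := fun _ _ _ _ h => hs.injective (hJ.inj trivial trivial h)
  opn := fun v _ U hU => by
    obtain ⟨W, hW, hWU⟩ := hJ.opn (s v) trivial (s '' U) (hs.isOpenMap.image_mem_nhds hU)
    refine ⟨W, hW, fun x hx => ?_⟩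
    obtain ⟨z, ⟨⟨u, hu, rfl⟩, -⟩, rfl⟩ := hWU hx
    exact ⟨u, ⟨hu, trivial⟩, rfl⟩

end

section
variable {V E k : Type*} [NormedAddCommGroup V] [NormedSpace ℝ V] [LocallyCompactSpace V]
  [MetricSpace E] [Field k]

/-- The `0`-cochain which is one on `r ≤ 1/2`. -/
noncomputable def chi0 : List (ℝ × V) → k := fun l =>
  match l with
  | [] => 0
  | p :: _ => if 1 / 2 < p.1 then 0 else 1

/-- The `0`-cochain which is one on `0 < r`. -/
noncomputable def step0 : List (ℝ × V) → k := fun l =>
  match l with
  | [] => 0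
  | p :: _ => if 0 < p.1 then 1 else 0

theorem h0_lz_right {n : ℕ} {st : List V → k} (q : ℝ × V) (hq : 1 / 2 < q.1) :
    LZat univ (n + 2) (cup 0 (chi0 (V := V)) (pull Prod.snd st)) q := by
  refine ⟨{p | 1 / 2 < p.1}, (isOpen_lt continuous_const continuous_fst).mem_nhds hq,
    fun l hl hl' => ?_⟩
  match l, hl with
  | p :: l, _ =>
    rw [cup_zero_cons]
    have : 1 / 2 < p.1 := (hl' p (by simp)).1
    simp only [chi0, if_pos this, zero_mul]

theorem h0_left {n : ℕ} {st : List V → k} (q : ℝ × V) (hq : q.1 < 1 / 2) :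
    LZat univ (n + 2) (cup 0 (chi0 (V := V)) (pull Prod.snd st) - pull Prod.snd st) q := by
  refine ⟨{p | p.1 < 1 / 2}, (isOpen_lt continuous_fst continuous_const).mem_nhds hq,
    fun l hl hl' => ?_⟩
  match l, hl with
  | p :: l, _ =>
    rw [Pi.sub_apply, cup_zero_cons]
    have : ¬ 1 / 2 < p.1 := not_lt.2 (hl' p (by simp)).1.le
    simp only [chi0, if_neg this, one_mul, sub_self]

theorem h0_snd {n : ℕ} {st : List V → k} (hst : IsStd n st) (q : ℝ × V) (hq : q.2 ≠ 0) :
    LZat univ (n + 2) (cup 0 (chi0 (V := V)) (pull Prod.snd st)) q := by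
  have h1 : LZat univ (n + 2) (pull (Prod.snd : ℝ × V → V) st) q :=
    LZat.pull (B := univ) (φ := Prod.snd) (hst.supp q.2 hq) continuous_snd.continuousWithinAt
      (mapsTo_univ _ _)
  have := h1.cup_right (p := 0) (q := n + 1) (chi0 (V := V) (k := k))
  rwa [show 0 + (n + 1) + 1 = n + 2 by omega] at this

/-- The coboundary of the cut off cochain is supported at one point. -/
theorem d_h0_lz {n : ℕ} {st : List V → k} (hst : IsStd n st) (q : ℝ × V)
    (hq : q ≠ (1 / 2, 0)) :
    LZat univ (n + 3) (d (cup 0 (chi0 (V := V)) (pull Prod.snd st))) q := by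
  by_cases h2 : q.2 = 0
  swap
  · exact (h0_snd hst q h2).d
  rcases lt_trichotomy q.1 (1 / 2) with h1 | h1 | h1
  · have h3 := (h0_left (n := n) (st := st) q h1).d
    rw [d_sub', d_pull'] at h3
    have h4 : LZat univ (n + 3) (pull (Prod.snd : ℝ × V → V) (d st)) q :=
      LZat.pull (B := univ) (φ := Prod.snd) (hst.coc.2 q.2 trivial)
        continuous_snd.continuousWithinAt (mapsTo_univ _ _)
    have := h3.add h4
    rwa [sub_add_cancel] at this
  · exact absurd (Prod.ext h1 h2) hq
  · exact (h0_lz_right q h1).d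

/-- The coboundary of the cut off cochain is not a coboundary of a cochain with compact support. -/
theorem d_h0_ne {n : ℕ} {st : List V → k} (hst : IsStd n st)
    (hline : cup 1 (d (step0 (V := V))) (pull Prod.snd st) ∉
      coboundaries k IsCompact (univ : Set (ℝ × V)) (n + 2)) :
    d (cup 0 (chi0 (V := V)) (pull Prod.snd st)) ∉
      coboundaries k IsCompact (univ : Set (ℝ × V)) (n + 2) := by
  intro h
  apply hline
  set T : ℝ × V → ℝ × V := fun q => (q.1 + 1 / 2, q.2) with hT
  have hTs : SMap (IsCompact (X := ℝ × V)) (IsCompact (X := ℝ × V)) univ univ T := by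
    refine ⟨by fun_prop, mapsTo_univ _ _, fun K _ hK => ?_⟩
    rw [univ_inter]
    have : T = (Homeomorph.prodCongr (Homeomorph.addRight (1 / 2 : ℝ)) (Homeomorph.refl V)) := by
      funext q; rfl
    rw [this]
    exact (Homeomorph.isCompact_preimage _).2 hK
  have h1 := Submodule.neg_mem _ (hTs.pull_mem_coboundaries h)
  have h2 : cup 1 (d (step0 (V := V) (k := k))) (pull Prod.snd st) -
      -pull T (d (cup 0 (chi0 (V := V)) (pull Prod.snd st))) ∈
      coboundaries k IsCompact (univ : Set (ℝ × V)) (n + 2) := by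
    refine LZ.mem_coboundaries fun q _ => ?_
    have h3 : LZat univ (n + 3) (pull (Prod.snd : ℝ × V → V) (d st)) q :=
      LZat.pull (B := univ) (φ := Prod.snd) (hst.coc.2 q.2 trivial)
        continuous_snd.continuousWithinAt (mapsTo_univ _ _)
    have h4 : LZat univ (n + 3) (cup 0 (pull T (chi0 (V := V) (k := k)))
        (pull (Prod.snd : ℝ × V → V) (d st))) q := by
      have := h3.cup_right (p := 0) (q := n + 2) (pull T (chi0 (V := V) (k := k)))
      rwa [show 0 + (n + 2) + 1 = n + 3 by omega] at this
    refine h4.congr fun l hl _ => ?_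
    have h5 : pull T (d (cup 0 (chi0 (V := V)) (pull Prod.snd st))) l =
        d (cup 0 (pull T (chi0 (V := V) (k := k))) (pull Prod.snd st)) l := by
      rw [← d_pull]
      congr 1
      funext m
      rw [pull_cup]
      have : pull T (pull (Prod.snd : ℝ × V → V) st) = pull Prod.snd st := by
        funext m'
        simp only [pull, List.map_map]
        rfl
      rw [this]
    rw [Pi.sub_apply, Pi.neg_apply, sub_neg_eq_add, h5, d_cup 0 _ _ l (by omega), d_pull' Prod.snd st]
    have h6 : cup 1 (d (pull T (chi0 (V := V) (k := k)))) (pull Prod.snd st) l =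
        - cup 1 (d (step0 (V := V))) (pull Prod.snd st) l := by
      simp only [cup]
      have h7 : d (pull T (chi0 (V := V) (k := k))) (l.take (1 + 1)) =
          - d (step0 (V := V)) (l.take (1 + 1)) := by
        match l, hl with
        | a :: b :: l, _ =>
          have e1 : ∀ c : ℝ × V, pull T (chi0 (V := V) (k := k)) [c] = 1 - step0 [c] := by
            intro c
            simp only [pull, chi0, step0, hT, List.map_cons, List.map_nil]
            by_cases hc : 0 < c.1
            · rw [if_pos hc, if_pos (by linarith)]; ring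
            · rw [if_neg hc, if_neg (by linarith)]; ring
          simp only [List.take_succ_cons, List.take_zero, d_cons, d_nil, e1]
          ring
      rw [h7]; ring
    rw [h6]
    simp only [Nat.reduceAdd, pow_zero, one_mul]
    ring
  have := Submodule.add_mem _ h2 h1
  rwa [sub_add_cancel] at this

end

end Pool.Agent.Helper31.DS
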