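import Pool.Agent.Helper31.DS.G3
import Pool.Agent.Helper31.DS.G4

/-!
# DS-G6: the long trefoil function is `w` outside the unit ball (about 40-70 lines)

Proof of `h_eq`.  Put `(s, w) = 3 p`, `ρ² = s² + |w|² ≥ 9`.  Then
`Re z1 = ρ² - 1 + 2 Re w ≥ ρ² - 1 - 2 ρ ≥ 0` and `Re z2 = 1 - ρ² + 2 Re w ≤ 0` (`ρ ≥ 3`), so
`G2 z1 + G3 z2 = z1 + z2 = 4 w = 12 p.2`.
-/

namespace Pool.Agent.Helper31.DS

open Complex

theorem continuous_h : Continuous h := by
  unfold h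
  have h1 : Continuous fun p : ℝ × ℂ => ((3 * p.1, 3 * p.2) : ℝ × ℂ) := by fun_prop
  exact ((continuous_G2.comp (continuous_z1.comp h1)).add
    (continuous_G3.comp (continuous_z2.comp h1))).div_const _

theorem h_eq (p : ℝ × ℂ) (hp : 1 ≤ p.1 ^ 2 + ‖p.2‖ ^ 2) : h p = p.2 := by
  obtain ⟨s, w⟩ := p
  simp only at hp ⊢
  have hn : ‖(3 : ℂ) * w‖ = 3 * ‖w‖ := by
    rw [norm_mul, Complex.norm_ofNat]
  have habs := Complex.abs_re_le_norm w
  have h1 := (abs_le.1 habs).1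
  have h2 := (abs_le.1 habs).2
  have r1 : (z1 (3 * s, 3 * w)).re = (3 * s) ^ 2 + (3 * ‖w‖) ^ 2 - 1 + 2 * (3 * w.re) := by
    unfold z1
    simp only [hn, Complex.add_re, Complex.ofReal_re, Complex.mul_re, Complex.re_ofNat,
      Complex.im_ofNat, Complex.I_re, Complex.I_im, Complex.mul_im, Complex.ofReal_im]
    ring
  have r2 : (z2 (3 * s, 3 * w)).re = 1 - (3 * s) ^ 2 - (3 * ‖w‖) ^ 2 + 2 * (3 * w.re) := by
    unfold z2
    simp only [hn, Complex.add_re, Complex.sub_re, Complex.ofReal_re, Complex.mul_re,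
      Complex.re_ofNat, Complex.im_ofNat, Complex.I_re, Complex.I_im, Complex.mul_im,
      Complex.ofReal_im]
    ring
  have g2 : G2 (z1 (3 * s, 3 * w)) = z1 (3 * s, 3 * w) := by
    unfold G2
    rw [if_pos]
    rw [r1]
    nlinarith [sq_nonneg (3 * ‖w‖ - 2), sq_nonneg s]
  have g3 : G3 (z2 (3 * s, 3 * w)) = z2 (3 * s, 3 * w) := by
    unfold G3
    rw [if_pos]
    rw [r2]
    nlinarith [sq_nonneg (3 * ‖w‖ - 2), sq_nonneg s]
  have h3 : z1 (3 * s, 3 * w) + z2 (3 * s, 3 * w) = 12 * w := by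
    unfold z1 z2
    push_cast
    ring
  unfold h
  simp only
  rw [g2, g3, h3]
  field_simp

end Pool.Agent.Helper31.DS
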