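import Pool.Agent.Helper31.DS.S1
import Pool.Agent.Helper31.DS.G6

/-!
# DS-S2: the function `F` of the spun knot is continuous (about 120-180 lines)

`F_J_e`: `e` and `J` are injective, unfold the definitions.
`F_J_rest`, `F_of_prY`: the same.
`F_eq_prC`: if `z = J (y, w)` with `y = e (m, s)` and `1 ≤ s² + |w|²`, then
`h (s, τ⁻¹ w) = τ⁻¹ w` by `h_eq`, so `F z = w / √(1 + |w|²) = prC z`.
`continuous_F`: let `C = {J (e (m, s), w) : |s| ≤ 1, |w| ≤ 1}`, a compact set (`M` compact), hence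
closed.  On the open set `Cᶜ` `F z = prC z` (by the previous facts), which is continuous.  On the
open set `range (fun (m, s, w) ↦ J (e (m, s), w))` (open embedding) `F` is given by the formula
`F_J_e`, which is continuous in `(m, s, w)` (`continuous_h`, `hτ`).  The two open sets cover.
-/

namespace Pool.Agent.Helper31.DS

open Complex Set Topology Pool.Agent.Helper82.DK2

variable {M : Type*} [TopologicalSpace M] {e : M × ℝ → Sph 5} {τ : M → Circle}

theorem F_J_e (he : IsOpenEmbedding e) (m : M) (s : ℝ) (w : ℂ) :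
    F e τ (J (e (m, s), w)) =
      ((Real.sqrt (1 + ‖w‖ ^ 2))⁻¹ : ℝ) * ((τ m : ℂ) * h (s, (τ m : ℂ)⁻¹ * w)) := by
  have hz : J (e (m, s), w) ∈ range J := ⟨_, rfl⟩
  have h1 : hz.choose = (e (m, s), w) := isOpenEmbedding_J.injective hz.choose_spec
  have hy : e (m, s) ∈ range e := ⟨_, rfl⟩
  have h2 : hy.choose = (m, s) := he.injective hy.choose_spec
  have h3 : F0 e τ (e (m, s)) w = (τ m : ℂ) * h (s, (τ m : ℂ)⁻¹ * w) := by
    unfold F0
    rw [dif_pos hy, h2]
  unfold F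
  rw [dif_pos hz, h1]
  simp only
  rw [h3]

theorem F_J_rest (y : Sph 5) (hy : y ∉ range e) (w : ℂ) :
    F e τ (J (y, w)) = prC (J (y, w)).1 := by
  have hz : J (y, w) ∈ range J := ⟨_, rfl⟩
  have h1 : hz.choose = (y, w) := isOpenEmbedding_J.injective hz.choose_spec
  have h3 : F0 e τ y w = w := by
    unfold F0
    rw [dif_neg hy]
  rw [prC_J]
  unfold F
  rw [dif_pos hz, h1]
  simp only
  rw [h3]

theorem F_of_prY (z : Sph 7) (hz : prY z.1 = 0) : F e τ z = prC z.1 := by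
  have h1 : z ∉ range J := by
    rw [range_J]
    intro h
    exact h hz
  unfold F
  rw [dif_neg h1]

theorem F_eq_prC (he : IsOpenEmbedding e) (z : Sph 7)
    (hz : ∀ m s w, z = J (e (m, s), w) → 1 ≤ s ^ 2 + ‖w‖ ^ 2) : F e τ z = prC z.1 := by
  by_cases h1 : prY z.1 = 0
  · exact F_of_prY z h1
  · have h2 : z ∈ range J := by
      rw [range_J]
      exact h1
    obtain ⟨⟨y, w⟩, rfl⟩ := h2
    by_cases hy : y ∈ range e
    · obtain ⟨⟨m, s⟩, rfl⟩ := hy
      have h3 := hz m s w rfl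
      have hτ0 : (τ m : ℂ) ≠ 0 := Circle.coe_ne_zero _
      have h4 : ‖(τ m : ℂ)⁻¹ * w‖ = ‖w‖ := by
        rw [norm_mul, norm_inv, Circle.norm_coe, inv_one, one_mul]
      rw [F_J_e he, h_eq (s, (τ m : ℂ)⁻¹ * w) (by
        show 1 ≤ s ^ 2 + ‖(τ m : ℂ)⁻¹ * w‖ ^ 2
        rw [h4]
        exact h3), prC_J]
      show _ * ((τ m : ℂ) * ((τ m : ℂ)⁻¹ * w)) = _
      rw [mul_inv_cancel_left₀ hτ0]
    · exact F_J_rest y hy w

theorem continuous_F [CompactSpace M] (he : IsOpenEmbedding e) (hτ : Continuous τ) :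
    Continuous (F e τ) := by
  set Φ : (M × ℝ) × ℂ → Sph 7 := fun p => J (e p.1, p.2) with hΦ
  have hΦo : IsOpenEmbedding Φ := by
    have h1 : IsOpenEmbedding (Prod.map e (id : ℂ → ℂ)) := he.prodMap IsOpenEmbedding.id
    exact isOpenEmbedding_J.comp h1
  set K : Set ((M × ℝ) × ℂ) := ((univ : Set M) ×ˢ Icc (-1 : ℝ) 1) ×ˢ Metric.closedBall (0 : ℂ) 1
    with hK
  have hKc : IsCompact K := (isCompact_univ.prod isCompact_Icc).prod (isCompact_closedBall _ _)
  have hC : IsClosed (Φ '' K) := (hKc.image hΦo.continuous).isClosed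
  have hFΦ : Continuous (F e τ ∘ Φ) := by
    have h1 : (F e τ ∘ Φ) = fun p : (M × ℝ) × ℂ => (((Real.sqrt (1 + ‖p.2‖ ^ 2))⁻¹ : ℝ) : ℂ) *
        ((τ p.1.1 : ℂ) * h (p.1.2, (τ p.1.1 : ℂ)⁻¹ * p.2)) := by
      funext p
      obtain ⟨⟨m, s⟩, w⟩ := p
      exact F_J_e he m s w
    rw [h1]
    have h2 : Continuous fun p : (M × ℝ) × ℂ => (τ p.1.1 : ℂ) :=
      continuous_subtype_val.comp (hτ.comp (continuous_fst.comp continuous_fst))
    have h3 : Continuous fun p : (M × ℝ) × ℂ => (τ p.1.1 : ℂ)⁻¹ :=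
      h2.inv₀ fun p => Circle.coe_ne_zero _
    have h4 : Continuous fun p : (M × ℝ) × ℂ => h (p.1.2, (τ p.1.1 : ℂ)⁻¹ * p.2) :=
      continuous_h.comp ((continuous_snd.comp continuous_fst).prodMk (h3.mul continuous_snd))
    have h5 : Continuous fun p : (M × ℝ) × ℂ => (((Real.sqrt (1 + ‖p.2‖ ^ 2))⁻¹ : ℝ) : ℂ) := by
      apply Complex.continuous_ofReal.comp
      apply Continuous.inv₀
      · exact Real.continuous_sqrt.comp (continuous_const.add (continuous_snd.norm.pow 2))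
      · intro p
        have : (0 : ℝ) < 1 + ‖p.2‖ ^ 2 := by positivity
        exact (Real.sqrt_pos.2 this).ne'
    exact h5.mul (h2.mul h4)
  rw [continuous_iff_continuousAt]
  intro z
  by_cases hz : z ∈ Φ '' K
  · obtain ⟨p, _, rfl⟩ := hz
    exact hΦo.continuousAt_iff.1 hFΦ.continuousAt
  · have h1 : F e τ =ᶠ[𝓝 z] fun z => prC z.1 := by
      filter_upwards [hC.isOpen_compl.mem_nhds hz] with y hy
      apply F_eq_prC he
      intro m s w hyw
      by_contra hlt
      push Not at hlt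
      apply hy
      refine ⟨((m, s), w), ⟨⟨mem_univ _, ?_⟩, ?_⟩, hyw.symm⟩
      · have h2 : s ^ 2 ≤ 1 := by nlinarith [sq_nonneg ‖w‖]
        exact abs_le.1 ((sq_le_one_iff_abs_le_one s).1 h2)
      · rw [mem_closedBall_zero_iff]
        have h2 : ‖w‖ ^ 2 ≤ 1 := by nlinarith [sq_nonneg s]
        have h3 := (sq_le_one_iff_abs_le_one ‖w‖).1 h2
        rwa [abs_norm] at h3
    exact ((continuous_prC.comp continuous_subtype_val).continuousAt).congr h1.symm

end Pool.Agent.Helper31.DS
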