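import Pool.Agent.Helper31.DS.A4
import Pool.Agent.Helper31.DS.S3
import Pool.Agent.Helper31.DS.S4
import Pool.Agent.Helper31.DS.G7
import Pool.Agent.Helper13.DS.Acyc
import Pool.Agent.Helper39.DS.Ambient
import Pool.Agent.Helper82.DK2.SplitFinal
import Pool.Agent.Helper82.DK2.PiFinal
import Pool.Agent.Helper82.DK2.NLoop

/-!
# The spun knot: everything except for block C
-/

namespace Pool.Agent.Helper31.DS

open Set Filter Topology Pool.Agent.Helper36.AS Pool.Agent.Helper77.DS Pool.Agent.Helper82.DK2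

/-- The circle action on `M`. -/
noncomputable def Rm (u : Circle) (m : ↥M) : ↥M := ⟨(m.1.1, u * m.1.2), m.2⟩

theorem act_Rm : Pool.Agent.Helper13.DS.Act tauS Rm where
  cont := by
    refine Continuous.subtype_mk (Continuous.prodMk ?_ ?_) _
    · exact continuous_fst.comp (continuous_subtype_val.comp continuous_snd)
    · exact continuous_fst.mul (continuous_snd.comp (continuous_subtype_val.comp continuous_snd))
  one := fun m => Subtype.ext (Prod.ext rfl (one_mul _))
  mul := fun u v m => Subtype.ext (Prod.ext rfl (mul_assoc _ _ _))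
  eq := fun u m => by
    change tauN m.1.1 * (u * m.1.2) ^ 3 = u ^ 3 * (tauN m.1.1 * m.1.2 ^ 3)
    rw [mul_pow, mul_left_comm]

section
variable {e : ↥M × ℝ → Sph 5} {f : Sph 5 → Sph 7}

theorem notMem_range_iff (hf : range f = {z | F e tauS z = 0}) (z : Sph 7) :
    z ∈ (range f)ᶜ ↔ F e tauS z ≠ 0 := by
  rw [hf]
  rfl

/-- The middle dimensional rational cohomology of the infinite cyclic cover. -/
theorem middle_zero (he : IsOpenEmbedding e) (hfc : Continuous f) (hfi : Function.Injective f)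
    (hf : range f = {z | F e tauS z = 0}) :
    Subsingleton (Hc ℚ (cyc f (g e tauS)) ((5 + 3) / 2)) := by
  obtain ⟨U, hU, hUr, hUF⟩ := exists_U he continuous_tauS
  have hgc := continuousOn_g he continuous_tauS f hf
  have hF := continuous_F he continuous_tauS
  have hD : Pool.Agent.Helper13.DS.Data (range f)ᶜ (g e tauS) tauS Rm U rot := by
    refine ⟨hgc, ?_, continuous_tauS, act_Rm, hU, ?_, ?_, continuous_rot, rot_one, rot_mul, ?_⟩
    · have : (range f)ᶜ = {z | F e tauS z ≠ 0} := by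
        ext z
        exact notMem_range_iff hf z
      rw [this]
      exact isOpen_ne_fun hF continuous_const
    · intro z hz
      rw [hUr] at hz
      exact (notMem_range_iff hf z).2 hz.1
    · intro m q
      obtain ⟨c, hc, h⟩ := hUF m q
      have hq : ‖(q : ℂ × ℂ).1 ^ 2 - (q : ℂ × ℂ).2 ^ 3‖ = 1 := q.2
      have hw : ‖(tauS m : ℂ) * ((q : ℂ × ℂ).1 ^ 2 - (q : ℂ × ℂ).2 ^ 3)‖ = 1 := by
        rw [norm_mul, Circle.norm_coe, hq, one_mul]
      obtain ⟨h1, h2⟩ := g_of_pos (w := ⟨_, mem_sphere_zero_iff_norm.2 hw⟩) hc h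
      rw [h2]
    · intro u z hz hzU
      rw [notMem_range_iff hf] at hz
      have h1 : ¬ ∃ m s w, z = J (e (m, s), w) := by
        intro h
        apply hzU
        rw [hUr]
        exact ⟨hz, h⟩
      obtain ⟨h5, h6⟩ := rot_rest (τ := tauS) u z h1
      have h7 : F e tauS (rot u z) = (‖F e tauS z‖ : ℝ) * ((u * g e tauS z : Circle) : ℂ) := by
        rw [h6]
        conv_lhs => rw [F_eq_norm_mul_g hz]
        rw [Circle.coe_mul]
        ring
      obtain ⟨h8, h9⟩ := g_of_pos (norm_pos_iff.2 hz) h7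
      refine ⟨(notMem_range_iff hf _).2 h8, ?_, h9⟩
      rw [hUr]
      exact fun h => h5 h.2
  have h3 := Pool.Agent.Helper39.DS.subsingleton_knot_compl (R := ℚ) hfc hfi
  exact hD.acyclic (n := 2) h3

end

/-- **The result, given block C.** -/
theorem goal_of_block (hblock : ∀ {e : ↥M × ℝ → Sph 5} {f : Sph 5 → Sph 7}
    {Φ : UT → Sph 7 × Circle} {Ψ : Sph 7 × Circle → UT},
    BData (cov f (g e tauS) 3) (WW e) TC Φ Ψ → (∀ u ∈ U3, (Φ u).2 = cV u) →
    BlockC (cov f (g e tauS) 3) TC Prod.snd) : Goal := by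
  obtain ⟨e, he⟩ := exists_e
  obtain ⟨κ, hκc, hκi, hκr, hκ1⟩ := exists_kappa
  have hf : range (spin e tauS κ) = {z | F e tauS z = 0} := range_spin he hκr
  have hK : IsKnot 5 (spin e tauS κ) := by
    refine ⟨continuous_spin he continuous_tauS hκc hκ1, injective_spin he hκi, fun x => ?_⟩
    have hx : spin e tauS κ x ∈ {z | F e tauS z = 0} := hf ▸ mem_range_self x
    obtain ⟨φ, h1, h2⟩ := flat_F he continuous_tauS _ hx
    refine ⟨φ, h1, fun z hz => ?_⟩
    rw [hf]
    exact h2 z hz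
  have hg := continuousOn_g he continuous_tauS _ hf
  obtain ⟨m₀, α, hα⟩ := exists_alpha
  have hsc : IsSimplyConnected (cyc (spin e tauS κ) (g e tauS)) :=
    sc_spin he continuous_tauS m₀ α hα _ hf
  refine ⟨spin e tauS κ, hK, groupIsZ_of_simplyConnected hg hsc,
    middleTrivial_of_simplyConnected hK hg hsc (middle_zero he hK.cont hK.inj hf), fun hDS => ?_⟩
  obtain ⟨P, Q, φ, ψ, m, hs, hb⟩ := exists_split hK hg hsc hDS 3 (by norm_num)
  obtain ⟨Φ, Ψ, hBD, hΦ⟩ := exists_bdata he hf
  obtain ⟨ι, hι⟩ := Pool.Agent.Helper39.DS.exists_isOpenEmbedding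
  exact no_split hs hb (hblock hBD hΦ) Pool.Agent.Helper39.DS.EE_zero hι

end Pool.Agent.Helper31.DS
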