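import Mathlib

/-!
# DS-E1: one-dimensional pushes (about 100-150 lines)

`cl` is the clamp to `[-1, 1]`.  `phi x = -1` for `3/4 ≤ x ≤ 5/4`, `phi x = 1` for `7/4 ≤ x`, `phi` is
odd; `psi x = 1` for `3/4 ≤ x`, odd; `chi t = 1` for `t ≤ 3/2`, `-1` for `5/2 ≤ t ≤ 13/4`, `1` for
`15/4 ≤ t`.  All three have values in `[-1, 1]` and are Lipschitz with constant `4`: in each of the
sums at most one summand is not locally constant; simplest proof: `cl` is monotone and
`1`-Lipschitz, and for the sums distinguish cases by the breakpoints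
`-7/4, -5/4, -3/4, 3/4, 5/4, 7/4`; or: `phi` is `-cl (4x/3)` for `|x| ≤ 5/4`, `cl (4x - 6)` for
`3/4 ≤ x`, and `cl (4x + 6)` for `x ≤ -3/4`.  (A Lipschitz constant at most `7` is good enough for
the application; state it with `7`.)
`exists_inv`: for `|s| < 1/8` and `|f x - f y| ≤ 7 |x - y|`, `|f| ≤ 1`, `f` continuous, the map
`x ↦ x + s f x` is strictly monotone (`|s| 7 < 1`), continuous and unbounded in both directions, so
it is a bijection.  Let `inv s y` be the unique solution of `x + s f x = y`.  Joint continuity: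
`|x - x'| ≤ |y - y'| + |s f x - s' f x'| ≤ |y - y'| + |s| 7 |x - x'| + |s - s'|`, so
`|x - x'| ≤ 8 (|y - y'| + |s - s'|)`.
-/

namespace Pool.Agent.Helper31.DS

noncomputable def cl (y : ℝ) : ℝ := max (-1) (min 1 y)

noncomputable def phi (x : ℝ) : ℝ := -cl (4 * x / 3) + cl (4 * x - 6) + cl (4 * x + 6)

noncomputable def psi (x : ℝ) : ℝ := cl (4 * x / 3)

noncomputable def chi (t : ℝ) : ℝ := cl (4 - 2 * t) + 1 + cl (4 * t - 14)

private theorem cl_of_le {y : ℝ} (h : y ≤ -1) : cl y = -1 := by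
  unfold cl
  rw [min_eq_right (by linarith), max_eq_left h]

private theorem cl_of_ge {y : ℝ} (h : 1 ≤ y) : cl y = 1 := by
  unfold cl
  rw [min_eq_left h, max_eq_right (by norm_num)]

private theorem cl_mid {y : ℝ} (h : -1 ≤ y) (h' : y ≤ 1) : cl y = y := by
  unfold cl
  rw [min_eq_right h', max_eq_right h]

private theorem cl_neg (y : ℝ) : cl (-y) = -cl y := by
  rcases le_total y (-1) with h | h
  · rw [cl_of_le h, cl_of_ge (by linarith), neg_neg]
  · rcases le_total y 1 with h' | h'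
    · rw [cl_mid h h', cl_mid (by linarith) (by linarith)]
    · rw [cl_of_ge h', cl_of_le (by linarith)]

private theorem cl_lower (y : ℝ) : -1 ≤ cl y := le_max_left _ _

private theorem cl_upper (y : ℝ) : cl y ≤ 1 := max_le (by norm_num) (min_le_left _ _)

private theorem cl_lip (x y : ℝ) : |cl x - cl y| ≤ |x - y| := by
  unfold cl
  have h1 : |max (-1) (min 1 x) - max (-1) (min 1 y)| ≤ |min 1 x - min 1 y| := by
    rw [max_comm, max_comm (-1) (min 1 y)]
    exact abs_max_sub_max_le_abs _ _ _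
  have h2 : |min 1 x - min 1 y| ≤ max |(1 : ℝ) - 1| |x - y| := abs_min_sub_min_le_max _ _ _ _
  rw [sub_self, abs_zero, max_eq_right (abs_nonneg _)] at h2
  exact h1.trans h2

theorem phi_near_one (x : ℝ) (h1 : 3 / 4 ≤ x) (h2 : x ≤ 5 / 4) : phi x = -1 := by
  unfold phi
  rw [cl_of_ge (by linarith : (1 : ℝ) ≤ 4 * x / 3), cl_of_le (by linarith : 4 * x - 6 ≤ -1),
    cl_of_ge (by linarith : (1 : ℝ) ≤ 4 * x + 6)]
  norm_num

theorem phi_near_two (x : ℝ) (h1 : 7 / 4 ≤ x) : phi x = 1 := by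
  unfold phi
  rw [cl_of_ge (by linarith : (1 : ℝ) ≤ 4 * x / 3), cl_of_ge (by linarith : (1 : ℝ) ≤ 4 * x - 6),
    cl_of_ge (by linarith : (1 : ℝ) ≤ 4 * x + 6)]
  norm_num

theorem phi_neg (x : ℝ) : phi (-x) = -phi x := by
  unfold phi
  rw [show 4 * (-x) / 3 = -(4 * x / 3) by ring, show 4 * (-x) - 6 = -(4 * x + 6) by ring,
    show 4 * (-x) + 6 = -(4 * x - 6) by ring, cl_neg, cl_neg, cl_neg]
  ring

theorem psi_near_one (x : ℝ) (h1 : 3 / 4 ≤ x) : psi x = 1 := by
  unfold psi
  exact cl_of_ge (by linarith)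

theorem psi_neg (x : ℝ) : psi (-x) = -psi x := by
  unfold psi
  rw [show 4 * (-x) / 3 = -(4 * x / 3) by ring, cl_neg]

theorem chi_low (t : ℝ) (h1 : t ≤ 3 / 2) : chi t = 1 := by
  unfold chi
  rw [cl_of_ge (by linarith : (1 : ℝ) ≤ 4 - 2 * t), cl_of_le (by linarith : 4 * t - 14 ≤ -1)]
  norm_num

theorem chi_mid (t : ℝ) (h1 : 5 / 2 ≤ t) (h2 : t ≤ 13 / 4) : chi t = -1 := by
  unfold chi
  rw [cl_of_le (by linarith : 4 - 2 * t ≤ -1), cl_of_le (by linarith : 4 * t - 14 ≤ -1)]
  norm_num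

theorem chi_high (t : ℝ) (h1 : 15 / 4 ≤ t) : chi t = 1 := by
  unfold chi
  rw [cl_of_le (by linarith : 4 - 2 * t ≤ -1), cl_of_ge (by linarith : (1 : ℝ) ≤ 4 * t - 14)]
  norm_num

private theorem phi_right {x : ℝ} (h : -(5 / 4) ≤ x) :
    phi x = -cl (4 * x / 3) + cl (4 * x - 6) + 1 := by
  unfold phi
  rw [cl_of_ge (by linarith : (1 : ℝ) ≤ 4 * x + 6)]

private theorem phi_left {x : ℝ} (h : x ≤ 5 / 4) :
    phi x = -cl (4 * x / 3) + -1 + cl (4 * x + 6) := by
  unfold phi
  rw [cl_of_le (by linarith : 4 * x - 6 ≤ -1)]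

private theorem phi_bound_right {x : ℝ} (h : -(5 / 4) ≤ x) : |phi x| ≤ 1 := by
  rw [phi_right h, abs_le]
  have a1 := cl_lower (4 * x / 3)
  have a2 := cl_upper (4 * x / 3)
  have b1 := cl_lower (4 * x - 6)
  have b2 := cl_upper (4 * x - 6)
  rcases le_total x 1 with h1 | h1
  · rw [cl_of_le (by linarith : 4 * x - 6 ≤ -1)]
    constructor <;> linarith
  · rw [cl_of_ge (by linarith : (1 : ℝ) ≤ 4 * x / 3)]
    constructor <;> linarith

theorem phi_bound (x : ℝ) : |phi x| ≤ 1 := by
  rcases le_total (-(5 / 4)) x with h | h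
  · exact phi_bound_right h
  · have h1 := phi_bound_right (x := -x) (by linarith)
    rwa [phi_neg, abs_neg] at h1

theorem psi_bound (x : ℝ) : |psi x| ≤ 1 := by
  unfold psi
  exact abs_le.2 ⟨cl_lower _, cl_upper _⟩

theorem chi_bound (x : ℝ) : |chi x| ≤ 1 := by
  unfold chi
  rw [abs_le]
  have a1 := cl_lower (4 - 2 * x)
  have a2 := cl_upper (4 - 2 * x)
  have b1 := cl_lower (4 * x - 14)
  have b2 := cl_upper (4 * x - 14)
  rcases le_total x 3 with h1 | h1
  · rw [cl_of_le (by linarith : 4 * x - 14 ≤ -1)]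
    constructor <;> linarith
  · rw [cl_of_le (by linarith : 4 - 2 * x ≤ -1)]
    constructor <;> linarith

private theorem abs_scale (c a b : ℝ) (hc : 0 ≤ c) (x y : ℝ) (ha : a - b = c * (x - y)) :
    |cl a - cl b| ≤ c * |x - y| := by
  have h := cl_lip a b
  rwa [ha, abs_mul, abs_of_nonneg hc] at h

theorem phi_lip (x y : ℝ) : |phi x - phi y| ≤ 7 * |x - y| := by
  have h0 := abs_nonneg (x - y)
  have h1 := abs_scale (4 / 3) (4 * x / 3) (4 * y / 3) (by norm_num) x y (by ring)
  have h2 := abs_scale 4 (4 * x - 6) (4 * y - 6) (by norm_num) x y (by ring)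
  have h3 := abs_scale 4 (4 * x + 6) (4 * y + 6) (by norm_num) x y (by ring)
  rw [abs_le] at h1 h2 h3
  by_cases hr : -(5 / 4) ≤ x ∧ -(5 / 4) ≤ y
  · rw [phi_right hr.1, phi_right hr.2, abs_le]
    constructor <;> linarith [h1.1, h1.2, h2.1, h2.2]
  · by_cases hl : x ≤ 5 / 4 ∧ y ≤ 5 / 4
    · rw [phi_left hl.1, phi_left hl.2, abs_le]
      constructor <;> linarith [h1.1, h1.2, h3.1, h3.2]
    · have hx := abs_le.1 (phi_bound x)
      have hy := abs_le.1 (phi_bound y)
      have hd : 5 / 2 ≤ |x - y| := by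
        rw [le_abs]
        by_contra hcon
        push Not at hcon
        rcases le_or_gt (-(5 / 4)) x with h4 | h4
        · rcases le_or_gt (-(5 / 4)) y with h5 | h5
          · exact hr ⟨h4, h5⟩
          · apply hl
            constructor <;> linarith
        · apply hl
          constructor <;> linarith
      rw [abs_le]
      constructor <;> linarith [hx.1, hx.2, hy.1, hy.2]

theorem psi_lip (x y : ℝ) : |psi x - psi y| ≤ 7 * |x - y| := by
  have h0 := abs_nonneg (x - y)
  have h1 := abs_scale (4 / 3) (4 * x / 3) (4 * y / 3) (by norm_num) x y (by ring)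
  unfold psi
  linarith

theorem chi_lip (x y : ℝ) : |chi x - chi y| ≤ 7 * |x - y| := by
  have h0 := abs_nonneg (x - y)
  have h1 := abs_scale 4 (4 * x - 14) (4 * y - 14) (by norm_num) x y (by ring)
  have h2 := cl_lip (4 - 2 * x) (4 - 2 * y)
  rw [show 4 - 2 * x - (4 - 2 * y) = (-2) * (x - y) by ring, abs_mul,
    show |(-2 : ℝ)| = 2 by norm_num] at h2
  rw [abs_le] at h1 h2
  unfold chi
  rw [abs_le]
  constructor <;> linarith [h1.1, h1.2, h2.1, h2.2]

theorem exists_inv (f : ℝ → ℝ) (hb : ∀ x, |f x| ≤ 1) (hl : ∀ x y, |f x - f y| ≤ 7 * |x - y|) :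
    ∃ inv : ℝ → ℝ → ℝ, (∀ s y, |s| < 1 / 8 → inv s y + s * f (inv s y) = y) ∧
      (∀ s x, |s| < 1 / 8 → inv s (x + s * f x) = x) ∧
      ContinuousOn (fun q : ℝ × ℝ => inv q.1 q.2) {q | |q.1| < 1 / 8} := by
  have hfc : Continuous f := by
    have h : LipschitzWith 7 f := by
      apply LipschitzWith.of_dist_le_mul
      intro x y
      rw [Real.dist_eq, Real.dist_eq]
      exact hl x y
    exact h.continuous
  have hex : ∀ s y : ℝ, |s| < 1 / 8 → ∃ x, x + s * f x = y := by
    intro s y hs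
    have hg : Continuous (fun x => x + s * f x) := continuous_id.add (continuous_const.mul hfc)
    have hsf : ∀ x, |s * f x| ≤ 1 / 8 := by
      intro x
      rw [abs_mul]
      have h1 := hb x
      have h2 := abs_nonneg (f x)
      have h3 := abs_nonneg s
      nlinarith
    have h1 : ∃ x, x + s * f x ≤ y := ⟨y - 1, by linarith [(abs_le.1 (hsf (y - 1))).2]⟩
    have h2 : ∃ x, y ≤ x + s * f x := ⟨y + 1, by linarith [(abs_le.1 (hsf (y + 1))).1]⟩
    obtain ⟨x, hx⟩ := mem_range_of_exists_le_of_exists_ge hg h1 h2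
    exact ⟨x, hx⟩
  have hkey : ∀ s s' x x' : ℝ, |s| < 1 / 8 →
      |x - x'| ≤ 8 * (|(x + s * f x) - (x' + s' * f x')| + |s - s'|) := by
    intro s s' x x' hs
    have h1 := hl x x'
    have h2 := hb x'
    have e : x - x' = ((x + s * f x) - (x' + s' * f x')) - s * (f x - f x') - (s - s') * f x' := by
      ring
    have h3 : |s * (f x - f x')| ≤ 1 / 8 * (7 * |x - x'|) := by
      rw [abs_mul]
      exact mul_le_mul hs.le h1 (abs_nonneg _) (by norm_num)
    have h4 : |(s - s') * f x'| ≤ |s - s'| := by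
      rw [abs_mul]
      have := abs_nonneg (s - s')
      nlinarith
    have h5 : |x - x'| ≤ |(x + s * f x) - (x' + s' * f x')| + |s * (f x - f x')| +
        |(s - s') * f x'| := by
      calc |x - x'| = |((x + s * f x) - (x' + s' * f x')) - s * (f x - f x') -
            (s - s') * f x'| := by rw [← e]
        _ ≤ |((x + s * f x) - (x' + s' * f x')) - s * (f x - f x')| + |(s - s') * f x'| :=
            abs_sub _ _
        _ ≤ _ := by
            have := abs_sub ((x + s * f x) - (x' + s' * f x')) (s * (f x - f x'))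
            linarith
    have h6 := abs_nonneg (x - x')
    linarith
  classical
  let inv : ℝ → ℝ → ℝ := fun s y => if h : ∃ x, x + s * f x = y then h.choose else 0
  have hinv : ∀ s y, |s| < 1 / 8 → inv s y + s * f (inv s y) = y := by
    intro s y hs
    have h := hex s y hs
    have h5 : inv s y = h.choose := dif_pos h
    rw [h5]
    exact h.choose_spec
  refine ⟨inv, hinv, ?_, ?_⟩
  · intro s x hs
    have h1 := hinv s (x + s * f x) hs
    have h2 := hkey s s (inv s (x + s * f x)) x hs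
    rw [h1, sub_self, abs_zero, sub_self, abs_zero, add_zero, mul_zero] at h2
    have h3 : inv s (x + s * f x) - x = 0 := abs_eq_zero.1 (le_antisymm h2 (abs_nonneg _))
    linarith
  · rw [Metric.continuousOn_iff]
    rintro ⟨s', y'⟩ hs' ε hε
    refine ⟨ε / 16, by positivity, ?_⟩
    rintro ⟨s, y⟩ hs hd
    rw [Prod.dist_eq, max_lt_iff, Real.dist_eq, Real.dist_eq] at hd
    simp only at hd hs hs' ⊢
    rw [Real.dist_eq]
    have h2 := hkey s s' (inv s y) (inv s' y') hs
    rw [hinv s y hs, hinv s' y' hs'] at h2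
    linarith [hd.1, hd.2]

end Pool.Agent.Helper31.DS
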