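import Pool.Agent.Helper77.DS.Base
import Pool.Agent.Helper31.DS.E1

/-!
# DS-E2: the push increases `F` with unit speed near the hypersurface (about 100-160 lines)

`vv p = (phi (p 0), phi (p 1), psi (p 2))`.  Claim: `F (p + s vv p) (t + s chi t) = F p t + s` if
`|F p t| ≤ 1/8` and `|s| ≤ 1/16`.
Proof.  `F p t = L (f₁, …, f₈)` with the lattice polynomial
`L = min f₁ (max f₂ (max f₃ (max f₄ (max f₅ (min f₆ (min f₇ f₈))))))` and the pieces
`t, |p0| - 2, |p1| - 2, |p2| - 1, t - 4, 1 - |p0|, 1 - |p1|, 1 - |t - 2|`.  Let `g_i` be the values of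
the pieces at the pushed point.
(a) If `|f_i| ≤ 1/4` then `g_i = f_i + s` (for instance `||p0| - 2| ≤ 1/4` implies `|p0| ≥ 7/4`, so
`phi p0 = sign p0` and `|p0 + s phi p0| = |p0| + s`; `|1 - |p0|| ≤ 1/4` implies
`phi p0 = -sign p0` and `|p0 + s phi p0| = |p0| - s`; `|1 - |t - 2|| ≤ 1/4` implies
`3/4 ≤ t ≤ 5/4`, `chi t = 1`, or `11/4 ≤ t ≤ 13/4`, `chi t = -1`; and so on).
(b) Always `|g_i - f_i| ≤ |s|` (the pieces are `1`-Lipschitz, `|phi|, |psi|, |chi| ≤ 1`), so
`f_i > 1/4` implies `g_i ≥ 3/16` and `f_i < -1/4` implies `g_i ≤ -3/16`.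
Hence for every real `c` with `|c| ≤ 1/8`: `f_i ≤ c → g_i ≤ c + s` and `c ≤ f_i → c + s ≤ g_i`
(because `|c + s| ≤ 3/16`).  Take `c = F p t`: from `L f ≤ c` follows `L g ≤ c + s` (unfold with
`min_le_iff`, `max_le_iff`) and from `c ≤ L f` follows `c + s ≤ L g` (`le_min_iff`, `le_max_iff`).
-/

namespace Pool.Agent.Helper31.DS

open Pool.Agent.Helper77.DS

/-- The direction field in the chart. -/
noncomputable def vv (p : Fin 3 → ℝ) : Fin 3 → ℝ := ![phi (p 0), phi (p 1), psi (p 2)]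

/-- The push on one piece: at a piece which is small the piece moves with unit speed, every piece
moves at most with unit speed. -/
theorem piece_push {f g s c : ℝ} (hs : |s| ≤ 1 / 16) (hc : |c| ≤ 1 / 8)
    (h1 : |f| ≤ 1 / 4 → g = f + s) (h2 : |g - f| ≤ |s|) :
    (f ≤ c → g ≤ c + s) ∧ (c ≤ f → c + s ≤ g) := by
  have hs' := abs_le.1 hs
  have hc' := abs_le.1 hc
  have h2' := abs_le.1 (h2.trans hs)
  by_cases hf : |f| ≤ 1 / 4
  · rw [h1 hf]
    constructor <;> intro h <;> linarith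
  · rw [not_le, lt_abs] at hf
    constructor <;> intro h <;> rcases hf with hf | hf <;> linarith

theorem push_near_one (x s : ℝ) (hs : |s| ≤ 1 / 16) (h1 : 3 / 4 ≤ |x|) (h2 : |x| ≤ 5 / 4) :
    |x + s * phi x| = |x| - s := by
  have hs' := abs_le.1 hs
  rcases le_or_gt 0 x with hx | hx
  · rw [abs_of_nonneg hx] at h1 h2 ⊢
    rw [phi_near_one x h1 h2, abs_of_nonneg (by linarith)]
    ring
  · rw [abs_of_neg hx] at h1 h2 ⊢
    have h := phi_near_one (-x) h1 h2
    rw [phi_neg] at h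
    have h3 : phi x = 1 := by linarith
    rw [h3, abs_of_nonpos (by linarith)]
    ring

theorem push_near_two (x s : ℝ) (hs : |s| ≤ 1 / 16) (h1 : 7 / 4 ≤ |x|) :
    |x + s * phi x| = |x| + s := by
  have hs' := abs_le.1 hs
  rcases le_or_gt 0 x with hx | hx
  · rw [abs_of_nonneg hx] at h1 ⊢
    rw [phi_near_two x h1, abs_of_nonneg (by linarith)]
    ring
  · rw [abs_of_neg hx] at h1 ⊢
    have h := phi_near_two (-x) h1
    rw [phi_neg] at h
    have h3 : phi x = -1 := by linarith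
    rw [h3, abs_of_nonpos (by linarith)]
    ring

theorem push_psi (x s : ℝ) (hs : |s| ≤ 1 / 16) (h1 : 3 / 4 ≤ |x|) :
    |x + s * psi x| = |x| + s := by
  have hs' := abs_le.1 hs
  rcases le_or_gt 0 x with hx | hx
  · rw [abs_of_nonneg hx] at h1 ⊢
    rw [psi_near_one x h1, abs_of_nonneg (by linarith)]
    ring
  · rw [abs_of_neg hx] at h1 ⊢
    have h := psi_near_one (-x) h1
    rw [psi_neg] at h
    have h3 : psi x = -1 := by linarith
    rw [h3, abs_of_nonpos (by linarith)]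
    ring

/-- A point pushed along a field bounded by `1` moves at most by `|s|`. -/
theorem push_move (x s v : ℝ) (hv : |v| ≤ 1) : |(|x + s * v| - |x|)| ≤ |s| := by
  refine (abs_abs_sub_abs_le _ _).trans ?_
  rw [add_sub_cancel_left, abs_mul]
  exact mul_le_of_le_one_right (abs_nonneg s) hv

theorem F_push (p : Fin 3 → ℝ) (t s : ℝ) (hs : |s| ≤ 1 / 16) (hF : |F p t| ≤ 1 / 8) :
    F (fun i => p i + s * vv p i) (t + s * chi t) = F p t + s := by
  have hs' := abs_le.1 hs
  have hv0 : vv p 0 = phi (p 0) := rfl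
  have hv1 : vv p 1 = phi (p 1) := rfl
  have hv2 : vv p 2 = psi (p 2) := rfl
  have hm0 := push_move (p 0) s (phi (p 0)) (phi_bound _)
  have hm1 := push_move (p 1) s (phi (p 1)) (phi_bound _)
  have hm2 := push_move (p 2) s (psi (p 2)) (psi_bound _)
  have hmt : |(t + s * chi t) - t| ≤ |s| := by
    rw [add_sub_cancel_left, abs_mul]
    exact mul_le_of_le_one_right (abs_nonneg s) (chi_bound t)
  -- the pieces
  have f1 := piece_push (f := t) (g := t + s * chi t) hs hF (fun h => by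
    rw [abs_le] at h
    rw [chi_low t (by linarith), mul_one]) hmt
  have f2 := piece_push (f := |p 0| - 2) (g := |p 0 + s * phi (p 0)| - 2) hs hF (fun h => by
    rw [abs_le] at h
    rw [push_near_two (p 0) s hs (by linarith)]
    ring) (by
    have e : |p 0 + s * phi (p 0)| - 2 - (|p 0| - 2) = |p 0 + s * phi (p 0)| - |p 0| := by ring
    rw [e]; exact hm0)
  have f3 := piece_push (f := |p 1| - 2) (g := |p 1 + s * phi (p 1)| - 2) hs hF (fun h => by
    rw [abs_le] at h
    rw [push_near_two (p 1) s hs (by linarith)]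
    ring) (by
    have e : |p 1 + s * phi (p 1)| - 2 - (|p 1| - 2) = |p 1 + s * phi (p 1)| - |p 1| := by ring
    rw [e]; exact hm1)
  have f4 := piece_push (f := |p 2| - 1) (g := |p 2 + s * psi (p 2)| - 1) hs hF (fun h => by
    rw [abs_le] at h
    rw [push_psi (p 2) s hs (by linarith)]
    ring) (by
    have e : |p 2 + s * psi (p 2)| - 1 - (|p 2| - 1) = |p 2 + s * psi (p 2)| - |p 2| := by ring
    rw [e]; exact hm2)
  have f5 := piece_push (f := t - 4) (g := t + s * chi t - 4) hs hF (fun h => by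
    rw [abs_le] at h
    rw [chi_high t (by linarith)]
    ring) (by
    have e : t + s * chi t - 4 - (t - 4) = (t + s * chi t) - t := by ring
    rw [e]; exact hmt)
  have f6 := piece_push (f := 1 - |p 0|) (g := 1 - |p 0 + s * phi (p 0)|) hs hF (fun h => by
    rw [abs_le] at h
    rw [push_near_one (p 0) s hs (by linarith) (by linarith)]
    ring) (by
    have e : 1 - |p 0 + s * phi (p 0)| - (1 - |p 0|) = -(|p 0 + s * phi (p 0)| - |p 0|) := by ring
    rw [e, abs_neg]; exact hm0)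
  have f7 := piece_push (f := 1 - |p 1|) (g := 1 - |p 1 + s * phi (p 1)|) hs hF (fun h => by
    rw [abs_le] at h
    rw [push_near_one (p 1) s hs (by linarith) (by linarith)]
    ring) (by
    have e : 1 - |p 1 + s * phi (p 1)| - (1 - |p 1|) = -(|p 1 + s * phi (p 1)| - |p 1|) := by ring
    rw [e, abs_neg]; exact hm1)
  have f8 := piece_push (f := 1 - |t - 2|) (g := 1 - |t + s * chi t - 2|) hs hF (fun h => by
    rw [abs_le] at h
    rcases le_or_gt 2 t with ht | ht
    · rw [abs_of_nonneg (by linarith : (0 : ℝ) ≤ t - 2)] at h ⊢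
      rw [chi_mid t (by linarith) (by linarith), abs_of_nonneg (by linarith)]
      ring
    · rw [abs_of_neg (by linarith : t - 2 < 0)] at h ⊢
      rw [chi_low t (by linarith), abs_of_nonpos (by linarith)]
      ring) (by
    have e : 1 - |t + s * chi t - 2| - (1 - |t - 2|) = -(|t + s * chi t - 2| - |t - 2|) := by ring
    rw [e, abs_neg]
    refine (abs_abs_sub_abs_le _ _).trans ?_
    have e2 : t + s * chi t - 2 - (t - 2) = (t + s * chi t) - t := by ring
    rw [e2]; exact hmt)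
  -- the lattice polynomial
  have hup : F (fun i => p i + s * vv p i) (t + s * chi t) ≤ F p t + s := by
    have h := le_refl (F p t)
    generalize hc : F p t = c at *
    rw [F] at hc
    have h0 : min t (max (|p 0| - 2) (max (|p 1| - 2) (max (|p 2| - 1) (max (t - 4)
      (min (1 - |p 0|) (min (1 - |p 1|) (1 - |t - 2|))))))) ≤ c := hc.le
    rw [F]
    simp only [hv0, hv1, hv2]
    simp only [min_le_iff, max_le_iff] at h0 ⊢
    rcases h0 with h0 | ⟨a2, a3, a4, a5, a6⟩
    · exact Or.inl (f1.1 h0)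
    · refine Or.inr ⟨f2.1 a2, f3.1 a3, f4.1 a4, f5.1 a5, ?_⟩
      rcases a6 with a6 | a6 | a6
      · exact Or.inl (f6.1 a6)
      · exact Or.inr (Or.inl (f7.1 a6))
      · exact Or.inr (Or.inr (f8.1 a6))
  have hlo : F p t + s ≤ F (fun i => p i + s * vv p i) (t + s * chi t) := by
    generalize hc : F p t = c at *
    rw [F] at hc
    have h0 : c ≤ min t (max (|p 0| - 2) (max (|p 1| - 2) (max (|p 2| - 1) (max (t - 4)
      (min (1 - |p 0|) (min (1 - |p 1|) (1 - |t - 2|))))))) := hc.ge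
    rw [F]
    simp only [hv0, hv1, hv2]
    simp only [le_min_iff, le_max_iff] at h0 ⊢
    obtain ⟨h1, h0⟩ := h0
    refine ⟨f1.2 h1, ?_⟩
    rcases h0 with a | a | a | a | ⟨a6, a7, a8⟩
    · exact Or.inl (f2.2 a)
    · exact Or.inr (Or.inl (f3.2 a))
    · exact Or.inr (Or.inr (Or.inl (f4.2 a)))
    · exact Or.inr (Or.inr (Or.inr (Or.inl (f5.2 a))))
    · exact Or.inr (Or.inr (Or.inr (Or.inr ⟨f6.2 a6, f7.2 a7, f8.2 a8⟩)))
  exact le_antisymm hup hlo

/-- `F` is `1`-Lipschitz for the maximum norm. -/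
theorem F_lip (p p' : Fin 3 → ℝ) (t t' δ : ℝ) (hp : ∀ i, |p i - p' i| ≤ δ) (ht : |t - t'| ≤ δ) :
    |F p t - F p' t'| ≤ δ := by
  have hmin : ∀ a b c d : ℝ, |a - c| ≤ δ → |b - d| ≤ δ → |min a b - min c d| ≤ δ :=
    fun a b c d h1 h2 => (abs_min_sub_min_le_max a b c d).trans (max_le h1 h2)
  have hmax : ∀ a b c d : ℝ, |a - c| ≤ δ → |b - d| ≤ δ → |max a b - max c d| ≤ δ :=
    fun a b c d h1 h2 => (abs_max_sub_max_le_max a b c d).trans (max_le h1 h2)
  have hsub : ∀ (i : Fin 3) (r : ℝ), |(|p i| - r) - (|p' i| - r)| ≤ δ := by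
    intro i r
    have e : (|p i| - r) - (|p' i| - r) = |p i| - |p' i| := by ring
    rw [e]
    exact (abs_abs_sub_abs_le _ _).trans (hp i)
  have hsub' : ∀ (i : Fin 3) (r : ℝ), |(r - |p i|) - (r - |p' i|)| ≤ δ := by
    intro i r
    have e : (r - |p i|) - (r - |p' i|) = -(|p i| - |p' i|) := by ring
    rw [e, abs_neg]
    exact (abs_abs_sub_abs_le _ _).trans (hp i)
  rw [F, F]
  refine hmin _ _ _ _ ht (hmax _ _ _ _ (hsub 0 2) (hmax _ _ _ _ (hsub 1 2)
    (hmax _ _ _ _ (hsub 2 1) (hmax _ _ _ _ ?_ (hmin _ _ _ _ (hsub' 0 1)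
    (hmin _ _ _ _ (hsub' 1 1) ?_))))))
  · have e : (t - 4) - (t' - 4) = t - t' := by ring
    rw [e]; exact ht
  · have e : (1 - |t - 2|) - (1 - |t' - 2|) = -(|t - 2| - |t' - 2|) := by ring
    rw [e, abs_neg]
    refine (abs_abs_sub_abs_le _ _).trans ?_
    have e2 : (t - 2) - (t' - 2) = t - t' := by ring
    rw [e2]; exact ht

/-- Far away in the chart `F` is the height. -/
theorem F_far (p : Fin 3 → ℝ) (t : ℝ) (hp : ∃ i, t + 2 ≤ |p i|) : F p t = t := by
  rw [F, min_eq_left]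
  obtain ⟨i, hi⟩ := hp
  simp only [le_max_iff]
  fin_cases i
  · exact Or.inl (by simp only [Fin.zero_eta] at hi; linarith)
  · exact Or.inr (Or.inl (by simp only [Fin.mk_one] at hi; linarith))
  · exact Or.inr (Or.inr (Or.inl (by simp only [Fin.reduceFinMk] at hi; linarith)))

/-- `F` is small only for small heights. -/
theorem F_height (p : Fin 3 → ℝ) (t : ℝ) (hF : |F p t| ≤ 1) : -1 ≤ t ∧ t ≤ 5 := by
  rw [abs_le] at hF
  obtain ⟨h1, h2⟩ := hF
  constructor
  · exact h1.trans (min_le_left _ _)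
  · by_contra h
    rw [not_le] at h
    rw [F] at h2
    simp only [min_le_iff, max_le_iff] at h2
    rcases h2 with h2 | h2
    · linarith
    · linarith [h2.2.2.2.1]

end Pool.Agent.Helper31.DS
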