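import Pool.Agent.Helper31.DS.E2

/-!
# DS-E3: the chart of `RP3` (about 150-220 lines)

`chart p = outer (q)` with `q = (1, p) / √(1 + |p|²)`.  The inverse of the chart on
`{x ∈ RP3 | x 0 0 ≠ 0}` is `pc x i = x 0 (i + 1) / x 0 0`: if `x = outer q`, `q 0 ≠ 0`, then
`pc x i = q (i+1) / q 0` and `chart (pc x) = x`, because `1 + Σ (q_i / q_0)² = 1 / q_0²`.
`RP3` is compact: it is the image of the compact unit sphere of `Fin 4 → ℝ` (closed and bounded)
under the continuous map `outer`.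
`FE x t` is the function `F` in the chart, extended by `t`: it is continuous on `RP3 × ℝ`: on the
open set `x 0 0 ≠ 0` clear; near a point `x₀` with `x₀ 0 0 = 0` and `t` in a bounded set
`FE x t = t`, by `F_far`: `1 / x 0 0 = 1 + |pc x|²` tends to infinity, so some `|pc x i|` is
`≥ t + 2`.
`push s x = chart (pc x + s vv (pc x))` resp. `x` for `x 0 0 = 0` is jointly continuous in
`(s, x)`: on `{x 0 0 ≠ 0}` clear; at `x₀` with `x₀ 0 0 = 0`: the displacement is bounded by `|s|`,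
and for `p, p'` with `|p i - p' i| ≤ 1` one has, entry by entry,
`|chart p i j - chart p' i j| ≤ C / √(1 + |p|²)` (for instance: write `Q = (1, p)`, `Q' = (1, p')`,
`‖Q - Q'‖ ≤ 2`, and `‖Q/|Q| - Q'/|Q'|‖ ≤ 2 ‖Q - Q'‖ / |Q|`), which tends to zero.
`ipush` the same for the inverse displacement: with `inv` of `exists_inv` for `phi`, `psi`
(`|inv s y - y| ≤ |s|`).
-/

namespace Pool.Agent.Helper31.DS

open Filter Topology Pool.Agent.Helper77.DS

/-- The inverse of the chart. -/
noncomputable def pc (x : M4) : Fin 3 → ℝ := fun i => x 0 i.succ / x 0 0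

/-- The homogeneous coordinates of a point of the chart. -/
def ho (p : Fin 3 → ℝ) : Fin 4 → ℝ := ![1, p 0, p 1, p 2]

/-- The denominator. -/
def dn (p : Fin 3 → ℝ) : ℝ := 1 + p 0 ^ 2 + p 1 ^ 2 + p 2 ^ 2

theorem chart_eq (p : Fin 3 → ℝ) (i j : Fin 4) : chart p i j = ho p i * ho p j / dn p := rfl

theorem ho_succ (p : Fin 3 → ℝ) (i : Fin 3) : ho p i.succ = p i := by
  fin_cases i <;> rfl

theorem ho_zero (p : Fin 3 → ℝ) : ho p 0 = 1 := rfl

theorem dn_pos (p : Fin 3 → ℝ) : 0 < dn p := by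
  unfold dn
  positivity

theorem one_le_dn (p : Fin 3 → ℝ) : 1 ≤ dn p := by
  unfold dn
  nlinarith [sq_nonneg (p 0), sq_nonneg (p 1), sq_nonneg (p 2)]

theorem sum_ho (p : Fin 3 → ℝ) : ∑ i, ho p i ^ 2 = dn p := by
  rw [Fin.sum_univ_four]
  show (1 : ℝ) ^ 2 + p 0 ^ 2 + p 1 ^ 2 + p 2 ^ 2 = dn p
  unfold dn
  ring

theorem sq_ho_le (p : Fin 3 → ℝ) (i : Fin 4) : ho p i ^ 2 ≤ dn p := by
  rw [← sum_ho]
  exact Finset.single_le_sum (f := fun i => ho p i ^ 2) (fun i _ => sq_nonneg _)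
    (Finset.mem_univ i)

theorem chart_mem (p : Fin 3 → ℝ) : chart p ∈ RP3 := by
  have h := dn_pos p
  refine ⟨fun i => ho p i / Real.sqrt (dn p), ?_, ?_⟩
  · simp only [div_pow, Real.sq_sqrt h.le]
    rw [← Finset.sum_div, sum_ho, div_self h.ne']
  · funext i j
    rw [chart_eq]
    unfold outer
    rw [div_mul_div_comm, Real.mul_self_sqrt h.le]

theorem chart_00' (p : Fin 3 → ℝ) : chart p 0 0 = 1 / dn p := by
  rw [chart_eq, ho_zero, one_mul]

theorem chart_00 (p : Fin 3 → ℝ) : 0 < chart p 0 0 := by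
  rw [chart_00']
  exact one_div_pos.2 (dn_pos p)

theorem pc_chart (p : Fin 3 → ℝ) : pc (chart p) = p := by
  funext i
  unfold pc
  rw [chart_00', chart_eq, ho_zero, ho_succ, one_mul]
  have := (dn_pos p).ne'
  field_simp

theorem chart_pc (x : M4) (hx : x ∈ RP3) (h0 : x 0 0 ≠ 0) : chart (pc x) = x := by
  obtain ⟨q, hq, rfl⟩ := hx
  have h1 : q 0 ≠ 0 := by
    intro h
    apply h0
    unfold outer
    rw [h, mul_zero]
  have h2 : ∀ i : Fin 3, pc (outer q) i = q i.succ / q 0 := by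
    intro i
    unfold pc outer
    field_simp
  have h3 : ∀ i : Fin 4, ho (pc (outer q)) i = q i / q 0 := by
    intro i
    refine Fin.cases ?_ (fun i => ?_) i
    · rw [ho_zero, div_self h1]
    · rw [ho_succ, h2]
  have h4 : dn (pc (outer q)) = 1 / q 0 ^ 2 := by
    rw [← sum_ho]
    simp only [h3, div_pow]
    rw [← Finset.sum_div, hq]
  funext i j
  rw [chart_eq, h3, h3, h4]
  unfold outer
  field_simp

theorem nonneg_00 (x : M4) (hx : x ∈ RP3) : 0 ≤ x 0 0 := by
  obtain ⟨q, _, rfl⟩ := hx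
  exact mul_self_nonneg (q 0)

theorem continuous_outer : Continuous outer := by
  unfold outer
  fun_prop

theorem isCompact_RP3 : IsCompact RP3 := by
  have h1 : RP3 = outer '' {q | ∑ i, q i ^ 2 = 1} := by
    ext x
    constructor
    · rintro ⟨q, hq, rfl⟩
      exact ⟨q, hq, rfl⟩
    · rintro ⟨q, hq, rfl⟩
      exact ⟨q, hq, rfl⟩
  rw [h1]
  refine IsCompact.image ?_ continuous_outer
  have h2 : IsClosed {q : Fin 4 → ℝ | ∑ i, q i ^ 2 = 1} :=
    isClosed_eq (by fun_prop) continuous_const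
  refine IsCompact.of_isClosed_subset (isCompact_Icc (a := fun _ : Fin 4 => (-1 : ℝ))
    (b := fun _ => 1)) h2 ?_
  intro q hq
  have h3 : ∀ i, q i ^ 2 ≤ 1 := by
    intro i
    have h4 : ∑ i, q i ^ 2 = 1 := hq
    rw [← h4]
    exact Finset.single_le_sum (f := fun i => q i ^ 2) (fun i _ => sq_nonneg _)
      (Finset.mem_univ i)
  exact ⟨fun i => (abs_le.1 ((sq_le_one_iff_abs_le_one _).1 (h3 i))).1,
    fun i => (abs_le.1 ((sq_le_one_iff_abs_le_one _).1 (h3 i))).2⟩

theorem mul_dn (x : M4) (hx : x ∈ RP3) (h0 : x 0 0 ≠ 0) : x 0 0 * dn (pc x) = 1 := by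
  have h1 : x 0 0 = 1 / dn (pc x) := by
    conv_lhs => rw [← chart_pc x hx h0]
    exact chart_00' _
  have h2 := (dn_pos (pc x)).ne'
  rw [h1]
  field_simp

open Classical in
/-- The function `F` on `RP3 × ℝ`. -/
noncomputable def FE (x : M4) (t : ℝ) : ℝ := if x 0 0 = 0 then t else F (pc x) t

theorem N_eq : N = {x : M4 × ℝ | x.1 ∈ RP3 ∧ FE x.1 x.2 = 0} := by
  ext ⟨x, t⟩
  constructor
  · rintro (⟨p, hp, hF⟩ | ⟨hx, h0, ht⟩)
    · have hp' : x = chart p := hp
      subst hp'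
      refine ⟨chart_mem p, ?_⟩
      show FE (chart p) t = 0
      unfold FE
      rw [if_neg (chart_00 p).ne', pc_chart]
      exact hF
    · refine ⟨hx, ?_⟩
      show FE x t = 0
      unfold FE
      rw [if_pos h0]
      exact ht
  · rintro ⟨hx, hF⟩
    have hF' : FE x t = 0 := hF
    unfold FE at hF'
    by_cases h0 : x 0 0 = 0
    · rw [if_pos h0] at hF'
      exact Or.inr ⟨hx, h0, hF'⟩
    · rw [if_neg h0] at hF'
      exact Or.inl ⟨pc x, (chart_pc x hx h0).symm, hF'⟩

theorem continuous_FPL : Continuous fun q : (Fin 3 → ℝ) × ℝ => F q.1 q.2 := by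
  unfold F
  fun_prop

theorem continuousAt_pc (x : M4) (h0 : x 0 0 ≠ 0) : ContinuousAt pc x := by
  refine continuousAt_pi.2 fun i => ?_
  unfold pc
  have h1 : Continuous fun x : M4 => x 0 i.succ := by fun_prop
  have h2 : Continuous fun x : M4 => x 0 0 := by fun_prop
  exact h1.continuousAt.div h2.continuousAt h0

theorem continuous_chart : Continuous chart := by
  have h : chart = fun p i j => ho p i * ho p j / dn p := rfl
  rw [h]
  have h1 : ∀ i, Continuous fun p => ho p i := by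
    intro i
    refine Fin.cases ?_ (fun i => ?_) i
    · exact continuous_const
    · simp only [ho_succ]
      exact continuous_apply i
  have h2 : Continuous dn := by
    unfold dn
    fun_prop
  exact continuous_pi fun i => continuous_pi fun j =>
    ((h1 i).mul (h1 j)).div h2 fun p => (dn_pos p).ne'

theorem continuousOn_FE : ContinuousOn (fun q : M4 × ℝ => FE q.1 q.2) {q | q.1 ∈ RP3} := by
  rintro ⟨x₀, t₀⟩ hx₀
  have hx₀' : x₀ ∈ RP3 := hx₀
  have h00 : Continuous fun q : M4 × ℝ => q.1 0 0 := by fun_prop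
  by_cases h0 : x₀ 0 0 = 0
  · set T : ℝ := |t₀| + 1 with hT
    have hT0 : 0 < T := by positivity
    have e1 : ∀ᶠ q : M4 × ℝ in 𝓝 (x₀, t₀), q.1 0 0 < 1 / (1 + 3 * (T + 2) ^ 2) := by
      refine h00.continuousAt.eventually_lt continuousAt_const ?_
      show x₀ 0 0 < 1 / (1 + 3 * (T + 2) ^ 2)
      rw [h0]
      positivity
    have e2 : ∀ᶠ q : M4 × ℝ in 𝓝 (x₀, t₀), q.2 < T := by
      refine continuousAt_snd.eventually_lt continuousAt_const ?_
      show t₀ < T
      have := le_abs_self t₀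
      linarith
    have e3 : (fun q : M4 × ℝ => FE q.1 q.2) =ᶠ[𝓝[{q | q.1 ∈ RP3}] (x₀, t₀)]
        fun q => q.2 := by
      filter_upwards [self_mem_nhdsWithin, mem_nhdsWithin_of_mem_nhds e1,
        mem_nhdsWithin_of_mem_nhds e2] with q hq h1 h2
      have hq' : q.1 ∈ RP3 := hq
      have h1' : q.1 0 0 < 1 / (1 + 3 * (T + 2) ^ 2) := h1
      have h2' : q.2 < T := h2
      unfold FE
      split_ifs with h
      · rfl
      · apply F_far
        have h3 := mul_dn q.1 hq' h
        have h4 : 0 < q.1 0 0 := lt_of_le_of_ne (nonneg_00 _ hq') (Ne.symm h)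
        have h5 : 1 + 3 * (T + 2) ^ 2 < dn (pc q.1) := by
          rw [lt_div_iff₀ (by positivity)] at h1'
          by_contra h6
          rw [not_lt] at h6
          nlinarith
        by_contra h7
        push Not at h7
        have h8 : ∀ i, pc q.1 i ^ 2 ≤ (T + 2) ^ 2 := by
          intro i
          have h9 := h7 i
          rw [← sq_abs (pc q.1 i)]
          exact pow_le_pow_left₀ (abs_nonneg _) (by linarith) 2
        unfold dn at h5
        linarith [h8 0, h8 1, h8 2]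
    have e4 : FE x₀ t₀ = t₀ := by
      unfold FE
      rw [if_pos h0]
    have e5 : ContinuousWithinAt (fun q : M4 × ℝ => q.2) {q | q.1 ∈ RP3} (x₀, t₀) :=
      continuous_snd.continuousWithinAt
    exact e5.congr_of_eventuallyEq e3 e4
  · have e1 : ∀ᶠ q : M4 × ℝ in 𝓝 (x₀, t₀), q.1 0 0 ≠ 0 :=
      h00.continuousAt.eventually_ne h0
    have e2 : (fun q : M4 × ℝ => FE q.1 q.2) =ᶠ[𝓝 (x₀, t₀)] fun q => F (pc q.1) q.2 := by
      filter_upwards [e1] with q hq
      unfold FE
      rw [if_neg hq]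
    have e3 : ContinuousAt (fun q : M4 × ℝ => (pc q.1, q.2)) (x₀, t₀) :=
      ContinuousAt.prodMk (ContinuousAt.comp (f := fun q : M4 × ℝ => q.1) (g := pc)
        (continuousAt_pc x₀ h0) continuousAt_fst) continuousAt_snd
    have e4 : ContinuousAt (fun q : M4 × ℝ => F (pc q.1) q.2) (x₀, t₀) :=
      ContinuousAt.comp (f := fun q : M4 × ℝ => (pc q.1, q.2))
        (g := fun q : (Fin 3 → ℝ) × ℝ => F q.1 q.2) continuous_FPL.continuousAt e3
    exact (e4.congr_of_eventuallyEq e2).continuousWithinAt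

open Classical in
/-- A displacement by the function `v` in the chart. -/
noncomputable def disp (v : (Fin 3 → ℝ) → Fin 3 → ℝ) (x : M4) : M4 :=
  if x 0 0 = 0 then x else chart (fun i => pc x i + v (pc x) i)

theorem abs_ho_le (p : Fin 3 → ℝ) (i : Fin 4) : |ho p i| ≤ Real.sqrt (dn p) :=
  Real.abs_le_sqrt (sq_ho_le p i)

theorem chart_move (p p' : Fin 3 → ℝ) (h : ∀ i, |p' i - p i| ≤ 1) (i j : Fin 4) :
    |chart p' i j - chart p i j| ≤ 12 * Real.sqrt (chart p 0 0) := by
  have hr : Real.sqrt (chart p 0 0) = 1 / Real.sqrt (dn p) := by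
    rw [chart_00', Real.sqrt_div zero_le_one, Real.sqrt_one]
  rw [hr]
  set r := Real.sqrt (dn p) with hr'
  have hrr : r * r = dn p := Real.mul_self_sqrt (dn_pos p).le
  have hr1 : 1 ≤ r := Real.one_le_sqrt.2 (one_le_dn p)
  have hQ : ∀ i, |ho p' i - ho p i| ≤ 1 := by
    intro i
    refine Fin.cases ?_ (fun i => ?_) i
    · rw [ho_zero, ho_zero, sub_self, abs_zero]
      exact zero_le_one
    · rw [ho_succ, ho_succ]
      exact h i
  have hD : dn p' - dn p = ∑ k : Fin 3, (p' k - p k) * (p' k - p k + 2 * p k) := by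
    unfold dn
    rw [Fin.sum_univ_three]
    ring
  have hk : ∀ k : Fin 3, |(p' k - p k) * (p' k - p k + 2 * p k)| ≤ 3 * r := by
    intro k
    have h1 := h k
    have h2 : |p k| ≤ r := by
      have := abs_ho_le p k.succ
      rwa [ho_succ] at this
    rw [abs_mul]
    have h3 : |p' k - p k + 2 * p k| ≤ 1 + 2 * r := by
      refine (abs_add_le _ _).trans ?_
      rw [abs_mul, abs_two]
      linarith
    have h4 := abs_nonneg (p' k - p k + 2 * p k)
    nlinarith [abs_nonneg (p' k - p k)]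
  have hDD : |dn p' - dn p| ≤ 9 * r := by
    rw [hD]
    refine (Finset.abs_sum_le_sum_abs _ _).trans ?_
    rw [Fin.sum_univ_three]
    linarith [hk 0, hk 1, hk 2]
  have hp := dn_pos p
  have hp' := dn_pos p'
  have e : chart p' i j - chart p i j = (ho p' i * (ho p' j - ho p j) +
      (ho p' i - ho p i) * ho p j) / dn p - (ho p' i * ho p' j / dn p') * (dn p' - dn p) / dn p := by
    rw [chart_eq, chart_eq]
    field_simp
    ring
  have hq1 : |ho p' i * ho p' j / dn p'| ≤ 1 := by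
    rw [abs_div, abs_of_pos hp', div_le_one hp', abs_mul]
    calc |ho p' i| * |ho p' j| ≤ Real.sqrt (dn p') * Real.sqrt (dn p') :=
          mul_le_mul (abs_ho_le p' i) (abs_ho_le p' j) (abs_nonneg _) (Real.sqrt_nonneg _)
      _ = dn p' := Real.mul_self_sqrt hp'.le
  have hi' : |ho p' i| ≤ r + 1 := by
    have h1 : ho p' i = ho p i + (ho p' i - ho p i) := by ring
    rw [h1]
    refine (abs_add_le _ _).trans ?_
    linarith [abs_ho_le p i, hQ i]
  have hq2 : |ho p' i * (ho p' j - ho p j) + (ho p' i - ho p i) * ho p j| ≤ 3 * r := by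
    refine (abs_add_le _ _).trans ?_
    rw [abs_mul, abs_mul]
    have h1 := hQ j
    have h2 := hQ i
    have h3 := abs_ho_le p j
    have h4 := abs_nonneg (ho p' i)
    have h5 := abs_nonneg (ho p j)
    nlinarith [abs_nonneg (ho p' j - ho p j), abs_nonneg (ho p' i - ho p i)]
  have hq3 : |(ho p' i * ho p' j / dn p') * (dn p' - dn p)| ≤ 9 * r := by
    rw [abs_mul]
    nlinarith [abs_nonneg (dn p' - dn p), abs_nonneg (ho p' i * ho p' j / dn p')]
  have hq4 : |(ho p' i * (ho p' j - ho p j) + (ho p' i - ho p i) * ho p j) -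
      (ho p' i * ho p' j / dn p') * (dn p' - dn p)| ≤ 12 * r := by
    refine (abs_sub _ _).trans ?_
    linarith
  rw [e, ← sub_div, abs_div, abs_of_pos hp, div_le_iff₀ hp]
  have e2 : 12 * (1 / r) * dn p = 12 * r := by
    rw [← hrr]
    field_simp
  rw [e2]
  exact hq4

/-- A family of displacements in the chart which is bounded by one is continuous on `RP3`. -/
theorem continuousOn_disp (v : ℝ → (Fin 3 → ℝ) → Fin 3 → ℝ) (S : Set ℝ)
    (hv : ∀ s ∈ S, ∀ p i, |v s p i| ≤ 1)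
    (hc : ContinuousOn (fun q : ℝ × (Fin 3 → ℝ) => v q.1 q.2) (S ×ˢ Set.univ)) :
    ContinuousOn (fun q : ℝ × M4 => disp (v q.1) q.2) {q | q.1 ∈ S ∧ q.2 ∈ RP3} := by
  rintro ⟨s₀, x₀⟩ ⟨hs₀, hx₀⟩
  have hs₀' : s₀ ∈ S := hs₀
  have hx₀' : x₀ ∈ RP3 := hx₀
  have h00 : Continuous fun q : ℝ × M4 => q.2 0 0 := by fun_prop
  by_cases h0 : x₀ 0 0 = 0
  · have hval : disp (v s₀) x₀ = x₀ := by
      unfold disp
      rw [if_pos h0]
    unfold ContinuousWithinAt
    show Tendsto (fun q : ℝ × M4 => disp (v q.1) q.2) _ (𝓝 (disp (v s₀) x₀))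
    rw [hval, tendsto_pi_nhds]
    intro i
    rw [tendsto_pi_nhds]
    intro j
    have hb : ∀ q : ℝ × M4, q ∈ {q : ℝ × M4 | q.1 ∈ S ∧ q.2 ∈ RP3} →
        ‖disp (v q.1) q.2 i j - q.2 i j‖ ≤ 12 * Real.sqrt (q.2 0 0) := by
      rintro q ⟨hq1, hq2⟩
      rw [Real.norm_eq_abs]
      unfold disp
      split_ifs with h
      · rw [sub_self, abs_zero]
        positivity
      · have h1 := chart_move (pc q.2) (fun i => pc q.2 i + v q.1 (pc q.2) i) (fun i => by
          rw [add_sub_cancel_left]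
          exact hv q.1 hq1 _ i) i j
        rw [chart_pc q.2 hq2 h] at h1
        exact h1
    have h2 : Tendsto (fun q : ℝ × M4 => 12 * Real.sqrt (q.2 0 0))
        (𝓝[{q : ℝ × M4 | q.1 ∈ S ∧ q.2 ∈ RP3}] (s₀, x₀)) (𝓝 0) := by
      have h3 : Continuous fun q : ℝ × M4 => 12 * Real.sqrt (q.2 0 0) := by fun_prop
      have h4 := h3.tendsto (s₀, x₀)
      simp only [h0, Real.sqrt_zero, mul_zero] at h4
      exact h4.mono_left nhdsWithin_le_nhds
    have h5 : Tendsto (fun q : ℝ × M4 => disp (v q.1) q.2 i j - q.2 i j)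
        (𝓝[{q : ℝ × M4 | q.1 ∈ S ∧ q.2 ∈ RP3}] (s₀, x₀)) (𝓝 0) := by
      refine squeeze_zero_norm' ?_ h2
      filter_upwards [self_mem_nhdsWithin] with q hq
      exact hb q hq
    have h6 : Tendsto (fun q : ℝ × M4 => q.2 i j)
        (𝓝[{q : ℝ × M4 | q.1 ∈ S ∧ q.2 ∈ RP3}] (s₀, x₀)) (𝓝 (x₀ i j)) := by
      have h7 : Continuous fun q : ℝ × M4 => q.2 i j := by fun_prop
      exact (h7.tendsto (s₀, x₀)).mono_left nhdsWithin_le_nhds
    have h8 := h5.add h6
    simpa using h8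
  · have e1 : ∀ᶠ q : ℝ × M4 in 𝓝 (s₀, x₀), q.2 0 0 ≠ 0 :=
      h00.continuousAt.eventually_ne h0
    have e2 : (fun q : ℝ × M4 => disp (v q.1) q.2) =ᶠ[𝓝[{q | q.1 ∈ S ∧ q.2 ∈ RP3}] (s₀, x₀)]
        fun q => chart (fun i => pc q.2 i + v q.1 (pc q.2) i) := by
      filter_upwards [mem_nhdsWithin_of_mem_nhds e1] with q hq
      have hq' : q.2 0 0 ≠ 0 := hq
      unfold disp
      rw [if_neg hq']
    have e3 : ContinuousAt (fun q : ℝ × M4 => pc q.2) (s₀, x₀) :=
      ContinuousAt.comp (f := fun q : ℝ × M4 => q.2) (g := pc)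
        (continuousAt_pc x₀ h0) continuousAt_snd
    have e4 : ContinuousWithinAt (fun q : ℝ × M4 => v q.1 (pc q.2))
        {q | q.1 ∈ S ∧ q.2 ∈ RP3} (s₀, x₀) := by
      refine ContinuousWithinAt.comp (f := fun q : ℝ × M4 => (q.1, pc q.2))
        (g := fun q : ℝ × (Fin 3 → ℝ) => v q.1 q.2) (t := S ×ˢ Set.univ)
        (hc (s₀, pc x₀) ⟨hs₀', trivial⟩) ?_ ?_
      · exact (continuousAt_fst.prodMk e3).continuousWithinAt
      · rintro q ⟨hq1, _⟩
        exact ⟨hq1, trivial⟩
    have e5 : ContinuousWithinAt (fun q : ℝ × M4 => fun i => pc q.2 i + v q.1 (pc q.2) i)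
        {q | q.1 ∈ S ∧ q.2 ∈ RP3} (s₀, x₀) := e3.continuousWithinAt.add e4
    have e6 : ContinuousWithinAt
        (fun q : ℝ × M4 => chart (fun i => pc q.2 i + v q.1 (pc q.2) i))
        {q | q.1 ∈ S ∧ q.2 ∈ RP3} (s₀, x₀) :=
      continuous_chart.continuousAt.comp_continuousWithinAt e5
    refine e6.congr_of_eventuallyEq e2 ?_
    show disp (v s₀) x₀ = _
    unfold disp
    rw [if_neg h0]

theorem isCompact_N : IsCompact N := by
  have h1 : IsClosed {q : M4 × ℝ | q.1 ∈ RP3} :=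
    isCompact_RP3.isClosed.preimage continuous_fst
  have h2 : IsClosed N := by
    rw [N_eq]
    exact continuousOn_FE.preimage_isClosed_of_isClosed h1 (isClosed_singleton (x := (0 : ℝ)))
  refine IsCompact.of_isClosed_subset (isCompact_RP3.prod (isCompact_Icc (a := (-1 : ℝ))
    (b := 5))) h2 ?_
  rintro ⟨x, t⟩ h
  rcases h with ⟨p, hp, hF⟩ | ⟨hx, _, ht⟩
  · have hp' : x = chart p := hp
    subst hp'
    have hF' : F p t = 0 := hF
    exact ⟨chart_mem p, F_height p t (by rw [hF', abs_zero]; exact zero_le_one)⟩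
  · have ht' : t = 0 := ht
    subst ht'
    exact ⟨hx, by norm_num, by norm_num⟩

end Pool.Agent.Helper31.DS
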