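import Pool.Agent.Helper31.DS.E3

/-!
# DS-E4: the bicollar of `N` in `RP3 × ℝ` (about 150-220 lines)

For `n = (x, t) ∈ N` and `|s| < 1/16` put `E (n, s) = (disp (s vv) x, t + s chi t)`.  Claim: `E` is a
homeomorphism of `N × (-1/16, 1/16)` onto the open subset `{|FE| < 1/16}` of `RP3 × ℝ`.
`FE (E (n, s)) = s` by `F_push` in the chart, and by `chi_low` at infinity (`t = FE x t = 0`).
Inverse: for `q = (y, u)` with `|FE y u| < 1/16` put `s = FE y u`, `t = invchi s u`, `x` = the
displacement of `y` by `inv s (pc y) - pc y` (coordinatewise, `exists_inv` for `phi`, `phi`, `psi`;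
bounded by `|s|`).  Then `E ((x, t), s) = (y, u)` and `FE x t = 0`: in the chart
`|F (pc x) t - F (pc y) u| ≤ |s| ≤ 1/16` (`F_lip`), so `|F (pc x) t| ≤ 1/8` and `F_push` gives
`F (pc y) u = F (pc x) t + s`, so `F (pc x) t = 0`; at infinity `u = s`, `t = inv s s`, and
`0 + s chi 0 = s`, so `t = 0`.  Both maps are continuous (`continuousOn_disp`,
`continuousOn_FE`), so `E` is an open embedding.  Compose with the homeomorphism
`r ↦ (1/16) r / (1 + |r|)` of `ℝ` and `(-1/16, 1/16)`.
-/

namespace Pool.Agent.Helper31.DS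

open Pool.Agent.Helper77.DS Topology

/-- the three displacement functions -/
private noncomputable def e4f : Fin 3 → ℝ → ℝ := ![phi, phi, psi]

private theorem e4f_bound (i : Fin 3) (x : ℝ) : |e4f i x| ≤ 1 := by
  fin_cases i
  · exact phi_bound x
  · exact phi_bound x
  · exact psi_bound x

private theorem e4f_lip (i : Fin 3) (x y : ℝ) : |e4f i x - e4f i y| ≤ 7 * |x - y| := by
  fin_cases i
  · exact phi_lip x y
  · exact phi_lip x y
  · exact psi_lip x y

private theorem vv_eq (p : Fin 3 → ℝ) (i : Fin 3) : vv p i = e4f i (p i) := by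
  fin_cases i <;> rfl

private theorem e4_cont {f : ℝ → ℝ} (hf : ∀ x y, |f x - f y| ≤ 7 * |x - y|) : Continuous f := by
  have h : LipschitzWith 7 f := by
    apply LipschitzWith.of_dist_le_mul
    intro x y
    rw [Real.dist_eq, Real.dist_eq]
    exact hf x y
  exact h.continuous

theorem exists_bicollar : ∃ E : ↥N × ℝ → ↥RP3 × ℝ, IsOpenEmbedding E := by
  have hinv := fun i => exists_inv (e4f i) (e4f_bound i) (e4f_lip i)
  choose g hg1 hg2 hg3 using hinv
  obtain ⟨k, hk1, hk2, hk3⟩ := exists_inv chi chi_bound chi_lip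
  set S : Set ℝ := {s | |s| < 1 / 16} with hS
  have hS8 : ∀ s ∈ S, |s| < 1 / 8 := fun s hs => by
    have : |s| < 1 / 16 := hs
    linarith
  set v : ℝ → (Fin 3 → ℝ) → Fin 3 → ℝ := fun s p i => s * e4f i (p i) with hv
  set w : ℝ → (Fin 3 → ℝ) → Fin 3 → ℝ := fun s p i => g i s (p i) - p i with hw
  have hvb : ∀ s ∈ S, ∀ p i, |v s p i| ≤ 1 := by
    intro s hs p i
    have h1 : |s| < 1 / 16 := hs
    have h2 := e4f_bound i (p i)
    show |s * e4f i (p i)| ≤ 1
    rw [abs_mul]
    nlinarith [abs_nonneg s, abs_nonneg (e4f i (p i))]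
  have hws : ∀ s ∈ S, ∀ p i, |w s p i| ≤ |s| := by
    intro s hs p i
    have h1 := hg1 i s (p i) (hS8 s hs)
    have h2 := e4f_bound i (g i s (p i))
    have h3 : w s p i = - (s * e4f i (g i s (p i))) := by
      show g i s (p i) - p i = _
      linarith
    rw [h3, abs_neg, abs_mul]
    nlinarith [abs_nonneg s, abs_nonneg (e4f i (g i s (p i)))]
  have hwb : ∀ s ∈ S, ∀ p i, |w s p i| ≤ 1 := by
    intro s hs p i
    have h1 : |s| < 1 / 16 := hs
    have h2 := hws s hs p i
    linarith
  have hvc : ContinuousOn (fun q : ℝ × (Fin 3 → ℝ) => v q.1 q.2) (S ×ˢ Set.univ) := by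
    apply Continuous.continuousOn
    apply continuous_pi
    intro i
    exact continuous_fst.mul ((e4_cont (e4f_lip i)).comp ((continuous_apply i).comp continuous_snd))
  have hwc : ContinuousOn (fun q : ℝ × (Fin 3 → ℝ) => w q.1 q.2) (S ×ˢ Set.univ) := by
    apply continuousOn_pi.2
    intro i
    have h1 : Continuous fun q : ℝ × (Fin 3 → ℝ) => (q.1, q.2 i) :=
      continuous_fst.prodMk ((continuous_apply i).comp continuous_snd)
    have h2 : ContinuousOn (fun q : ℝ × (Fin 3 → ℝ) => g i q.1 (q.2 i)) (S ×ˢ Set.univ) := by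
      refine (hg3 i).comp h1.continuousOn ?_
      rintro ⟨s, p⟩ ⟨hs, _⟩
      exact hS8 s hs
    exact h2.sub ((continuous_apply i).comp continuous_snd).continuousOn
  have hdv := continuousOn_disp v S hvb hvc
  have hdw := continuousOn_disp w S hwb hwc
  have hdisp : ∀ (a : (Fin 3 → ℝ) → Fin 3 → ℝ) (x : M4), x ∈ RP3 → disp a x ∈ RP3 := by
    intro a x hx
    unfold disp
    split_ifs
    · exact hx
    · exact chart_mem _
  have hdisp0 : ∀ (a : (Fin 3 → ℝ) → Fin 3 → ℝ) (x : M4), x 0 0 = 0 → disp a x = x := by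
    intro a x hx
    unfold disp
    rw [if_pos hx]
  have hdisp1 : ∀ (a : (Fin 3 → ℝ) → Fin 3 → ℝ) (x : M4), x 0 0 ≠ 0 →
      disp a x = chart (fun i => pc x i + a (pc x) i) := by
    intro a x hx
    unfold disp
    rw [if_neg hx]
  have hFE0 : ∀ (x : M4) (t : ℝ), x 0 0 = 0 → FE x t = t := by
    intro x t hx
    unfold FE
    rw [if_pos hx]
  have hFE1 : ∀ (x : M4) (t : ℝ), x 0 0 ≠ 0 → FE x t = F (pc x) t := by
    intro x t hx
    unfold FE
    rw [if_neg hx]
  have hFEc : ∀ (p : Fin 3 → ℝ) (t : ℝ), FE (chart p) t = F p t := by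
    intro p t
    rw [hFE1 _ _ (chart_00 p).ne', pc_chart]
  have hmem : ∀ n : ↥N, n.1.1 ∈ RP3 ∧ FE n.1.1 n.1.2 = 0 := by
    intro n
    exact (Set.ext_iff.1 N_eq n.1).1 n.2
  have hchi0 : chi 0 = 1 := chi_low 0 (by norm_num)
  -- the push
  have hA : ∀ (x : M4) (t s : ℝ), x ∈ RP3 → FE x t = 0 → s ∈ S →
      FE (disp (v s) x) (t + s * chi t) = s := by
    intro x t s _ h0 hs
    have hs' : |s| < 1 / 16 := hs
    by_cases hx0 : x 0 0 = 0
    · rw [hdisp0 _ _ hx0, hFE0 _ _ hx0]
      rw [hFE0 _ _ hx0] at h0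
      rw [h0, hchi0]
      ring
    · rw [hdisp1 _ _ hx0, hFEc]
      rw [hFE1 _ _ hx0] at h0
      have h1 := F_push (pc x) t s hs'.le (by rw [h0]; norm_num)
      rw [h0, zero_add] at h1
      rw [← h1]
      rw [h1]
      conv_rhs => rw [← h1]
      congr 1
      funext i
      rw [vv_eq]
  -- the inverse of the push
  have hB : ∀ (y : M4) (u : ℝ), y ∈ RP3 → FE y u ∈ S →
      FE (disp (w (FE y u)) y) (k (FE y u) u) = 0 ∧
        disp (v (FE y u)) (disp (w (FE y u)) y) = y ∧
        k (FE y u) u + FE y u * chi (k (FE y u) u) = u := by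
    intro y u hy hs
    set s := FE y u with hsdef
    have hs' : |s| < 1 / 16 := hs
    have hu := hk1 s u (hS8 s hs)
    by_cases hy0 : y 0 0 = 0
    · have hus : s = u := by rw [hsdef, hFE0 _ _ hy0]
      refine ⟨?_, ?_, hu⟩
      · rw [hdisp0 _ _ hy0, hFE0 _ _ hy0]
        have h1 := hk2 s 0 (hS8 s hs)
        rw [hchi0, zero_add, mul_one] at h1
        rw [← hus]
        exact h1
      · rw [hdisp0 _ _ hy0, hdisp0 _ _ hy0]
    · rw [hdisp1 (w s) _ hy0]
      have hp : (fun i => pc y i + w s (pc y) i) = fun i => g i s (pc y i) := by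
        funext i
        show pc y i + (g i s (pc y i) - pc y i) = _
        ring
      rw [hp]
      set p' : Fin 3 → ℝ := fun i => g i s (pc y i) with hp'
      have hpp : ∀ i, p' i + s * e4f i (p' i) = pc y i := fun i => hg1 i s (pc y i) (hS8 s hs)
      refine ⟨?_, ?_, hu⟩
      · rw [hFEc]
        have hsF : F (pc y) u = s := by rw [hsdef, hFE1 _ _ hy0]
        have hlip := F_lip p' (pc y) (k s u) u |s| (by
          intro i
          exact hws s hs (pc y) i) (by
          have h1 : k s u - u = - (s * chi (k s u)) := by linarith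
          rw [h1, abs_neg, abs_mul]
          have h2 := chi_bound (k s u)
          nlinarith [abs_nonneg s, abs_nonneg (chi (k s u))])
        have hle : |F p' (k s u)| ≤ 1 / 8 := by
          have h1 : |F p' (k s u)| ≤ |F p' (k s u) - F (pc y) u| + |F (pc y) u| := by
            have := abs_add_le (F p' (k s u) - F (pc y) u) (F (pc y) u)
            rwa [sub_add_cancel] at this
          rw [hsF] at h1
          rw [hsF] at hlip
          linarith
        have h1 := F_push p' (k s u) s hs'.le hle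
        rw [hu] at h1
        have h2 : (fun i => p' i + s * vv p' i) = pc y := by
          funext i
          rw [vv_eq]
          exact hpp i
        rw [h2, hsF] at h1
        linarith
      · rw [hdisp1 _ _ (chart_00 p').ne', pc_chart]
        have h2 : (fun i => p' i + v s p' i) = pc y := by
          funext i
          exact hpp i
        rw [h2, chart_pc y hy hy0]
  have hC : ∀ (x : M4) (s : ℝ), x ∈ RP3 → s ∈ S → disp (w s) (disp (v s) x) = x := by
    intro x s hx hs
    by_cases hx0 : x 0 0 = 0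
    · rw [hdisp0 _ _ hx0, hdisp0 _ _ hx0]
    · rw [hdisp1 (v s) _ hx0, hdisp1 _ _ (chart_00 _).ne', pc_chart]
      have h1 : (fun i => (pc x i + v s (pc x) i) + w s (fun i => pc x i + v s (pc x) i) i) =
          pc x := by
        funext i
        show (pc x i + s * e4f i (pc x i)) + (g i s (pc x i + s * e4f i (pc x i)) -
          (pc x i + s * e4f i (pc x i))) = pc x i
        rw [hg2 i s (pc x i) (hS8 s hs)]
        ring
      rw [h1, chart_pc x hx hx0]
  -- the open set
  set U : Set (↥RP3 × ℝ) := {q | FE q.1.1 q.2 ∈ S} with hU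
  have hFEcont : Continuous fun q : ↥RP3 × ℝ => FE q.1.1 q.2 := by
    have h1 : Continuous fun q : ↥RP3 × ℝ => ((q.1.1, q.2) : M4 × ℝ) :=
      (continuous_subtype_val.comp continuous_fst).prodMk continuous_snd
    exact continuousOn_FE.comp_continuous h1 fun q => q.1.2
  have hSo : IsOpen S := isOpen_lt continuous_abs continuous_const
  have hUo : IsOpen U := hSo.preimage hFEcont
  have hball : ∀ b : ↥(Metric.ball (0 : ℝ) 1), (b : ℝ) / 16 ∈ S := by
    intro b
    have h1 := mem_ball_zero_iff.1 b.2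
    rw [Real.norm_eq_abs] at h1
    show |(b : ℝ) / 16| < 1 / 16
    rw [abs_div, abs_of_pos (by norm_num : (0 : ℝ) < 16)]
    linarith
  have hSball : ∀ s ∈ S, 16 * s ∈ Metric.ball (0 : ℝ) 1 := by
    intro s hs
    have hs' : |s| < 1 / 16 := hs
    rw [mem_ball_zero_iff, Real.norm_eq_abs, abs_mul, abs_of_pos (by norm_num : (0 : ℝ) < 16)]
    linarith
  let Φ : ↥N × ↥(Metric.ball (0 : ℝ) 1) ≃ₜ ↥U :=
    { toFun := fun z => ⟨(⟨disp (v ((z.2 : ℝ) / 16)) z.1.1.1, hdisp _ _ (hmem z.1).1⟩,
        z.1.1.2 + ((z.2 : ℝ) / 16) * chi z.1.1.2), by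
        show FE (disp (v ((z.2 : ℝ) / 16)) z.1.1.1) (z.1.1.2 + ((z.2 : ℝ) / 16) * chi z.1.1.2) ∈ S
        rw [hA _ _ _ (hmem z.1).1 (hmem z.1).2 (hball z.2)]
        exact hball z.2⟩
      invFun := fun q => (⟨(disp (w (FE q.1.1.1 q.1.2)) q.1.1.1, k (FE q.1.1.1 q.1.2) q.1.2), by
        rw [N_eq]
        exact ⟨hdisp _ _ q.1.1.2, (hB _ _ q.1.1.2 q.2).1⟩⟩,
        ⟨16 * FE q.1.1.1 q.1.2, hSball _ q.2⟩)
      left_inv := by
        intro z
        have h1 := hA _ _ _ (hmem z.1).1 (hmem z.1).2 (hball z.2)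
        apply Prod.ext
        · apply Subtype.ext
          apply Prod.ext
          · show disp (w (FE (disp (v ((z.2 : ℝ) / 16)) z.1.1.1)
              (z.1.1.2 + ((z.2 : ℝ) / 16) * chi z.1.1.2))) (disp (v ((z.2 : ℝ) / 16)) z.1.1.1) =
              z.1.1.1
            rw [h1]
            exact hC _ _ (hmem z.1).1 (hball z.2)
          · show k (FE (disp (v ((z.2 : ℝ) / 16)) z.1.1.1)
              (z.1.1.2 + ((z.2 : ℝ) / 16) * chi z.1.1.2))
              (z.1.1.2 + ((z.2 : ℝ) / 16) * chi z.1.1.2) = z.1.1.2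
            rw [h1]
            exact hk2 _ _ (hS8 _ (hball z.2))
        · apply Subtype.ext
          show 16 * FE (disp (v ((z.2 : ℝ) / 16)) z.1.1.1)
              (z.1.1.2 + ((z.2 : ℝ) / 16) * chi z.1.1.2) = z.2
          rw [h1]
          ring
      right_inv := by
        intro q
        obtain ⟨_, h2, h3⟩ := hB _ _ q.1.1.2 q.2
        have h4 : 16 * FE q.1.1.1 q.1.2 / 16 = FE q.1.1.1 q.1.2 := by ring
        apply Subtype.ext
        apply Prod.ext
        · apply Subtype.ext
          show disp (v (16 * FE q.1.1.1 q.1.2 / 16)) (disp (w (FE q.1.1.1 q.1.2)) q.1.1.1) = q.1.1.1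
          rw [h4]
          exact h2
        · show k (FE q.1.1.1 q.1.2) q.1.2 +
            (16 * FE q.1.1.1 q.1.2 / 16) * chi (k (FE q.1.1.1 q.1.2) q.1.2) = q.1.2
          rw [h4]
          exact h3
      continuous_toFun := by
        apply Continuous.subtype_mk
        apply Continuous.prodMk
        · apply Continuous.subtype_mk
          have h1 : Continuous fun z : ↥N × ↥(Metric.ball (0 : ℝ) 1) =>
              (((z.2 : ℝ) / 16, z.1.1.1) : ℝ × M4) :=
            ((continuous_subtype_val.comp continuous_snd).div_const 16).prodMk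
              (continuous_fst.comp (continuous_subtype_val.comp continuous_fst))
          exact hdv.comp_continuous h1 fun z => ⟨hball z.2, (hmem z.1).1⟩
        · have h2 : Continuous fun z : ↥N × ↥(Metric.ball (0 : ℝ) 1) => z.1.1.2 :=
            continuous_snd.comp (continuous_subtype_val.comp continuous_fst)
          exact h2.add (((continuous_subtype_val.comp continuous_snd).div_const 16).mul
            ((e4_cont chi_lip).comp h2))
      continuous_invFun := by
        have h0 : Continuous fun q : ↥U => FE q.1.1.1 q.1.2 := hFEcont.comp continuous_subtype_val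
        apply Continuous.prodMk
        · apply Continuous.subtype_mk
          apply Continuous.prodMk
          · have h1 : Continuous fun q : ↥U => ((FE q.1.1.1 q.1.2, q.1.1.1) : ℝ × M4) :=
              h0.prodMk (continuous_subtype_val.comp (continuous_fst.comp continuous_subtype_val))
            exact hdw.comp_continuous h1 fun q => ⟨q.2, q.1.1.2⟩
          · have h1 : Continuous fun q : ↥U => ((FE q.1.1.1 q.1.2, q.1.2) : ℝ × ℝ) :=
              h0.prodMk (continuous_snd.comp continuous_subtype_val)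
            exact hk3.comp_continuous h1 fun q => hS8 _ q.2
        · apply Continuous.subtype_mk
          exact continuous_const.mul h0 }
  refine ⟨fun z => (Φ (z.1, Homeomorph.unitBall z.2)).1, ?_⟩
  have h1 : IsOpenEmbedding (Subtype.val : ↥U → ↥RP3 × ℝ) := hUo.isOpenEmbedding_subtypeVal
  have h2 := h1.comp (Φ.isOpenEmbedding.comp
    ((Homeomorph.refl ↥N).prodCongr (Homeomorph.unitBall (E := ℝ))).isOpenEmbedding)
  exact h2

end Pool.Agent.Helper31.DS
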