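import Pool.Agent.Helper31.DS.A5
import Pool.Agent.Helper77.DS.FinC

/-!
# An algebraically doubly slice 5-knot with group `ℤ` which is not doubly slice
-/

namespace Pool.Agent.Helper31.DS

open Pool.Agent.Helper82.DK2 Pool.Agent.Helper77.DS

theorem main : Goal :=
  goal_of_block fun D hΦ => block_c D continuous_snd.continuousOn hΦ

end Pool.Agent.Helper31.DS
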