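import Mathlib

/-!
# DS-G1: radial extension of a homeomorphism of the circle (about 80-150 lines)

Proof.  `B` is an order isomorphism of `ℝ` (strictly monotone, continuous, unbounded because of
`hp`: `B (t + 2πn) = B t + 2πn`), and its inverse `C` has the same properties.  Put
`Q z = ‖z‖ * exp (B (arg z) * I)`.  Since every `t` with `z = r e^{it}`, `0 < r`, differs from
`arg z` by `2πn`, `Q (r e^{it}) = r e^{i B t}` for all `r ≥ 0`, `t`; so `Q` is inverted by the same
map for `C`.  Continuity at `0`: `‖Q z‖ = ‖z‖`.  Continuity at `z₀ ≠ 0`: on the slit plane `arg` is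
continuous; for `t₀ = arg z₀` use `Q z = ‖z‖ exp (i B (t₀ + arg (z e^{-i t₀})))` and that
`z₀ e^{-i t₀} = ‖z₀‖` is in the slit plane.
-/

namespace Pool.Agent.Helper31.DS

open Complex

private theorem rad_period (B : ℝ → ℝ) (hp : ∀ t, B (t + 2 * Real.pi) = B t + 2 * Real.pi)
    (n : ℤ) (t : ℝ) : B (t + n * (2 * Real.pi)) = B t + n * (2 * Real.pi) := by
  have h : Function.Periodic (fun t => B t - t) (2 * Real.pi) := by
    intro t
    show B (t + 2 * Real.pi) - (t + 2 * Real.pi) = B t - t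
    rw [hp]
    ring
  have h1 : B (t + n * (2 * Real.pi)) - (t + n * (2 * Real.pi)) = B t - t := h.int_mul n t
  linarith

private theorem rad_surj (B : ℝ → ℝ) (hc : Continuous B)
    (hp : ∀ t, B (t + 2 * Real.pi) = B t + 2 * Real.pi) : Function.Surjective B := by
  intro y
  have hpi : 0 < 2 * Real.pi := by positivity
  obtain ⟨n, hn1, hn2⟩ : ∃ n : ℤ, B 0 + n * (2 * Real.pi) ≤ y ∧
      y ≤ B 0 + (n + 1) * (2 * Real.pi) := by
    refine ⟨⌊(y - B 0) / (2 * Real.pi)⌋, ?_, ?_⟩
    · have h := Int.floor_le ((y - B 0) / (2 * Real.pi))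
      rw [le_div_iff₀ hpi] at h
      linarith
    · have h := (Int.lt_floor_add_one ((y - B 0) / (2 * Real.pi))).le
      rw [div_le_iff₀ hpi] at h
      linarith
  have h1 : B (n * (2 * Real.pi)) = B 0 + n * (2 * Real.pi) := by
    have := rad_period B hp n 0
    rwa [zero_add] at this
  have h2 : B ((n + 1) * (2 * Real.pi)) = B 0 + (n + 1) * (2 * Real.pi) := by
    have := rad_period B hp (n + 1) 0
    rw [zero_add] at this
    push_cast at this
    exact this
  have hle : (n : ℝ) * (2 * Real.pi) ≤ (n + 1) * (2 * Real.pi) := by nlinarith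
  have hy : y ∈ Set.Icc (B (n * (2 * Real.pi))) (B ((n + 1) * (2 * Real.pi))) := by
    rw [h1, h2]
    exact ⟨hn1, hn2⟩
  obtain ⟨x, -, hx⟩ := intermediate_value_Icc hle hc.continuousOn hy
  exact ⟨x, hx⟩

/-- the radial map -/
private noncomputable def radQ (B : ℝ → ℝ) (z : ℂ) : ℂ := ‖z‖ * exp (B (arg z) * I)

private theorem norm_radQ (B : ℝ → ℝ) (z : ℂ) : ‖radQ B z‖ = ‖z‖ := by
  unfold radQ
  rw [norm_mul, norm_exp_ofReal_mul_I, mul_one, norm_real, norm_norm]

private theorem radQ_polar (B : ℝ → ℝ) (hp : ∀ t, B (t + 2 * Real.pi) = B t + 2 * Real.pi)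
    (r t : ℝ) (hr : 0 ≤ r) : radQ B (r * exp (t * I)) = r * exp (B t * I) := by
  have hn : ‖(r : ℂ) * exp (t * I)‖ = r := by
    rw [norm_mul, norm_exp_ofReal_mul_I, mul_one, norm_real, Real.norm_of_nonneg hr]
  unfold radQ
  rw [hn]
  rcases hr.eq_or_lt with h0 | h0
  · rw [← h0]
    simp
  · congr 1
    rw [arg_real_mul _ h0, arg_exp_mul_I]
    have h1 := self_sub_toIocDiv_zsmul Real.two_pi_pos (-Real.pi) t
    rw [← h1]
    set n := toIocDiv Real.two_pi_pos (-Real.pi) t
    have h2 : t - n • (2 * Real.pi) = t + ((-n : ℤ) : ℝ) * (2 * Real.pi) := by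
      rw [zsmul_eq_mul]
      push_cast
      ring
    rw [h2, rad_period B hp]
    have h3 : ((B t + ((-n : ℤ) : ℝ) * (2 * Real.pi) : ℝ) : ℂ) * I =
        B t * I + ((-n : ℤ) : ℂ) * (2 * Real.pi * I) := by
      push_cast
      ring
    rw [h3, exp_add, exp_int_mul_two_pi_mul_I, mul_one]

private theorem radQ_continuous (B : ℝ → ℝ) (hc : Continuous B)
    (hp : ∀ t, B (t + 2 * Real.pi) = B t + 2 * Real.pi) : Continuous (radQ B) := by
  rw [continuous_iff_continuousAt]
  intro z₀
  by_cases h0 : z₀ = 0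
  · subst h0
    have h1 : radQ B 0 = 0 := by
      rw [← norm_eq_zero, norm_radQ, norm_zero]
    unfold ContinuousAt
    rw [h1]
    apply squeeze_zero_norm (fun z => (norm_radQ B z).le)
    exact tendsto_norm_zero
  · set t₀ := arg z₀ with ht
    have key : ∀ z, radQ B z = ‖z‖ * exp (B (t₀ + arg (z * exp (-(t₀ * I)))) * I) := by
      intro z
      have h1 : z = ‖z‖ * exp (((t₀ + arg (z * exp (-(t₀ * I))) : ℝ) : ℂ) * I) := by
        have h2 := norm_mul_exp_arg_mul_I (z * exp (-(t₀ * I)))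
        have h3 : ‖z * exp (-(t₀ * I))‖ = ‖z‖ := by
          rw [norm_mul]
          have h4 : -((t₀ : ℂ) * I) = ((-t₀ : ℝ) : ℂ) * I := by push_cast; ring
          rw [h4, norm_exp_ofReal_mul_I, mul_one]
        rw [h3] at h2
        rw [ofReal_add, add_mul, exp_add]
        calc z = (z * exp (-(t₀ * I))) * exp (t₀ * I) := by
              rw [mul_assoc, ← exp_add, neg_add_cancel, exp_zero, mul_one]
          _ = (‖z‖ * exp (arg (z * exp (-(t₀ * I))) * I)) * exp (t₀ * I) := by rw [h2]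
          _ = _ := by ring
      conv_lhs => rw [h1]
      exact radQ_polar B hp _ _ (norm_nonneg z)
    have h1 : radQ B = fun z => ‖z‖ * exp (B (t₀ + arg (z * exp (-(t₀ * I)))) * I) := funext key
    rw [h1]
    have h2 : z₀ * exp (-(t₀ * I)) = ‖z₀‖ := by
      conv_lhs => rw [← norm_mul_exp_arg_mul_I z₀]
      rw [mul_assoc, ← exp_add, ← ht, add_neg_cancel, exp_zero, mul_one]
    have h3 : ContinuousAt (fun z : ℂ => arg (z * exp (-(t₀ * I)))) z₀ := by
      have h4 : ContinuousAt arg (z₀ * exp (-(t₀ * I))) := by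
        apply continuousAt_arg
        rw [h2]
        exact ofReal_mem_slitPlane.2 (norm_pos_iff.2 h0)
      exact ContinuousAt.comp (f := fun z : ℂ => z * exp (-(t₀ * I))) h4
        (continuous_id.mul continuous_const).continuousAt
    have h5 : ContinuousAt (fun z : ℂ => B (t₀ + arg (z * exp (-(t₀ * I))))) z₀ :=
      hc.continuousAt.comp (continuousAt_const.add h3)
    refine ContinuousAt.mul (continuous_ofReal.comp continuous_norm).continuousAt ?_
    exact continuous_exp.continuousAt.comp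
      ((continuous_ofReal.continuousAt.comp h5).mul continuousAt_const)

theorem exists_radial (B : ℝ → ℝ) (hB : StrictMono B) (hc : Continuous B)
    (hp : ∀ t, B (t + 2 * Real.pi) = B t + 2 * Real.pi) :
    ∃ Q : ℂ ≃ₜ ℂ, ∀ r t : ℝ, 0 ≤ r → Q (r * exp (t * I)) = r * exp (B t * I) := by
  let e : ℝ ≃o ℝ := hB.orderIsoOfSurjective B (rad_surj B hc hp)
  have he : ∀ t, e t = B t := fun _ => rfl
  let C : ℝ → ℝ := fun t => e.symm t
  have hBC : ∀ t, B (C t) = t := fun t => e.apply_symm_apply t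
  have hCB : ∀ t, C (B t) = t := fun t => e.symm_apply_apply t
  have hCc : Continuous C := e.symm.continuous
  have hCp : ∀ t, C (t + 2 * Real.pi) = C t + 2 * Real.pi := by
    intro t
    apply hB.injective
    rw [hBC, hp, hBC]
  have inv : ∀ (B C : ℝ → ℝ), (∀ t, C (t + 2 * Real.pi) = C t + 2 * Real.pi) →
      (∀ t, C (B t) = t) → ∀ z, radQ C (radQ B z) = z := by
    intro B C hC h z
    have h1 : radQ B z = (‖z‖ : ℝ) * exp (B (arg z) * I) := rfl
    rw [h1, radQ_polar C hC _ _ (norm_nonneg z), h, norm_mul_exp_arg_mul_I]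
  refine ⟨⟨⟨radQ B, radQ C, inv B C hCp hCB, inv C B hp hBC⟩,
    radQ_continuous B hc hp, radQ_continuous C hCc hCp⟩, fun r t hr => ?_⟩
  exact radQ_polar B hp r t hr

end Pool.Agent.Helper31.DS
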