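import Pool.Agent.Helper31.DS.Defs

/-!
# DS-G2: the angle functions of `G2` and `G3` (about 100-180 lines)

`A2` has slope `1` on `[-π/2, π/2]` and slope `3` on `[π/2, 3π/2]`; `A3` has slope `1` on
`[π/2, 3π/2]` and slope `5` on `[-π/2, π/2]` (`A3 t = 5 t - 2π` there).
A convenient construction without case distinctions: let `T t = arcsin (sin t)` (continuous,
`2π`-periodic, the triangle wave: `T t = t` on `[-π/2, π/2]`, `T t = π - t` on `[π/2, 3π/2]`).  Then
`A2 t = 2 t - T t` and `A3 t = 3 t - 2 π + ... ` : check `A2 t = t` on `[-π/2, π/2]` and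
`A2 t = 3 t - π` on `[π/2, 3π/2]`; `A3 t = 3 t + 2 T t - 2π` is `5 t - 2π` on `[-π/2, π/2]` and
`t` on `[π/2, 3π/2]`.  Strict monotonicity: `T` is `1`-Lipschitz
(`|T x - T y| ≤ |x - y|`: on each interval `[kπ - π/2, kπ + π/2]` it is `(-1)^k (t - kπ)`), so
`A2` is strictly monotone since `2 > 1`, `A3` since `3 > 2`.
`G2 (r e^{it}) = r e^{i A2 t}`: both sides are `2π`-periodic in `t`, so assume
`t ∈ [-π/2, 3π/2]`; for `cos t ≥ 0` (resp. `≤ 0`) use the formula; `-(e^{it})^3 = e^{i(3t - π)}`.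
Same for `G3`: `(e^{it})^5 = e^{i (5 t - 2π)}`.
-/

namespace Pool.Agent.Helper31.DS

open Complex

/-- `arccos (cos w) ≤ |w|` -/
theorem arccos_cos_le_abs (w : ℝ) : Real.arccos (Real.cos w) ≤ |w| := by
  rcases le_or_gt |w| Real.pi with h | h
  · rw [← Real.cos_abs, Real.arccos_cos (abs_nonneg w) h]
  · exact (Real.arccos_le_pi _).trans h.le

/-- `arccos ∘ cos` is `1`-Lipschitz -/
theorem arccos_cos_add (u v : ℝ) :
    Real.arccos (Real.cos (u + v)) ≤ Real.arccos (Real.cos u) + |v| := by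
  have hpi := Real.pi_pos
  set k : ℤ := round (u / (2 * Real.pi)) with hk
  have h1 : |u - k * (2 * Real.pi)| ≤ Real.pi := by
    have h2 := abs_sub_round (u / (2 * Real.pi))
    rw [← hk] at h2
    have h3 : u - k * (2 * Real.pi) = (u / (2 * Real.pi) - k) * (2 * Real.pi) := by
      field_simp
    rw [h3, abs_mul, abs_of_pos (by positivity : (0 : ℝ) < 2 * Real.pi)]
    nlinarith
  have h4 : Real.cos u = Real.cos |u - k * (2 * Real.pi)| := by
    rw [Real.cos_abs, Real.cos_sub_int_mul_two_pi]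
  have h5 : Real.arccos (Real.cos u) = |u - k * (2 * Real.pi)| := by
    rw [h4, Real.arccos_cos (abs_nonneg _) h1]
  have h6 : Real.cos (u + v) = Real.cos (u - k * (2 * Real.pi) + v) := by
    rw [show u - k * (2 * Real.pi) + v = u + v - k * (2 * Real.pi) by ring,
      Real.cos_sub_int_mul_two_pi]
  rw [h5, h6]
  exact (arccos_cos_le_abs _).trans (abs_add_le _ _)

/-- the triangle wave -/
noncomputable def TW (t : ℝ) : ℝ := Real.arcsin (Real.sin t)

theorem TW_eq (t : ℝ) : TW t = Real.pi / 2 - Real.arccos (Real.cos (Real.pi / 2 - t)) := by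
  rw [TW, Real.arcsin_eq_pi_div_two_sub_arccos, Real.cos_pi_div_two_sub]

theorem TW_sub_le (x y : ℝ) : TW x - TW y ≤ |x - y| := by
  rw [TW_eq, TW_eq]
  have h := arccos_cos_add (Real.pi / 2 - x) (x - y)
  rw [show Real.pi / 2 - x + (x - y) = Real.pi / 2 - y by ring] at h
  linarith

theorem continuous_TW : Continuous TW := Real.continuous_arcsin.comp Real.continuous_sin

theorem TW_add (t : ℝ) : TW (t + 2 * Real.pi) = TW t := by
  rw [TW, TW, Real.sin_add_two_pi]

theorem TW_eq_self {t : ℝ} (h : |t| ≤ Real.pi / 2) : TW t = t := by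
  rw [abs_le] at h
  exact Real.arcsin_sin (by linarith [h.1]) h.2

theorem TW_eq_pi_sub {t : ℝ} (h : |t - Real.pi| ≤ Real.pi / 2) : TW t = Real.pi - t := by
  rw [abs_le] at h
  rw [TW, ← Real.sin_pi_sub, Real.arcsin_sin (by linarith [h.2]) (by linarith [h.1])]

theorem exp_TW_of_nonneg {t : ℝ} (h : 0 ≤ Real.cos t) : exp (TW t * I) = exp (t * I) := by
  have h1 : Real.sin (TW t) = Real.sin t :=
    Real.sin_arcsin (Real.neg_one_le_sin t) (Real.sin_le_one t)
  have h2 : Real.cos (TW t) = Real.cos t := by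
    rw [TW, Real.cos_arcsin, ← Real.cos_sq', Real.sqrt_sq h]
  rw [exp_mul_I, exp_mul_I, ← ofReal_cos, ← ofReal_sin, ← ofReal_cos, ← ofReal_sin, h1, h2]

theorem exp_TW_of_nonpos {t : ℝ} (h : Real.cos t ≤ 0) : exp (TW t * I) = -exp (-(t * I)) := by
  have h1 : Real.sin (TW t) = Real.sin t :=
    Real.sin_arcsin (Real.neg_one_le_sin t) (Real.sin_le_one t)
  have h2 : Real.cos (TW t) = -Real.cos t := by
    rw [TW, Real.cos_arcsin, ← Real.cos_sq', ← neg_sq, Real.sqrt_sq (by linarith)]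
  rw [show -((t : ℂ) * I) = ((-t : ℝ) : ℂ) * I by push_cast; ring, exp_mul_I, exp_mul_I,
    ← ofReal_cos, ← ofReal_sin, ← ofReal_cos, ← ofReal_sin, h1, h2, Real.cos_neg, Real.sin_neg]
  push_cast
  ring

theorem re_polar (r t : ℝ) : ((r : ℂ) * exp (t * I)).re = r * Real.cos t := by
  rw [re_ofReal_mul, exp_ofReal_mul_I_re]

theorem norm_polar {r : ℝ} (hr : 0 ≤ r) (t : ℝ) : ‖(r : ℂ) * exp (t * I)‖ = r := by
  rw [norm_mul, norm_exp_ofReal_mul_I, mul_one, Complex.norm_real, Real.norm_of_nonneg hr]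

theorem exists_A2 : ∃ A : ℝ → ℝ, StrictMono A ∧ Continuous A ∧
    (∀ t, A (t + 2 * Real.pi) = A t + 4 * Real.pi) ∧ (∀ t, |t| ≤ Real.pi / 2 → A t = t) ∧
    ∀ r t : ℝ, 0 ≤ r → G2 (r * exp (t * I)) = r * exp (A t * I) := by
  refine ⟨fun t => 2 * t - TW t, ?_, ?_, ?_, ?_, ?_⟩
  · intro x y hxy
    have h := TW_sub_le y x
    rw [abs_of_pos (by linarith)] at h
    simp only
    linarith
  · exact (continuous_const.mul continuous_id).sub continuous_TW
  · intro t
    simp only
    rw [TW_add]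
    ring
  · intro t ht
    simp only
    rw [TW_eq_self ht]
    ring
  · intro r t hr
    rcases hr.eq_or_lt with h0 | h0
    · rw [← h0]
      simp [G2]
    have hexp : exp (((2 * t - TW t : ℝ) : ℂ) * I) = exp (t * I) ^ 2 / exp (TW t * I) := by
      rw [← exp_nat_mul, ← exp_sub]
      congr 1
      push_cast
      ring
    rcases le_or_gt 0 (Real.cos t) with hc | hc
    · have h1 : 0 ≤ ((r : ℂ) * exp (t * I)).re := by
        rw [re_polar]
        positivity
      rw [G2, if_pos h1]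
      show _ = (r : ℂ) * exp (((2 * t - TW t : ℝ) : ℂ) * I)
      rw [hexp, exp_TW_of_nonneg hc, sq, mul_div_assoc, div_self (exp_ne_zero _), mul_one]
    · have h1 : ¬ 0 ≤ ((r : ℂ) * exp (t * I)).re := by
        rw [re_polar, not_le]
        exact mul_neg_of_pos_of_neg h0 hc
      rw [G2, if_neg h1, norm_polar hr]
      show _ = (r : ℂ) * exp (((2 * t - TW t : ℝ) : ℂ) * I)
      have hr' : (r : ℂ) ≠ 0 := by exact_mod_cast h0.ne'
      have he : exp ((t : ℂ) * I) ≠ 0 := exp_ne_zero _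
      rw [hexp, exp_TW_of_nonpos hc.le, exp_neg]
      field_simp

theorem exists_A3 : ∃ A : ℝ → ℝ, StrictMono A ∧ Continuous A ∧
    (∀ t, A (t + 2 * Real.pi) = A t + 6 * Real.pi) ∧
    (∀ t, |t - Real.pi| ≤ Real.pi / 2 → A t = t) ∧
    ∀ r t : ℝ, 0 ≤ r → G3 (r * exp (t * I)) = r * exp (A t * I) := by
  refine ⟨fun t => 3 * t + 2 * TW t - 2 * Real.pi, ?_, ?_, ?_, ?_, ?_⟩
  · intro x y hxy
    have h := TW_sub_le x y
    rw [abs_of_neg (by linarith)] at h
    simp only
    linarith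
  · exact ((continuous_const.mul continuous_id).add (continuous_const.mul continuous_TW)).sub
      continuous_const
  · intro t
    simp only
    rw [TW_add]
    ring
  · intro t ht
    simp only
    rw [TW_eq_pi_sub ht]
    ring
  · intro r t hr
    rcases hr.eq_or_lt with h0 | h0
    · rw [← h0]
      simp [G3]
    have hexp : exp (((3 * t + 2 * TW t - 2 * Real.pi : ℝ) : ℂ) * I) =
        exp (t * I) ^ 3 * exp (TW t * I) ^ 2 := by
      rw [← exp_nat_mul, ← exp_nat_mul, ← exp_add, show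
        (((3 * t + 2 * TW t - 2 * Real.pi : ℝ) : ℂ) * I) =
          ((3 : ℕ) : ℂ) * (t * I) + ((2 : ℕ) : ℂ) * (TW t * I) - 2 * Real.pi * I by
          push_cast; ring, exp_sub, exp_two_pi_mul_I, div_one]
    have he : exp ((t : ℂ) * I) ≠ 0 := exp_ne_zero _
    rcases le_or_gt (Real.cos t) 0 with hc | hc
    · have h1 : ((r : ℂ) * exp (t * I)).re ≤ 0 := by
        rw [re_polar]
        exact mul_nonpos_of_nonneg_of_nonpos hr hc
      rw [G3, if_pos h1]
      show _ = (r : ℂ) * exp (((3 * t + 2 * TW t - 2 * Real.pi : ℝ) : ℂ) * I)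
      rw [hexp, exp_TW_of_nonpos hc, exp_neg]
      field_simp
    · have h1 : ¬ ((r : ℂ) * exp (t * I)).re ≤ 0 := by
        rw [re_polar, not_le]
        positivity
      rw [G3, if_neg h1, norm_polar hr]
      show _ = (r : ℂ) * exp (((3 * t + 2 * TW t - 2 * Real.pi : ℝ) : ℂ) * I)
      have hr' : (r : ℂ) ≠ 0 := by exact_mod_cast h0.ne'
      rw [hexp, exp_TW_of_nonneg hc.le]
      field_simp

end Pool.Agent.Helper31.DS
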