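import Pool.Agent.Helper31.DS.G1
import Pool.Agent.Helper31.DS.G2

/-!
# DS-G3: `G2` is a square and `G3` is a cube up to homeomorphisms of the plane (about 60-100 lines)

Proof.  Apply `exists_radial` to `B = A2 / 2` and `B = A3 / 3` (`exists_A2`, `exists_A3`).  Every `z`
is `r e^{it}` with `r = ‖z‖`, `t = arg z`.  `Q2 z ^ 2 = r² e^{i A2 t} = ‖z‖ G2 z`.
-/

namespace Pool.Agent.Helper31.DS

open Complex

/-- polar form -/
theorem polar_eq (z : ℂ) : ((‖z‖ : ℝ) : ℂ) * exp ((arg z : ℝ) * I) = z := norm_mul_exp_arg_mul_I z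

theorem radial_props (B : ℝ → ℝ) (Q : ℂ ≃ₜ ℂ)
    (hQ : ∀ r t : ℝ, 0 ≤ r → Q (r * exp (t * I)) = r * exp (B t * I)) :
    (∀ z, ‖Q z‖ = ‖z‖) ∧ (∀ (c : ℝ) (z : ℂ), 0 ≤ c → Q (c * z) = c * Q z) := by
  constructor
  · intro z
    conv_lhs => rw [← polar_eq z, hQ _ _ (norm_nonneg z)]
    exact norm_polar (norm_nonneg z) _
  · intro c z hc
    have h1 : (c : ℂ) * z = ((c * ‖z‖ : ℝ) : ℂ) * exp ((arg z : ℝ) * I) := by
      conv_lhs => rw [← polar_eq z]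
      push_cast
      ring
    have h2 : Q z = (‖z‖ : ℂ) * exp ((B (arg z) : ℝ) * I) := by
      conv_lhs => rw [← polar_eq z]
      exact hQ _ _ (norm_nonneg z)
    rw [h1, hQ _ _ (mul_nonneg hc (norm_nonneg z)), h2]
    push_cast
    ring

theorem exists_Q2 : ∃ Q : ℂ ≃ₜ ℂ, (∀ z, ‖Q z‖ = ‖z‖) ∧
    (∀ (c : ℝ) (z : ℂ), 0 ≤ c → Q (c * z) = c * Q z) ∧ ∀ z, Q z ^ 2 = ‖z‖ * G2 z := by
  obtain ⟨A, hA, hc, hp, -, hG⟩ := exists_A2
  obtain ⟨Q, hQ⟩ := exists_radial (fun t => A t / 2)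
    (fun x y hxy => by have := hA hxy; simp only; linarith) (hc.div_const 2)
    (fun t => by rw [hp]; ring)
  obtain ⟨h1, h2⟩ := radial_props _ Q hQ
  refine ⟨Q, h1, h2, ?_⟩
  intro z
  have h3 : Q z = (‖z‖ : ℂ) * exp (((A (arg z) / 2 : ℝ) : ℂ) * I) := by
    conv_lhs => rw [← polar_eq z]
    exact hQ _ _ (norm_nonneg z)
  have h4 : G2 z = (‖z‖ : ℂ) * exp ((A (arg z) : ℝ) * I) := by
    conv_lhs => rw [← polar_eq z]
    exact hG _ _ (norm_nonneg z)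
  have h5 : exp (((A (arg z) / 2 : ℝ) : ℂ) * I) ^ 2 = exp ((A (arg z) : ℝ) * I) := by
    rw [← exp_nat_mul]
    congr 1
    push_cast
    ring
  rw [h3, h4, mul_pow, h5]
  ring

theorem exists_Q3 : ∃ Q : ℂ ≃ₜ ℂ, (∀ z, ‖Q z‖ = ‖z‖) ∧
    (∀ (c : ℝ) (z : ℂ), 0 ≤ c → Q (c * z) = c * Q z) ∧ ∀ z, Q z ^ 3 = ‖z‖ ^ 2 * G3 z := by
  obtain ⟨A, hA, hc, hp, -, hG⟩ := exists_A3
  obtain ⟨Q, hQ⟩ := exists_radial (fun t => A t / 3)
    (fun x y hxy => by have := hA hxy; simp only; linarith) (hc.div_const 3)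
    (fun t => by rw [hp]; ring)
  obtain ⟨h1, h2⟩ := radial_props _ Q hQ
  refine ⟨Q, h1, h2, ?_⟩
  intro z
  have h3 : Q z = (‖z‖ : ℂ) * exp (((A (arg z) / 3 : ℝ) : ℂ) * I) := by
    conv_lhs => rw [← polar_eq z]
    exact hQ _ _ (norm_nonneg z)
  have h4 : G3 z = (‖z‖ : ℂ) * exp ((A (arg z) : ℝ) * I) := by
    conv_lhs => rw [← polar_eq z]
    exact hG _ _ (norm_nonneg z)
  have h5 : exp (((A (arg z) / 3 : ℝ) : ℂ) * I) ^ 3 = exp ((A (arg z) : ℝ) * I) := by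
    rw [← exp_nat_mul]
    congr 1
    push_cast
    ring
  rw [h3, h4, mul_pow, h5]
  ring

theorem norm_G2 (z : ℂ) : ‖G2 z‖ = ‖z‖ := by
  obtain ⟨A, -, -, -, -, hG⟩ := exists_A2
  conv_lhs => rw [← polar_eq z, hG _ _ (norm_nonneg z)]
  exact norm_polar (norm_nonneg z) _

theorem norm_G3 (z : ℂ) : ‖G3 z‖ = ‖z‖ := by
  obtain ⟨A, -, -, -, -, hG⟩ := exists_A3
  conv_lhs => rw [← polar_eq z, hG _ _ (norm_nonneg z)]
  exact norm_polar (norm_nonneg z) _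

theorem continuousAt_zero_of_norm {G : ℂ → ℂ} (h : ∀ z, ‖G z‖ = ‖z‖) : ContinuousAt G 0 := by
  have h0 : G 0 = 0 := norm_eq_zero.mp (by rw [h, norm_zero])
  rw [ContinuousAt, h0, tendsto_zero_iff_norm_tendsto_zero]
  simp only [h]
  have := (continuous_norm (E := ℂ)).tendsto 0
  rwa [norm_zero] at this

theorem continuous_G2 : Continuous G2 := by
  obtain ⟨Q, -, -, hQ⟩ := exists_Q2
  rw [continuous_iff_continuousAt]
  intro z
  rcases eq_or_ne z 0 with rfl | hz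
  · exact continuousAt_zero_of_norm norm_G2
  · have h1 : ContinuousAt (fun z => Q z ^ 2 / (‖z‖ : ℂ)) z := by
      refine ContinuousAt.div ?_ ?_ ?_
      · exact (Q.continuous.pow 2).continuousAt
      · exact (continuous_ofReal.comp continuous_norm).continuousAt
      · exact_mod_cast norm_ne_zero_iff.mpr hz
    refine h1.congr ?_
    filter_upwards [isOpen_ne.mem_nhds hz] with w hw
    have hw' : (‖w‖ : ℂ) ≠ 0 := by exact_mod_cast norm_ne_zero_iff.mpr hw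
    rw [hQ]
    field_simp

theorem continuous_G3 : Continuous G3 := by
  obtain ⟨Q, -, -, hQ⟩ := exists_Q3
  rw [continuous_iff_continuousAt]
  intro z
  rcases eq_or_ne z 0 with rfl | hz
  · exact continuousAt_zero_of_norm norm_G3
  · have h1 : ContinuousAt (fun z => Q z ^ 3 / (‖z‖ : ℂ) ^ 2) z := by
      refine ContinuousAt.div ?_ ?_ ?_
      · exact (Q.continuous.pow 3).continuousAt
      · exact ((continuous_ofReal.comp continuous_norm).pow 2).continuousAt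
      · exact pow_ne_zero 2 (by exact_mod_cast norm_ne_zero_iff.mpr hz)
    refine h1.congr ?_
    filter_upwards [isOpen_ne.mem_nhds hz] with w hw
    have hw' : (‖w‖ : ℂ) ≠ 0 := by exact_mod_cast norm_ne_zero_iff.mpr hw
    rw [hQ]
    field_simp

theorem smul_of_polar {G : ℂ → ℂ} {A : ℝ → ℝ}
    (hG : ∀ r t : ℝ, 0 ≤ r → G (r * exp (t * I)) = r * exp (A t * I)) (c : ℝ) (hc : 0 ≤ c)
    (z : ℂ) : G (c * z) = c * G z := by
  have h1 : (c : ℂ) * z = ((c * ‖z‖ : ℝ) : ℂ) * exp ((arg z : ℝ) * I) := by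
    conv_lhs => rw [← polar_eq z]
    push_cast
    ring
  have h2 : G z = (‖z‖ : ℂ) * exp ((A (arg z) : ℝ) * I) := by
    conv_lhs => rw [← polar_eq z]
    exact hG _ _ (norm_nonneg z)
  rw [h1, hG _ _ (mul_nonneg hc (norm_nonneg z)), h2]
  push_cast
  ring

theorem G2_smul (c : ℝ) (hc : 0 ≤ c) (z : ℂ) : G2 (c * z) = c * G2 z := by
  obtain ⟨A, -, -, -, -, hG⟩ := exists_A2
  exact smul_of_polar hG c hc z

theorem G3_smul (c : ℝ) (hc : 0 ≤ c) (z : ℂ) : G3 (c * z) = c * G3 z := by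
  obtain ⟨A, -, -, -, -, hG⟩ := exists_A3
  exact smul_of_polar hG c hc z

end Pool.Agent.Helper31.DS
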