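import Pool.Agent.Helper36.AS.Pair

/-!
# The sum decomposition

`P`, `Q` closed, `P ∪ Q = univ`, `Hc^(n+1)` of the whole space is zero.  Then every class of degree `n`
of `P ∩ Q` is the sum of the restrictions of a class of `P` and of a class of `Q`.
-/

namespace Pool.Agent.Helper31.DS

open Set Filter Topology Pool.Agent.Helper36.AS

variable {X R : Type*} [MetricSpace X] [CommRing R]

theorem split_sum {P Q : Set X} (hP : IsClosed P) (hQ : IsClosed Q) (hPQ : P ∪ Q = univ)
    (hgP : Good IsCompact P) {n : ℕ} (h0 : ∀ α : Hc R (univ : Set X) (n + 1), α = 0)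
    {c : List X → R} (hc : c ∈ cocycles R IsCompact (P ∩ Q) n) :
    ∃ a ∈ cocycles R IsCompact P n, ∃ b ∈ cocycles R IsCompact Q n,
      c - (a + b) ∈ coboundaries R IsCompact (P ∩ Q) n := by
  obtain ⟨h, hs, hhc, hd⟩ := exists_extension hQ hgP hc
  have h1 : d h ∈ cocycles R (Off IsCompact Q) P (n + 1) := d_mem_cocycles_off hs hd
  have h2 : P \ Q = univ \ Q := by
    ext x; constructor
    · exact fun hx => ⟨trivial, hx.2⟩
    · intro hx
      refine ⟨?_, hx.2⟩
      have : x ∈ P ∪ Q := hPQ ▸ mem_univ x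
      exact this.resolve_right hx.2
  have h3 : HasSupp IsCompact (univ \ Q) (n + 2) (d h) := h2 ▸ h1.1.compact_sdiff
  obtain ⟨V, hV1, hV2, hV3⟩ := exists_cut hQ h3
  -- the cocycle on the whole space
  have h4 : LZ (univ \ Q) (n + 3) (d (d h)) := by rw [d_d']; exact LZ.zero _ _
  have hm : cut V (d h) ∈ cocycles R IsCompact (univ : Set X) (n + 1) := by
    refine ⟨hV1.of_off, fun x _ => ?_⟩
    by_cases hx : x ∈ Q
    · exact (hV3 x ⟨trivial, hx⟩).d
    · have h5 := (hV2 x ⟨trivial, hx⟩).d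
      rw [d_sub', d_d', sub_zero] at h5
      exact h5
  have h6 := h0 (cls _ hm)
  rw [cls_eq_zero_iff] at h6
  obtain ⟨g, -, hg, hgm⟩ := h6
  have hgQ : ∀ x ∈ Q, LZat univ (n + 2) (d g) x := by
    intro x hx
    have h7 := (hV3 x ⟨trivial, hx⟩).sub (hgm x trivial)
    rwa [sub_sub_cancel] at h7
  have hrs : ∀ S : Set X, IsClosed S → HasSupp IsCompact S (n + 1) g := by
    intro S hS
    obtain ⟨K, hK, hKc, hKg⟩ := hg
    exact ⟨K ∩ S, inter_subset_right, hKc.inter_right hS, fun x hx hx' =>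
      (hKg x trivial fun h => hx' ⟨h, hx⟩).mono (subset_univ _)⟩
  refine ⟨h - g, ⟨hs.sub (hrs P hP), fun x hx => ?_⟩, g, ⟨hrs Q hQ, fun x hx => ?_⟩, ?_⟩
  · rw [d_sub']
    by_cases hxQ : x ∈ Q
    · exact (hd x ⟨hx, hxQ⟩).sub ((hgQ x hxQ).mono (subset_univ _))
    · have h8 := ((hgm x trivial).sub (hV2 x ⟨trivial, hxQ⟩)).mono (subset_univ P)
      rwa [sub_sub_sub_cancel_left] at h8
  · exact (hgQ x hx).mono (subset_univ _)
  · have h9 : c - (h - g + g) = -(h - c) := by abel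
    rw [h9]
    exact LZ.mem_coboundaries hhc.neg

/-- If the restriction of `h` to `P ∩ Q` is cohomologous to the restriction of a cocycle `C` of `P`
then `d h`, extended by zero, is a coboundary on the whole space. -/
theorem d_ext_coboundary {P Q : Set X} (hQ : IsClosed Q) (hPQ : P ∪ Q = univ)
    (hgP : Good IsCompact P) {n : ℕ} {h C m : List X → R} (hs : HasSupp IsCompact P (n + 1) h)
    (hd : ∀ x ∈ P ∩ Q, LZat P (n + 2) (d h) x) (hC : C ∈ cocycles R IsCompact P n)
    (hh : h - C ∈ coboundaries R IsCompact (P ∩ Q) n)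
    (hm1 : ∀ x ∈ P \ Q, LZat univ (n + 2) (m - d h) x)
    (hm2 : ∀ x ∈ Q, LZat univ (n + 2) m x) :
    m ∈ coboundaries R IsCompact (univ : Set X) (n + 1) := by
  obtain ⟨g, -, hg, hge⟩ := key_R hQ hgP (hs.sub hC.1) (fun x hx => by
    rw [d_sub']; exact (hd x hx).sub (hC.2 x hx.1)) hh
  set e : List X → R := h - C - d g with he
  have h1 : HasSupp (Off IsCompact Q) P (n + 1) e := ((hs.sub hC.1).sub hg.d).off hge
  have h2 : P \ Q = univ \ Q := by
    ext x; constructor
    · exact fun hx => ⟨trivial, hx.2⟩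
    · intro hx
      refine ⟨?_, hx.2⟩
      have : x ∈ P ∪ Q := hPQ ▸ mem_univ x
      exact this.resolve_right hx.2
  have h3 : HasSupp IsCompact (univ \ Q) (n + 1) e := h2 ▸ h1.compact_sdiff
  obtain ⟨V, hV1, hV2, hV3⟩ := exists_cut hQ h3
  refine ⟨cut V e, nofun, hV1.of_off, fun x _ => ?_⟩
  by_cases hx : x ∈ Q
  · exact (hm2 x hx).sub (hV3 x ⟨trivial, hx⟩).d
  · have hxP : x ∈ P \ Q := h2 ▸ ⟨trivial, hx⟩
    have h5 := (hV2 x ⟨trivial, hx⟩).d
    rw [d_sub'] at h5
    have h6 : LZat univ (n + 2) (d C) x := by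
      have h7 := (LZat_sdiff_iff (T := univ) hQ hx).1
        (h2 ▸ (hC.2 x hxP.1).mono diff_subset : LZat (univ \ Q) (n + 2) (d C) x)
      exact h7
    have h8 : d e = d h - d C := by rw [he, d_sub', d_sub', d_d', sub_zero]
    have h9 : m - d (cut V e) = (m - d h) + d C - (d (cut V e) - d e) := by rw [h8]; abel
    rw [h9]
    exact ((hm1 x hxP).add h6).sub h5

end Pool.Agent.Helper31.DS
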