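import Pool.Agent.Helper31.DS.O1

/-!
# Push forward of cochains with compact support along open embeddings; local classes
-/

namespace Pool.Agent.Helper31.DS

open Set Filter Topology Pool.Agent.Helper36.AS

section
variable {V E : Type*} [TopologicalSpace V] [TopologicalSpace E]

/-- `J` restricts to an open embedding of `TV` in `TE`. -/
structure OE (J : V → E) (TV : Set V) (TE : Set E) : Prop where
  cont : ContinuousOn J TV
  maps : MapsTo J TV TE
  inj : InjOn J TV
  opn : ∀ v ∈ TV, ∀ U ∈ 𝓝 v, ∃ W ∈ 𝓝 (J v), W ∩ TE ⊆ J '' (U ∩ TV)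

theorem OE.of_isOpenEmbedding {J : V → E} (hJ : IsOpenEmbedding J) {TV : Set V} {TE : Set E}
    (hT : J ⁻¹' TE = TV) : OE J TV TE where
  cont := hJ.continuous.continuousOn
  maps := fun v hv => by have : v ∈ J ⁻¹' TE := hT ▸ hv
                         exact this
  inj := hJ.injective.injOn
  opn := fun v _ U hU => ⟨J '' U, hJ.isOpenMap.image_mem_nhds hU, by
    rintro _ ⟨⟨u, hu, rfl⟩, hu'⟩
    exact ⟨u, ⟨hu, by rw [← hT]; exact hu'⟩, rfl⟩⟩

variable {R : Type*} [CommRing R]

/-- Along an open embedding being locally zero can be checked on the pull-back. -/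
theorem LZat_pull_iff {J : V → E} {TV : Set V} {TE : Set E} (hJ : OE J TV TE)
    {m : ℕ} {ψ : List E → R} {v : V} (hv : v ∈ TV) :
    LZat TV m (pull J ψ) v ↔ LZat TE m ψ (J v) := by
  constructor
  · rintro ⟨U, hU, h⟩
    obtain ⟨W, hW, hWU⟩ := hJ.opn v hv U hU
    refine ⟨W, hW, fun l hl hl' => ?_⟩
    have key : ∀ l : List E, (∀ y ∈ l, y ∈ W ∧ y ∈ TE) →
        ∃ k : List V, k.map J = l ∧ ∀ z ∈ k, z ∈ U ∧ z ∈ TV := by
      intro l
      induction l with
      | nil => exact fun _ => ⟨[], rfl, by simp⟩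
      | cons y l ih =>
        intro hy
        obtain ⟨k, hk, hk'⟩ := ih fun z hz => hy z (by simp [hz])
        obtain ⟨z, hz, hzy⟩ := hWU (hy y (by simp))
        refine ⟨z :: k, by simp [hk, hzy], fun z' hz' => ?_⟩
        rcases List.mem_cons.1 hz' with rfl | hz'
        · exact hz
        · exact hk' z' hz'
    obtain ⟨k, rfl, hk⟩ := key l hl'
    exact h k (by simpa using hl) hk
  · intro h
    exact h.pull (hJ.cont v hv) hJ.maps

end

section
variable {V E R : Type*} [MetricSpace V] [LocallyCompactSpace V] [MetricSpace E] [CommRing R]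

/-- Push forward of a cochain with compact support. -/
theorem exists_push {J : V → E} {TV : Set V} {TE : Set E} (hJ : OE J TV TE) (hTV : IsClosed TV)
    {m : ℕ} {φ : List V → R} {K : Set V} (hK : IsCompact K) (hKT : K ⊆ TV)
    (hφ : SuppIn TV (m + 1) φ K) :
    ∃ ψ : List E → R, (∀ v ∈ TV, LZat TV (m + 1) (pull J ψ - φ) v) ∧
      ∀ x ∈ TE, x ∉ J '' K → LZat TE (m + 1) ψ x := by
  classical
  obtain ⟨K', hK', hKK'⟩ := exists_compact_superset hK
  by_cases hV : TV.Nonempty
  swap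
  · exact ⟨0, fun v hv => absurd ⟨v, hv⟩ hV, fun x _ _ => LZat.zero _ _ _⟩
  obtain ⟨v₀, hv₀⟩ := hV
  have : Nonempty V := ⟨v₀⟩
  set W : Set E := J '' (interior K' ∩ TV) ∪ TEᶜ with hW
  set φ' : List E → R := pull (Function.invFunOn J TV) φ with hφ'
  have hinv : ∀ v ∈ TV, Function.invFunOn J TV (J v) = v := fun v hv =>
    hJ.inj (Function.invFunOn_mem ⟨v, hv, rfl⟩) hv (Function.invFunOn_eq ⟨v, hv, rfl⟩)
  have hpull : ∀ l : List V, (∀ v ∈ l, v ∈ TV) → pull J φ' l = φ l := by
    intro l hl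
    simp only [hφ', pull, List.map_map]
    congr 1
    conv_rhs => rw [← List.map_id l]
    exact List.map_congr_left fun v hv => hinv v (hl v hv)
  have h1 : ∀ v ∈ TV, v ∉ K → LZat TE (m + 1) φ' (J v) := fun v hv hvK => by
    rw [← LZat_pull_iff hJ hv]
    exact (hφ v hv hvK).congr fun l _ hl => hpull l hl
  have hWn : ∀ v ∈ TV, v ∈ interior K' → W ∈ 𝓝 (J v) := by
    intro v hv hv'
    obtain ⟨U, hU, hU'⟩ := hJ.opn v hv _ (isOpen_interior.mem_nhds hv')
    refine mem_of_superset hU fun y hy => ?_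
    by_cases hyT : y ∈ TE
    · exact Or.inl (hU' ⟨hy, hyT⟩)
    · exact Or.inr hyT
  have h2 : ∀ x ∈ TE, x ∉ J '' K → LZat TE (m + 1) (cut W φ') x := by
    intro x hx hxK
    by_cases hxr : x ∈ J '' TV
    · obtain ⟨v, hv, rfl⟩ := hxr
      exact (h1 v hv fun h => hxK ⟨v, h, rfl⟩).cut W
    · have h3 : IsClosed (J '' (K' ∩ TV)) :=
        ((hK'.inter_right hTV).image_of_continuousOn (hJ.cont.mono inter_subset_right)).isClosed
      have h4 : x ∉ J '' (K' ∩ TV) := fun ⟨v, hv, hv'⟩ => hxr ⟨v, hv.2, hv'⟩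
      refine ⟨(J '' (K' ∩ TV))ᶜ, h3.isOpen_compl.mem_nhds h4, fun l hl hl' =>
        cut_of_not fun h => ?_⟩
      cases l with
      | nil => simp at hl
      | cons y l =>
        rcases h y (by simp) with h5 | h5
        · obtain ⟨z, hz, hz'⟩ := h5
          exact (hl' y (by simp)).1 ⟨z, ⟨interior_subset hz.1, hz.2⟩, hz'⟩
        · exact h5 (hl' y (by simp)).2
  refine ⟨cut W φ', fun v hv => ?_, h2⟩
  by_cases hvK : v ∈ K
  · have h5 : LZat TE (m + 1) (cut W φ' - φ') (J v) :=
      LZat.cut_sub_self (hWn v hv (hKK' hvK)) _ _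
    have h6 := (LZat_pull_iff hJ hv).2 h5
    exact h6.congr fun l _ hl => by
      rw [pull_sub, Pi.sub_apply, Pi.sub_apply, hpull l hl]
  · have h5 := h2 (J v) (hJ.maps hv)
      (fun ⟨v', hv', h⟩ => hvK (hJ.inj (hKT hv') hv h ▸ hv'))
    exact ((LZat_pull_iff hJ hv).2 h5).sub (hφ v hv hvK)

/-- If the push forward of a cocycle is given, and the cocycle is a coboundary, then so is the push
forward. -/
theorem push_coboundary {J : V → E} {TV : Set V} {TE : Set E} (hJ : OE J TV TE)
    (hTV : IsClosed TV) {n : ℕ} {φ : List V → R}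
    {ψ : List E → R} (h1 : ∀ v ∈ TV, LZat TV (n + 2) (pull J ψ - φ) v)
    (h2 : ∃ K ⊆ TV, IsCompact K ∧ ∀ x ∈ TE, x ∉ J '' K → LZat TE (n + 2) ψ x)
    (hφ : φ ∈ coboundaries R IsCompact TV (n + 1)) :
    ψ ∈ coboundaries R IsCompact TE (n + 1) := by
  obtain ⟨g, -, ⟨L, hLT, hL, hgL⟩, hg⟩ := hφ
  obtain ⟨K, hKT, hK, hψK⟩ := h2
  obtain ⟨γ, hγ1, hγ2⟩ := exists_push hJ hTV (m := n) hL hLT hgL
  refine ⟨γ, nofun, ⟨J '' L, fun x ⟨v, hv, hv'⟩ => hv' ▸ hJ.maps (hLT hv),
    hL.image_of_continuousOn (hJ.cont.mono hLT), fun x hx hx' => hγ2 x hx hx'⟩,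
    fun x hxT => ?_⟩
  by_cases hx : x ∈ J '' TV
  · obtain ⟨v, hv, rfl⟩ := hx
    rw [← LZat_pull_iff hJ hv]
    have h3 := (hγ1 v hv).d
    rw [d_sub'] at h3
    have h4 : pull J (ψ - d γ) = (pull J ψ - φ) + (φ - d g) - (d (pull J γ) - d g) := by
      rw [pull_sub, d_pull']; abel
    rw [h4]
    exact ((h1 v hv).add (hg v hv)).sub h3
  · have h5 : x ∉ J '' K := fun ⟨v, hv, hv'⟩ => hx ⟨v, hKT hv, hv'⟩
    have h6 : x ∉ J '' L := fun ⟨v, hv, hv'⟩ => hx ⟨v, hLT hv, hv'⟩
    exact (hψK x hxT h5).sub (hγ2 x hxT h6).d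

/-- The push forward of a cocycle is a cocycle. -/
theorem push_cocycle {J : V → E} {TV : Set V} {TE : Set E} (hJ : OE J TV TE)
    {n : ℕ} {φ : List V → R} {ψ : List E → R}
    (h1 : ∀ v ∈ TV, LZat TV (n + 1) (pull J ψ - φ) v)
    (h2 : ∃ K ⊆ TV, IsCompact K ∧ ∀ x ∈ TE, x ∉ J '' K → LZat TE (n + 1) ψ x)
    (hφ : φ ∈ cocycles R IsCompact TV n) : ψ ∈ cocycles R IsCompact TE n := by
  obtain ⟨K, hKT, hK, hψK⟩ := h2
  refine ⟨⟨J '' K, fun x ⟨v, hv, hv'⟩ => hv' ▸ hJ.maps (hKT hv),
    hK.image_of_continuousOn (hJ.cont.mono hKT), fun x hx hx' => hψK x hx hx'⟩, fun x hxT => ?_⟩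
  by_cases hx : x ∈ J '' TV
  · obtain ⟨v, hv, rfl⟩ := hx
    rw [← LZat_pull_iff hJ hv, ← d_pull']
    have h3 := (h1 v hv).d
    rw [d_sub'] at h3
    have := h3.add (hφ.2 v hv)
    rwa [sub_add_cancel] at this
  · exact (hψK x hxT fun ⟨v, hv, hv'⟩ => hx ⟨v, hKT hv, hv'⟩).d

end

section
variable {V k : Type*} [NormedAddCommGroup V] [NormedSpace ℝ V] [LocallyCompactSpace V] [Field k]

/-- `st` is a generator of the top cohomology with compact supports, supported at the origin. -/
structure IsStd (n : ℕ) (st : List V → k) : Prop where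
  coc : st ∈ cocycles k IsCompact (univ : Set V) (n + 1)
  ncob : st ∉ coboundaries k IsCompact (univ : Set V) (n + 1)
  gen : ∀ c ∈ cocycles k IsCompact (univ : Set V) (n + 1), ∃ a : k,
    c - a • st ∈ coboundaries k IsCompact (univ : Set V) (n + 1)
  supp : ∀ x, x ≠ 0 → LZat univ (n + 2) st x

/-- Push forward along an open embedding of `V` in itself of a class which is not zero. -/
theorem push_ne {n : ℕ} {st : List V → k} (hst : IsStd n st) {i : V → V} (hi : IsOpenEmbedding i)
    {φ ψ : List V → k} (hφ : φ ∈ cocycles k IsCompact (univ : Set V) (n + 1))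
    (hφ' : φ ∉ coboundaries k IsCompact (univ : Set V) (n + 1))
    (h1 : ∀ v, LZat univ (n + 2) (pull i ψ - φ) v)
    (h2 : ∃ K, IsCompact K ∧ ∀ x, x ∉ i '' K → LZat univ (n + 2) ψ x) :
    ψ ∉ coboundaries k IsCompact (univ : Set V) (n + 1) := by
  intro hψ
  set b : V := i 0 with hb
  set stb : List V → k := pull (fun x => x - b) st with hstb
  have hc1 : SMap (IsCompact (X := V)) (IsCompact (X := V)) univ univ (fun x => x - b) := by
    refine ⟨(continuous_id.sub continuous_const).continuousOn, mapsTo_univ _ _, fun K _ hK => ?_⟩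
    rw [univ_inter]
    exact (Homeomorph.subRight b).isCompact_preimage.2 hK
  have hc2 : SMap (IsCompact (X := V)) (IsCompact (X := V)) univ univ (fun x => x + b) := by
    refine ⟨(continuous_id.add continuous_const).continuousOn, mapsTo_univ _ _, fun K _ hK => ?_⟩
    rw [univ_inter]
    exact (Homeomorph.addRight b).isCompact_preimage.2 hK
  have hstb1 : stb ∈ cocycles k IsCompact (univ : Set V) (n + 1) := hc1.pull_mem_cocycles hst.coc
  have hstb2 : stb ∉ coboundaries k IsCompact (univ : Set V) (n + 1) := by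
    intro h
    apply hst.ncob
    have h3 := hc2.pull_mem_coboundaries h
    have h4 : pull (fun x => x + b) stb = st := by
      funext l
      simp only [hstb, pull, List.map_map]
      congr 1
      conv_rhs => rw [← List.map_id l]
      exact List.map_congr_left fun v _ => by simp
    rwa [h4] at h3
  have hstb3 : ∀ x, x ≠ b → LZat univ (n + 2) stb x := fun x hx =>
    LZat.pull (B := univ) (φ := fun x => x - b) (hst.supp (x - b) (sub_ne_zero.2 hx))
      (continuous_id.sub continuous_const).continuousWithinAt (mapsTo_univ _ _)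
  -- the pull-back of `stb`
  have hi0 : ∀ v, v ≠ 0 → LZat univ (n + 2) (pull i stb) v := fun v hv =>
    LZat.pull (B := univ) (φ := i) (hstb3 (i v) fun h => hv (hi.injective (h.trans hb)))
      hi.continuous.continuousWithinAt (mapsTo_univ _ _)
  have hpc : pull i stb ∈ cocycles k IsCompact (univ : Set V) (n + 1) := by
    refine ⟨⟨{0}, subset_univ _, isCompact_singleton, fun x _ hx => hi0 x hx⟩, ?_⟩
    rw [d_pull']
    exact hstb1.2.pull hi.continuous.continuousOn (mapsTo_univ _ _)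
  obtain ⟨a, ha⟩ := hst.gen _ hφ
  obtain ⟨c, hc⟩ := hst.gen _ hpc
  have ha0 : a ≠ 0 := by
    rintro rfl
    rw [zero_smul, sub_zero] at ha
    exact hφ' ha
  -- `pull i stb - (c / a) φ` is a coboundary
  have h5 : pull i stb - (c / a) • φ ∈ coboundaries k IsCompact (univ : Set V) (n + 1) := by
    have h6 := Submodule.sub_mem _ hc (Submodule.smul_mem _ (c / a) ha)
    have h7 : pull i stb - c • st - (c / a) • (φ - a • st) = pull i stb - (c / a) • φ := by
      rw [smul_sub, smul_smul, div_mul_cancel₀ _ ha0]; abel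
    rwa [h7] at h6
  -- its push forward is `stb - (c / a) ψ`
  have h8 : stb - (c / a) • ψ ∈ coboundaries k IsCompact (univ : Set V) (n + 1) := by
    refine push_coboundary (OE.of_isOpenEmbedding hi preimage_univ) isClosed_univ
      (fun v _ => ?_) ?_ h5
    · have h9 : pull i (stb - (c / a) • ψ) - (pull i stb - (c / a) • φ) =
          (-(c / a)) • (pull i ψ - φ) := by
        funext l
        simp only [pull, Pi.sub_apply, Pi.smul_apply, smul_eq_mul]
        ring
      rw [h9]
      exact (h1 v).smul _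
    · obtain ⟨K, hK, hψK⟩ := h2
      refine ⟨K ∪ {0}, subset_univ _, hK.union isCompact_singleton, fun x _ hx => ?_⟩
      refine (hstb3 x fun h => hx ⟨0, Or.inr rfl, h.symm⟩).sub ((hψK x fun h => hx ?_).smul _)
      obtain ⟨v, hv, rfl⟩ := h
      exact ⟨v, Or.inl hv, rfl⟩
  apply hstb2
  have h9 := Submodule.add_mem _ h8 (Submodule.smul_mem _ (c / a) hψ)
  rwa [sub_add_cancel] at h9

end

end Pool.Agent.Helper31.DS
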