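import Pool.Agent.Helper31.DS.O3

/-!
# A local class of the intersection does not extend to one of the two sides: the theorem
-/

namespace Pool.Agent.Helper31.DS

open Set Filter Topology Pool.Agent.Helper36.AS

section
variable {V E k : Type*} [NormedAddCommGroup V] [NormedSpace ℝ V] [LocallyCompactSpace V]
  [MetricSpace E] [Field k]

/-- Shrinking a product chart. -/
theorem exists_shrink_chart {X : Set E} {J : ℝ × V → E} (hJ : IsOpenEmbedding J) {P Q : Set E}
    (hJP : ∀ q, J q ∈ P ↔ 0 ≤ q.1) (hJQ : ∀ q, J q ∈ Q ↔ q.1 ≤ 0) (hX : X = P ∩ Q) {j : V → E}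
    (hj : OE j univ X) (h0 : J (0, 0) ∈ range j) :
    ∃ J' : ℝ × V → E, IsOpenEmbedding J' ∧ (∀ q, J' q ∈ P ↔ 0 ≤ q.1) ∧
      (∀ q, J' q ∈ Q ↔ q.1 ≤ 0) ∧ ∀ y, J' (0, y) ∈ range j := by
  obtain ⟨v₀, hv₀⟩ := h0
  obtain ⟨W, hW, hWU⟩ := hj.opn v₀ trivial univ univ_mem
  rw [hv₀] at hW
  have h1 : (fun y : V => J (0, y)) ⁻¹' W ∈ 𝓝 (0 : V) :=
    (hJ.continuous.comp (continuous_const.prodMk continuous_id)).continuousAt hW
  obtain ⟨δ, hδ, hδW⟩ := Metric.mem_nhds_iff.1 h1
  obtain ⟨s, hs, hs'⟩ : ∃ s : V → V, IsOpenEmbedding s ∧ ∀ y, s y ∈ Metric.ball (0 : V) δ := by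
    have h2 : IsOpenEmbedding (fun y : V => ((Homeomorph.unitBall y : V))) :=
      Metric.isOpen_ball.isOpenEmbedding_subtypeVal.comp Homeomorph.unitBall.isOpenEmbedding
    refine ⟨fun y => δ • (Homeomorph.unitBall y : V), ?_, fun y => ?_⟩
    · exact (Homeomorph.smulOfNeZero δ hδ.ne').isOpenEmbedding.comp h2
    · rw [mem_ball_zero_iff, norm_smul, Real.norm_of_nonneg hδ.le]
      have := mem_ball_zero_iff.1 (Homeomorph.unitBall y).2
      nlinarith
  refine ⟨fun q => J (q.1, s q.2), hJ.comp (IsOpenEmbedding.id.prodMap hs),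
    fun q => hJP _, fun q => hJQ _, fun y => ?_⟩
  have h3 : J (0, s y) ∈ X := hX ▸ ⟨(hJP _).2 le_rfl, (hJQ _).2 le_rfl⟩
  obtain ⟨u, -, hu⟩ := hWU ⟨hδW (hs' y), h3⟩
  exact ⟨u, hu⟩

theorem local_no_ext_aux {P Q : Set E} (hP : IsClosed P) (hQ : IsClosed Q)
    (hPQ : P ∪ Q = univ) (hgP : Good IsCompact P) {n : ℕ} {st : List V → k} (hst : IsStd n st)
    {st' : List (ℝ × V) → k} (hst' : IsStd (n + 1) st')
    (hline : cup 1 (d (step0 (V := V))) (pull Prod.snd st) ∉
      coboundaries k IsCompact (univ : Set (ℝ × V)) (n + 2))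
    {ι : E → ℝ × V} (hι : IsOpenEmbedding ι) [LocallyCompactSpace E]
    {J : ℝ × V → E} (hJ : IsOpenEmbedding J)
    (hJP : ∀ q, J q ∈ P ↔ 0 ≤ q.1) (hJQ : ∀ q, J q ∈ Q ↔ q.1 ≤ 0) {j : V → E}
    (hj : OE j univ (P ∩ Q)) (hJj : ∀ y, J (0, y) ∈ range j)
    {f C : List E → k} {K : Set V} (hK : IsCompact K)
    (hfK : ∀ x ∈ P ∩ Q, x ∉ j '' K → LZat (P ∩ Q) (n + 2) f x)
    (hf1 : pull j f ∈ cocycles k IsCompact (univ : Set V) (n + 1))
    (hf2 : pull j f ∉ coboundaries k IsCompact (univ : Set V) (n + 1))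
    (hC : C ∈ cocycles k IsCompact P (n + 1))
    (hfC : f - C ∈ coboundaries k IsCompact (P ∩ Q) (n + 1)) : False := by
  choose i hi using hJj
  have hJ0 : OE (fun y => J (0, y)) univ (P ∩ Q) := by
    refine ⟨(hJ.continuous.comp (continuous_const.prodMk continuous_id)).continuousOn,
      fun y _ => ⟨(hJP _).2 le_rfl, (hJQ _).2 le_rfl⟩, fun y _ y' _ h => ?_, fun y _ U hU => ?_⟩
    · exact congrArg Prod.snd (hJ.injective h)
    · refine ⟨J '' (univ ×ˢ U), hJ.isOpenMap.image_mem_nhds (prod_mem_nhds univ_mem hU), ?_⟩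
      rintro _ ⟨⟨⟨r, u⟩, ⟨-, hu⟩, rfl⟩, hu1, hu2⟩
      have hr : r = 0 := le_antisymm ((hJQ _).1 hu2) ((hJP _).1 hu1)
      exact ⟨u, ⟨hu, trivial⟩, by rw [hr]⟩
  have hie : IsOpenEmbedding i := isOpenEmbedding_of_comp hj hJ0 hi
  -- the class of the chart `i`
  have hst0 : SuppIn univ (n + 2) st ({0} : Set V) := fun x _ hx => hst.supp x hx
  obtain ⟨ψ, hψ1, hψ2⟩ := exists_push (OE.of_isOpenEmbedding hie preimage_univ) isClosed_univ
    (m := n + 1) isCompact_singleton (subset_univ _) hst0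
  have hψc : ψ ∈ cocycles k IsCompact (univ : Set V) (n + 1) :=
    push_cocycle (OE.of_isOpenEmbedding hie preimage_univ) hψ1
      ⟨{0}, subset_univ _, isCompact_singleton, hψ2⟩ hst.coc
  have hψn : ψ ∉ coboundaries k IsCompact (univ : Set V) (n + 1) :=
    push_ne hst hie hst.coc hst.ncob (fun v => hψ1 v trivial)
      ⟨{0}, isCompact_singleton, fun x hx => hψ2 x trivial hx⟩
  obtain ⟨a, ha⟩ := hst.gen _ hψc
  obtain ⟨b, hb⟩ := hst.gen _ hf1
  have ha0 : a ≠ 0 := by
    rintro rfl; rw [zero_smul, sub_zero] at ha; exact hψn ha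
  have hb0 : b ≠ 0 := by
    rintro rfl; rw [zero_smul, sub_zero] at hb; exact hf2 hb
  set t : k := b / a with ht
  have ht0 : t ≠ 0 := div_ne_zero hb0 ha0
  have hφ : pull j f - t • ψ ∈ coboundaries k IsCompact (univ : Set V) (n + 1) := by
    have h6 := Submodule.sub_mem _ hb (Submodule.smul_mem _ t ha)
    have h7 : pull j f - b • st - t • (ψ - a • st) = pull j f - t • ψ := by
      rw [smul_sub, smul_smul, ht, div_mul_cancel₀ _ ha0]; abel
    rwa [h7] at h6
  -- the cut off cochain on the half space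
  set h0 : List (ℝ × V) → k := cup 0 (chi0 (V := V)) (pull Prod.snd st) with hh0
  set TV : Set (ℝ × V) := {q | 0 ≤ q.1} with hTV
  have hTVc : IsClosed TV := isClosed_le continuous_const continuous_fst
  have hJT : OE J TV P := OE.of_isOpenEmbedding hJ (by ext q; exact hJP q)
  set K0 : Set (ℝ × V) := Icc 0 1 ×ˢ {0} with hK0
  have hK0c : IsCompact K0 := isCompact_Icc.prod isCompact_singleton
  have hK0T : K0 ⊆ TV := fun q hq => hq.1.1
  have hh0K : SuppIn TV (n + 1 + 1) h0 K0 := by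
    intro q hq hqK
    by_cases h2 : q.2 = 0
    · have h3 : 1 < q.1 := by
        by_contra h; exact hqK ⟨⟨hq, not_lt.1 h⟩, h2⟩
      exact (h0_lz_right q (by linarith)).mono (subset_univ _)
    · exact (h0_snd hst q h2).mono (subset_univ _)
  obtain ⟨h, hh1, hh2⟩ := exists_push hJT hTVc hK0c hK0T hh0K
  have hhs : HasSupp IsCompact P (n + 1 + 1) h :=
    ⟨J '' K0, fun x ⟨v, hv, hv'⟩ => hv' ▸ hJT.maps (hK0T hv), hK0c.image hJ.continuous,
      fun x hx hx' => hh2 x hx hx'⟩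
  -- the coboundary of the cut off cochain on the whole space
  have hdK : SuppIn univ (n + 2 + 1) (d h0) ({(1 / 2, 0)} : Set (ℝ × V)) :=
    fun q _ hq => d_h0_lz hst q hq
  obtain ⟨m, hm1, hm2⟩ := exists_push (OE.of_isOpenEmbedding hJ preimage_univ) isClosed_univ
    isCompact_singleton (subset_univ _) hdK
  have hJhalf : ∀ x ∈ Q, x ∉ J '' ({(1 / 2, 0)} : Set (ℝ × V)) := by
    rintro x hx ⟨q, hq, rfl⟩
    rw [mem_singleton_iff] at hq
    have := (hJQ q).1 hx
    rw [hq] at this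
    norm_num at this
  have hd : ∀ x ∈ P ∩ Q, LZat P (n + 1 + 2) (d h) x := by
    rintro x ⟨hxP, hxQ⟩
    by_cases hx : x ∈ range J
    · obtain ⟨q, rfl⟩ := hx
      have hq : q ∈ TV := (hJP q).1 hxP
      rw [← LZat_pull_iff hJT hq, ← d_pull']
      have h3 := (hh1 q hq).d
      rw [d_sub'] at h3
      have hq' : q ≠ (1 / 2, 0) := fun h' => hJhalf _ hxQ ⟨q, h', rfl⟩
      have h4 := h3.add ((d_h0_lz hst q hq').mono (subset_univ TV))
      rwa [sub_add_cancel] at h4
    · exact (hh2 x hxP fun ⟨q, _, hq⟩ => hx ⟨q, hq⟩).d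
  -- `f - t h` is a coboundary on the intersection
  have hfh : f - t • h ∈ coboundaries k IsCompact (P ∩ Q) (n + 1) := by
    have hnot : ∀ v, v ∉ range i → ∀ q ∈ K0, J q ≠ j v := by
      intro v hv q hq hqv
      have h3 : J q ∈ Q := hqv ▸ (hj.maps trivial).2
      have h4 : q.1 = 0 := le_antisymm ((hJQ q).1 h3) hq.1.1
      have h5 : q = (0, q.2) := Prod.ext h4 rfl
      apply hv
      refine ⟨q.2, hj.inj trivial trivial ?_⟩
      rw [hi, ← hqv, ← h5]
    refine push_coboundary hj isClosed_univ (φ := pull j f - t • ψ) (fun v _ => ?_) ?_ hφ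
    · have h3 : pull j (f - t • h) - (pull j f - t • ψ) = t • (ψ - pull j h) := by
        funext l
        simp only [pull, Pi.sub_apply, Pi.smul_apply, smul_eq_mul]
        ring
      rw [h3]
      refine LZat.smul t ?_
      by_cases hv : v ∈ range i
      · obtain ⟨y, rfl⟩ := hv
        rw [← LZat_pull_iff (OE.of_isOpenEmbedding hie preimage_univ) trivial, pull_sub]
        have h4 : LZat univ (n + 2) (pull (fun y : V => ((0 : ℝ), y)) (pull J h - h0)) y :=
          LZat.pull (B := TV) (hh1 (0, y) (le_refl (0 : ℝ)))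
            (continuous_const.prodMk continuous_id).continuousWithinAt
            (fun y _ => (le_refl (0 : ℝ) : (0 : ℝ) ≤ 0))
        have h5 := (hψ1 y trivial).sub h4
        refine h5.congr fun l hl _ => ?_
        have h6 : pull (fun y : V => ((0 : ℝ), y)) (pull J h) l = pull i (pull j h) l := by
          simp only [pull, List.map_map]
          congr 1
          exact List.map_congr_left fun y _ => (hi y).symm
        have h7 : pull (fun y : V => ((0 : ℝ), y)) h0 l = st l := by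
          match l, hl with
          | a :: l, _ =>
            simp only [hh0, pull, List.map_cons, cup_zero_cons, chi0]
            rw [if_neg (by norm_num), one_mul]
            simp [List.map_map, Function.comp_def]
        simp only [pull_sub, Pi.sub_apply]
        rw [h6, h7]
        ring
      · refine (hψ2 v trivial fun ⟨y, _, hy⟩ => hv ⟨y, hy⟩).sub ?_
        have h4 : LZat P (n + 2) h (j v) := hh2 (j v) (hj.maps trivial).1
          fun ⟨q, hq, hq'⟩ => hnot v hv q hq hq'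
        exact LZat.pull (B := P ∩ Q) (φ := j) (h4.mono inter_subset_left) (hj.cont v trivial)
          hj.maps
    · refine ⟨K ∪ {i 0}, subset_univ _, hK.union isCompact_singleton, fun x hx hx' => ?_⟩
      have h3 : x ∉ j '' K := fun ⟨v, hv, hv'⟩ => hx' ⟨v, Or.inl hv, hv'⟩
      have h4 : x ∉ J '' K0 := by
        rintro ⟨q, hq, rfl⟩
        have h4 : q.1 = 0 := le_antisymm ((hJQ q).1 hx.2) hq.1.1
        have h5 : q = (0, 0) := Prod.ext h4 hq.2
        exact hx' ⟨i 0, Or.inr rfl, by rw [hi, h5]⟩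
      exact (hfK x hx h3).sub (((hh2 x hx.1 h4).mono inter_subset_left).smul t)
  have hhC : t • h - C ∈ coboundaries k IsCompact (P ∩ Q) (n + 1) := by
    have := Submodule.sub_mem _ hfC hfh
    rwa [sub_sub_sub_cancel_left] at this
  have hm : t • m ∈ coboundaries k IsCompact (univ : Set E) (n + 2) := by
    refine d_ext_coboundary hQ hPQ hgP (h := t • h) (C := C) (hhs.smul t)
      (fun x hx => by rw [d_smul']; exact (hd x hx).smul t) hC hhC (fun x hx => ?_)
      (fun x hx => (hm2 x trivial (hJhalf x hx)).smul t)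
    rw [d_smul', ← smul_sub]
    refine LZat.smul t ?_
    have hxo : Qᶜ ∈ 𝓝 x := hQ.isOpen_compl.mem_nhds hx.2
    have hPQc : ∀ y, y ∉ Q → y ∈ P := fun y hy => by
      have : y ∈ P ∪ Q := hPQ ▸ mem_univ y
      exact this.resolve_right hy
    by_cases hxr : x ∈ range J
    · obtain ⟨q, rfl⟩ := hxr
      rw [← LZat_pull_iff (OE.of_isOpenEmbedding hJ preimage_univ) trivial, pull_sub, ← d_pull']
      have hq0 : 0 < q.1 := by
        by_contra h'; exact hx.2 ((hJQ q).2 (not_lt.1 h'))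
      have h3 : LZat univ (n + 3) (d (pull J h) - d h0) q := by
        have h4 := (hh1 q hq0.le).d
        rw [d_sub'] at h4
        obtain ⟨U, hU, h5⟩ := h4
        refine ⟨U ∩ {p | 0 < p.1}, inter_mem hU
          ((isOpen_lt continuous_const continuous_fst).mem_nhds hq0), fun l hl hl' =>
          h5 l hl fun y hy => ⟨(hl' y hy).1.1, (le_of_lt (hl' y hy).1.2 : (0 : ℝ) ≤ y.1)⟩⟩
      have h4 := (hm1 q trivial).sub h3
      rwa [sub_sub_sub_cancel_right] at h4
    · refine (hm2 x trivial fun ⟨q, _, hq⟩ => hxr ⟨q, hq⟩).sub ?_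
      obtain ⟨U, hU, h5⟩ := (hh2 x hx.1 fun ⟨q, _, hq⟩ => hxr ⟨q, hq⟩).d
      exact ⟨U ∩ Qᶜ, inter_mem hU hxo, fun l hl hl' =>
        h5 l hl fun y hy => ⟨(hl' y hy).1.1, hPQc y (hl' y hy).1.2⟩⟩
  have hm' : m ∈ coboundaries k IsCompact (univ : Set E) (n + 2) := by
    have := Submodule.smul_mem _ t⁻¹ hm
    rwa [smul_smul, inv_mul_cancel₀ ht0, one_smul] at this
  -- push forward to `ℝ × V`
  have hmK : SuppIn univ (n + 2 + 1) m (J '' {(1 / 2, 0)}) := fun x hx hx' => hm2 x hx hx'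
  obtain ⟨ψ8, h81, h82⟩ := exists_push (OE.of_isOpenEmbedding hι preimage_univ) isClosed_univ
    (isCompact_singleton.image hJ.continuous) (subset_univ _) hmK
  have h8 : ψ8 ∈ coboundaries k IsCompact (univ : Set (ℝ × V)) (n + 2) :=
    push_coboundary (OE.of_isOpenEmbedding hι preimage_univ) isClosed_univ h81
      ⟨_, subset_univ _, isCompact_singleton.image hJ.continuous, h82⟩ hm'
  refine push_ne hst' (hι.comp hJ) (φ := d h0) ?_ (d_h0_ne hst hline) (fun v => ?_) ?_ h8
  · exact ⟨⟨{(1 / 2, 0)}, subset_univ _, isCompact_singleton, hdK⟩,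
      by rw [d_d']; exact LZ.zero _ _⟩
  · have h3 : LZat univ (n + 3) (pull J (pull ι ψ8 - m)) v :=
      LZat.pull (B := univ) (φ := J) (h81 (J v) trivial) hJ.continuous.continuousWithinAt
        (mapsTo_univ _ _)
    have h4 := h3.add (hm1 v trivial)
    refine h4.congr fun l _ _ => ?_
    simp only [pull, Pi.sub_apply, Pi.add_apply, List.map_map]
    ring
  · refine ⟨{(1 / 2, 0)}, isCompact_singleton, fun x hx => h82 x trivial ?_⟩
    rwa [image_comp] at hx

/-- A class of `P ∩ Q` which is the push forward of a nonzero class of a chart of `P ∩ Q` does not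
extend to `P`. -/
theorem local_no_ext {P Q : Set E} (hP : IsClosed P) (hQ : IsClosed Q)
    (hPQ : P ∪ Q = univ) (hgP : Good IsCompact P) {n : ℕ} {st : List V → k} (hst : IsStd n st)
    {st' : List (ℝ × V) → k} (hst' : IsStd (n + 1) st')
    (hline : cup 1 (d (step0 (V := V))) (pull Prod.snd st) ∉
      coboundaries k IsCompact (univ : Set (ℝ × V)) (n + 2))
    {ι : E → ℝ × V} (hι : IsOpenEmbedding ι) [LocallyCompactSpace E]
    (hloc : ∀ x ∈ P ∩ Q, ∃ J : ℝ × V → E, IsOpenEmbedding J ∧ J (0, 0) = x ∧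
      (∀ q, J q ∈ P ↔ 0 ≤ q.1) ∧ ∀ q, J q ∈ Q ↔ q.1 ≤ 0) {j : V → E}
    (hj : OE j univ (P ∩ Q))
    {f C : List E → k} {K : Set V} (hK : IsCompact K)
    (hfK : ∀ x ∈ P ∩ Q, x ∉ j '' K → LZat (P ∩ Q) (n + 2) f x)
    (hf1 : pull j f ∈ cocycles k IsCompact (univ : Set V) (n + 1))
    (hf2 : pull j f ∉ coboundaries k IsCompact (univ : Set V) (n + 1))
    (hC : C ∈ cocycles k IsCompact P (n + 1))
    (hfC : f - C ∈ coboundaries k IsCompact (P ∩ Q) (n + 1)) : False := by
  obtain ⟨J, hJ, hJ0, hJP, hJQ⟩ := hloc (j 0) (hj.maps trivial)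
  obtain ⟨J', hJ', hJP', hJQ', hJj⟩ := exists_shrink_chart hJ hJP hJQ rfl hj ⟨0, hJ0.symm⟩
  exact local_no_ext_aux hP hQ hPQ hgP hst hst' hline hι hJ' hJP' hJQ' hj hJj hK hfK hf1 hf2 hC hfC

end

end Pool.Agent.Helper31.DS
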