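import Pool.Agent.Helper31.DS.O4
import Pool.Agent.Helper77.DS.DDefs

/-!
# The abstract obstruction

`E = P ∪ Q`, `X = P ∩ Q`, `T` of order three.  A class `x₁` of degree two of `X` which generates the
kernel of `1 + T + T²` extends (up to `T`) to `P` or to `Q`; hence so does
`κ ∪ x₁ ∪ x₁ ∪ T x₁`, which is impossible if this is the class of a ball.
-/

namespace Pool.Agent.Helper31.DS

open Set Filter Topology Pool.Agent.Helper36.AS Pool.Agent.Helper77.DS

section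
variable {E : Type*} [MetricSpace E]

theorem pull_pull {X Y Z R : Type*} (φ : X → Y) (ψ : Y → Z) (f : List Z → R) :
    pull φ (pull ψ f) = pull (ψ ∘ φ) f := by
  funext l; simp [pull]

theorem smap_T {S : Set E} {T : E → E} (hT : Continuous T) (hT3 : ∀ x, T (T (T x)) = x)
    (hTS : ∀ x ∈ S, T x ∈ S) : SMap (IsCompact (X := E)) (IsCompact (X := E)) S S T := by
  refine ⟨hT.continuousOn, hTS, fun K hK hKc => ?_⟩
  have : S ∩ T ⁻¹' K = (T ∘ T) '' K := by
    ext x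
    constructor
    · rintro ⟨_, hx⟩; exact ⟨T x, hx, hT3 x⟩
    · rintro ⟨y, hy, rfl⟩
      refine ⟨hTS _ (hTS _ (hK hy)), ?_⟩
      change T (T (T y)) ∈ K
      rw [hT3]; exact hy
  rw [this]
  exact hKc.image (hT.comp hT)

/-- One half of the argument: `x₁` extends to `P` or to `Q`. -/
theorem extends_or {P Q : Set E} (hP : IsClosed P) (hQ : IsClosed Q) (hPQ : P ∪ Q = univ)
    (hgP : Good IsCompact P) {T : E → E} (hT : Continuous T) (hT3 : ∀ x, T (T (T x)) = x)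
    (hTP : ∀ x ∈ P, T x ∈ P) (hTQ : ∀ x ∈ Q, T x ∈ Q)
    (h0 : ∀ α : Hc (ZMod 2) (univ : Set E) 3, α = 0) {x₁ : List E → ZMod 2}
    (hx : x₁ ∈ cocycles (ZMod 2) IsCompact (P ∩ Q) 2)
    (he : e3 T x₁ ∈ coboundaries (ZMod 2) IsCompact (P ∩ Q) 2)
    (hcl : x₁ ∈ coboundaries (ZMod 2) IsCompact (P ∩ Q) 2 ∨
      ∀ c ∈ cocycles (ZMod 2) IsCompact (P ∩ Q) 2,
      e3 T c ∈ coboundaries (ZMod 2) IsCompact (P ∩ Q) 2 →
      c ∈ coboundaries (ZMod 2) IsCompact (P ∩ Q) 2 ∨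
      c - x₁ ∈ coboundaries (ZMod 2) IsCompact (P ∩ Q) 2 ∨
      c - pull T x₁ ∈ coboundaries (ZMod 2) IsCompact (P ∩ Q) 2 ∨
      c - (x₁ + pull T x₁) ∈ coboundaries (ZMod 2) IsCompact (P ∩ Q) 2) :
    (∃ A ∈ cocycles (ZMod 2) IsCompact P 2,
      x₁ - A ∈ coboundaries (ZMod 2) IsCompact (P ∩ Q) 2) ∨
    ∃ A ∈ cocycles (ZMod 2) IsCompact Q 2,
      x₁ - A ∈ coboundaries (ZMod 2) IsCompact (P ∩ Q) 2 := by
  rcases hcl with hcl | hcl
  · left
    exact ⟨0, zero_mem _, by rwa [sub_zero]⟩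
  obtain ⟨a, ha, b, hb, hab⟩ := split_sum hP hQ hPQ hgP h0 hx
  have hTX : ∀ x ∈ P ∩ Q, T x ∈ P ∩ Q := fun x hx => ⟨hTP x hx.1, hTQ x hx.2⟩
  have sX := smap_T hT hT3 hTX
  have sP := smap_T hT hT3 hTP
  have sQ := smap_T hT hT3 hTQ
  have hT3' : ∀ f : List E → ZMod 2, pull T (pull T (pull T f)) = f := fun f => by
    funext l
    simp only [pull, List.map_map]
    congr 1
    conv_rhs => rw [← List.map_id l]
    exact List.map_congr_left fun v _ => hT3 v
  have h2 : ∀ f : List E → ZMod 2, f + f = 0 := fun f => by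
    funext l; exact CharTwo.add_self_eq_zero _
  have h2' : ∀ f g : List E → ZMod 2, f - g = f + g := fun f g => by
    funext l; exact CharTwo.sub_eq_add _ _
  have hpa : ∀ f g : List E → ZMod 2, pull T (f + g) = pull T f + pull T g := fun _ _ => rfl
  set B := coboundaries (ZMod 2) IsCompact (P ∩ Q) 2 with hB
  have hTB : ∀ f ∈ B, pull T f ∈ B := fun f hf => sX.pull_mem_coboundaries hf
  -- restriction
  have hres : ∀ {S F : Set E} {f : List E → ZMod 2}, IsClosed F →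
      f ∈ cocycles (ZMod 2) IsCompact S 2 → f ∈ cocycles (ZMod 2) IsCompact (S ∩ F) 2 :=
    fun hF hf => restr_mem_cocycles hF hf.1 fun x hx => hf.2 x hx.1
  have haX : a ∈ cocycles (ZMod 2) IsCompact (P ∩ Q) 2 := hres hQ ha
  have hbX : b ∈ cocycles (ZMod 2) IsCompact (P ∩ Q) 2 := by
    have := hres hP hb
    rwa [inter_comm] at this
  -- the projector
  set p : (List E → ZMod 2) → List E → ZMod 2 := fun f => pull T f + pull T (pull T f) with hp
  have hep : ∀ f, e3 T (p f) = 0 := by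
    intro f
    simp only [e3, hp, hpa, hT3']
    have e1 : pull T f + pull T (pull T f) + (pull T (pull T f) + f) + (f + pull T f) =
        (pull T f + pull T f) + (pull T (pull T f) + pull T (pull T f)) + (f + f) := by abel
    rw [e1]; simp only [h2, add_zero]
  have hpB : ∀ f ∈ B, p f ∈ B := fun f hf => add_mem (hTB _ hf) (hTB _ (hTB _ hf))
  have hpx : x₁ - (p a + p b) ∈ B := by
    have e1 : x₁ - (p a + p b) = e3 T x₁ - p (x₁ - (a + b)) := by
      funext l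
      have h20 : (2 : ZMod 2) = 0 := rfl
      simp only [e3, hp, pull, Pi.add_apply, Pi.sub_apply]
      linear_combination (-(a (l.map T) + a ((l.map T).map T) + b (l.map T) +
        b ((l.map T).map T))) * h20
    rw [e1]
    exact sub_mem he (hpB _ hab)
  have hpaX : p a ∈ cocycles (ZMod 2) IsCompact (P ∩ Q) 2 :=
    add_mem (sX.pull_mem_cocycles haX) (sX.pull_mem_cocycles (sX.pull_mem_cocycles haX))
  have hpaP : p a ∈ cocycles (ZMod 2) IsCompact P 2 :=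
    add_mem (sP.pull_mem_cocycles ha) (sP.pull_mem_cocycles (sP.pull_mem_cocycles ha))
  have hpbQ : p b ∈ cocycles (ZMod 2) IsCompact Q 2 :=
    add_mem (sQ.pull_mem_cocycles hb) (sQ.pull_mem_cocycles (sQ.pull_mem_cocycles hb))
  rcases hcl (p a) hpaX (by rw [hep]; exact zero_mem _) with h | h | h | h
  · right
    refine ⟨p b, hpbQ, ?_⟩
    have := add_mem hpx h
    have e1 : x₁ - (p a + p b) + p a = x₁ - p b := by abel
    rwa [e1] at this
  · left
    refine ⟨p a, hpaP, ?_⟩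
    have := neg_mem h
    rwa [neg_sub] at this
  · left
    refine ⟨pull T (pull T (p a)), sP.pull_mem_cocycles (sP.pull_mem_cocycles hpaP), ?_⟩
    have h5 := hTB _ (hTB _ h)
    rw [pull_sub, pull_sub, hT3'] at h5
    have := neg_mem h5
    rwa [neg_sub] at this
  · left
    refine ⟨pull T (p a), sP.pull_mem_cocycles hpaP, ?_⟩
    have h5 := hTB _ h
    rw [pull_sub, hpa] at h5
    have e1 : x₁ - pull T (p a) =
        e3 T x₁ + (pull T (p a) - (pull T x₁ + pull T (pull T x₁))) := by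
      simp only [h2', e3]
      have e2 : x₁ + pull T x₁ + pull T (pull T x₁) +
          (pull T (p a) + (pull T x₁ + pull T (pull T x₁))) =
          x₁ + pull T (p a) + (pull T x₁ + pull T x₁) +
          (pull T (pull T x₁) + pull T (pull T x₁)) := by abel
      rw [e2, h2, h2]; simp
    rw [e1]
    exact add_mem he h5

/-- The fourfold product. -/
def prod4 (κ : List E → ZMod 2) (T : E → E) (x : List E → ZMod 2) : List E → ZMod 2 :=
  cup 1 κ (cup 2 x (cup 2 x (pull T x)))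

theorem prod4_cocycle {S : Set E} {κ : List E → ZMod 2}
    (hκ : κ ∈ cocycles (ZMod 2) AllSupp S 1) {T : E → E} (hT : Continuous T)
    (hT3 : ∀ x, T (T (T x)) = x) (hTS : ∀ x ∈ S, T x ∈ S) {x : List E → ZMod 2}
    (hx : x ∈ cocycles (ZMod 2) IsCompact S 2) :
    prod4 κ T x ∈ cocycles (ZMod 2) IsCompact S 7 := by
  have h1 := (smap_T hT hT3 hTS).pull_mem_cocycles hx
  have h2 := cup_mem_cocycles (cupFam_left IsCompact IsCompact S) hx h1
  have h3 := cup_mem_cocycles (cupFam_left IsCompact IsCompact S) hx h2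
  exact cup_mem_cocycles (cupFam_right AllSupp IsCompact S) hκ h3

theorem prod4_sub {S : Set E} {κ : List E → ZMod 2}
    (hκ : κ ∈ cocycles (ZMod 2) AllSupp S 1) {T : E → E} (hT : Continuous T)
    (hT3 : ∀ x, T (T (T x)) = x) (hTS : ∀ x ∈ S, T x ∈ S) {x y : List E → ZMod 2}
    (hx : x ∈ cocycles (ZMod 2) IsCompact S 2) (hy : y ∈ cocycles (ZMod 2) IsCompact S 2)
    (hxy : x - y ∈ coboundaries (ZMod 2) IsCompact S 2) :
    prod4 κ T x - prod4 κ T y ∈ coboundaries (ZMod 2) IsCompact S 7 := by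
  have sT := smap_T hT hT3 hTS
  have cl := cupFam_left (X := E) IsCompact IsCompact S
  have h1x := sT.pull_mem_cocycles hx
  have h1y := sT.pull_mem_cocycles hy
  have h1 : pull T x - pull T y ∈ coboundaries (ZMod 2) IsCompact S 2 :=
    sT.pull_mem_coboundaries hxy
  have h2x := cup_mem_cocycles cl hx h1x
  have h2 : cup 2 x (pull T x) - cup 2 y (pull T y) ∈ coboundaries (ZMod 2) IsCompact S 4 := by
    have := add_mem (cup_coboundary_right cl hx h1) (cup_coboundary_left cl hxy h1y)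
    rw [cup_sub_right, cup_sub_left, sub_add_sub_cancel] at this
    exact this
  have h2y := cup_mem_cocycles cl hy h1y
  have h3 : cup 2 x (cup 2 x (pull T x)) - cup 2 y (cup 2 y (pull T y)) ∈
      coboundaries (ZMod 2) IsCompact S 6 := by
    have := add_mem (cup_coboundary_right cl hx h2) (cup_coboundary_left cl hxy h2y)
    rw [cup_sub_right, cup_sub_left, sub_add_sub_cancel] at this
    exact this
  have := cup_coboundary_right (cupFam_right AllSupp IsCompact S) hκ h3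
  rw [cup_sub_right] at this
  exact this

end

/-- **The abstract obstruction.** -/
theorem obstruction {E : Type*} [MetricSpace E] [LocallyCompactSpace E] {P Q : Set E}
    (hP : IsClosed P) (hQ : IsClosed Q) (hPQ : P ∪ Q = univ)
    (hgP : Good IsCompact P) (hgQ : Good IsCompact Q)
    {T : E → E} (hT : Continuous T) (hT3 : ∀ x, T (T (T x)) = x)
    (hTP : ∀ x ∈ P, T x ∈ P) (hTQ : ∀ x ∈ Q, T x ∈ Q)
    (h0 : ∀ α : Hc (ZMod 2) (univ : Set E) 3, α = 0)
    {st : List (Fin 7 → ℝ) → ZMod 2} (hst : IsStd 6 st)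
    {st' : List (ℝ × (Fin 7 → ℝ)) → ZMod 2} (hst' : IsStd 7 st')
    (hline : cup 1 (d (step0 (V := Fin 7 → ℝ))) (pull Prod.snd st) ∉
      coboundaries (ZMod 2) IsCompact (univ : Set (ℝ × (Fin 7 → ℝ))) 8)
    {ι : E → ℝ × (Fin 7 → ℝ)} (hι : IsOpenEmbedding ι)
    (hloc : ∀ j : (Fin 7 → ℝ) → E, OE j univ (P ∩ Q) → ∃ J : ℝ × (Fin 7 → ℝ) → E,
      IsOpenEmbedding J ∧ (∀ q, J q ∈ P ↔ 0 ≤ q.1) ∧ (∀ q, J q ∈ Q ↔ q.1 ≤ 0) ∧
      ∀ y, J (0, y) ∈ range j)
    {x₁ : List E → ZMod 2} (hx : x₁ ∈ cocycles (ZMod 2) IsCompact (P ∩ Q) 2)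
    (he : e3 T x₁ ∈ coboundaries (ZMod 2) IsCompact (P ∩ Q) 2)
    (hcl : x₁ ∈ coboundaries (ZMod 2) IsCompact (P ∩ Q) 2 ∨
      ∀ c ∈ cocycles (ZMod 2) IsCompact (P ∩ Q) 2,
      e3 T c ∈ coboundaries (ZMod 2) IsCompact (P ∩ Q) 2 →
      c ∈ coboundaries (ZMod 2) IsCompact (P ∩ Q) 2 ∨
      c - x₁ ∈ coboundaries (ZMod 2) IsCompact (P ∩ Q) 2 ∨
      c - pull T x₁ ∈ coboundaries (ZMod 2) IsCompact (P ∩ Q) 2 ∨
      c - (x₁ + pull T x₁) ∈ coboundaries (ZMod 2) IsCompact (P ∩ Q) 2)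
    {κ : List E → ZMod 2} (hκ : κ ∈ cocycles (ZMod 2) AllSupp (univ : Set E) 1)
    {f : List E → ZMod 2} (hf : IsBall (P ∩ Q) 7 f)
    (hfx : prod4 κ T x₁ - f ∈ coboundaries (ZMod 2) IsCompact (P ∩ Q) 7) : False := by
  obtain ⟨hfc, W, j, ψ, hW, hjψ, ⟨K, hKX, hK, hfK⟩, hfne⟩ := hf
  have hj : OE j univ (P ∩ Q) := by
    refine ⟨hjψ.c₁, fun v _ => (hjψ.m₁ trivial).1, fun v _ v' _ h => ?_, fun v _ U hU => ?_⟩
    · rw [← hjψ.l v trivial, ← hjψ.l v' trivial, h]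
    · have h1 := hjψ.c₂ (j v) (hjψ.m₁ trivial)
      have h2 : U ∈ 𝓝 (ψ (j v)) := by rwa [hjψ.l v trivial]
      obtain ⟨W', hW', hWU⟩ := mem_nhdsWithin_iff_exists_mem_nhds_inter.1 (h1 h2)
      refine ⟨W' ∩ W, inter_mem hW' (hW.mem_nhds (hjψ.m₁ trivial).2), fun x hx => ?_⟩
      have hx' : x ∈ P ∩ Q ∩ W := ⟨hx.2, hx.1.2⟩
      exact ⟨ψ x, ⟨hWU ⟨hx.1.1, hx'⟩, trivial⟩, hjψ.r x hx'⟩
  set K' : Set (Fin 7 → ℝ) := ψ '' K with hK'
  have hK'c : IsCompact K' := hK.image_of_continuousOn (hjψ.c₂.mono hKX)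
  have hjK' : j '' K' = K := by
    ext x
    constructor
    · rintro ⟨_, ⟨y, hy, rfl⟩, rfl⟩; rwa [hjψ.r y (hKX hy)]
    · exact fun hx => ⟨ψ x, ⟨x, hx, rfl⟩, hjψ.r x (hKX hx)⟩
  have hfK' : ∀ x ∈ P ∩ Q, x ∉ j '' K' → LZat (P ∩ Q) 8 f x := fun x hx hx' =>
    hfK x hx (hjK' ▸ hx')
  have hf1 : pull j f ∈ cocycles (ZMod 2) IsCompact (univ : Set (Fin 7 → ℝ)) 7 := by
    refine ⟨⟨K', subset_univ _, hK'c, fun v _ hv => ?_⟩, ?_⟩
    · refine LZat.pull (B := P ∩ Q) (φ := j) (hfK' (j v) (hj.maps trivial) ?_) (hj.cont v trivial)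
        hj.maps
      rintro ⟨v', hv', h⟩
      exact hv (hj.inj trivial trivial h ▸ hv')
    · rw [d_pull']
      exact hfc.2.pull hj.cont hj.maps
  have hκS : ∀ S : Set E, κ ∈ cocycles (ZMod 2) AllSupp S 1 := fun S =>
    ⟨hasSupp_all _ _ _, hκ.2.mono (subset_univ _)⟩
  have hTX : ∀ x ∈ P ∩ Q, T x ∈ P ∩ Q := fun x hx => ⟨hTP x hx.1, hTQ x hx.2⟩
  rcases extends_or hP hQ hPQ hgP hT hT3 hTP hTQ h0 hx he hcl with ⟨A, hA, hxA⟩ | ⟨A, hA, hxA⟩
  · have hAX : A ∈ cocycles (ZMod 2) IsCompact (P ∩ Q) 2 :=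
      restr_mem_cocycles hQ hA.1 fun x hx => hA.2 x hx.1
    have h1 := prod4_sub (hκS (P ∩ Q)) hT hT3 hTX hx hAX hxA
    have h2 : f - prod4 κ T A ∈ coboundaries (ZMod 2) IsCompact (P ∩ Q) 7 := by
      have := sub_mem h1 hfx
      rwa [sub_sub_sub_cancel_left] at this
    obtain ⟨J, hJ, hJP, hJQ, hJj⟩ := hloc j hj
    exact local_no_ext_aux hP hQ hPQ hgP hst hst' hline hι hJ hJP hJQ hj hJj hK'c hfK' hf1 hfne
      (prod4_cocycle (hκS P) hT hT3 hTP hA) h2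
  · have hAX : A ∈ cocycles (ZMod 2) IsCompact (P ∩ Q) 2 := by
      have : A ∈ cocycles (ZMod 2) IsCompact (Q ∩ P) 2 :=
        restr_mem_cocycles hP hA.1 fun x hx => hA.2 x hx.1
      rwa [inter_comm] at this
    have h1 := prod4_sub (hκS (P ∩ Q)) hT hT3 hTX hx hAX hxA
    have h2 : f - prod4 κ T A ∈ coboundaries (ZMod 2) IsCompact (P ∩ Q) 7 := by
      have := sub_mem h1 hfx
      rwa [sub_sub_sub_cancel_left] at this
    obtain ⟨J, hJ, hJP, hJQ, hJj⟩ := hloc j hj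
    rw [inter_comm] at hj hfK' h2
    have hneg : IsOpenEmbedding fun q : ℝ × (Fin 7 → ℝ) => ((-q.1, q.2) : ℝ × (Fin 7 → ℝ)) :=
      ((Homeomorph.neg ℝ).prodCongr (Homeomorph.refl (Fin 7 → ℝ))).isOpenEmbedding
    refine local_no_ext_aux hQ hP (by rwa [union_comm]) hgQ hst hst' hline hι
      (J := fun q => J (-q.1, q.2)) (hJ.comp hneg) (fun q => ?_) (fun q => ?_) hj (fun y => ?_)
      hK'c hfK' hf1 hfne (prod4_cocycle (hκS Q) hT hT3 hTQ hA) h2
    · rw [hJQ]; simp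
    · rw [hJP]; simp
    · simpa using hJj y

end Pool.Agent.Helper31.DS
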