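import Pool.Agent.Helper31.DS.Defs

/-!
# DS-S1: `Sph 5 × ℂ` is an open subset of `Sph 7` (about 80-130 lines)

`J (y, w) = (y, w) / √(1 + |w|²)`; the inverse on `{z | prY z ≠ 0}` is
`z ↦ (prY z / ‖prY z‖, prC z / ‖prY z‖)` (`‖prY z‖² + ‖prC z‖² = 1`).
-/

namespace Pool.Agent.Helper31.DS

open Complex Set Topology Pool.Agent.Helper82.DK2

theorem continuous_prY : Continuous prY := by
  unfold prY
  fun_prop

theorem continuous_prC : Continuous prC := by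
  have h : prC = fun z : EuclideanSpace ℝ (Fin 8) => ((z 6 : ℝ) : ℂ) + ((z 7 : ℝ) : ℂ) * I := by
    funext z
    unfold prC
    exact Complex.mk_eq_add_mul_I _ _
  rw [h]
  fun_prop

theorem continuous_jn : Continuous fun p : EuclideanSpace ℝ (Fin 6) × ℂ => jn p.1 p.2 := by
  unfold jn
  refine (PiLp.continuous_toLp 2 _).comp (continuous_pi fun i => ?_)
  fin_cases i <;> simp <;> fun_prop

theorem prY_jn (y : EuclideanSpace ℝ (Fin 6)) (w : ℂ) : prY (jn y w) = y := by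
  ext i
  fin_cases i <;> rfl

theorem prC_jn (y : EuclideanSpace ℝ (Fin 6)) (w : ℂ) : prC (jn y w) = w := by
  apply Complex.ext <;> rfl

theorem jn_pr (z : EuclideanSpace ℝ (Fin 8)) : jn (prY z) (prC z) = z := by
  ext i
  fin_cases i <;> rfl

theorem jn_smul (c : ℝ) (y : EuclideanSpace ℝ (Fin 6)) (w : ℂ) :
    c • jn y w = jn (c • y) ((c : ℂ) * w) := by
  ext i
  fin_cases i <;> simp [jn]

theorem prY_smul (c : ℝ) (z : EuclideanSpace ℝ (Fin 8)) : prY (c • z) = c • prY z := by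
  rw [← jn_pr z, jn_smul, prY_jn, prY_jn]

theorem prC_smul (c : ℝ) (z : EuclideanSpace ℝ (Fin 8)) : prC (c • z) = (c : ℂ) * prC z := by
  rw [← jn_pr z, jn_smul, prC_jn, prC_jn]

theorem prY_J (p : Sph 5 × ℂ) : prY (J p).1 = (Real.sqrt (1 + ‖p.2‖ ^ 2))⁻¹ • p.1.1 := by
  show prY ((Real.sqrt (1 + ‖p.2‖ ^ 2))⁻¹ • jn p.1 p.2) = _
  rw [prY_smul, prY_jn]

theorem prC_J (p : Sph 5 × ℂ) :
    prC (J p).1 = ((Real.sqrt (1 + ‖p.2‖ ^ 2))⁻¹ : ℝ) * p.2 := by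
  show prC ((Real.sqrt (1 + ‖p.2‖ ^ 2))⁻¹ • jn p.1 p.2) = _
  rw [prC_smul, prC_jn]

theorem norm_prY_sq (z : Sph 7) : ‖prY z.1‖ ^ 2 + ‖prC z.1‖ ^ 2 = 1 := by
  rw [← norm_jn_sq, jn_pr]
  have h1 : ‖(z : EuclideanSpace ℝ (Fin 8))‖ = 1 := mem_sphere_zero_iff_norm.1 z.2
  rw [h1]
  norm_num

private theorem sq_pos (w : ℂ) : 0 < Real.sqrt (1 + ‖w‖ ^ 2) := Real.sqrt_pos.2 (by positivity)

private theorem norm_prY_J (p : Sph 5 × ℂ) :
    ‖prY (J p).1‖ = (Real.sqrt (1 + ‖p.2‖ ^ 2))⁻¹ := by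
  have h1 : ‖(p.1 : EuclideanSpace ℝ (Fin 6))‖ = 1 := mem_sphere_zero_iff_norm.1 p.1.2
  rw [prY_J, norm_smul, h1, mul_one, Real.norm_of_nonneg (inv_nonneg.2 (sq_pos p.2).le)]

private theorem prY_J_ne (p : Sph 5 × ℂ) : prY (J p).1 ≠ 0 := by
  rw [← norm_pos_iff, norm_prY_J]
  exact inv_pos.2 (sq_pos p.2)

/-- the inverse of `J` -/
private noncomputable def Ji (z : {z : Sph 7 // prY z.1 ≠ 0}) : Sph 5 × ℂ :=
  (⟨‖prY z.1.1‖⁻¹ • prY z.1.1, by
    rw [mem_sphere_zero_iff_norm, norm_smul, norm_inv, norm_norm,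
      inv_mul_cancel₀ (norm_ne_zero_iff.2 z.2)]⟩, ((‖prY z.1.1‖⁻¹ : ℝ) : ℂ) * prC z.1.1)

private theorem continuous_J : Continuous J := by
  refine Continuous.subtype_mk ?_ _
  have h1 : Continuous fun p : Sph 5 × ℂ => jn p.1 p.2 :=
    continuous_jn.comp ((continuous_subtype_val.comp continuous_fst).prodMk continuous_snd)
  have h2 : Continuous fun p : Sph 5 × ℂ => (Real.sqrt (1 + ‖p.2‖ ^ 2))⁻¹ := by
    refine Continuous.inv₀ (by fun_prop) fun p => (sq_pos p.2).ne'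
  exact h2.smul h1

private theorem continuous_Ji : Continuous Ji := by
  have h0 : Continuous fun z : {z : Sph 7 // prY z.1 ≠ 0} => prY z.1.1 :=
    continuous_prY.comp (continuous_subtype_val.comp continuous_subtype_val)
  have h0' : Continuous fun z : {z : Sph 7 // prY z.1 ≠ 0} => prC z.1.1 :=
    continuous_prC.comp (continuous_subtype_val.comp continuous_subtype_val)
  have h1 : Continuous fun z : {z : Sph 7 // prY z.1 ≠ 0} => ‖prY z.1.1‖⁻¹ :=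
    h0.norm.inv₀ fun z => norm_ne_zero_iff.2 z.2
  refine Continuous.prodMk (Continuous.subtype_mk (h1.smul h0) _) ?_
  exact (Complex.continuous_ofReal.comp h1).mul h0'

private theorem Ji_J (p : Sph 5 × ℂ) : Ji ⟨J p, prY_J_ne p⟩ = p := by
  have hs := sq_pos p.2
  apply Prod.ext
  · apply Subtype.ext
    show ‖prY (J p).1‖⁻¹ • prY (J p).1 = p.1.1
    rw [norm_prY_J, prY_J, smul_smul, inv_inv, mul_inv_cancel₀ hs.ne', one_smul]
  · show ((‖prY (J p).1‖⁻¹ : ℝ) : ℂ) * prC (J p).1 = p.2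
    rw [norm_prY_J, prC_J, ← mul_assoc, ← Complex.ofReal_mul, inv_inv, mul_inv_cancel₀ hs.ne',
      Complex.ofReal_one, one_mul]

private theorem J_Ji (z : {z : Sph 7 // prY z.1 ≠ 0}) : J (Ji z) = z.1 := by
  apply Subtype.ext
  have hn : 0 < ‖prY z.1.1‖ := norm_pos_iff.2 z.2
  have h1 : Real.sqrt (1 + ‖((‖prY z.1.1‖⁻¹ : ℝ) : ℂ) * prC z.1.1‖ ^ 2) = ‖prY z.1.1‖⁻¹ := by
    rw [Real.sqrt_eq_iff_mul_self_eq (by positivity) (inv_nonneg.2 hn.le), norm_mul,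
      Complex.norm_real, norm_inv, norm_norm]
    have h2 := norm_prY_sq z.1
    field_simp
    linarith
  show (Real.sqrt (1 + ‖((‖prY z.1.1‖⁻¹ : ℝ) : ℂ) * prC z.1.1‖ ^ 2))⁻¹ •
    jn (‖prY z.1.1‖⁻¹ • prY z.1.1) (((‖prY z.1.1‖⁻¹ : ℝ) : ℂ) * prC z.1.1) = z.1.1
  rw [h1, inv_inv, ← jn_smul, smul_smul, mul_inv_cancel₀ hn.ne', one_smul, jn_pr]

private noncomputable def Jh : Sph 5 × ℂ ≃ₜ {z : Sph 7 // prY z.1 ≠ 0} where
  toFun p := ⟨J p, prY_J_ne p⟩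
  invFun := Ji
  left_inv := Ji_J
  right_inv z := Subtype.ext (J_Ji z)
  continuous_toFun := continuous_J.subtype_mk _
  continuous_invFun := continuous_Ji

theorem isOpenEmbedding_J : IsOpenEmbedding J := by
  have h1 : IsOpen {z : Sph 7 | prY z.1 ≠ 0} :=
    isOpen_ne_fun (continuous_prY.comp continuous_subtype_val) continuous_const
  exact (IsOpen.isOpenEmbedding_subtypeVal h1).comp Jh.isOpenEmbedding

theorem range_J : range J = {z : Sph 7 | prY z.1 ≠ 0} := by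
  ext z
  constructor
  · rintro ⟨p, rfl⟩
    exact prY_J_ne p
  · intro hz
    exact ⟨Ji ⟨z, hz⟩, J_Ji ⟨z, hz⟩⟩

end Pool.Agent.Helper31.DS
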